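import Pool.Agent.Helper49.KL.Inw

/-! INNER DIRECTION for zooms in the coordinates of rows: volumes of the optimal forms, all degrees. `volCO` (helper7) of
the space at the conditions `A` equals the volume of the rows and the volume of the zoom at the conditions `B`. -/

set_option autoImplicit false

namespace Pool.Agent.Helper49.KL

open MvPolynomial Matrix Finset Filter Topology Pool.Agent.Helper69.RK Pool.Agent.Helper31.EC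
  Pool.Agent.Helper31.EC.Sp
open Pool.Agent.Helper40.EL Pool.Agent.Helper89.LX Pool.Agent.Helper3.LF Pool.Agent.Helper84.MT
open Pool.Agent.Helper26.BXD (Fm NG nsv Bcl)
open Pool.Agent.Helper14.MC (gx vx vol_eq vx_UB)
open Pool.Agent.Helper7.GZ (ZU Rows jac jac_mul)
open Pool.Agent.Helper7.RD (PZ RW upz clz PLe_upz volC volCO volC_eq volC_le_of volC_le_M volC_zero volCO_le volCO_bdd)
open Pool.Agent.Helper89.RAD (cnA)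

noncomputable section

variable {S : Sp} {M : ℕ}

/-- full volume in all degrees means no gain -/
theorem ng_of_volCO {C : LC S} {κ : Type} {A : κ → Part S} {X : S.VV M} (h : (M : ℝ) ≤ volCO C A X) : NG C X A := by
  intro D y hy
  have h1 := volC_le_of hy
  have h2 := (volCO_le (C := C) (A := A) (Q := X) D).trans h1
  rw [vol_eq] at h2
  linarith

/-- INNER DIRECTION, zoom without hull, volumes in all degrees -/
theorem volCO_ge_of_ng {Z : ZU S} {Q : S.VV M} (z : PZ Z Q M) {κ κ' : Type} [Finite κ'] {A : κ → Part S}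
    {B : κ' → Part Z.sp} {R : ∀ k, Setoid (S.F k).Ω} (hLX : LitP (Rz Z R) z.X)
    (hBA : ∀ j, ∃ i, PLe (upz Z (A i)) (B j)) (hN : NG (LC.kz (upz Z (fR R))) z.X B)
    (lam : ∀ k, (Z.l k).T.Ω → ℝ) (Cl : ℝ) (hlb : ∀ᶠ k in UF, ∀ ω, (Z.l k).T.μ ω ≠ 0 → |lam k ω| ≤ Cl)
    {K : ℕ → ℝ} (hK : S.Sub K) (hdet : Typ (S := Z.l.sp) (fun k (ω : (Z.l k).T.Ω) =>
      (1 + (jac (z.R.p k ω) (Q.v k ((Z.l k).p.π ω))).transpose * jac (z.R.p k ω) (Q.v k ((Z.l k).p.π ω))).det ≤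
        K k * 2 ^ (2 * lam k ω * (S.F k).n))) :
    M - ul (fun k => ∑ ω, (Z.l k).T.μ ω * lam k ω) ≤ volCO (LC.kz (fR R)) A Q := by
  have h1 : ∀ D : ℕ, 1 ≤ D → M - ul (fun k => ∑ ω, (Z.l k).T.μ ω * lam k ω) ≤ volC (LC.kz (fR R)) A Q D := by
    intro D hD
    obtain ⟨x, hx⟩ := (gaq Q D).exists_optfK (LC.kz (fR R)) A
    rw [volC_eq hx]
    exact vol_ge_of_ng z hLX hBA hN hD hx.1 lam Cl hlb hK hdet
  refine le_ciInf fun D => ?_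
  rcases Nat.eq_zero_or_pos D with h0 | h0
  · rw [h0, volC_zero]
    exact (h1 1 le_rfl).trans volC_le_M
  · exact h1 D h0

/-- INNER DIRECTION, windows of the zoom, volumes in all degrees -/
theorem volCO_ge_win {Z : ZU S} {Q : S.VV M} (z : PZ Z Q M) {κ κ' : Type} [Finite κ'] {A : κ → Part S}
    {B : κ' → Part Z.sp} {R : ∀ k, Setoid (S.F k).Ω} (hLX : LitP (Rz Z R) z.X)
    (hBA : ∀ j, ∃ i, PLe (upz Z (A i)) (B j))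
    {D₁ : ℕ} (hD₁ : 1 ≤ D₁) {y : ∀ k, FD (Z.sp.F k) (Mon M D₁)}
    (hy : (gaq z.X D₁).AdfK (LC.kz (upz Z (fR R))) B y)
    (hyO : vol z.X D₁ y ≤ volCO (LC.kz (upz Z (fR R))) B z.X)
    {u : ℝ} (hu : 0 < u) (hu1 : u ≤ 1) (hG : GrB z.X y u)
    (lam : ∀ k, (Z.l k).T.Ω → ℝ) (Cl : ℝ) (hlb : ∀ᶠ k in UF, ∀ ω, (Z.l k).T.μ ω ≠ 0 → |lam k ω| ≤ Cl)
    {K : ℕ → ℝ} (hK : S.Sub K)
    (h1 : Typ (S := Z.l.sp) (fun k (ω : (Z.l k).T.Ω) =>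
      (1 + (jac (z.R.p k ω) (Q.v k ((Z.l k).p.π ω))).transpose * jac (z.R.p k ω) (Q.v k ((Z.l k).p.π ω))).det ≤
        K k * (jac (z.R.p k ω) (Q.v k ((Z.l k).p.π ω))).det ^ 2))
    (h2 : Typ (S := Z.l.sp) (fun k (ω : (Z.l k).T.Ω) =>
      (jac (z.R.p k ω) (Q.v k ((Z.l k).p.π ω))).det ^ 2 ≤ K k * 2 ^ (2 * lam k ω * (S.F k).n))) :
    M - ul (fun k => ∑ ω, (Z.l k).T.μ ω * lam k ω) - Z.u * (M - volCO (LC.kz (upz Z (fR R))) B z.X) ≤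
      volCO (LC.kz (fR R)) A Q := by
  have hmin : ∀ (DD : ℕ) (y' : ∀ k, FD (Z.sp.F k) (Mon M DD)), (gaq z.X DD).AdfK (LC.kz (upz Z (fR R))) B y' →
      vol z.X D₁ y ≤ vol z.X DD y' := fun DD y' hy' => hyO.trans ((volCO_le DD).trans (volC_le_of hy'))
  have e1 : vol z.X D₁ y = volCO (LC.kz (upz Z (fR R))) B z.X :=
    le_antisymm hyO ((volCO_le D₁).trans (volC_le_of hy))
  rw [← e1]
  have h3 : ∀ D : ℕ, 1 ≤ D → M - ul (fun k => ∑ ω, (Z.l k).T.μ ω * lam k ω) - Z.u * (M - vol z.X D₁ y) ≤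
      volC (LC.kz (fR R)) A Q D := by
    intro D hD
    obtain ⟨x, hx⟩ := (gaq Q D).exists_optfK (LC.kz (fR R)) A
    rw [volC_eq hx]
    exact vol_ge_win z hLX hBA hD₁ hy hmin hu hu1 hG hD hx.1 lam Cl hlb hK h1 h2
  refine le_ciInf fun D => ?_
  rcases Nat.eq_zero_or_pos D with h0 | h0
  · rw [h0, volC_zero]
    exact (h3 1 le_rfl).trans volC_le_M
  · exact h3 D h0

/-- VOLUMES OF THE ZOOM AND OF THE SPACE, all degrees: EQUALITY -/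
theorem volCO_eq_win {Z : ZU S} {Q : S.VV M} (z : PZ Z Q M) {κ κ' : Type} [Finite κ] [Finite κ'] {A : κ → Part S}
    {B : κ' → Part Z.sp} {R : ∀ k, Setoid (S.F k).Ω} (hLX : LitP (Rz Z R) z.X) (hl : Z.l.DMf A)
    (hlR : (LC.kz (fR R)).ev Z.l) (hAB : ∀ i, ∃ j, PLe (B j) (upz Z (A i))) (hBA : ∀ j, ∃ i, PLe (upz Z (A i)) (B j))
    {D₁ : ℕ} (hD₁ : 1 ≤ D₁) {y : ∀ k, FD (Z.sp.F k) (Mon M D₁)}
    (hy : (gaq z.X D₁).AdfK (LC.kz (upz Z (fR R))) B y)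
    (hyO : vol z.X D₁ y ≤ volCO (LC.kz (upz Z (fR R))) B z.X)
    {u : ℝ} (hu : 0 < u) (hu1 : u ≤ 1) (hG : GrB z.X y u)
    (lam : ∀ k, (Z.l k).T.Ω → ℝ) (Cl : ℝ) (hlb : ∀ᶠ k in UF, ∀ ω, (Z.l k).T.μ ω ≠ 0 → |lam k ω| ≤ Cl)
    {K : ℕ → ℝ} (hK : S.Sub K)
    (h1 : Typ (S := Z.l.sp) (fun k (ω : (Z.l k).T.Ω) =>
      (1 + (jac (z.R.p k ω) (Q.v k ((Z.l k).p.π ω))).transpose * jac (z.R.p k ω) (Q.v k ((Z.l k).p.π ω))).det ≤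
        K k * (jac (z.R.p k ω) (Q.v k ((Z.l k).p.π ω))).det ^ 2))
    (h2 : Typ (S := Z.l.sp) (fun k (ω : (Z.l k).T.Ω) =>
      (jac (z.R.p k ω) (Q.v k ((Z.l k).p.π ω))).det ^ 2 ≤ K k * 2 ^ (2 * lam k ω * (S.F k).n)))
    (h3 : Typ (S := Z.l.sp) (fun k (ω : (Z.l k).T.Ω) =>
      2 ^ (2 * lam k ω * (S.F k).n) ≤ K k * (jac (z.R.p k ω) (Q.v k ((Z.l k).p.π ω))).det ^ 2)) :
    volCO (LC.kz (fR R)) A Q =
      M - ul (fun k => ∑ ω, (Z.l k).T.μ ω * lam k ω) - Z.u * (M - volCO (LC.kz (upz Z (fR R))) B z.X) :=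
  le_antisymm (z.volCO_le hl hAB hlR lam Cl hlb K hK h3)
    (volCO_ge_win z hLX hBA hD₁ hy hyO hu hu1 hG lam Cl hlb hK h1 h2)

/-! ### the deep zoom of a system -/

variable {E : ℕ → ℕ} {ι : Type} [Finite ι]

/-- THE DEEP ZOOM IN THE COORDINATES OF ROWS, every window `b ≥ 0`: volumes of K-labels, all degrees -/
theorem volCO_eq_rw {s : MSys S M E ι} (z : RW s M) {R : ∀ k, Setoid (S.F k).Ω} (hLX : LitP (Rz z.Z R) z.X)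
    (hlR : (LC.kz (fR R)).ev z.Z.l) {b : ℝ} (hb : 0 ≤ b) {D₁ : ℕ} (hD₁ : 1 ≤ D₁)
    {y : ∀ k, FD (z.Z.sp.F k) (Mon M D₁)}
    (hy : (gaq z.sys.Q D₁).AdfK (LC.kz (fR (Rz z.Z R))) (cnA z.sys (fR (Rz z.Z R)) b) y)
    (hyO : vol z.sys.Q D₁ y ≤ volCO (LC.kz (fR (Rz z.Z R))) (cnA z.sys (fR (Rz z.Z R)) b) z.sys.Q)
    {u : ℝ} (hu : 0 < u) (hu1 : u ≤ 1) (hG : GrB z.sys.Q y u)
    (lam : ∀ k, (z.Z.l k).T.Ω → ℝ) (Cl : ℝ) (hlb : ∀ᶠ k in UF, ∀ ω, (z.Z.l k).T.μ ω ≠ 0 → |lam k ω| ≤ Cl)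
    {K : ℕ → ℝ} (hK : S.Sub K)
    (h1 : Typ (S := z.Z.l.sp) (fun k (ω : (z.Z.l k).T.Ω) =>
      (1 + (jac (z.R.p k ω) (s.Q.v k ((z.Z.l k).p.π ω))).transpose * jac (z.R.p k ω) (s.Q.v k ((z.Z.l k).p.π ω))).det ≤
        K k * (jac (z.R.p k ω) (s.Q.v k ((z.Z.l k).p.π ω))).det ^ 2))
    (h2 : Typ (S := z.Z.l.sp) (fun k (ω : (z.Z.l k).T.Ω) =>
      (jac (z.R.p k ω) (s.Q.v k ((z.Z.l k).p.π ω))).det ^ 2 ≤ K k * 2 ^ (2 * lam k ω * (S.F k).n)))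
    (h3 : Typ (S := z.Z.l.sp) (fun k (ω : (z.Z.l k).T.Ω) =>
      2 ^ (2 * lam k ω * (S.F k).n) ≤ K k * (jac (z.R.p k ω) (s.Q.v k ((z.Z.l k).p.π ω))).det ^ 2)) :
    volCO (LC.kz (fR R)) (cnA s (fR R) (z.Z.c + z.Z.u * b)) s.Q =
      M - ul (fun k => ∑ ω, (z.Z.l k).T.μ ω * lam k ω) -
        z.Z.u * (M - volCO (LC.kz (fR (Rz z.Z R))) (cnA z.sys (fR (Rz z.Z R)) b) z.sys.Q) := by
  have hA : Nul S fun k => (z.Z.l k).leak (fR R k) := LC.kz_nul hlR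
  exact volCO_eq_win (κ := Option ι) (κ' := Option ι) z.pz (A := cnA s (fR R) (z.Z.c + z.Z.u * b))
    (B := cnA z.sys (fR (Rz z.Z R)) b) hLX (z.dmA' hA hb) hlR
    (fun i => ⟨i, z.cnA_up (A := fR R) (PLe.refl _) hb i⟩) (fun i => ⟨i, z.up_cnA (A := fR R) (PLe.refl _) b i⟩)
    hD₁ hy hyO hu hu1 hG lam Cl hlb hK h1 h2 h3

end

end Pool.Agent.Helper49.KL
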