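import Pool.Agent.Helper49.KL.Lit
import Pool.Agent.Helper33.LIT.Kap
import Pool.Agent.Helper84.MT.Evt

/-! LITERAL K-LABELS, part 3: literal labels with literal forms on events of extensions; RIGIDITY: if no event has
better scores (informations) of K-labels, then the literal canonical form (the literal maximal K-label) is canonical
(maximal) on every event of every extension. -/

set_option autoImplicit false

namespace Pool.Agent.Helper49.KL

open Finset Filter Topology Matrix Pool.Agent.Helper69.RK Pool.Agent.Helper31.EC Pool.Agent.Helper31.EC.Sp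
open Pool.Agent.Helper40.EL Pool.Agent.Helper33.LIT Pool.Agent.Helper89.LX Pool.Agent.Helper84.MT

noncomputable section

variable {S T : Sp} {ι : Type}

/-- literal labels with literal forms -/
structure LF (S : Sp) (ι : Type) where
  Z : ∀ k, Setoid (S.F k).Ω
  G : ∀ k, (S.F k).Ω → Matrix ι ι ℝ
  meas : ∀ k ω ω', (S.F k).μ ω ≠ 0 → (S.F k).μ ω' ≠ 0 → Z k ω ω' → (S.F k).Z ω ω' → G k ω = G k ω'

namespace LF

variable (L : LF S ι)

/-- the label with forms -/
def fd : ∀ k, FD (S.F k) ι := fun k => {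
  l := Lab.ofZ L.Z k
  g := L.G k
  g' := L.G k
  meas := fun ω ω' a b c d => ⟨L.meas k ω ω' a b c d, L.meas k ω ω' a b c d⟩ }

/-- the same label on an extension -/
def px (p : Pj T S) : ∀ k, FD (S.F k) ι := fun k => {
  l := ⟨T.F k, p.fp k, p.hn k, Setoid.comap (p.π k) (L.Z k)⟩
  g := fun ω => L.G k (p.π k ω)
  g' := fun ω => L.G k (p.π k ω)
  meas := fun ω ω' a b c d => by
    have h1 := L.meas k _ _ ((p.fp k).supp ω a) ((p.fp k).supp ω' b) c (((p.fp k).hZ ω ω' a b).mp d)
    exact ⟨h1, h1⟩ }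

/-- restriction to an event of an extension -/
def im (p : Pj T S) (E : ∀ k, (T.F k).Ω → Prop) : LF (Sp.im p E) ι where
  Z := L.Z
  G := L.G
  meas := fun k ω ω' a b c d =>
    L.meas k ω ω' (FSp.im_supp (p.fp k) (E k) ω a) (FSp.im_supp (p.fp k) (E k) ω' b) c d

theorem px_leak (p : Pj T S) (k : ℕ) (a : FL (S.F k)) : (L.px p k).l.leak a = (L.fd k).l.leak a := by
  rw [leak_lit (l := lbS (L.px p)) (Z := L.Z) (k := k) rfl, leak_lit (l := lbS L.fd) (Z := L.Z) (k := k) rfl]

theorem px_sc [Fintype ι] [DecidableEq ι] (p : Pj T S) (k : ℕ) : (L.px p k).sc = (L.fd k).sc :=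
  sum_push (p.fp k) (fun ω => Real.logb 2 (L.G k ω).det)

section
variable [Fintype ι] [DecidableEq ι] (Φ : Gau S ι) {κ : Type} {A : κ → Part S}

theorem px_adf (h : Φ.Adf A L.fd) (p : Pj T S) : Φ.Adf A (L.px p) := by
  intro η hη
  filter_upwards [h η hη] with k hk
  obtain ⟨h1, h2, h3, _⟩ := hk
  have h5 : (L.px p k).l.T.pb (fun ω => ¬ Φ.φ k ((L.px p k).l.p.π ω) ((L.px p k).g ω) ≤ 2 ^ (η * (S.F k).n)) ≤ η := by
    have e := pb_push (p.fp k) (fun ω => ¬ Φ.φ k ω (L.G k ω) ≤ 2 ^ (η * (S.F k).n))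
    exact e.le.trans h3
  refine ⟨fun i => ?_, fun ω hω => ?_, h5, h5⟩
  · rw [L.px_leak]
    exact h1 i
  · have h6 := (h2 (p.π k ω) ((p.fp k).supp ω hω)).1
    exact ⟨h6, h6⟩

variable {p : Pj T S} {E : ∀ k, (T.F k).Ω → Prop}

omit [Fintype ι] [DecidableEq ι] in
theorem re_leak (k : ℕ) (a : FL ((Sp.im p E).F k)) :
    (reS (L.px p) E k).l.leak a = ((L.im p E).fd k).l.leak a := by
  have h1 := leak_lit (S := Sp.im p E) (l := lbS (reS (L.px p) E)) (Z := L.Z) (k := k) rfl a
  have h2 := leak_lit (S := Sp.im p E) (l := lbS (L.im p E).fd) (Z := L.Z) (k := k) rfl a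
  exact h1.trans h2.symm

theorem re_sc (k : ℕ) : (reS (L.px p) E k).sc = ((L.im p E).fd k).sc :=
  sum_push (FSp.imp (p.fp k) (E k)) (fun ω => Real.logb 2 (L.G k ω).det)

theorem im_adf [Finite κ] (h : Φ.Adf A L.fd) (hE : 0 < ul (T.pr E)) :
    (Φ.im p E).Adf (fun i => (A i).im p E) (L.im p E).fd := by
  have h0 := Gau.Adf.re (L.px_adf Φ h p) E hE
  intro η hη
  filter_upwards [h0 η hη, h η hη] with k hk hk'
  obtain ⟨h1, h2, h3, _⟩ := hk
  have h5 : ((L.im p E).fd k).l.T.pb (fun ω => ¬ (Φ.im p E).φ k (((L.im p E).fd k).l.p.π ω)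
      (((L.im p E).fd k).g ω) ≤ 2 ^ (η * ((Sp.im p E).F k).n)) ≤ η := by
    have e := pb_push (FSp.imp (p.fp k) (E k)) (fun ω => ¬ Φ.φ k ω (L.G k ω) ≤ 2 ^ (η * (S.F k).n))
    exact e.symm.le.trans h3
  refine ⟨fun i => ?_, fun ω hω => ?_, h5, h5⟩
  · have h6 := L.re_leak (p := p) (E := E) k ((A i).im p E k)
    exact h6.symm.le.trans (h1 i)
  · have h6 := (hk'.2.1 ω (FSp.im_supp (p.fp k) (E k) ω hω)).1
    exact ⟨h6, h6⟩

/-- the score of a literal form is additive over events -/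
theorem sc_im (k : ℕ) : (L.fd k).sc = (T.F k).pb (E k) * ((L.im p E).fd k).sc +
    (1 - (T.F k).pb (E k)) * ((L.im p fun k ω => ¬ E k ω).fd k).sc := by
  have h1 := reS_sc (L.px p) E k
  rw [L.px_sc, L.re_sc] at h1
  have h2 := L.re_sc (p := p) (E := fun k ω => ¬ E k ω) k
  have h3 : ((L.px p k).l.T.pb (E k)) = (T.F k).pb (E k) := rfl
  rw [h1, ← h2]
  rfl

end

end LF

/-! ### rigidity -/

theorem avg_eq {v v1 v2 e : ℝ} (he : 0 < e) (he1 : e ≤ 1) (h : v = e * v1 + (1 - e) * v2) (h1 : v1 ≤ v)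
    (h2 : e < 1 → v2 ≤ v) : v1 = v := by
  rcases he1.eq_or_lt with h3 | h3
  · rw [h3] at h
    linarith
  · have h4 := h2 h3
    have h5 : (1 - e) * v2 ≤ (1 - e) * v := mul_le_mul_of_nonneg_left h4 (by linarith)
    have h6 : e * v ≤ e * v1 := by nlinarith
    exact le_antisymm h1 (le_of_mul_le_mul_left h6 he)

variable {R : ∀ k, Setoid (S.F k).Ω} {p : Pj T S} {E : ∀ k, (T.F k).Ω → Prop}

/-- a literal label without leak at `R` has no leak at `R` on events of extensions -/
theorem kz_im {Z : ∀ k, Setoid (S.F k).Ω} (h : (LC.kz fun k => fc (R k)).ev (Lab.ofZ Z)) :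
    (LC.kz (S := Sp.im p E) fun k => fc (F := (Sp.im p E).F k) (R k)).ev (Lab.ofZ (S := Sp.im p E) Z) := by
  filter_upwards [h] with k hk
  have h1 : ((Lab.ofZ Z) k).leak (fc (R k)) = 0 := hk
  rw [Lab.ofZ_leak Z (fun k => fc (R k)) k] at h1
  have h2 := h_eq_zero_iff.mp h1
  have h3 := FSp.imap_mono (p.fp k) (E k) h2
  show ((Lab.ofZ (S := Sp.im p E) Z) k).leak (fc (F := (Sp.im p E).F k) (R k)) = 0
  rw [Lab.ofZ_leak (S := Sp.im p E) Z (fun k => fc (F := (Sp.im p E).F k) (R k)) k]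
  exact h_zero h3

namespace LF

variable [Fintype ι] [DecidableEq ι] {Φ : Gau S ι} {κ : Type} {A : κ → Part S} {L : LF S ι}

theorem im_adfK [Finite κ] (h : Φ.AdfK (LC.kz fun k => fc (R k)) A L.fd) (hE : 0 < ul (T.pr E)) :
    (Φ.im p E).AdfK (LC.kz (S := Sp.im p E) fun k => fc (F := (Sp.im p E).F k) (R k)) (fun i => (A i).im p E)
      (L.im p E).fd :=
  ⟨L.im_adf Φ h.1 hE, kz_im h.2⟩

/-- RIGIDITY, forms: if K-forms have no better scores on `E` and on its complement, the literal canonical form is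
canonical on `E`, with the same score -/
theorem im_optK [Finite κ] (hx : Φ.OptfK (LC.kz fun k => fc (R k)) A L.fd) (hE : 0 < ul (T.pr E))
    (h1 : ∀ y, (Φ.im p E).AdfK (LC.kz (S := Sp.im p E) fun k => fc (F := (Sp.im p E).F k) (R k))
      (fun i => (A i).im p E) y → ul (fun k => (y k).sc / (S.F k).n) ≤ ul (fun k => (L.fd k).sc / (S.F k).n))
    (h2 : 0 < ul (T.pr fun k ω => ¬ E k ω) → ∀ y, (Φ.im p fun k ω => ¬ E k ω).AdfK
      (LC.kz (S := Sp.im p fun k ω => ¬ E k ω) fun k => fc (F := (Sp.im p fun k ω => ¬ E k ω).F k) (R k))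
      (fun i => (A i).im p fun k ω => ¬ E k ω) y →
      ul (fun k => (y k).sc / (S.F k).n) ≤ ul (fun k => (L.fd k).sc / (S.F k).n)) :
    (Φ.im p E).OptfK (LC.kz (S := Sp.im p E) fun k => fc (F := (Sp.im p E).F k) (R k)) (fun i => (A i).im p E)
      (L.im p E).fd ∧
      ul (fun k => ((L.im p E).fd k).sc / (S.F k).n) = ul (fun k => (L.fd k).sc / (S.F k).n) := by
  have a1 := L.im_adfK (p := p) (E := E) hx.1 hE
  set e := ul (T.pr E) with he
  have tE : Tendsto (T.pr E) UF (𝓝 e) := ul_tendsto (UB_pr E)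
  have he1 : e ≤ 1 := ul_le_const (UB_pr E) (Eventually.of_forall fun k => pr_le_one E k)
  have hn : ∀ k, 0 < (S.F k).n := fun k => (S.F k).pos
  -- bounds of the scores off `E`
  have b2 : ∀ᶠ k in UF, 0 ≤ ((L.im p fun k ω => ¬ E k ω).fd k).sc / (S.F k).n ∧
      ((L.im p fun k ω => ¬ E k ω).fd k).sc / (S.F k).n ≤ Fintype.card ι * (Φ.C + 1) := by
    filter_upwards [hx.1.1 1 one_pos] with k hk
    constructor
    · apply div_nonneg _ (hn k).le
      unfold FD.sc
      apply Finset.sum_nonneg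
      intro ω _
      by_cases h0 : ((L.im p fun k ω => ¬ E k ω).fd k).l.T.μ ω = 0
      · rw [h0, zero_mul]
      · have h3 := (hk.2.1 ω (FSp.im_supp (p.fp k) (fun ω => ¬ E k ω) ω h0)).1
        exact mul_nonneg (((L.im p fun k ω => ¬ E k ω).fd k).l.T.nn ω) (logdet_nonneg h3)
    · rw [div_le_iff₀ (hn k)]
      unfold FD.sc
      apply sum_mul_le (F := ((L.im p fun k ω => ¬ E k ω).fd k).l.T)
      intro ω h0
      have h3 := (hk.2.1 ω (FSp.im_supp (p.fp k) (fun ω => ¬ E k ω) ω h0)).1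
      have h4 := logdet_le (Φ.one_le_cp k) h3
      rw [Φ.logb_cp] at h4
      have h5 : ((L.im p fun k ω => ¬ E k ω).fd k).g ω = L.G k ω := rfl
      have h6 : (L.fd k).g ω = L.G k ω := rfl
      rw [h5]
      rw [h6] at h4
      linarith
  have u1 := (Φ.im p E).sc_UBf a1.1
  have u1' : UB (fun k => ((L.im p E).fd k).sc / (S.F k).n) := u1
  have u2 : UB (fun k => ((L.im p fun k ω => ¬ E k ω).fd k).sc / (S.F k).n) := by
    apply UB_of_nonneg_le (C := Fintype.card ι * (Φ.C + 1))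
    · filter_upwards [b2] with k hk using hk.1
    · filter_upwards [b2] with k hk using hk.2
  have hsplit : ul (fun k => (L.fd k).sc / (S.F k).n) = e * ul (fun k => ((L.im p E).fd k).sc / (S.F k).n) +
      (1 - e) * ul (fun k => ((L.im p fun k ω => ¬ E k ω).fd k).sc / (S.F k).n) := by
    apply ul_eq
    have t := (tE.mul (ul_tendsto u1')).add ((tE.const_sub 1).mul (ul_tendsto u2))
    refine t.congr fun k => ?_
    have h3 := L.sc_im (p := p) (E := E) k
    show (T.F k).pb (E k) * (((L.im p E).fd k).sc / (S.F k).n) +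
      (1 - (T.F k).pb (E k)) * (((L.im p fun k ω => ¬ E k ω).fd k).sc / (S.F k).n) = _
    rw [h3]
    ring
  have hv1 : ul (fun k => ((L.im p E).fd k).sc / (S.F k).n) = ul (fun k => (L.fd k).sc / (S.F k).n) := by
    refine avg_eq hE he1 hsplit (h1 _ a1) fun h3 => ?_
    have h4 : 0 < ul (T.pr fun k ω => ¬ E k ω) := by
      rw [ul_not]
      linarith
    exact h2 h4 _ (L.im_adfK (p := p) (E := fun k ω => ¬ E k ω) hx.1 h4)
  refine ⟨⟨a1, fun y hy => ?_⟩, hv1⟩
  exact (h1 y hy).trans hv1.ge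

end LF

/-- RIGIDITY, informations: if K-labels have no larger informations on `E` and on its complement, the literal maximal
K-label is maximal on `E`, with the same information -/
theorem im_maxK {κ : Type} {A : κ → Part S} {Z : ∀ k, Setoid (S.F k).Ω}
    (hm : Lab.IsMaxK (LC.kz fun k => fc (R k)) (Lab.ofZ Z) A) {i : κ} (hA : (A i).Bd) (hE : 0 < ul (T.pr E))
    (hA₂ : ((A i).im p fun k ω => ¬ E k ω).Bd)
    (h1 : ∀ y : Lab (Sp.im p E), y.DMf (fun i => (A i).im p E) →
      (LC.kz (S := Sp.im p E) fun k => fc (F := (Sp.im p E).F k) (R k)).ev y → y.info ≤ (Lab.ofZ Z).info)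
    (h2 : 0 < ul (T.pr fun k ω => ¬ E k ω) → ∀ y : Lab (Sp.im p fun k ω => ¬ E k ω),
      y.DMf (fun i => (A i).im p fun k ω => ¬ E k ω) → (LC.kz (S := Sp.im p fun k ω => ¬ E k ω) fun k =>
        fc (F := (Sp.im p fun k ω => ¬ E k ω).F k) (R k)).ev y → y.info ≤ (Lab.ofZ Z).info) :
    Lab.IsMaxK (LC.kz (S := Sp.im p E) fun k => fc (F := (Sp.im p E).F k) (R k)) (Lab.ofZ (S := Sp.im p E) Z)
      (fun i => (A i).im p E) ∧ (Lab.ofZ (S := Sp.im p E) Z).info = (Lab.ofZ Z).info := by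
  have i0 : ∀ k, ((onx p Z) k).info = ((Lab.ofZ Z) k).info := fun k =>
    (info_lit (l := onx p Z) (Z := Z) rfl).trans (info_lit (l := Lab.ofZ Z) (Z := Z) rfl).symm
  have i1 : ∀ k, ((onx p Z).im E k).info = ((Lab.ofZ (S := Sp.im p E) Z) k).info := fun k =>
    (info_lit (S := Sp.im p E) (l := (onx p Z).im E) (Z := Z) (k := k) rfl).trans
      (info_lit (S := Sp.im p E) (l := Lab.ofZ (S := Sp.im p E) Z) (Z := Z) (k := k) rfl).symm
  have hd : ∀ (E : ∀ k, (T.F k).Ω → Prop), 0 < ul (T.pr E) →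
      (Lab.ofZ (S := Sp.im p E) Z).DMf (fun i => (A i).im p E) := by
    intro E hE j
    have h3 : (onx p Z).DMf A := by
      intro j
      have e : (fun k => ((onx p Z) k).leak (A j k)) = fun k => ((Lab.ofZ Z) k).leak (A j k) := by
        funext k
        exact (leak_lit (l := onx p Z) (Z := Z) (k := k) rfl (A j k)).trans
          (leak_lit (l := Lab.ofZ Z) (Z := Z) (k := k) rfl (A j k)).symm
      rw [e]
      exact hm.1 j
    have h4 := h3.im E hE j
    have e : (fun k => ((Lab.ofZ (S := Sp.im p E) Z) k).leak ((A j).im p E k)) =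
        fun k => ((onx p Z).im E k).leak ((A j).im p E k) := by
      funext k
      exact (leak_lit (S := Sp.im p E) (l := Lab.ofZ (S := Sp.im p E) Z) (Z := Z) (k := k) rfl ((A j).im p E k)).trans
        (leak_lit (S := Sp.im p E) (l := (onx p Z).im E) (Z := Z) (k := k) rfl ((A j).im p E k)).symm
    rw [e]
    exact h4
  set e := ul (T.pr E) with he
  have tE : Tendsto (T.pr E) UF (𝓝 e) := ul_tendsto (UB_pr E)
  have he1 : e ≤ 1 := ul_le_const (UB_pr E) (Eventually.of_forall fun k => pr_le_one E k)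
  have hn : ∀ k, 0 < (S.F k).n := fun k => (S.F k).pos
  have d1 := hd E hE
  have u0 := hm.1.ub hA
  have u1 := d1.ub (i := i) (hA.im p hE)
  have u1' : UB (fun k => ((Lab.ofZ (S := Sp.im p E) Z) k).info / (S.F k).n) := u1
  have hv : (Lab.ofZ (S := Sp.im p E) Z).info = (Lab.ofZ Z).info := by
    refine le_antisymm (h1 _ d1 (kz_im hm.2.1)) ?_
    rcases he1.eq_or_lt with h3 | h3
    · -- typical events
      have hp' : Tendsto (fun k => 1 - T.pr E k) UF (𝓝 0) := by
        have := tE.const_sub 1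
        rwa [h3, sub_self] at this
      have hr : ∀ k, (1 - (T.F k).pb (E k)) * (((onx p Z) k).im fun ω => ¬ E k ω).info ≤
          (1 - (T.F k).pb (E k)) * H (FSp.imap ((onx p Z) k).p (fun ω => ¬ E k ω) (A i k)) +
            (((Lab.ofZ Z) k).leak (A i k) + 1) := by
        intro k
        have a1 := FLab.info_le (((onx p Z) k).im fun ω => ¬ E k ω)
          (FSp.imap ((onx p Z) k).p (fun ω => ¬ E k ω) (A i k))
        have a2 := ((onx p Z) k).im_leak (fun ω => ¬ E k ω) (A i k)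
        have a3 : ((onx p Z) k).T.pb (fun ω => ¬ E k ω) = 1 - (T.F k).pb (E k) := by
          have := (T.F k).pb_add_compl (E k)
          show (T.F k).pb (fun ω => ¬ E k ω) = _
          linarith
        rw [a3, leak_lit (l := onx p Z) (Z := Z) (k := k) rfl, ← leak_lit (l := Lab.ofZ Z) (Z := Z) (k := k) rfl] at a2
        have a4 : 0 ≤ 1 - (T.F k).pb (E k) := sub_nonneg.mpr ((T.F k).pb_le_one (E k))
        have a5 := mul_le_mul_of_nonneg_left a1 a4
        rw [mul_add] at a5
        linarith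
      have t : Tendsto (fun k => T.pr E k * (((Lab.ofZ (S := Sp.im p E) Z) k).info / (S.F k).n) +
          ((1 - T.pr E k) * (H (FSp.imap ((onx p Z) k).p (fun ω => ¬ E k ω) (A i k)) / (S.F k).n) +
            (((Lab.ofZ Z) k).leak (A i k) / (S.F k).n + 1 / (S.F k).n)) + 1 / (S.F k).n) UF
          (𝓝 (e * (Lab.ofZ (S := Sp.im p E) Z).info +
            (0 * ul (fun k => H (FSp.imap ((onx p Z) k).p (fun ω => ¬ E k ω) (A i k)) / (S.F k).n) +
            (0 + 0)) + 0)) :=
        ((tE.mul (ul_tendsto u1')).add ((hp'.mul (ul_tendsto hA₂)).add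
          (Filter.Tendsto.add (hm.1 i) (S.div_n_tendsto 1)))).add (S.div_n_tendsto 1)
      rw [h3] at t
      simp only [one_mul, zero_mul, add_zero] at t
      refine le_of_tendsto_of_tendsto (ul_tendsto u0) t (Eventually.of_forall fun k => ?_)
      have a1 := (((onx p Z) k).im_info (E k)).1
      have a2 := hr k
      have a3 : (((onx p Z) k).im (E k)).info = ((Lab.ofZ (S := Sp.im p E) Z) k).info := i1 k
      rw [i0 k, a3] at a1
      have a4 : ((Lab.ofZ Z) k).info ≤ (T.F k).pb (E k) * ((Lab.ofZ (S := Sp.im p E) Z) k).info +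
          ((1 - (T.F k).pb (E k)) * H (FSp.imap ((onx p Z) k).p (fun ω => ¬ E k ω) (A i k)) +
            (((Lab.ofZ Z) k).leak (A i k) + 1)) + 1 := a1.trans (by
              have a5 : ((onx p Z) k).T.pb (E k) = (T.F k).pb (E k) := rfl
              rw [a5]
              linarith)
      have a6 := div_le_div_of_nonneg_right a4 (hn k).le
      refine a6.trans (le_of_eq ?_)
      show _ = (T.F k).pb (E k) * _ + _ + _
      have a7 : T.pr E k = (T.F k).pb (E k) := rfl
      rw [a7]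
      ring
    · -- positive complement
      have hE' : 0 < ul (T.pr fun k ω => ¬ E k ω) := by
        rw [ul_not]
        linarith
      have d2 := hd (fun k ω => ¬ E k ω) hE'
      have u2 := d2.ub (i := i) (hA.im p hE')
      have u2' : UB (fun k => ((Lab.ofZ (S := Sp.im p fun k ω => ¬ E k ω) Z) k).info / (S.F k).n) := u2
      have t : Tendsto (fun k => T.pr E k * (((Lab.ofZ (S := Sp.im p E) Z) k).info / (S.F k).n) +
          (1 - T.pr E k) * (((Lab.ofZ (S := Sp.im p fun k ω => ¬ E k ω) Z) k).info / (S.F k).n) + 1 / (S.F k).n) UF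
          (𝓝 (e * (Lab.ofZ (S := Sp.im p E) Z).info + (1 - e) *
            (Lab.ofZ (S := Sp.im p fun k ω => ¬ E k ω) Z).info + 0)) :=
        ((tE.mul (ul_tendsto u1')).add ((tE.const_sub 1).mul (ul_tendsto u2'))).add (S.div_n_tendsto 1)
      have h4 : (Lab.ofZ Z).info ≤ e * (Lab.ofZ (S := Sp.im p E) Z).info + (1 - e) *
            (Lab.ofZ (S := Sp.im p fun k ω => ¬ E k ω) Z).info + 0 := by
        refine le_of_tendsto_of_tendsto (ul_tendsto u0) t (Eventually.of_forall fun k => ?_)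
        have a1 := (((onx p Z) k).im_info (E k)).1
        have a3 : (((onx p Z) k).im (E k)).info = ((Lab.ofZ (S := Sp.im p E) Z) k).info := i1 k
        have a3' : (((onx p Z) k).im fun ω => ¬ E k ω).info =
            ((Lab.ofZ (S := Sp.im p fun k ω => ¬ E k ω) Z) k).info :=
          (info_lit (S := Sp.im p fun k ω => ¬ E k ω) (l := (onx p Z).im fun k ω => ¬ E k ω) (Z := Z) (k := k)
            rfl).trans (info_lit (S := Sp.im p fun k ω => ¬ E k ω)
              (l := Lab.ofZ (S := Sp.im p fun k ω => ¬ E k ω) Z) (Z := Z) (k := k) rfl).symm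
        rw [i0 k, a3, a3'] at a1
        have a6 := div_le_div_of_nonneg_right a1 (hn k).le
        refine a6.trans (le_of_eq ?_)
        show ((T.F k).pb (E k) * _ + (1 - (T.F k).pb (E k)) * _ + 1) / (S.F k).n =
          (T.F k).pb (E k) * _ + (1 - (T.F k).pb (E k)) * _ + _
        ring
      have h5 := h2 hE' _ d2 (kz_im hm.2.1)
      have h6 : (1 - e) * (Lab.ofZ (S := Sp.im p fun k ω => ¬ E k ω) Z).info ≤ (1 - e) * (Lab.ofZ Z).info :=
        mul_le_mul_of_nonneg_left h5 (by linarith)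
      have h7 : e * (Lab.ofZ Z).info ≤ e * (Lab.ofZ (S := Sp.im p E) Z).info := by nlinarith
      exact le_of_mul_le_mul_left h7 hE
  refine ⟨⟨d1, kz_im hm.2.1, fun y hy hK => ?_⟩, hv⟩
  exact (h1 y hy hK).trans hv.ge

end

end Pool.Agent.Helper49.KL
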