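import Pool.Agent.Helper49.KL.Rel
import Pool.Agent.Helper84.MT.Evt

/-! THE CORE OF THE INNER DIRECTION OF ZOOMS IN ROWS. `p` are `M` polynomials in the `M` coordinates of the point `q`,
known to a partition `V`; the point `X = p (q)` has no small values: every polynomial in `X` of norm one (of any degree)
which is known to `V` is typically at least `2 ^ (-δ n)` at `X`. THEN every polynomial in `q`, of any degree, which is
known to `V` and is tame on the cell of `q`, has a gradient bounded by the gradients of `p`. -/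

set_option autoImplicit false

namespace Pool.Agent.Helper49.KL

open Finset Filter Topology MvPolynomial Pool.Agent.Helper77.WDG Pool.Agent.Helper69.RK Pool.Agent.Helper31.EC
open Pool.Agent.Helper31.EC.Sp

noncomputable section

variable {S : Sp} {M : ℕ}

/-! ### events -/

theorem pr_zero_of_not {B : ∀ k, (S.F k).Ω → Prop} (h : ¬ 0 < ul (S.pr B)) : Tendsto (S.pr B) UF (𝓝 0) := by
  have h1 := ul_tendsto (UB_pr (S := S) B)
  have h2 : 0 ≤ ul (S.pr B) := ge_of_tendsto h1 (Eventually.of_forall fun k => pr_nonneg B k)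
  have h3 : ul (S.pr B) = 0 := le_antisymm (not_lt.mp h) h2
  rwa [h3] at h1

/-- pigeonhole -/
theorem exists_fin_pos {N : ℕ} {B : ∀ k, (S.F k).Ω → Prop} {A : ℕ → ∀ k, (S.F k).Ω → Prop} (hB : 0 < ul (S.pr B))
    (h : ∀ᶠ k in UF, ∀ ω, (S.F k).μ ω ≠ 0 → B k ω → ∃ j, j < N ∧ A j k ω) : ∃ j, j < N ∧ 0 < ul (S.pr (A j)) := by
  classical
  by_contra hn
  push Not at hn
  have h1 : Tendsto (fun k => ∑ j ∈ Finset.range N, S.pr (A j) k) UF (𝓝 (∑ _j ∈ Finset.range N, (0 : ℝ))) :=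
    tendsto_finsetSum _ fun j hj => pr_zero_of_not (not_lt.mpr (hn j (Finset.mem_range.mp hj)))
  rw [Finset.sum_const_zero] at h1
  have h2 : ∀ᶠ k in UF, S.pr B k ≤ ∑ j ∈ Finset.range N, S.pr (A j) k := by
    filter_upwards [h] with k hk
    have e1 : ∀ E : (S.F k).Ω → Prop, (S.F k).pb E = ∑ ω, res (S.F k).μ E ω := fun E => rfl
    show (S.F k).pb (B k) ≤ ∑ j ∈ Finset.range N, (S.F k).pb (A j k)
    rw [e1, Finset.sum_congr rfl fun j _ => e1 (A j k), Finset.sum_comm]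
    refine Finset.sum_le_sum fun ω _ => ?_
    by_cases hω : (S.F k).μ ω = 0
    · have h3 : res (S.F k).μ (B k) ω = 0 := by
        unfold res
        split_ifs <;> simp [hω]
      rw [h3]
      exact Finset.sum_nonneg fun j _ => (S.F k).res_nonneg (A j k) ω
    by_cases hb : B k ω
    · obtain ⟨j, hj, hA⟩ := hk ω hω hb
      rw [res_pos _ _ _ hb]
      refine le_trans (le_of_eq ?_) (Finset.single_le_sum (f := fun j => res (S.F k).μ (A j k) ω)
        (fun j _ => (S.F k).res_nonneg (A j k) ω) (Finset.mem_range.mpr hj))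
      rw [res_pos _ _ _ hA]
    · rw [res_neg _ _ _ hb]
      exact Finset.sum_nonneg fun j _ => (S.F k).res_nonneg (A j k) ω
  have h3 := le_of_tendsto_of_tendsto (ul_tendsto (UB_pr (S := S) B)) h1 h2
  linarith

theorem typ_not {T : ∀ k, (S.F k).Ω → Prop} (hT : Typ T) : ul (S.pr fun k ω => ¬ T k ω) = 0 := ul_eq hT

theorem pos_and_typ {A T : ∀ k, (S.F k).Ω → Prop} (hA : 0 < ul (S.pr A)) (hT : Typ T) :
    0 < ul (S.pr fun k ω => A k ω ∧ T k ω) := by
  obtain ⟨j, hj, h⟩ := exists_fin_pos (N := 2) (A := fun j => if j = 0 then (fun k ω => A k ω ∧ T k ω) else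
    (fun k ω => ¬ T k ω)) hA (Eventually.of_forall fun k ω _ ha => by
      by_cases ht : T k ω
      · exact ⟨0, by norm_num, by simp [ha, ht]⟩
      · exact ⟨1, by norm_num, by simp [ht]⟩)
  rcases Nat.eq_zero_or_pos j with h0 | h0
  · rw [h0, if_pos rfl] at h
    exact h
  · rw [if_neg (by omega)] at h
    rw [typ_not hT] at h
    exact absurd h (lt_irrefl _)

theorem pos_exists {A : ∀ k, (S.F k).Ω → Prop} (hA : 0 < ul (S.pr A)) : ∀ᶠ k in UF, ∃ ω, (S.F k).μ ω ≠ 0 ∧ A k ω := by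
  classical
  have h1 := (ul_tendsto (UB_pr (S := S) A)).eventually (lt_mem_nhds hA)
  filter_upwards [h1] with k hk
  by_contra hn
  push Not at hn
  have h2 : S.pr A k = 0 := by
    show ∑ ω, res (S.F k).μ (A k) ω = 0
    refine Finset.sum_eq_zero fun ω _ => ?_
    by_cases hω : (S.F k).μ ω = 0
    · unfold res
      split_ifs <;> simp [hω]
    · exact res_neg _ _ _ (hn ω hω)
  rw [h2] at hk
  exact lt_irrefl _ hk

/-- tame sequences times a small power -/
theorem Sub_dl {K : ℕ → ℝ} (hK : S.Sub K) {δ : ℝ} (hδ : 0 < δ) : ∀ᶠ k in UF, K k * S.dl δ k ≤ 1 := by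
  filter_upwards [hK.eventually_le hδ, hK.1] with k hk h0
  have h1 : S.dl δ k = (2 ^ (δ * (S.F k).n))⁻¹ := by
    unfold dl
    rw [Real.rpow_neg (by norm_num)]
  rw [h1, ← div_eq_mul_inv, div_le_one (by positivity)]
  linarith

theorem dl_mul' (a b : ℝ) (k : ℕ) : S.dl a k * S.dl b k = S.dl (a + b) k := (S.dl_add a b k).symm

theorem dl_pow' (a : ℝ) (m : ℕ) (k : ℕ) : S.dl a k ^ m = S.dl (a * m) k := by
  induction m with
  | zero => rw [pow_zero, Nat.cast_zero, mul_zero, S.dl_zero]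
  | succ m ih =>
    rw [pow_succ, ih, dl_mul']
    congr 1
    push_cast
    ring

theorem dl_le_one {a : ℝ} (ha : 0 ≤ a) (k : ℕ) : S.dl a k ≤ 1 := by
  rw [← S.dl_zero k]
  exact S.dl_anti ha k

/-! ### the relation as a function -/

theorem exists_relf (M D D' : ℕ) : ∃ (L : ℕ) (F : (Fin M → MvPolynomial (Fin M) ℝ) → MvPolynomial (Fin M) ℝ →
    (Fin (rN M D + 1) → MvPolynomial (Fin M) ℝ)) (k₀ : (Fin M → MvPolynomial (Fin M) ℝ) → MvPolynomial (Fin M) ℝ →
      Fin (rN M D + 1)), ∀ p g, (∀ i, (p i).totalDegree ≤ D) → g.totalDegree ≤ D' →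
      (∀ k, (F p g k).totalDegree ≤ L) ∧ (∀ k, nrm (F p g k) ≤ 1) ∧ 1 / ((rN M D : ℝ) + 1) ≤ nrm (F p g (k₀ p g)) ∧
        bind₁ (ug p g) (rel (F p g)) = 0 := by
  classical
  obtain ⟨L, hL⟩ := exists_rel M D D'
  have key : ∀ p g, (∀ i, (p i).totalDegree ≤ D) → g.totalDegree ≤ D' →
      ∃ (φ : Fin (rN M D + 1) → MvPolynomial (Fin M) ℝ) (k₀ : Fin (rN M D + 1)), (∀ k, (φ k).totalDegree ≤ L) ∧
        (∀ k, nrm (φ k) ≤ 1) ∧ 1 / ((rN M D : ℝ) + 1) ≤ nrm (φ k₀) ∧ bind₁ (ug p g) (rel φ) = 0 := by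
    intro p g hp hg
    obtain ⟨φ, ⟨k1, hk1⟩, hdeg, hrel⟩ := hL p g hp hg
    obtain ⟨k₀, _, hmax⟩ := Finset.exists_max_image (Finset.univ : Finset (Fin (rN M D + 1))) (fun k => nrm (φ k))
      ⟨k1, Finset.mem_univ _⟩
    have hpos : 0 < nrm (φ k1) := by
      obtain ⟨a, ha⟩ := MvPolynomial.ne_zero_iff.mp hk1
      exact lt_of_lt_of_le (abs_pos.mpr ha) (coeff_le_nrm _ a)
    have h0 : 0 < nrm (φ k₀) := hpos.trans_le (hmax k1 (Finset.mem_univ _))
    have hn : ∀ k, nrm (C (nrm (φ k₀))⁻¹ * φ k) ≤ 1 := by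
      intro k
      refine (nrm_mul_le _ _).trans ?_
      rw [nrm_C, abs_of_pos (inv_pos.mpr h0), inv_mul_le_one₀ h0]
      exact hmax k (Finset.mem_univ _)
    refine ⟨fun k => C (nrm (φ k₀))⁻¹ * φ k, k₀, fun k => ?_, hn, ?_, ?_⟩
    · refine (totalDegree_mul _ _).trans ?_
      rw [totalDegree_C, zero_add]
      exact hdeg k
    · have h2 : nrm (φ k₀) ≤ nrm (C (nrm (φ k₀)) : MvPolynomial (Fin M) ℝ) * nrm (C (nrm (φ k₀))⁻¹ * φ k₀) := by
        refine le_trans (le_of_eq ?_) (nrm_mul_le _ _)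
        rw [← mul_assoc, ← C_mul, mul_inv_cancel₀ h0.ne', C_1, one_mul]
      rw [nrm_C, abs_of_pos h0] at h2
      have h3 : 1 ≤ nrm (C (nrm (φ k₀))⁻¹ * φ k₀) := by
        by_contra hc
        rw [not_le] at hc
        have := mul_lt_mul_of_pos_left hc h0
        linarith
      refine le_trans ?_ h3
      rw [div_le_one (by positivity)]
      have : (0 : ℝ) ≤ rN M D := Nat.cast_nonneg _
      linarith
    · rw [rel_bind]
      have h3 : ∀ k, bind₁ p (C (nrm (φ k₀))⁻¹ * φ k) * g ^ (k : ℕ) =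
          C (nrm (φ k₀))⁻¹ * (bind₁ p (φ k) * g ^ (k : ℕ)) := by
        intro k
        rw [map_mul, bind₁_C_right]
        ring
      rw [Finset.sum_congr rfl fun k _ => h3 k, ← Finset.mul_sum, hrel, mul_zero]
  refine ⟨L, fun p g => if h : (∀ i, (p i).totalDegree ≤ D) ∧ g.totalDegree ≤ D' then (key p g h.1 h.2).choose else 0,
    fun p g => if h : (∀ i, (p i).totalDegree ≤ D) ∧ g.totalDegree ≤ D' then (key p g h.1 h.2).choose_spec.choose else 0,
    fun p g hp hg => ?_⟩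
  have h : (∀ i, (p i).totalDegree ≤ D) ∧ g.totalDegree ≤ D' := ⟨hp, hg⟩
  simp only [dif_pos h]
  exact (key p g h.1 h.2).choose_spec.choose_spec

/-- gradients of polynomials on a cube -/
theorem exists_grad (M D : ℕ) : ∃ C : ℝ, 1 ≤ C ∧ ∀ (g : MvPolynomial (Fin M) ℝ), g.totalDegree ≤ D →
    ∀ (q : Fin M → ℝ) (r K : ℝ), 0 < r → 0 ≤ K → (∀ y, Cub q r y → |eval y g| ≤ K) →
      ∀ a, |eval q (pderiv a g)| * r ≤ C * K := by
  classical
  obtain ⟨C₁, hC, hsm⟩ := taylor_small D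
  refine ⟨C₁, hC, fun g hg q r K hr hK hy a => ?_⟩
  rcases Nat.eq_zero_or_pos D with hD | hD
  · have h1 : g = C (g.coeff 0) := by
      rw [hD, Nat.le_zero] at hg
      exact totalDegree_eq_zero_iff_eq_C.mp hg
    rw [h1, pderiv_C, map_zero, abs_zero, zero_mul]
    positivity
  let f : Fin M → Polynomial ℝ := fun i => Polynomial.C (q i) + Polynomial.C (if i = a then r else 0) * Polynomial.X
  have hf : ∀ i, (f i).natDegree ≤ 1 := by
    intro i
    refine (Polynomial.natDegree_add_le _ _).trans (max_le ?_ ?_)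
    · rw [Polynomial.natDegree_C]; exact Nat.zero_le _
    · exact (Polynomial.natDegree_C_mul_le _ _).trans Polynomial.natDegree_X_le
  have hn : (aeval f g).natDegree ≤ D := by
    have := MvPolynomial.aeval_natDegree_le (m := D) (n := 1) g hg f hf
    rwa [mul_one] at this
  have hev : ∀ s : ℝ, (aeval f g).eval s = eval (fun i => q i + (if i = a then r else 0) * s) g := by
    intro s
    rw [eval_aeval]
    congr 1
    congr 1
    funext i
    simp [f]
  have h1 := hsm (aeval f g) 0 1 K hn hK (fun s hs0 hs1 => by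
    rw [hev]
    refine hy _ fun i => ?_
    rw [zero_add, mul_one, add_sub_cancel_left]
    by_cases hi : i = a
    · rw [if_pos hi, abs_mul, abs_of_pos hr, abs_of_nonneg hs0]
      exact mul_le_of_le_one_right hr.le hs1
    · rw [if_neg hi, zero_mul, abs_zero]
      exact hr.le) 1 hD
  rw [abs_one, one_pow, mul_one, Polynomial.taylor_coeff_one, deriv_aeval] at h1
  have h2 : ∀ i, Polynomial.derivative (f i) = Polynomial.C (if i = a then r else 0) := by
    intro i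
    simp [f]
  have h3 : (∑ i, aeval f (pderiv i g) * Polynomial.derivative (f i)) = aeval f (pderiv a g) * Polynomial.C r := by
    rw [Finset.sum_eq_single a]
    · rw [h2, if_pos rfl]
    · intro b _ hb
      rw [h2, if_neg hb, map_zero, mul_zero]
    · intro h; exact absurd (Finset.mem_univ _) h
  rw [h3, Polynomial.eval_mul, Polynomial.eval_C, eval_aeval, abs_mul, abs_of_pos hr] at h1
  have h4 : (fun i => (f i).eval 0) = q := by
    funext i
    simp [f]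
  rwa [h4] at h1

/-! ### the core -/

/-- the values of the rows and of the variation of the rows -/
def nv (p : Fin M → MvPolynomial (Fin M) ℝ) (q v : Fin M → ℝ) : ℝ :=
  ∑ a, |v a| + ∑ i, |∑ a, v a * eval q (pderiv a (p i))|

theorem nv_nonneg (p : Fin M → MvPolynomial (Fin M) ℝ) (q v : Fin M → ℝ) : 0 ≤ nv p q v :=
  add_nonneg (Finset.sum_nonneg fun _ _ => abs_nonneg _) (Finset.sum_nonneg fun _ _ => abs_nonneg _)

/-- a function which is known to the base and to the partition `V` -/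
def Kn (V : ∀ k, Setoid (S.F k).Ω) {α : Type} (f : ∀ k, (S.F k).Ω → α) : Prop :=
  ∀ᶠ k in UF, ∀ ω ω', (S.F k).μ ω ≠ 0 → (S.F k).μ ω' ≠ 0 → (S.F k).Z ω ω' → V k ω ω' → f k ω = f k ω'

theorem Kn.comp {V : ∀ k, Setoid (S.F k).Ω} {α β : Type} {f : ∀ k, (S.F k).Ω → α} (h : Kn V f) (F : ℕ → α → β) :
    Kn V (fun k ω => F k (f k ω)) := by
  filter_upwards [h] with k hk ω ω' a b c d
  rw [hk ω ω' a b c d]

theorem Kn.comp2 {V : ∀ k, Setoid (S.F k).Ω} {α β γ : Type} {f : ∀ k, (S.F k).Ω → α} {g : ∀ k, (S.F k).Ω → β}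
    (h : Kn V f) (h' : Kn V g) (F : ℕ → α → β → γ) : Kn V (fun k ω => F k (f k ω) (g k ω)) := by
  filter_upwards [h, h'] with k hk hk' ω ω' a b c d
  rw [hk ω ω' a b c d, hk' ω ω' a b c d]

/-- THE DATA -/
structure CR (S : Sp) (V : ∀ k, Setoid (S.F k).Ω) (M D : ℕ) where
  q : ∀ k, (S.F k).Ω → Fin M → ℝ
  r : ℕ → ℝ
  r0 : ∀ k, 0 < r k
  c₀ : ℝ
  rc : ∀ᶠ k in UF, S.dl c₀ k ≤ r k
  p : ∀ k, (S.F k).Ω → Fin M → MvPolynomial (Fin M) ℝ
  deg : ∀ k ω i, (p k ω i).totalDegree ≤ D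
  kn : Kn V p
  K : ℕ → ℝ
  Ks : S.Sub K
  typ : Typ fun k ω => (∀ i, |eval (q k ω) (p k ω i)| ≤ K k) ∧ ∀ y, Cub (q k ω) (r k) y → ∀ i,
    |eval y (p k ω i) - eval (q k ω) (p k ω i)| ≤ K k * S.dl 1 k
  /-- NO SMALL VALUES -/
  nsv : ∀ (L : ℕ) (h : ∀ k, (S.F k).Ω → MvPolynomial (Fin M) ℝ), (∀ k ω, (h k ω).totalDegree ≤ L) → Kn V h →
    (∀ k ω, nrm (h k ω) = 1) → ∀ δ : ℝ, 0 < δ →
      Typ fun k ω => S.dl δ k ≤ |eval (fun i => eval (q k ω) (p k ω i)) (h k ω)|

variable {V : ∀ k, Setoid (S.F k).Ω} {D : ℕ}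

/-- a polynomial known to `V` with a gradient which exceeds the gradients of the rows by `2 ^ (e n)` -/
def CR.Exs (x : CR S V M D) (e : ℝ) : Prop :=
  ∃ A : ∀ k, (S.F k).Ω → Prop, 0 < ul (S.pr A) ∧ ∃ (D' : ℕ) (g : ∀ k, (S.F k).Ω → MvPolynomial (Fin M) ℝ),
    (∀ k ω, (g k ω).totalDegree ≤ D') ∧ Kn V g ∧ ∃ K : ℕ → ℝ, S.Sub K ∧ ∀ᶠ k in UF, ∀ ω, (S.F k).μ ω ≠ 0 → A k ω →
      (∀ y, Cub (x.q k ω) (x.r k) y → |eval y (g k ω)| ≤ K k) ∧ ∃ v : Fin M → ℝ, 0 < nv (x.p k ω) (x.q k ω) v ∧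
        nv (x.p k ω) (x.q k ω) v ≤ S.dl e k * |∑ a, v a * eval (x.q k ω) (pderiv a (g k ω))|

/-- the step -/
theorem CR.step (x : CR S V M D) {e₀ : ℝ} (he₀ : 0 < e₀) : ∃ ε : ℝ, 0 < ε ∧ ∀ e, e₀ ≤ e → x.Exs e → x.Exs (e + ε) := by
  classical
  set N : ℕ := rN M D with hN
  -- the exponents
  set κ : ℝ := 1 / (2 * ((N : ℝ) + 1)) with hκ
  have hN0 : (0 : ℝ) ≤ N := Nat.cast_nonneg _
  have hκ0 : 0 < κ := by positivity
  have hκN : κ * N ≤ 1 / 2 := by
    rw [hκ, div_mul_eq_mul_div, one_mul, div_le_iff₀ (by positivity)]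
    linarith
  have hκ2 : κ ≤ 1 / 2 := by
    rw [hκ, div_le_iff₀ (by positivity)]
    linarith
  set ε : ℝ := min e₀ κ / 2 ^ (N + 3) with hε
  have hm : 0 < min e₀ κ := lt_min he₀ hκ0
  have hε0 : 0 < ε := by positivity
  set τ : ℕ → ℝ := fun j => 2 ^ (N - j) * (2 * ε) with hτ
  have hτlow : ∀ j, 2 * ε ≤ τ j := by
    intro j
    have : (1 : ℝ) ≤ 2 ^ (N - j) := one_le_pow₀ (by norm_num)
    calc 2 * ε = 1 * (2 * ε) := (one_mul _).symm
      _ ≤ τ j := mul_le_mul_of_nonneg_right this (by positivity)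
  have hτhigh : ∀ j, τ j ≤ min e₀ κ / 4 := by
    intro j
    have h1 : (2 : ℝ) ^ (N - j) ≤ 2 ^ N := pow_le_pow_right₀ (by norm_num) (Nat.sub_le _ _)
    calc τ j ≤ 2 ^ N * (2 * ε) := mul_le_mul_of_nonneg_right h1 (by positivity)
      _ = min e₀ κ / 4 := by
        rw [hε, pow_add]
        field_simp
        norm_num
  have hτstep : ∀ j, j < N → τ j = 2 * τ (j + 1) := by
    intro j hj
    show (2 : ℝ) ^ (N - j) * (2 * ε) = 2 * (2 ^ (N - (j + 1)) * (2 * ε))
    have : N - j = (N - (j + 1)) + 1 := by omega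
    rw [this, pow_succ]
    ring
  refine ⟨ε, hε0, fun e he hx => ?_⟩
  obtain ⟨A, hA, D', g, hgd, hgn, K, hK, hev⟩ := hx
  obtain ⟨L, F, k₀, hF⟩ := exists_relf M D D'
  obtain ⟨C₁, hC₁, hpt⟩ := rel_pt (M := M) (N := N) (L := L)
  -- the polynomial of norm one
  set φ : ∀ k, (S.F k).Ω → Fin (N + 1) → MvPolynomial (Fin M) ℝ := fun k ω => F (x.p k ω) (g k ω) with hφ
  have hφF : ∀ k ω, (∀ i, (φ k ω i).totalDegree ≤ L) ∧ (∀ i, nrm (φ k ω i) ≤ 1) ∧
      1 / ((N : ℝ) + 1) ≤ nrm (φ k ω (k₀ (x.p k ω) (g k ω))) ∧ bind₁ (ug (x.p k ω) (g k ω)) (rel (φ k ω)) = 0 :=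
    fun k ω => hF (x.p k ω) (g k ω) (x.deg k ω) (hgd k ω)
  set h₀ : ∀ k, (S.F k).Ω → MvPolynomial (Fin M) ℝ := fun k ω =>
    C (nrm (φ k ω (k₀ (x.p k ω) (g k ω))))⁻¹ * φ k ω (k₀ (x.p k ω) (g k ω)) with hh₀
  have hpos : ∀ k ω, 0 < nrm (φ k ω (k₀ (x.p k ω) (g k ω))) := fun k ω =>
    lt_of_lt_of_le (by positivity) (hφF k ω).2.2.1
  have hh1 : ∀ k ω, nrm (h₀ k ω) = 1 := by
    intro k ω
    have h0 := hpos k ω
    apply le_antisymm
    · refine (nrm_mul_le _ _).trans ?_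
      rw [nrm_C, abs_of_pos (inv_pos.mpr h0), inv_mul_cancel₀ h0.ne']
    · have h2 : nrm (φ k ω (k₀ (x.p k ω) (g k ω))) ≤
          nrm (C (nrm (φ k ω (k₀ (x.p k ω) (g k ω)))) : MvPolynomial (Fin M) ℝ) * nrm (h₀ k ω) := by
        refine le_trans (le_of_eq ?_) (nrm_mul_le _ _)
        rw [hh₀]
        show _ = nrm (C _ * (C _ * _))
        rw [← mul_assoc, ← C_mul, mul_inv_cancel₀ h0.ne', C_1, one_mul]
      rw [nrm_C, abs_of_pos h0] at h2
      by_contra hc
      rw [not_le] at hc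
      have := mul_lt_mul_of_pos_left hc h0
      linarith
  have hhd : ∀ k ω, (h₀ k ω).totalDegree ≤ L := by
    intro k ω
    refine (totalDegree_mul _ _).trans ?_
    rw [totalDegree_C, zero_add]
    exact (hφF k ω).1 _
  have hhn : Kn V h₀ := x.kn.comp2 hgn fun _ p g =>
    C (nrm (F p g (k₀ p g)))⁻¹ * F p g (k₀ p g)
  have hT2 := x.nsv L h₀ hhd hhn hh1 ε hε0
  -- the tame bound
  set K1 : ℕ → ℝ := fun k => |x.K k| + |K k| + 1 with hK1
  have habs : ∀ {K' : ℕ → ℝ}, S.Sub K' → S.Sub (fun k => |K' k|) := fun {K'} hK' =>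
    hK'.mono (Eventually.of_forall fun k => abs_nonneg _) (by
      filter_upwards [hK'.1] with k hk
      rw [abs_of_nonneg hk])
  have hK1s : S.Sub K1 := ((habs x.Ks).add (habs hK)).add (S.Sub_const zero_le_one)
  have hK11 : ∀ k, 1 ≤ K1 k := fun k => by
    show 1 ≤ |x.K k| + |K k| + 1
    have := abs_nonneg (x.K k)
    have := abs_nonneg (K k)
    linarith
  have hpowS : ∀ m : ℕ, S.Sub (fun k => K1 k ^ m) := by
    intro m
    induction m with
    | zero => simpa using S.Sub_const zero_le_one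
    | succ m ih =>
      refine (ih.mul hK1s).mono (Eventually.of_forall fun k => ?_) (Eventually.of_forall fun k => ?_)
      · have := hK11 k
        positivity
      · rw [pow_succ]
  set W : ℕ → ℝ := fun k => (N + 1) * C₁ * K1 k ^ (L + N + N) * (K1 k) * 4 with hW
  have hWs : S.Sub W := by
    have h1 := (((S.Sub_const (show (0 : ℝ) ≤ (N + 1) * C₁ by positivity)).mul (hpowS (L + N + N))).mul hK1s).mul
      (S.Sub_const (show (0 : ℝ) ≤ 4 by norm_num))
    exact h1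
  have hW4 : ∀ k, 4 ≤ W k := by
    intro k
    have a1 : (1 : ℝ) ≤ K1 k ^ (L + N + N) := one_le_pow₀ (hK11 k)
    have a2 := hK11 k
    have a3 : (1 : ℝ) ≤ (N + 1) * C₁ := by nlinarith
    have a4 : (1 : ℝ) ≤ (N + 1) * C₁ * K1 k ^ (L + N + N) := by nlinarith
    have a5 : (1 : ℝ) ≤ (N + 1) * C₁ * K1 k ^ (L + N + N) * K1 k := by nlinarith
    show 4 ≤ (N + 1) * C₁ * K1 k ^ (L + N + N) * (K1 k) * 4
    linarith
  -- the typical event and the alternatives
  set T : ∀ k, (S.F k).Ω → Prop := fun k ω => ((∀ i, |eval (x.q k ω) (x.p k ω i)| ≤ x.K k) ∧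
    ∀ y, Cub (x.q k ω) (x.r k) y → ∀ i,
      |eval y (x.p k ω i) - eval (x.q k ω) (x.p k ω i)| ≤ x.K k * S.dl 1 k) ∧
    S.dl ε k ≤ |eval (fun i => eval (x.q k ω) (x.p k ω i)) (h₀ k ω)| with hT
  have hTt : Typ T := x.typ.and hT2
  set R : ℕ → ∀ k, (S.F k).Ω → MvPolynomial (Fin M) ℝ := fun j k ω =>
    bind₁ (ug (x.p k ω) (g k ω)) (dn j (rel (φ k ω))) with hR
  set Aj : ℕ → ∀ k, (S.F k).Ω → Prop := fun j k ω => (A k ω ∧ T k ω) ∧ |eval (x.q k ω) (R j k ω)| < S.dl (τ j) k ∧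
    ∀ v : Fin M → ℝ, S.dl (τ (j + 1)) k * |∑ a, v a * eval (x.q k ω) (pderiv a (g k ω))| ≤
      |∑ a, v a * eval (x.q k ω) (pderiv a (R j k ω))| +
        C₁ * K1 k ^ (L + N + N) * ∑ i, |∑ a, v a * eval (x.q k ω) (pderiv a (x.p k ω i))| with hAj
  -- smallness
  have hs1 := Sub_dl hWs hε0
  have hs2 := Sub_dl hWs (show (0 : ℝ) < 1 / 4 by norm_num)
  -- facts at a point
  have hfact : ∀ᶠ k in UF, ∀ ω, (S.F k).μ ω ≠ 0 → A k ω → T k ω → (∀ y, Cub (x.q k ω) (x.r k) y →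
      |eval y (g k ω) - eval (x.q k ω) (g k ω)| ≤ S.dl κ k) ∧ (∃ j, j < N ∧ Aj j k ω) ∧
      (∀ j, j ≤ N → ∀ y, Cub (x.q k ω) (x.r k) y → |eval y (R j k ω)| ≤ |eval (x.q k ω) (R j k ω)| +
        C₁ * K1 k ^ (L + N + N) * (K1 k * S.dl 1 k + S.dl κ k)) := by
    filter_upwards [hev, hs1, hs2] with k hk s1 s2 ω hω hAω hTω
    obtain ⟨hcubg, -⟩ := hk ω hω hAω
    obtain ⟨⟨hpq, hcubp⟩, hval⟩ := hTω
    have hKx : x.K k ≤ K1 k := by
      have := le_abs_self (x.K k)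
      have := abs_nonneg (K k)
      show x.K k ≤ |x.K k| + |K k| + 1
      linarith
    have hKg : K k ≤ K1 k := by
      have := le_abs_self (K k)
      have := abs_nonneg (x.K k)
      show K k ≤ |x.K k| + |K k| + 1
      linarith
    have hdl1 : 0 < S.dl 1 k := S.dl_pos 1 k
    have hWk := hW4 k
    have a1 : (1 : ℝ) ≤ K1 k ^ (L + N + N) := one_le_pow₀ (hK11 k)
    have a2 := hK11 k
    have hCK : C₁ * K1 k ^ (L + N + N) * ((N : ℝ) + 1) * K1 k * 4 = W k := by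
      show _ = (N + 1) * C₁ * K1 k ^ (L + N + N) * (K1 k) * 4
      ring
    have hK1W : K1 k ≤ W k := by
      rw [← hCK]
      have b1 : (1 : ℝ) ≤ C₁ * K1 k ^ (L + N + N) := by nlinarith
      have b2 : (1 : ℝ) ≤ C₁ * K1 k ^ (L + N + N) * ((N : ℝ) + 1) := by nlinarith
      nlinarith
    have hCW : C₁ * K1 k ^ (L + N + N) * ((N : ℝ) + 1) ≤ W k := by
      rw [← hCK]
      have b1 : (0 : ℝ) ≤ C₁ * K1 k ^ (L + N + N) * ((N : ℝ) + 1) := by positivity
      nlinarith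
    have hδ1 : K1 k * S.dl 1 k ≤ 1 := by
      have h2 : S.dl 1 k ≤ S.dl (1 / 4) k := S.dl_anti (by norm_num) k
      calc K1 k * S.dl 1 k ≤ W k * S.dl (1 / 4) k := mul_le_mul hK1W h2 hdl1.le (by linarith)
        _ ≤ 1 := s2
    set Ak : ℝ := S.dl ε k / ((N : ℝ) + 1) with hAk
    have hAk0 : 0 < Ak := div_pos (S.dl_pos ε k) (by positivity)
    have hAkv : Ak ≤ |eval (fun i => eval (x.q k ω) (x.p k ω i)) (φ k ω (k₀ (x.p k ω) (g k ω)))| := by
      have h1 := (hφF k ω).2.2.1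
      have h2 : |eval (fun i => eval (x.q k ω) (x.p k ω i)) (φ k ω (k₀ (x.p k ω) (g k ω)))| =
          nrm (φ k ω (k₀ (x.p k ω) (g k ω))) * |eval (fun i => eval (x.q k ω) (x.p k ω i)) (h₀ k ω)| := by
        show _ = _ * |eval _ (C _ * _)|
        rw [map_mul, eval_C, abs_mul, abs_of_pos (inv_pos.mpr (hpos k ω)), ← mul_assoc,
          mul_inv_cancel₀ (hpos k ω).ne', one_mul]
      rw [h2, hAk, div_eq_mul_one_div, mul_comm (S.dl ε k)]
      exact mul_le_mul h1 hval (S.dl_pos ε k).le (hpos k ω).le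
    obtain ⟨o1, o2, o3⟩ := hpt (x.p k ω) (g k ω) (hφF k ω).1 (hφF k ω).2.1 (hφF k ω).2.2.2 (k₀ (x.p k ω) (g k ω))
      (x.q k ω) (x.r k) (K1 k) (K1 k * S.dl 1 k) Ak (x.r0 k).le a2 (by positivity) hδ1 hAk0 hAkv
      (fun i => (hpq i).trans hKx) (fun y hy => ⟨fun i => (hcubp y hy i).trans
        (mul_le_mul_of_nonneg_right hKx hdl1.le), (hcubg y hy).trans hKg⟩)
    have hosc : ∀ y, Cub (x.q k ω) (x.r k) y → |eval y (g k ω) - eval (x.q k ω) (g k ω)| ≤ S.dl κ k := by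
      intro y hy
      obtain ⟨j, hj1, hjN, hj⟩ := o1 y hy
      by_contra hn
      rw [not_le] at hn
      have b1 : S.dl (κ * N) k ≤ |eval y (g k ω) - eval (x.q k ω) (g k ω)| ^ j := by
        calc S.dl (κ * N) k ≤ S.dl (κ * j) k := S.dl_anti (mul_le_mul_of_nonneg_left (by exact_mod_cast hjN) hκ0.le) k
          _ = S.dl κ k ^ j := (dl_pow' κ j k).symm
          _ ≤ _ := pow_le_pow_left₀ (S.dl_pos κ k).le hn.le j
      have b2 : S.dl (κ * N) k * Ak ≤ C₁ * K1 k ^ (L + N + N) * (K1 k * S.dl 1 k) :=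
        (mul_le_mul_of_nonneg_right b1 hAk0.le).trans hj
      have hε4 : ε ≤ 1 / 8 := by
        have h8 : (8 : ℝ) ≤ 2 ^ (N + 3) := by
          calc (8 : ℝ) = 2 ^ 3 := by norm_num
            _ ≤ 2 ^ (N + 3) := pow_le_pow_right₀ (by norm_num) (by omega)
        rw [hε, div_le_iff₀ (by positivity)]
        have : min e₀ κ ≤ κ := min_le_right _ _
        nlinarith
      have b3 : S.dl (3 / 4) k ≤ S.dl (κ * N) k * S.dl ε k := by
        rw [dl_mul']
        exact S.dl_anti (by linarith) k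
      have b4 : S.dl (3 / 4) k ≤ C₁ * K1 k ^ (L + N + N) * ((N : ℝ) + 1) * K1 k * S.dl 1 k := by
        refine b3.trans ?_
        have b5 : S.dl (κ * N) k * S.dl ε k = (S.dl (κ * N) k * Ak) * ((N : ℝ) + 1) := by
          rw [hAk]
          field_simp
        rw [b5]
        refine (mul_le_mul_of_nonneg_right b2 (by positivity)).trans (le_of_eq (by ring))
      have b6 : S.dl 1 k = S.dl (3 / 4) k * S.dl (1 / 4) k := by
        rw [dl_mul']
        norm_num
      rw [b6] at b4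
      have b7 : 4 * (C₁ * K1 k ^ (L + N + N) * ((N : ℝ) + 1) * K1 k * (S.dl (3 / 4) k * S.dl (1 / 4) k)) =
          S.dl (3 / 4) k * (W k * S.dl (1 / 4) k) := by
        rw [← hCK]; ring
      have b8 : S.dl (3 / 4) k * (W k * S.dl (1 / 4) k) ≤ S.dl (3 / 4) k * 1 :=
        mul_le_mul_of_nonneg_left s2 (S.dl_pos _ k).le
      have b9 := S.dl_pos (3 / 4) k
      linarith
    refine ⟨hosc, ?_, fun j hj y hy => o3 (S.dl κ k) (S.dl_pos κ k).le hosc j hj y hy⟩
    obtain ⟨j, hj, j1, j2⟩ := o2 (fun j => S.dl (τ j) k) (S.dl_pos _ k) (fun j hj => by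
      have b1 : S.dl (τ j) k ≤ S.dl ε k * S.dl ε k := by
        rw [dl_mul']
        exact S.dl_anti (by linarith [hτlow j]) k
      have b2 : S.dl ε k * (C₁ * K1 k ^ (L + N + N) * ((N : ℝ) + 1)) ≤ 1 := by
        rw [mul_comm]
        exact (mul_le_mul_of_nonneg_right hCW (S.dl_pos ε k).le).trans s1
      rw [hAk, le_div_iff₀ (by positivity)]
      calc S.dl (τ j) k * (C₁ * K1 k ^ (L + N + N)) * ((N : ℝ) + 1)
          ≤ (S.dl ε k * S.dl ε k) * (C₁ * K1 k ^ (L + N + N)) * ((N : ℝ) + 1) := by gcongr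
        _ = S.dl ε k * (S.dl ε k * (C₁ * K1 k ^ (L + N + N) * ((N : ℝ) + 1))) := by ring
        _ ≤ S.dl ε k * 1 := mul_le_mul_of_nonneg_left b2 (S.dl_pos ε k).le
        _ = S.dl ε k := mul_one _)
    exact ⟨j, hj, ⟨hAω, ⟨⟨hpq, hcubp⟩, hval⟩⟩, j1, j2⟩
  -- the alternative
  obtain ⟨j, hjN, hj⟩ := exists_fin_pos (N := N) (A := Aj) (pos_and_typ hA hTt) (by
    filter_upwards [hfact] with k hk ω hω h
    exact (hk ω hω h.1 h.2).2.1)
  -- the new polynomial
  have hRd : ∀ k ω, (R j k ω).totalDegree ≤ (L + N) * max D D' := by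
    intro k ω
    refine totalDegree_bind_le (dn_deg (rel_deg (hφF k ω).1) j) _ fun o _ => ?_
    cases o with
    | none => exact (hgd k ω).trans (le_max_right _ _)
    | some i => exact (x.deg k ω i).trans (le_max_left _ _)
  refine ⟨Aj j, hj, (L + N) * max D D', fun k ω => C (S.dl (τ j) k)⁻¹ * R j k ω, fun k ω => ?_, ?_, fun k => 1 + W k,
    (S.Sub_const zero_le_one).add hWs, ?_⟩
  · refine (totalDegree_mul _ _).trans ?_
    rw [totalDegree_C, zero_add]
    exact hRd k ω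
  · exact x.kn.comp2 hgn fun k p g => C (S.dl (τ j) k)⁻¹ * bind₁ (ug p g) (dn j (rel (F p g)))
  filter_upwards [hev, hfact, hs1] with k hk hf s1 ω hω hAω
  obtain ⟨⟨hA1, hT1⟩, hsm, hgr⟩ := hAω
  obtain ⟨-, -, hsup⟩ := hf ω hω hA1 hT1
  obtain ⟨-, v, hv0, hv⟩ := hk ω hω hA1
  have hT0 := S.dl_pos (τ j) k
  have a1 : (1 : ℝ) ≤ K1 k ^ (L + N + N) := one_le_pow₀ (hK11 k)
  have a2 := hK11 k
  have hCK : C₁ * K1 k ^ (L + N + N) * ((N : ℝ) + 1) * K1 k * 4 = W k := by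
    show _ = (N + 1) * C₁ * K1 k ^ (L + N + N) * (K1 k) * 4
    ring
  have b1 : (1 : ℝ) ≤ C₁ * K1 k ^ (L + N + N) := by nlinarith
  have b2 : C₁ * K1 k ^ (L + N + N) * 4 ≤ W k := by
    rw [← hCK]
    have c1 : C₁ * K1 k ^ (L + N + N) ≤ C₁ * K1 k ^ (L + N + N) * ((N : ℝ) + 1) := by
      apply le_mul_of_one_le_right (by linarith)
      linarith
    have c2 : C₁ * K1 k ^ (L + N + N) * ((N : ℝ) + 1) ≤ C₁ * K1 k ^ (L + N + N) * ((N : ℝ) + 1) * K1 k := by
      apply le_mul_of_one_le_right _ a2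
      linarith
    linarith
  constructor
  · intro y hy
    have h1 := hsup j hjN.le y hy
    rw [map_mul, eval_C, abs_mul, abs_of_pos (inv_pos.mpr hT0), inv_mul_le_iff₀ hT0]
    have hd1 : S.dl 1 k ≤ S.dl (τ j) k := S.dl_anti (by
      have := hτhigh j
      have : min e₀ κ ≤ κ := min_le_right _ _
      linarith) k
    have hd2 : S.dl κ k ≤ S.dl (τ j) k := S.dl_anti (by
      have := hτhigh j
      have : min e₀ κ ≤ κ := min_le_right _ _
      linarith) k
    have h2 : C₁ * K1 k ^ (L + N + N) * (K1 k * S.dl 1 k + S.dl κ k) ≤ S.dl (τ j) k * W k := by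
      have h3 : K1 k * S.dl 1 k + S.dl κ k ≤ (2 * K1 k) * S.dl (τ j) k := by
        have h4 : K1 k * S.dl 1 k ≤ K1 k * S.dl (τ j) k := mul_le_mul_of_nonneg_left hd1 (by linarith)
        have h5 : S.dl κ k ≤ K1 k * S.dl (τ j) k := by
          calc S.dl κ k ≤ 1 * S.dl (τ j) k := by rw [one_mul]; exact hd2
            _ ≤ K1 k * S.dl (τ j) k := mul_le_mul_of_nonneg_right a2 hT0.le
        linarith
      calc C₁ * K1 k ^ (L + N + N) * (K1 k * S.dl 1 k + S.dl κ k)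
          ≤ C₁ * K1 k ^ (L + N + N) * ((2 * K1 k) * S.dl (τ j) k) := mul_le_mul_of_nonneg_left h3 (by linarith)
        _ = S.dl (τ j) k * (C₁ * K1 k ^ (L + N + N) * K1 k * 2) := by ring
        _ ≤ S.dl (τ j) k * W k := by
            apply mul_le_mul_of_nonneg_left _ hT0.le
            rw [← hCK]
            have c1 : C₁ * K1 k ^ (L + N + N) ≤ C₁ * K1 k ^ (L + N + N) * ((N : ℝ) + 1) := by
              apply le_mul_of_one_le_right (by linarith)
              linarith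
            have c2 := mul_le_mul_of_nonneg_right c1 (show (0 : ℝ) ≤ K1 k by linarith)
            have c3 : 0 ≤ C₁ * K1 k ^ (L + N + N) * K1 k := by positivity
            linarith
    calc |eval y (R j k ω)| ≤ S.dl (τ j) k + S.dl (τ j) k * W k := by linarith
      _ = S.dl (τ j) k * (1 + W k) := by ring
  · refine ⟨v, hv0, ?_⟩
    set G : ℝ := |∑ a, v a * eval (x.q k ω) (pderiv a (g k ω))| with hG
    set G' : ℝ := |∑ a, v a * eval (x.q k ω) (pderiv a (R j k ω))| with hG'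
    have hG0 : 0 ≤ G := abs_nonneg _
    have hG'0 : 0 ≤ G' := abs_nonneg _
    have e1 : |∑ a, v a * eval (x.q k ω) (pderiv a (C (S.dl (τ j) k)⁻¹ * R j k ω))| = (S.dl (τ j) k)⁻¹ * G' := by
      have : ∀ a, v a * eval (x.q k ω) (pderiv a (C (S.dl (τ j) k)⁻¹ * R j k ω)) =
          (S.dl (τ j) k)⁻¹ * (v a * eval (x.q k ω) (pderiv a (R j k ω))) := by
        intro a
        rw [pderiv_C_mul, map_mul, eval_C]
        ring
      rw [Finset.sum_congr rfl fun a _ => this a, ← Finset.mul_sum, abs_mul, abs_of_pos (inv_pos.mpr hT0)]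
    rw [e1]
    set t : ℝ := S.dl (τ (j + 1)) k with ht
    have ht0 : 0 < t := S.dl_pos _ k
    have hTt2 : S.dl (τ j) k = t * t := by
      rw [ht, dl_mul', hτstep j hjN]
      congr 1
      ring
    have hgr' := hgr v
    have hnv : ∑ i, |∑ a, v a * eval (x.q k ω) (pderiv a (x.p k ω i))| ≤ nv (x.p k ω) (x.q k ω) v := by
      unfold nv
      have : 0 ≤ ∑ a, |v a| := Finset.sum_nonneg fun _ _ => abs_nonneg _
      linarith
    have h1 : t * G ≤ G' + C₁ * K1 k ^ (L + N + N) * (S.dl e k * G) := by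
      refine hgr'.trans ?_
      have := mul_le_mul_of_nonneg_left (hnv.trans hv) (show 0 ≤ C₁ * K1 k ^ (L + N + N) by linarith)
      linarith
    have h2 : C₁ * K1 k ^ (L + N + N) * S.dl e k ≤ t / 4 := by
      have h3 : S.dl e k = t * S.dl (e - τ (j + 1)) k := by
        rw [ht, dl_mul']
        congr 1
        ring
      have h4 : S.dl (e - τ (j + 1)) k ≤ S.dl ε k := S.dl_anti (by
        have h5 := hτhigh (j + 1)
        have h6 : min e₀ κ ≤ e₀ := min_le_left _ _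
        have h7 : ε ≤ min e₀ κ / 4 := by
          have h8 : (4 : ℝ) ≤ 2 ^ (N + 3) := by
            calc (4 : ℝ) ≤ 2 ^ 3 := by norm_num
              _ ≤ 2 ^ (N + 3) := pow_le_pow_right₀ (by norm_num) (by omega)
          rw [hε]
          exact div_le_div_of_nonneg_left hm.le (by norm_num) h8
        linarith) k
      rw [h3]
      have h5 : C₁ * K1 k ^ (L + N + N) * S.dl ε k ≤ 1 / 4 := by
        have h6 := (mul_le_mul_of_nonneg_right b2 (S.dl_pos ε k).le).trans s1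
        linarith
      calc C₁ * K1 k ^ (L + N + N) * (t * S.dl (e - τ (j + 1)) k)
          = t * (C₁ * K1 k ^ (L + N + N) * S.dl (e - τ (j + 1)) k) := by ring
        _ ≤ t * (C₁ * K1 k ^ (L + N + N) * S.dl ε k) := by
            apply mul_le_mul_of_nonneg_left _ ht0.le
            exact mul_le_mul_of_nonneg_left h4 (by linarith)
        _ ≤ t * (1 / 4) := mul_le_mul_of_nonneg_left h5 ht0.le
        _ = t / 4 := by ring
    have h3 : t * G / 2 ≤ G' := by
      have h4 : C₁ * K1 k ^ (L + N + N) * (S.dl e k * G) ≤ t / 4 * G := by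
        rw [← mul_assoc]
        exact mul_le_mul_of_nonneg_right h2 hG0
      have h5 : 0 ≤ t * G := mul_nonneg ht0.le hG0
      linarith
    have h4 : 2 * t ≤ S.dl ε k := by
      have h5 : t ≤ S.dl ε k * S.dl ε k := by
        rw [dl_mul', ht]
        exact S.dl_anti (by linarith [hτlow (j + 1)]) k
      have h6 : 4 * S.dl ε k ≤ 1 := (mul_le_mul_of_nonneg_right (hW4 k) (S.dl_pos ε k).le).trans s1
      have h7 := S.dl_pos ε k
      nlinarith
    have h5 : nv (x.p k ω) (x.q k ω) v ≤ S.dl e k * G := hv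
    refine h5.trans ?_
    rw [hTt2, S.dl_add e ε k]
    have h6 : S.dl e k * S.dl ε k * ((t * t)⁻¹ * G') = S.dl e k * (S.dl ε k * G' / (t * t)) := by
      field_simp
    rw [h6]
    apply mul_le_mul_of_nonneg_left _ (S.dl_pos e k).le
    rw [le_div_iff₀ (by positivity)]
    calc G * (t * t) = (2 * t) * (t * G / 2) := by ring
      _ ≤ S.dl ε k * G' := mul_le_mul h4 h3 (by positivity) (S.dl_pos ε k).le

/-- NO EXCESS -/
theorem CR.no_exs (x : CR S V M D) {e : ℝ} (he : 0 < e) : ¬ x.Exs e := by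
  classical
  intro h
  obtain ⟨ε, hε, hst⟩ := x.step he
  have h1 : ∀ m : ℕ, x.Exs (e + m * ε) := by
    intro m
    induction m with
    | zero => simpa using h
    | succ m ih =>
      have h2 := hst (e + m * ε) (by
        have : (0 : ℝ) ≤ m * ε := by positivity
        linarith) ih
      have h3 : e + (m : ℝ) * ε + ε = e + ((m + 1 : ℕ) : ℝ) * ε := by push_cast; ring
      rwa [h3] at h2
  obtain ⟨m, hm⟩ := exists_nat_gt ((|x.c₀| + 1) / ε)
  have hm2 : |x.c₀| + 1 ≤ e + m * ε := by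
    rw [div_lt_iff₀ hε] at hm
    linarith
  obtain ⟨A, hA, D', g, hgd, -, K, hK, hev⟩ := h1 m
  obtain ⟨C₁, hC₁, hgr⟩ := exists_grad M D'
  have hs := Sub_dl (hK.mul (S.Sub_const (show (0 : ℝ) ≤ 2 * C₁ by positivity))) (show (0 : ℝ) < 1 by norm_num)
  obtain ⟨k, ⟨ω, hω, hAω⟩, hk, hr, hs1, hK0⟩ := ((pos_exists hA).and (hev.and (x.rc.and (hs.and hK.1)))).exists
  obtain ⟨hc, v, hv0, hv⟩ := hk ω hω hAω
  have h2 := hgr (g k ω) (hgd k ω) (x.q k ω) (x.r k) (K k) (x.r0 k) hK0 hc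
  set B : ℝ := C₁ * K k / x.r k with hB
  have h3 : ∀ a, |eval (x.q k ω) (pderiv a (g k ω))| ≤ B := by
    intro a
    rw [hB, le_div_iff₀ (x.r0 k)]
    exact h2 a
  have h4 : |∑ a, v a * eval (x.q k ω) (pderiv a (g k ω))| ≤ (∑ a, |v a|) * B := by
    refine (Finset.abs_sum_le_sum_abs _ _).trans ?_
    rw [Finset.sum_mul]
    refine Finset.sum_le_sum fun a _ => ?_
    rw [abs_mul]
    exact mul_le_mul_of_nonneg_left (h3 a) (abs_nonneg _)
  have h5 : ∑ a, |v a| ≤ nv (x.p k ω) (x.q k ω) v := by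
    unfold nv
    have : 0 ≤ ∑ i, |∑ a, v a * eval (x.q k ω) (pderiv a (x.p k ω i))| := Finset.sum_nonneg fun _ _ => abs_nonneg _
    linarith
  have hB0 : 0 ≤ B := by
    rw [hB]
    have := (x.r0 k).le
    positivity
  have h6 : nv (x.p k ω) (x.q k ω) v ≤ S.dl (e + m * ε) k * (nv (x.p k ω) (x.q k ω) v * B) := by
    refine hv.trans (mul_le_mul_of_nonneg_left (h4.trans (mul_le_mul_of_nonneg_right h5 hB0)) (S.dl_pos _ k).le)
  have h7 : S.dl (e + m * ε) k * B ≤ 1 / 2 := by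
    have h8 : S.dl (e + m * ε) k ≤ S.dl (x.c₀) k * S.dl 1 k := by
      rw [dl_mul']
      exact S.dl_anti (by
        have := le_abs_self x.c₀
        linarith) k
    have h9 : S.dl (e + m * ε) k * B ≤ (S.dl (x.c₀) k * S.dl 1 k) * B := mul_le_mul_of_nonneg_right h8 hB0
    refine h9.trans ?_
    have h10 : S.dl (x.c₀) k * S.dl 1 k * B = (S.dl x.c₀ k / x.r k) * (C₁ * K k * S.dl 1 k) := by
      rw [hB]
      field_simp
    rw [h10]
    have h11 : S.dl x.c₀ k / x.r k ≤ 1 := by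
      rw [div_le_one (x.r0 k)]
      exact hr
    have h12 : 0 ≤ C₁ * K k * S.dl 1 k := by
      have := (S.dl_pos 1 k).le
      positivity
    calc (S.dl x.c₀ k / x.r k) * (C₁ * K k * S.dl 1 k) ≤ 1 * (C₁ * K k * S.dl 1 k) :=
          mul_le_mul_of_nonneg_right h11 h12
      _ ≤ 1 / 2 := by
        rw [one_mul]
        have : K k * (2 * C₁) * S.dl 1 k ≤ 1 := hs1
        linarith
  have h8 : S.dl (e + m * ε) k * (nv (x.p k ω) (x.q k ω) v * B) = nv (x.p k ω) (x.q k ω) v * (S.dl (e + m * ε) k * B) := by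
    ring
  rw [h8] at h6
  have h9 := mul_le_mul_of_nonneg_left h7 hv0.le
  linarith

/-- INNER DIRECTION, for one polynomial -/
theorem CR.inner (x : CR S V M D) {D' : ℕ} {g : ∀ k, (S.F k).Ω → MvPolynomial (Fin M) ℝ}
    (hgd : ∀ k ω, (g k ω).totalDegree ≤ D') (hgn : Kn V g) {K : ℕ → ℝ} (hK : S.Sub K)
    (hg : Typ fun k ω => ∀ y, Cub (x.q k ω) (x.r k) y → |eval y (g k ω)| ≤ K k) {e : ℝ} (he : 0 < e) :
    Typ fun k ω => ∀ v : Fin M → ℝ, S.dl e k * |∑ a, v a * eval (x.q k ω) (pderiv a (g k ω))| ≤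
      nv (x.p k ω) (x.q k ω) v := by
  classical
  rcases typ_or (S := S) (E := fun k ω => ∀ v : Fin M → ℝ, S.dl e k *
    |∑ a, v a * eval (x.q k ω) (pderiv a (g k ω))| ≤ nv (x.p k ω) (x.q k ω) v) with h | h
  · exact h
  · exfalso
    refine x.no_exs he ⟨_, pos_and_typ h hg, D', g, hgd, hgn, K, hK, Eventually.of_forall fun k ω hω hA => ⟨hA.2, ?_⟩⟩
    obtain ⟨h1, -⟩ := hA
    push Not at h1
    obtain ⟨v, hv⟩ := h1
    refine ⟨v, ?_, hv.le⟩
    rcases (nv_nonneg (x.p k ω) (x.q k ω) v).eq_or_lt with h0 | h0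
    · exfalso
      have h2 : ∀ a, v a = 0 := by
        have h3 : ∑ a, |v a| = 0 := by
          have h4 : 0 ≤ ∑ a, |v a| := Finset.sum_nonneg fun _ _ => abs_nonneg _
          have h5 : 0 ≤ ∑ i, |∑ a, v a * eval (x.q k ω) (pderiv a (x.p k ω i))| :=
            Finset.sum_nonneg fun _ _ => abs_nonneg _
          have h6 : nv (x.p k ω) (x.q k ω) v = ∑ a, |v a| +
            ∑ i, |∑ a, v a * eval (x.q k ω) (pderiv a (x.p k ω i))| := rfl
          linarith
        intro a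
        have := (Finset.sum_eq_zero_iff_of_nonneg (fun a _ => abs_nonneg (v a))).mp h3 a (Finset.mem_univ a)
        exact abs_eq_zero.mp this
      have h3 : ∑ a, v a * eval (x.q k ω) (pderiv a (g k ω)) = 0 := Finset.sum_eq_zero fun a _ => by rw [h2 a, zero_mul]
      rw [h3, abs_zero, mul_zero] at hv
      linarith [nv_nonneg (x.p k ω) (x.q k ω) v]
    · exact h0

end

end Pool.Agent.Helper49.KL
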