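import Pool.Agent.Helper49.KL.Core
import Pool.Agent.Helper26.BXD.Tht
import Pool.Agent.Helper7.RD.Kv

/-! INNER DIRECTION, row images: the point `X` of a space is the value of rows (polynomials which are known to the base) at
a literal point `q`. If forms which are known to a label of the space have no small values at `X` then every form in the
variables of `q` which is known to the label and tame on the cell of `q` has gradients which are bounded by the gradients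
of the rows. -/

set_option autoImplicit false

namespace Pool.Agent.Helper49.KL

open MvPolynomial Matrix Finset Filter Topology Pool.Agent.Helper69.RK Pool.Agent.Helper31.EC
  Pool.Agent.Helper31.EC.Sp
open Pool.Agent.Helper40.EL Pool.Agent.Helper89.LX Pool.Agent.Helper3.LF Pool.Agent.Helper84.MT
open Pool.Agent.Helper95.LF (PdM det_mono det_le_pow dv_add dv_smul self_pos)
open Pool.Agent.Helper26.BXD (Fm NG nsv Bcl)
open Pool.Agent.Helper77.WDG (nrm nrm_nonneg coeff_le_nrm)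
open Pool.Agent.Helper36.AM (cfs pol_cfs)
open Pool.Agent.Helper14.MC (gx vx vol_eq vx_UB)

noncomputable section

variable {S : Sp} {M : ℕ}

/-! ### row images -/

/-- ROW IMAGE -/
structure RI (X : S.VV M) where
  q : ∀ k, (S.F k).Ω → Fin M → ℝ
  r : ℕ → ℝ
  r0 : ∀ k, 0 < r k
  c₀ : ℝ
  rc : ∀ᶠ k in UF, S.dl c₀ k ≤ r k
  D : ℕ
  p : ∀ k, (S.F k).Ω → Fin M → MvPolynomial (Fin M) ℝ
  deg : ∀ k ω i, (p k ω i).totalDegree ≤ D
  kn : ∀ᶠ k in UF, ∀ ω ω', (S.F k).μ ω ≠ 0 → (S.F k).μ ω' ≠ 0 → (S.F k).Z ω ω' → p k ω = p k ω'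
  K : ℕ → ℝ
  Ks : S.Sub K
  typ : Typ fun k ω => (∀ i, |X.v k ω i - eval (q k ω) (p k ω i)| ≤ K k * S.dl 1 k) ∧
    ∀ y, Cub (q k ω) (r k) y → ∀ i, |eval y (p k ω i) - eval (q k ω) (p k ω i)| ≤ K k * S.dl 1 k

/-- forms which are known to the label `l` have no small values at `X` -/
def NSV (X : S.VV M) (l : Lab S) : Prop := ∀ (D : ℕ) (G : Fm l M D) (η : ℝ), 0 < η →
  Tendsto (fun k => (l k).T.pb (fun ω => ¬ (G.g k ω).trace ≤ 2 ^ (η * (S.F k).n) *
      (vv (X.v k ((l k).p.π ω)) ⬝ᵥ (G.g k ω *ᵥ vv (X.v k ((l k).p.π ω)))))) UF (𝓝 0)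

theorem NSV.of_ng {κ : Type} [Finite κ] {C : LC S} {X : S.VV M} {A : κ → Part S} {l : Lab S} (hN : NG C X A)
    (hl : l.DMf A) (hC : Bcl C X l) : NSV X l := fun _ G η hη => nsv hN hl G hC η hη

/-! ### rank one forms -/

/-- the rank one form -/
def rk {D : ℕ} (c : Mon M D → ℝ) : Matrix (Mon M D) (Mon M D) ℝ := Matrix.vecMulVec c c

theorem rk_qf {D : ℕ} (c x : Mon M D → ℝ) : x ⬝ᵥ (rk c *ᵥ x) = (c ⬝ᵥ x) ^ 2 := by
  unfold rk
  have h1 : Matrix.vecMulVec c c *ᵥ x = fun a => (c ⬝ᵥ x) * c a := by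
    funext a
    unfold Matrix.mulVec Matrix.vecMulVec dotProduct
    simp only [Matrix.of_apply]
    rw [Finset.sum_mul]
    exact Finset.sum_congr rfl fun b _ => by ring
  rw [h1]
  unfold dotProduct
  have h2 : ∀ a, x a * ((∑ b, c b * x b) * c a) = (∑ b, c b * x b) * (c a * x a) := fun a => by ring
  rw [Finset.sum_congr rfl fun a _ => h2 a, ← Finset.mul_sum, pow_two]

theorem rk_symm {D : ℕ} (c : Mon M D → ℝ) : (rk c).IsSymm := by
  unfold rk Matrix.IsSymm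
  ext a b
  rw [Matrix.transpose_apply, Matrix.vecMulVec_apply, Matrix.vecMulVec_apply, mul_comm]

theorem rk_trace {D : ℕ} (c : Mon M D → ℝ) : (rk c).trace = ∑ a, c a ^ 2 := by
  unfold rk Matrix.trace
  refine Finset.sum_congr rfl fun a _ => ?_
  rw [Matrix.diag_apply, Matrix.vecMulVec_apply, pow_two]

/-- the value of a polynomial of norm one -/
theorem one_le_trace {D : ℕ} {h : MvPolynomial (Fin M) ℝ} (hd : h.totalDegree ≤ D) (h1 : nrm h = 1) :
    1 ≤ (Fintype.card (Mon M D) : ℝ) * (rk (cfs D h)).trace := by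
  have e1 : nrm h ≤ ∑ a, |cfs D h a| := by
    have := nrm_pol (cfs D h)
    rwa [pol_cfs h hd] at this
  rw [rk_trace]
  have e2 := Finset.sum_mul_sq_le_sq_mul_sq (Finset.univ : Finset (Mon M D)) (fun a => |cfs D h a|) (fun _ => 1)
  simp only [mul_one, one_pow, sq_abs, Finset.sum_const, Finset.card_univ, nsmul_eq_mul] at e2
  rw [h1] at e1
  have e3 : (1 : ℝ) ≤ (∑ a, |cfs D h a|) ^ 2 := one_le_pow₀ e1
  rw [mul_comm]
  linarith

theorem rk_eval {D : ℕ} {h : MvPolynomial (Fin M) ℝ} (hd : h.totalDegree ≤ D) (x : Fin M → ℝ) :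
    vv x ⬝ᵥ (rk (cfs D h) *ᵥ vv x) = (eval x h) ^ 2 := by
  rw [rk_qf, ← eval_pol, pol_cfs h hd]

/-! ### the data of the core -/

theorem typ_pull {l : Lab S} {E : ∀ k, (S.F k).Ω → Prop} (hE : Typ E) :
    Typ (S := l.sp) (fun k (ω : (l k).T.Ω) => E k ((l k).p.π ω)) := by
  have h1 : Tendsto (fun k => (l k).T.pb (fun ω => ¬ E k ((l k).p.π ω))) UF (𝓝 0) := by
    refine Tendsto.congr (fun k => ?_) hE
    exact (pb_push (l k).p _).symm
  exact h1

theorem sp_dl (l : Lab S) (a : ℝ) (k : ℕ) : l.sp.dl a k = S.dl a k := by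
  unfold Sp.dl
  have h1 : (l.sp.F k).n = (S.F k).n := (l k).hn
  rw [h1]

/-- values at two points which are near -/
theorem near_eval {L : ℕ} {h : MvPolynomial (Fin M) ℝ} (hd : h.totalDegree ≤ L) (h1 : nrm h = 1) {X Y : Fin M → ℝ} {K ρ : ℝ}
    (hK : 1 ≤ K) (hX : ∀ i, |X i| ≤ K) (hY : ∀ i, |Y i| ≤ K) (hXY : ∀ i, |Y i - X i| ≤ ρ) (hρ : 0 ≤ ρ) :
    |eval Y h - eval X h| ≤ L * K ^ L * ρ := by
  have h2 := Pool.Agent.Helper77.WDG.eval_sub_le (P := h) hK hρ hd (u := Y) (v := X) (fun i _ => hY i) (fun i _ => hX i)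
    (fun i _ => hXY i)
  rwa [h1, one_mul] at h2

namespace RI

variable {X : S.VV M} (x : RI X) {l : Lab S}

/-- the size of the values -/
def B (k : ℕ) : ℝ := X.bd.choose k + x.K k + 1

theorem B_sub : S.Sub x.B := (X.bd.choose_spec.1.add x.Ks).add (S.Sub_const zero_le_one)

theorem B_le : ∀ᶠ k in UF, 1 ≤ x.B k ∧ ∀ ω, (S.F k).μ ω ≠ 0 → (∀ i, |X.v k ω i| ≤ x.B k) ∧
    ((∀ i, |X.v k ω i - eval (x.q k ω) (x.p k ω i)| ≤ x.K k * S.dl 1 k) → ∀ i, |eval (x.q k ω) (x.p k ω i)| ≤ x.B k) := by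
  filter_upwards [X.bd.choose_spec.2, X.bd.choose_spec.1.1, x.Ks.1] with k h1 h2 h3
  have hd1 := dl_one_le S k
  have hd := S.dl_pos 1 k
  have h4 : x.K k * S.dl 1 k ≤ x.K k := mul_le_of_le_one_right h3 hd1
  unfold B
  refine ⟨by linarith, fun ω hω => ⟨fun i => by linarith [h1 ω hω i], fun h i => ?_⟩⟩
  have h5 := abs_sub_abs_le_abs_sub (eval (x.q k ω) (x.p k ω i)) (X.v k ω i)
  rw [abs_sub_comm] at h5
  linarith [h i, h1 ω hω i]

open Classical in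
/-- a polynomial which is known to the label as a form -/
def pf (l : Lab S) (L : ℕ) (h : ∀ k, (l.sp.F k).Ω → MvPolynomial (Fin M) ℝ) : Fm l M L where
  g := fun k ω => if (∀ ω ω', (l k).T.μ ω ≠ 0 → (l k).T.μ ω' ≠ 0 → (l k).T.Z ω ω' → (l k).V ω ω' → h k ω = h k ω')
    then rk (cfs L (h k ω)) else 0
  ms := fun k ω ω' a b c d => by
    split_ifs with h1
    · rw [h1 ω ω' a b d c]
    · rfl
  sy := fun k ω => by
    split_ifs
    · exact rk_symm _
    · exact Matrix.isSymm_zero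
  nn := fun k ω y => by
    split_ifs
    · rw [rk_qf]
      exact sq_nonneg _
    · rw [Matrix.zero_mulVec, dotProduct_zero]

theorem nsv_val (hN : NSV X l) (L : ℕ) (h : ∀ k, (l.sp.F k).Ω → MvPolynomial (Fin M) ℝ)
    (hd : ∀ k ω, (h k ω).totalDegree ≤ L) (hk : Kn (S := l.sp) (fun k => (l k).V) h) (h1 : ∀ k ω, nrm (h k ω) = 1)
    (δ : ℝ) (hδ : 0 < δ) : Typ (S := l.sp) fun k ω =>
      S.dl δ k ≤ |eval (fun i => eval (x.q k ((l k).p.π ω)) (x.p k ((l k).p.π ω) i)) (h k ω)| := by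
  classical
  set δ' : ℝ := min δ 1 with hδ'
  have hδ0 : 0 < δ' := lt_min hδ one_pos
  have hδ1 : δ' ≤ 1 := min_le_right _ _
  have h2 : Typ (S := l.sp) (fun k ω => ((pf l L h).g k ω).trace ≤ 2 ^ (δ' * (S.F k).n) *
      (vv (X.v k ((l k).p.π ω)) ⬝ᵥ ((pf l L h).g k ω *ᵥ vv (X.v k ((l k).p.π ω))))) := hN L (pf l L h) δ' hδ0
  set c : ℝ := (Fintype.card (Mon M L) : ℝ) with hc
  have hc1 : (1 : ℝ) ≤ c := by
    have : 1 ≤ Fintype.card (Mon M L) := Fintype.card_pos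
    rw [hc]
    exact_mod_cast this
  -- the constants
  have hs1 := Sub_dl (S.Sub_const (K := 2 * c) (by linarith)) (δ := δ' / 2) (by linarith)
  have hs2 : S.Sub (fun k => 2 * c * (L * x.B k ^ L * x.K k)) :=
    (S.Sub_const (by linarith)).mul (((S.Sub_const (Nat.cast_nonneg L)).mul (Sub_pow' x.B_sub L)).mul x.Ks)
  have hs3 := Sub_dl hs2 (δ := 1 - δ' / 2) (by linarith)
  refine (h2.and (typ_pull (l := l) x.typ)).mono ?_
  filter_upwards [hk, hs1, hs3, x.B_le, x.Ks.1] with k hk0 a1 a2 a3 a4 ω hω hh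
  obtain ⟨b1, b2, -⟩ := hh
  have hω' : (S.F k).μ ((l k).p.π ω) ≠ 0 := (l k).p.supp ω hω
  obtain ⟨a5, a6⟩ := a3
  obtain ⟨a7, a8⟩ := a6 _ hω'
  have hg : (∀ ω ω', (l k).T.μ ω ≠ 0 → (l k).T.μ ω' ≠ 0 → (l k).T.Z ω ω' → (l k).V ω ω' → h k ω = h k ω') := hk0
  have e1 : (pf l L h).g k ω = rk (cfs L (h k ω)) := if_pos hg
  rw [e1, rk_eval (hd k ω)] at b1
  have e2 := one_le_trace (hd k ω) (h1 k ω)
  have hn := (S.F k).pos
  -- the value at `X`
  have hdl : (2 : ℝ) ^ (δ' * (S.F k).n) * S.dl δ' k = 1 := by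
    unfold Sp.dl
    rw [← Real.rpow_add (by norm_num)]
    have : δ' * (S.F k).n + -(δ' * (S.F k).n) = 0 := by ring
    rw [this, Real.rpow_zero]
  have hd0 := S.dl_pos δ' k
  have hsq : S.dl (δ' / 2) k * S.dl (δ' / 2) k = S.dl δ' k := by
    rw [dl_mul']
    congr 1
    ring
  have hh0 := S.dl_pos (δ' / 2) k
  set v : ℝ := eval (X.v k ((l k).p.π ω)) (h k ω) with hv
  have b3 : S.dl δ' k ≤ c * v ^ 2 := by
    have e3 : 1 ≤ c * (2 ^ (δ' * (S.F k).n) * v ^ 2) := e2.trans (mul_le_mul_of_nonneg_left b1 (by linarith))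
    calc S.dl δ' k = S.dl δ' k * 1 := (mul_one _).symm
      _ ≤ S.dl δ' k * (c * (2 ^ (δ' * (S.F k).n) * v ^ 2)) := mul_le_mul_of_nonneg_left e3 hd0.le
      _ = (2 ^ (δ' * (S.F k).n) * S.dl δ' k) * (c * v ^ 2) := by ring
      _ = c * v ^ 2 := by rw [hdl, one_mul]
  have b4 : S.dl (δ' / 2) k ≤ c * |v| := by
    by_contra hcon
    rw [not_le] at hcon
    have h3 : (c * |v|) * (c * |v|) < S.dl (δ' / 2) k * S.dl (δ' / 2) k :=
      mul_self_lt_mul_self (mul_nonneg (by linarith) (abs_nonneg _)) hcon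
    rw [hsq] at h3
    have h4 : c * |v| * (c * |v|) = c * (c * v ^ 2) := by
      rw [← sq_abs v]
      ring
    rw [h4] at h3
    have h5 : c * v ^ 2 ≤ c * (c * v ^ 2) := by
      have : 0 ≤ c * v ^ 2 := mul_nonneg (by linarith) (sq_nonneg _)
      nlinarith
    linarith
  -- the value at the rows
  have b5 := near_eval (hd k ω) (h1 k ω) (ρ := x.K k * S.dl 1 k) a5 a7 (a8 b2) (fun i => by
    rw [abs_sub_comm]
    exact b2 i) (mul_nonneg a4 (S.dl_pos 1 k).le)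
  set w : ℝ := eval (fun i => eval (x.q k ((l k).p.π ω)) (x.p k ((l k).p.π ω) i)) (h k ω) with hw
  have b6 : |v| - |w| ≤ (L : ℝ) * x.B k ^ L * (x.K k * S.dl 1 k) := by
    have := abs_sub_abs_le_abs_sub v w
    rw [abs_sub_comm] at this
    exact this.trans b5
  have hsp : S.dl (1 - δ' / 2) k * S.dl (δ' / 2) k = S.dl 1 k := by
    rw [dl_mul']
    congr 1
    ring
  have b7 : 2 * c * ((L : ℝ) * x.B k ^ L * (x.K k * S.dl 1 k)) ≤ S.dl (δ' / 2) k := by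
    rw [← hsp]
    calc 2 * c * ((L : ℝ) * x.B k ^ L * (x.K k * (S.dl (1 - δ' / 2) k * S.dl (δ' / 2) k))) =
        (2 * c * (L * x.B k ^ L * x.K k) * S.dl (1 - δ' / 2) k) * S.dl (δ' / 2) k := by ring
      _ ≤ 1 * S.dl (δ' / 2) k := mul_le_mul_of_nonneg_right a2 hh0.le
      _ = _ := one_mul _
  have b8 : S.dl (δ' / 2) k ≤ 2 * c * |w| := by
    have h3 : 2 * c * (|v| - |w|) ≤ S.dl (δ' / 2) k := (mul_le_mul_of_nonneg_left b6 (by linarith)).trans b7
    linarith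
  have b9 : S.dl δ' k ≤ |w| := by
    rw [← hsq]
    calc S.dl (δ' / 2) k * S.dl (δ' / 2) k ≤ S.dl (δ' / 2) k * (2 * c * |w|) := mul_le_mul_of_nonneg_left b8 hh0.le
      _ = (2 * c * S.dl (δ' / 2) k) * |w| := by ring
      _ ≤ 1 * |w| := mul_le_mul_of_nonneg_right a1 (abs_nonneg _)
      _ = _ := one_mul _
  exact (S.dl_anti (min_le_left δ 1) k).trans b9

/-- THE DATA OF THE CORE -/
def cr (hN : NSV X l) : CR l.sp (fun k => (l k).V) M x.D where
  q := fun k (ω : (l k).T.Ω) => x.q k ((l k).p.π ω)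
  r := x.r
  r0 := x.r0
  c₀ := x.c₀
  rc := by
    filter_upwards [x.rc] with k hk
    rw [sp_dl]
    exact hk
  p := fun k (ω : (l k).T.Ω) => x.p k ((l k).p.π ω)
  deg := fun k ω i => x.deg k _ i
  kn := by
    filter_upwards [x.kn] with k hk ω ω' a b c d
    exact hk _ _ ((l k).p.supp ω a) ((l k).p.supp ω' b) (((l k).p.hZ ω ω' a b).1 c)
  K := x.B
  Ks := (sp_Sub _).mpr x.B_sub
  typ := by
    refine (typ_pull (l := l) x.typ).mono ?_
    filter_upwards [x.B_le, X.bd.choose_spec.1.1] with k h1 h2 ω hω h3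
    have hω' : (S.F k).μ ((l k).p.π ω) ≠ 0 := (l k).p.supp ω hω
    refine ⟨(h1.2 _ hω').2 h3.1, fun y hy i => (h3.2 y hy i).trans ?_⟩
    rw [sp_dl]
    apply mul_le_mul_of_nonneg_right _ (S.dl_pos 1 k).le
    unfold B
    linarith
  nsv := fun L h hd hk h1 δ hδ => by
    refine (x.nsv_val hN L h hd hk h1 δ hδ).mono (Eventually.of_forall fun k ω hω h2 => ?_)
    rw [sp_dl]
    exact h2


end RI

/-! ### forms -/

/-- the variation of the rows -/
def gr (p : Fin M → MvPolynomial (Fin M) ℝ) (q v : Fin M → ℝ) : ℝ :=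
  v ⬝ᵥ v + ∑ i, (∑ a, v a * eval q (pderiv a (p i))) ^ 2

theorem gr_nonneg (p : Fin M → MvPolynomial (Fin M) ℝ) (q v : Fin M → ℝ) : 0 ≤ gr p q v :=
  add_nonneg (dot_self_nonneg v) (Finset.sum_nonneg fun _ _ => sq_nonneg _)

theorem nv_sq (p : Fin M → MvPolynomial (Fin M) ℝ) (q v : Fin M → ℝ) : nv p q v ^ 2 ≤ 2 * M * gr p q v := by
  have h1 := Finset.sum_mul_sq_le_sq_mul_sq (Finset.univ : Finset (Fin M)) (fun a => |v a|) (fun _ => 1)
  have h2 := Finset.sum_mul_sq_le_sq_mul_sq (Finset.univ : Finset (Fin M))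
    (fun i => |∑ a, v a * eval q (pderiv a (p i))|) (fun _ => 1)
  simp only [mul_one, one_pow, sq_abs, Finset.sum_const, Finset.card_univ, nsmul_eq_mul, Fintype.card_fin] at h1 h2
  have h3 : v ⬝ᵥ v = ∑ a, v a ^ 2 := Finset.sum_congr rfl fun a _ => (pow_two _).symm
  unfold nv gr
  rw [h3]
  set a := ∑ a, |v a|
  set b := ∑ i, |∑ a, v a * eval q (pderiv a (p i))|
  nlinarith [sq_nonneg (a - b)]

theorem gram_sum {D : ℕ} (r : ℝ) {A : Matrix (Mon M D) (Mon M D) ℝ} (h : PdM A) (y e : Fin M → ℝ) :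
    e ⬝ᵥ ((1 + Jq r A y) *ᵥ e) = ∑ w : RIx M D, (∑ a, e a * eval y (pderiv a (rfam r A w))) ^ 2 := by
  rw [← rfam_gram r h y]
  unfold dotProduct Matrix.mulVec dotProduct
  simp only [Matrix.of_apply]
  have e1 : ∀ a b, (∑ w : RIx M D, eval y (pderiv a (rfam r A w)) * eval y (pderiv b (rfam r A w))) * e b =
      ∑ w : RIx M D, eval y (pderiv a (rfam r A w)) * (eval y (pderiv b (rfam r A w)) * e b) := by
    intro a b
    rw [Finset.sum_mul]
    exact Finset.sum_congr rfl fun w _ => by ring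
  calc ∑ a, e a * ∑ b, (∑ w : RIx M D, eval y (pderiv a (rfam r A w)) * eval y (pderiv b (rfam r A w))) * e b
      = ∑ a, ∑ b, ∑ w : RIx M D, (e a * eval y (pderiv a (rfam r A w))) * (e b * eval y (pderiv b (rfam r A w))) := by
        refine Finset.sum_congr rfl fun a _ => ?_
        rw [Finset.mul_sum]
        refine Finset.sum_congr rfl fun b _ => ?_
        rw [e1, Finset.mul_sum]
        exact Finset.sum_congr rfl fun w _ => by ring
    _ = ∑ a, ∑ w : RIx M D, ∑ b, (e a * eval y (pderiv a (rfam r A w))) * (e b * eval y (pderiv b (rfam r A w))) :=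
        Finset.sum_congr rfl fun a _ => Finset.sum_comm
    _ = ∑ w : RIx M D, ∑ a, ∑ b, (e a * eval y (pderiv a (rfam r A w))) * (e b * eval y (pderiv b (rfam r A w))) :=
        Finset.sum_comm
    _ = _ := by
        refine Finset.sum_congr rfl fun w _ => ?_
        rw [pow_two, Finset.sum_mul_sum]

namespace RI

variable {X : S.VV M} (x : RI X) {l : Lab S}

/-- INNER DIRECTION for forms -/
theorem form_le (hN : NSV X l) {D' : ℕ} (hD' : 1 ≤ D') (g : ∀ k, (l k).T.Ω → Matrix (Mon M D') (Mon M D') ℝ)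
    (hg : Kn (S := l.sp) (fun k => (l k).V) g) (c : ℕ → ℝ) (hc : ∀ᶠ k in UF, ∀ ω, (l k).T.μ ω ≠ 0 → Cpd (c k) (g k ω))
    {K : ℕ → ℝ} (hK : S.Sub K)
    (hφ : Typ (S := l.sp) fun k ω => phi (x.r k) (g k ω) (x.q k ((l k).p.π ω)) ≤ K k) {e : ℝ} (he : 0 < e) :
    Typ (S := l.sp) fun k ω => ∀ v, v ⬝ᵥ ((1 + Jq (x.r k) (g k ω) (x.q k ((l k).p.π ω))) *ᵥ v) ≤
      2 ^ (e * (S.F k).n) * gr (x.p k ((l k).p.π ω)) (x.q k ((l k).p.π ω)) v := by
  classical
  set cc : ℝ := nn M D' * (Cu D' * Cm M D' * 2 ^ D') ^ 2 with hcc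
  have hcc0 : 0 ≤ cc := by
    have := nn_one M D'
    rw [hcc]
    positivity
  have hK' : l.sp.Sub (fun k => cc * K k + 1) := (sp_Sub _).mpr (((S.Sub_const hcc0).mul hK).add (S.Sub_const zero_le_one))
  have h1 : ∀ w : RIx M D', Typ (S := l.sp) fun k ω => ∀ v : Fin M → ℝ,
      l.sp.dl (e / 4) k * |∑ a, v a * eval (x.q k ((l k).p.π ω)) (pderiv a (rfam (x.r k) (g k ω) w))| ≤
        nv (x.p k ((l k).p.π ω)) (x.q k ((l k).p.π ω)) v := by
    intro w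
    refine (x.cr hN).inner (D' := D') (g := fun k ω => rfam (x.r k) (g k ω) w) (fun k ω => rfam_deg hD' _ _ w)
      (hg.comp fun k A => rfam (x.r k) A w) hK' ?_ (by linarith)
    refine hφ.mono ?_
    filter_upwards [hc, hK.1] with k hk hK0 ω hω h2 y hy
    have h3 := hk ω hω
    have h4 := phi_comp (g k ω) (cpd_pdm h3) (x.r k) (x.r k) 2 (x.r0 k) (x.r0 k).le (by norm_num)
      (x.q k ((l k).p.π ω)) y (fun i => by
        have : |y i - x.q k ((l k).p.π ω) i| ≤ x.r k := hy i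
        linarith)
    have h5 := rfam_sq_le hD' (x.r k) h3 y w
    refine abs_le_of_sq_le_sq ?_ (by positivity)
    refine h5.trans (h4.trans ?_)
    have h6 : nn M D' * (Cu D' * Cm M D' * 2 ^ D') ^ 2 * phi (x.r k) (g k ω) (x.q k ((l k).p.π ω)) ≤ cc * K k :=
      mul_le_mul_of_nonneg_left h2 hcc0
    have h7 : 0 ≤ cc * K k := mul_nonneg hcc0 hK0
    nlinarith
  have h2 := Pool.Agent.Helper7.GZ.Typ_all (S := l.sp) _ h1
  have hs := Sub_dl (S := S) (S.Sub_const (K := 2 * M * nrw M D') (by positivity)) (δ := e / 2) (by linarith)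
  refine h2.mono ?_
  filter_upwards [hc, hs] with k hk hs1 ω hω h3 v
  have hpd := cpd_pdm (hk ω hω)
  rw [gram_sum _ hpd]
  set G := gr (x.p k ((l k).p.π ω)) (x.q k ((l k).p.π ω)) v with hG
  have hG0 : 0 ≤ G := gr_nonneg _ _ _
  have hd := S.dl_pos (e / 4) k
  have hd2 := S.dl_pos (e / 2) k
  have hsq : S.dl (e / 4) k ^ 2 = S.dl (e / 2) k := by
    rw [pow_two, dl_mul']
    congr 1
    ring
  have h4 : ∀ w ∈ (Finset.univ : Finset (RIx M D')), (∑ a, v a * eval (x.q k ((l k).p.π ω))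
      (pderiv a (rfam (x.r k) (g k ω) w))) ^ 2 ≤ (S.dl (e / 2) k)⁻¹ * (2 * M * G) := by
    intro w _
    have h5 := h3 w v
    rw [sp_dl] at h5
    have h6 : (S.dl (e / 4) k * |∑ a, v a * eval (x.q k ((l k).p.π ω)) (pderiv a (rfam (x.r k) (g k ω) w))|) ^ 2 ≤
        2 * M * G := (pow_le_pow_left₀ (by positivity) h5 2).trans (nv_sq _ _ _)
    rw [mul_pow, hsq, sq_abs] at h6
    rw [inv_mul_eq_div, le_div_iff₀ hd2, mul_comm]
    exact h6
  refine (Finset.sum_le_card_nsmul _ _ _ h4).trans ?_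
  rw [nsmul_eq_mul, Finset.card_univ]
  have h7 : (2 : ℝ) ^ (e * (S.F k).n) * (S.dl (e / 2) k * S.dl (e / 2) k) = 1 := by
    rw [dl_mul']
    unfold Sp.dl
    rw [← Real.rpow_add (by norm_num)]
    have : e * (S.F k).n + -((e / 2 + e / 2) * (S.F k).n) = 0 := by ring
    rw [this, Real.rpow_zero]
  have h8 : (Fintype.card (RIx M D') : ℝ) * ((S.dl (e / 2) k)⁻¹ * (2 * M * G)) =
      (2 * M * nrw M D' * S.dl (e / 2) k) * (2 ^ (e * (S.F k).n) * G) := by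
    have h9 : (S.dl (e / 2) k)⁻¹ = 2 ^ (e * (S.F k).n) * S.dl (e / 2) k := by
      rw [inv_eq_iff_eq_inv, eq_comm, inv_eq_iff_eq_inv]
      refine eq_inv_of_mul_eq_one_left ?_
      rw [mul_assoc]
      exact h7
    rw [h9]
    unfold nrw
    ring
  rw [h8]
  have h10 : 0 ≤ 2 ^ (e * (S.F k).n) * G := by positivity
  calc (2 * M * nrw M D' * S.dl (e / 2) k) * (2 ^ (e * (S.F k).n) * G) ≤ 1 * (2 ^ (e * (S.F k).n) * G) :=
        mul_le_mul_of_nonneg_right hs1 h10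
    _ = _ := one_mul _

end RI

/-! ### volumes -/

/-- the space of a label as an extension of finite spaces (the base does not enter) -/
structure Tr (l : Lab S) (F : ℕ → FSp) where
  ρ : ∀ k, (l k).T.Ω → (F k).Ω
  sp : ∀ k ω, (l k).T.μ ω ≠ 0 → (F k).μ (ρ k ω) ≠ 0
  pb : ∀ k (E : (F k).Ω → Prop), (l k).T.pb (fun ω => E (ρ k ω)) = (F k).pb E
  sm : ∀ k (f : (F k).Ω → ℝ), ∑ ω, (l k).T.μ ω * f (ρ k ω) = ∑ ω, (F k).μ ω * f ω

theorem Sub_of_n {S S₀ : Sp} {u : ℝ} (hu : 0 < u) (hn : ∀ k, (S.F k).n = u * (S₀.F k).n) {K : ℕ → ℝ} (hK : S₀.Sub K) :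
    S.Sub K := by
  refine ⟨hK.1, ?_⟩
  have h1 := hK.2.const_mul u⁻¹
  rw [mul_zero] at h1
  refine h1.congr fun k => ?_
  rw [hn]
  have := (S₀.F k).pos
  field_simp

namespace RI

variable {S₀ : Sp} {Q : S₀.VV M} {D : ℕ} {X : S.VV M} (z : RI X) {l : Lab S}

/-- VOLUMES: the volume of every form in the variables of `q` is at least the volume of the rows -/
theorem vol_ge {κ : Type} {A : κ → Part S₀} {x : ∀ k, FD (S₀.F k) (Mon M D)} (hx : (gaq Q D).Adf A x) (hD : 1 ≤ D)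
    (hN : NSV X l) (t : Tr l (fun k => (x k).l.T)) (hr : z.r = S₀.dl 1)
    (hq : ∀ k ω, (l k).T.μ ω ≠ 0 → z.q k ((l k).p.π ω) = Q.v k ((x k).l.p.π (t.ρ k ω)))
    (hV : ∀ᶠ k in UF, ∀ ω ω', (l k).T.μ ω ≠ 0 → (l k).T.μ ω' ≠ 0 → (l k).T.Z ω ω' → (l k).V ω ω' →
      (x k).l.V (t.ρ k ω) (t.ρ k ω') ∧ (x k).l.T.Z (t.ρ k ω) (t.ρ k ω'))
    {u : ℝ} (hu : 0 < u) (hn : ∀ k, (S.F k).n = u * (S₀.F k).n)
    (lam : ∀ k, (l k).T.Ω → ℝ) (Cl : ℝ) (hlb : ∀ᶠ k in UF, ∀ ω, (l k).T.μ ω ≠ 0 → |lam k ω| ≤ Cl)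
    (B : ∀ k, (l k).T.Ω → Matrix (Fin M) (Fin M) ℝ) {K : ℕ → ℝ} (hK : S₀.Sub K)
    (hB : Typ (S := l.sp) fun k (ω : (l k).T.Ω) => PdM (B k ω) ∧
      (∀ v, gr (z.p k ((l k).p.π ω)) (z.q k ((l k).p.π ω)) v ≤ K k * (v ⬝ᵥ (B k ω *ᵥ v))) ∧
      (B k ω).det ≤ K k * 2 ^ (2 * lam k ω * (S₀.F k).n)) :
    M - ul (fun k => ∑ ω, (l k).T.μ ω * lam k ω) ≤ vol Q D x := by
  classical
  obtain ⟨K1, hK1, hT⟩ := Pool.Agent.Helper14.MC.adf_sub hx
  obtain ⟨Cy, hCy, hbd⟩ := gx_bd hx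
  have hφ : Typ (S := l.sp) fun k (ω : (l k).T.Ω) => phi (z.r k) ((x k).g (t.ρ k ω)) (z.q k ((l k).p.π ω)) ≤ K1 k := by
    have h1 : Tendsto (fun k => (l k).T.pb (fun ω => ¬ (gaq Q D).φ k ((x k).l.p.π (t.ρ k ω)) ((x k).g (t.ρ k ω)) ≤ K1 k))
        UF (𝓝 0) := by
      refine Tendsto.congr (fun k => ?_) hT
      exact (t.pb k (fun ω => ¬ (gaq Q D).φ k ((x k).l.p.π ω) ((x k).g ω) ≤ K1 k)).symm
    have h2 : Typ (S := l.sp) (fun k (ω : (l k).T.Ω) => (gaq Q D).φ k ((x k).l.p.π (t.ρ k ω)) ((x k).g (t.ρ k ω)) ≤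
      K1 k) := h1
    refine h2.mono (Eventually.of_forall fun k ω hω h3 => ?_)
    rw [hr, hq k ω hω]
    exact h3
  have hg : Kn (S := l.sp) (fun k => (l k).V) (fun k (ω : (l k).T.Ω) => (x k).g (t.ρ k ω)) := by
    filter_upwards [hV] with k hk ω ω' a b c d
    obtain ⟨h1, h2⟩ := hk ω ω' a b c d
    exact ((x k).meas _ _ (t.sp k ω a) (t.sp k ω' b) h1 h2).1
  have hc : ∀ᶠ k in UF, ∀ ω, (l k).T.μ ω ≠ 0 → Cpd ((gaq Q D).cp k) ((x k).g (t.ρ k ω)) := by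
    filter_upwards [hx 1 one_pos] with k hk ω hω
    exact (hk.2.1 _ (t.sp k ω hω)).1
  have key : ∀ e : ℝ, 0 < e → Typ (S := l.sp) (fun k (ω : (l k).T.Ω) => ∀ v,
      v ⬝ᵥ ((1 + Jq (z.r k) ((x k).g (t.ρ k ω)) (z.q k ((l k).p.π ω))) *ᵥ v) ≤
      2 ^ (e * (S.F k).n) * gr (z.p k ((l k).p.π ω)) (z.q k ((l k).p.π ω)) v) := fun e he =>
    z.form_le hN hD _ hg _ hc (Sub_of_n hu hn hK1) hφ he
  obtain ⟨e, he, he0, hT2⟩ := Pool.Agent.Helper3.LF.typ_diag (S := l.sp) (fun e k (ω : (l k).T.Ω) => ∀ v,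
      v ⬝ᵥ ((1 + Jq (z.r k) ((x k).g (t.ρ k ω)) (z.q k ((l k).p.π ω))) *ᵥ v) ≤
      2 ^ (e * (S.F k).n) * gr (z.p k ((l k).p.π ω)) (z.q k ((l k).p.π ω)) v) key
  have hE : Tendsto (fun k => (l k).T.pb (fun ω => ¬ ((∀ v,
      v ⬝ᵥ ((1 + Jq (z.r k) ((x k).g (t.ρ k ω)) (z.q k ((l k).p.π ω))) *ᵥ v) ≤
      2 ^ (e k * (S.F k).n) * gr (z.p k ((l k).p.π ω)) (z.q k ((l k).p.π ω)) v) ∧ PdM (B k ω) ∧
      (∀ v, gr (z.p k ((l k).p.π ω)) (z.q k ((l k).p.π ω)) v ≤ K k * (v ⬝ᵥ (B k ω *ᵥ v))) ∧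
      (B k ω).det ≤ K k * 2 ^ (2 * lam k ω * (S₀.F k).n)))) UF (𝓝 0) := typ_and (S := l.sp) hT2 hB
  -- the averages
  have hm : ∀ k, ∑ ω, (l k).T.μ ω = 1 := fun k => Pool.Agent.Helper3.PR.sum_mu _
  have e1 : ∀ k, ∑ ω, (l k).T.μ ω * (gx Q k ((x k).l.p.π (t.ρ k ω)) ((x k).g (t.ρ k ω)) + |Cl|) = vx Q x k + |Cl| := by
    intro k
    have h1 := t.sm k (fun ω => gx Q k ((x k).l.p.π ω) ((x k).g ω))
    have h2 : vx Q x k = ∑ ω, (x k).l.T.μ ω * gx Q k ((x k).l.p.π ω) ((x k).g ω) := rfl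
    rw [h2, ← h1]
    simp only [mul_add, Finset.sum_add_distrib]
    rw [← Finset.sum_mul, hm, one_mul]
  have e2 : ∀ k, ∑ ω, (l k).T.μ ω * (lam k ω + |Cl|) = ∑ ω, (l k).T.μ ω * lam k ω + |Cl| := by
    intro k
    simp only [mul_add, Finset.sum_add_distrib]
    rw [← Finset.sum_mul, hm, one_mul]
  have hUl : UB (fun k => ∑ ω, (l k).T.μ ω * lam k ω) := by
    refine ⟨Cl, ?_⟩
    filter_upwards [hlb] with k hk
    refine (Finset.abs_sum_le_sum_abs _ _).trans ?_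
    have h1 : ∀ ω ∈ (Finset.univ : Finset (l k).T.Ω), |(l k).T.μ ω * lam k ω| ≤ (l k).T.μ ω * Cl := by
      intro ω _
      rw [abs_mul, abs_of_nonneg ((l k).T.nn ω)]
      by_cases h0 : (l k).T.μ ω = 0
      · rw [h0, zero_mul, zero_mul]
      · exact mul_le_mul_of_nonneg_left (hk ω h0) ((l k).T.nn ω)
    refine (Finset.sum_le_sum h1).trans (le_of_eq ?_)
    rw [← Finset.sum_mul, hm, one_mul]
  have hUx := Pool.Agent.Helper14.MC.vx_UB hx
  have hU1 : UB (fun k => ∑ ω, (l k).T.μ ω * (gx Q k ((x k).l.p.π (t.ρ k ω)) ((x k).g (t.ρ k ω)) + |Cl|)) := by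
    rw [funext e1]
    exact hUx.add (UB_const _)
  have hU2 : UB (fun k => ∑ ω, (l k).T.μ ω * (lam k ω + |Cl|)) := by
    rw [funext e2]
    exact hUl.add (UB_const _)
  have ht : Tendsto (fun k => (M : ℝ) * u / 2 * e k + ((M : ℝ) + 1) / 2 * (Real.logb 2 (K k + 2) / (S₀.F k).n)) UF
      (𝓝 0) := by
    have h1 := (he.const_mul ((M : ℝ) * u / 2)).add (hK.2.const_mul (((M : ℝ) + 1) / 2))
    rwa [mul_zero, mul_zero, add_zero] at h1
  have key2 := ul_avg_le (fun k => (l k).T) (fun k ω => lam k ω + |Cl|)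
    (fun k ω => gx Q k ((x k).l.p.π (t.ρ k ω)) ((x k).g (t.ρ k ω)) + |Cl|)
    (fun k ω => (∀ v,
      v ⬝ᵥ ((1 + Jq (z.r k) ((x k).g (t.ρ k ω)) (z.q k ((l k).p.π ω))) *ᵥ v) ≤
      2 ^ (e k * (S.F k).n) * gr (z.p k ((l k).p.π ω)) (z.q k ((l k).p.π ω)) v) ∧ PdM (B k ω) ∧
      (∀ v, gr (z.p k ((l k).p.π ω)) (z.q k ((l k).p.π ω)) v ≤ K k * (v ⬝ᵥ (B k ω *ᵥ v))) ∧
      (B k ω).det ≤ K k * 2 ^ (2 * lam k ω * (S₀.F k).n)) _ ht (Cy + |Cl|) hE (by
      filter_upwards [hc, hK.1] with k hk hK0 ω hω hh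
      obtain ⟨h1, h2, h3, h4⟩ := hh
      have hCp := hk ω hω
      have hpd := cpd_pdm hCp
      have hn0 := (S₀.F k).pos
      set q := z.q k ((l k).p.π ω) with hqq
      have hPJ := one_Jq_pd (z.r k) hCp.1 (fun v => hpd.nonneg v) q
      have hc0 : (0 : ℝ) < 2 ^ (e k * (S.F k).n) * (K k + 1) := by positivity
      have h5 := det_le_pow h2 hPJ hc0 (fun v => (h1 v).trans (by
        rw [mul_assoc]
        apply mul_le_mul_of_nonneg_left _ (by positivity)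
        refine (h3 v).trans ?_
        have h6 := h2.nonneg v
        nlinarith))
      have h6 : GQ (z.r k) ((x k).g (t.ρ k ω)) q ≤ (2 ^ (e k * (S.F k).n) * (K k + 1)) ^ M *
          ((K k + 1) * 2 ^ (2 * lam k ω * (S₀.F k).n)) := by
        refine h5.trans ?_
        rw [Fintype.card_fin]
        apply mul_le_mul_of_nonneg_left _ (by positivity)
        refine h4.trans ?_
        apply mul_le_mul_of_nonneg_right _ (by positivity)
        linarith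
      have h7 : 0 < GQ (z.r k) ((x k).g (t.ρ k ω)) q := lt_of_lt_of_le one_pos
        (one_le_GQ _ hCp.1 (fun v => hpd.nonneg v) _)
      have h8 := Real.logb_le_logb_of_le (b := 2) (by norm_num) h7 h6
      have hK2 : (0 : ℝ) < K k + 1 := by linarith
      rw [Real.logb_mul (by positivity) (by positivity), Real.logb_pow, Real.logb_mul (by positivity) hK2.ne',
        Real.logb_mul hK2.ne' (by positivity), Real.logb_rpow (by norm_num) (by norm_num),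
        Real.logb_rpow (by norm_num) (by norm_num), hn] at h8
      have h9 : Real.logb 2 (K k + 1) ≤ Real.logb 2 (K k + 2) :=
        Real.logb_le_logb_of_le (by norm_num) hK2 (by linarith)
      have e3 : gx Q k ((x k).l.p.π (t.ρ k ω)) ((x k).g (t.ρ k ω)) =
          Real.logb 2 (GQ (z.r k) ((x k).g (t.ρ k ω)) q) / (2 * (S₀.F k).n) := by
        unfold gx
        rw [hqq, hq k ω hω, hr]
      show gx Q k ((x k).l.p.π (t.ρ k ω)) ((x k).g (t.ρ k ω)) + |Cl| ≤ lam k ω + |Cl| + _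
      rw [e3]
      have h10 : Real.logb 2 (GQ (z.r k) ((x k).g (t.ρ k ω)) q) / (2 * (S₀.F k).n) ≤ lam k ω +
          ((M : ℝ) * u / 2 * e k + ((M : ℝ) + 1) / 2 * (Real.logb 2 (K k + 2) / (S₀.F k).n)) := by
        rw [div_le_iff₀ (by positivity)]
        have h11 : (lam k ω + ((M : ℝ) * u / 2 * e k + ((M : ℝ) + 1) / 2 * (Real.logb 2 (K k + 2) / (S₀.F k).n))) *
            (2 * (S₀.F k).n) = 2 * lam k ω * (S₀.F k).n + M * (e k * (u * (S₀.F k).n)) +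
              (M + 1) * Real.logb 2 (K k + 2) := by
          field_simp
          ring
        rw [h11]
        have h12 : (0 : ℝ) ≤ M := Nat.cast_nonneg M
        nlinarith
      linarith) (by
      filter_upwards [hbd] with k hk ω hω
      have := (hk _ (t.sp k ω hω)).2
      linarith) (by
      filter_upwards [hlb] with k hk ω hω
      have h1 := hk ω hω
      have h2 := neg_abs_le (lam k ω)
      have h3 := le_abs_self Cl
      linarith) hU1 hU2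
  rw [funext e1, funext e2, ul_add hUx (UB_const _), ul_add hUl (UB_const _)] at key2
  rw [Pool.Agent.Helper14.MC.vol_eq]
  linarith

end RI

end

end Pool.Agent.Helper49.KL
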