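import Pool.Agent.Helper49.KL.Lf
import Pool.Agent.Helper17.KL.Can

/-! LITERAL K-LABELS, part 2: a maximal label of the class of labels without leak at `R` is a partition of the space
itself, coarser than `R` and the base; together with its canonical form. -/

set_option autoImplicit false

namespace Pool.Agent.Helper49.KL

open Finset Filter Topology Matrix Pool.Agent.Helper69.RK Pool.Agent.Helper31.EC Pool.Agent.Helper40.EL
open Pool.Agent.Helper33.LIT Pool.Agent.Helper89.LX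

noncomputable section

variable {S : Sp} {l : Lab S} {ι : Type} {R : ∀ k, Setoid (S.F k).Ω}

/-- the partition is a function of `R` and the base -/
def LitR (R Z : ∀ k, Setoid (S.F k).Ω) : Prop := ∀ k, R k ⊓ (S.F k).Z ≤ Z k

theorem kz_ofZ {R Z : ∀ k, Setoid (S.F k).Ω} (h : ∀ᶠ k in UF, R k ⊓ (S.F k).Z ≤ Z k) :
    (LC.kz fun k => fc (R k)).ev (Lab.ofZ Z) := by
  filter_upwards [h] with k hk
  show ((Lab.ofZ Z) k).leak (fc (R k)) = 0
  rw [Lab.ofZ_leak Z (fun k => fc (R k)) k]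
  apply h_zero
  exact fc_le fun _ _ _ _ h1 h2 => hk ⟨h2, h1⟩

/-- THEOREM LIT-K: a maximal label of the class of labels without leak at `R` is a partition of the space itself, a
function of `R` and the base; a function with mean null on the label keeps mean null -/
theorem exists_secK [Finite ι] {A : ι → Part S} (hl : Lab.IsMaxK (LC.kz fun k => fc (R k)) l A) {i₀ : ι}
    (hA : (A i₀).Bd)
    (b : ∀ k, (l k).T.Ω → ℝ) (hb0 : ∀ k τ, 0 ≤ b k τ)
    (hb : Tendsto (fun k => ∑ τ, (l k).T.μ τ * b k τ) UF (𝓝 0)) :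
    ∃ σ : Sec l, (∀ᶠ k in UF, R k ⊓ (S.F k).Z ≤ σ.Z k) ∧ Lab.IsMaxK (LC.kz fun k => fc (R k)) (Lab.ofZ σ.Z) A ∧
      Tendsto (fun k => ∑ x, (S.F k).μ x * b k (σ.f k x)) UF (𝓝 0) := by
  classical
  have : Fintype ι := Fintype.ofFinite ι
  have hrep : ∀ i k, ∃ B : Setoid (S.F k).Ω, fc B = A i k := fun i k =>
    fc_ind (p := fun x => ∃ B : Setoid (S.F k).Ω, fc B = x) (fun B => ⟨B, rfl⟩) (A i k)
  choose B hB using hrep
  have hn : ∀ k, 0 < (S.F k).n := fun k => (S.F k).pos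
  have h1 : ∀ k, ∃ f : (S.F k).Ω → (l k).T.Ω, (∀ x, (S.F k).μ x ≠ 0 → (l k).p.π (f x) = x ∧ (l k).T.μ (f x) ≠ 0) ∧
      ((l k).leak (fc (R k)) = 0 → ∀ x y, R k x y → (S.F k).Z x y → (l k).V (f x) (f y)) ∧
      ∑ j, h (fc (Setoid.comap f (l k).V)) (fc (B j k)) +
        I (l k).v (l k).p.top ((l k).p.map (fc (Setoid.comap f (l k).V))) +
        ∑ x, (S.F k).μ x * ((S.F k).n * b k (f x)) ≤ ∑ j, (6 * (l k).leak (fc (B j k)) + 30) + 2 * unv (l k) +
          2 * ∑ τ, (l k).T.μ τ * ((S.F k).n * b k τ) := by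
    intro k
    by_cases h0 : (l k).leak (fc (R k)) = 0
    · obtain ⟨f, a1, a2, a3⟩ := flitK (l k) h0 (fun i => B i k) (fun τ => (S.F k).n * b k τ)
        (fun τ => mul_nonneg (hn k).le (hb0 k τ))
      exact ⟨f, a1, fun _ => a2, a3⟩
    · obtain ⟨f, a1, a3⟩ := flit (l k) (fun i => B i k) (fun τ => (S.F k).n * b k τ)
        (fun τ => mul_nonneg (hn k).le (hb0 k τ))
      exact ⟨f, a1, fun h => absurd h h0, a3⟩
  choose f hf hlit hs using h1
  set Z : ∀ k, Setoid (S.F k).Ω := fun k => Setoid.comap (f k) (l k).V with hZ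
  set E : ℕ → ℝ := fun k => ∑ j, (6 * (l k).leak (A j k) + 30) + 2 * unv (l k) +
    2 * ((S.F k).n * ∑ τ, (l k).T.μ τ * b k τ) with hE
  have hs' : ∀ k, ∑ j, h (fc (Z k)) (A j k) + I (l k).v (l k).p.top ((l k).p.map (fc (Z k))) +
      (S.F k).n * ∑ x, (S.F k).μ x * b k (f k x) ≤ E k := by
    intro k
    have h2 := hs k
    have e1 : ∑ j, h (fc (Z k)) (fc (B j k)) = ∑ j, h (fc (Z k)) (A j k) :=
      Finset.sum_congr rfl fun j _ => by rw [hB]
    have e2 : ∑ j, (6 * (l k).leak (fc (B j k)) + 30) = ∑ j, (6 * (l k).leak (A j k) + 30) :=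
      Finset.sum_congr rfl fun j _ => by rw [hB]
    have e3 : ∑ x, (S.F k).μ x * ((S.F k).n * b k (f k x)) = (S.F k).n * ∑ x, (S.F k).μ x * b k (f k x) := by
      rw [Finset.mul_sum]
      exact Finset.sum_congr rfl fun x _ => by ring
    have e4 : ∑ τ, (l k).T.μ τ * ((S.F k).n * b k τ) = (S.F k).n * ∑ τ, (l k).T.μ τ * b k τ := by
      rw [Finset.mul_sum]
      exact Finset.sum_congr rfl fun τ _ => by ring
    rw [e2, e3, e4] at h2
    rw [← e1]
    exact h2
  have hEn : Nul S E := by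
    have a1 : Nul S (fun k => ∑ j, (6 * (l k).leak (A j k) + 30)) :=
      Nul.finset_sum _ fun j _ => ((hl.1 j).const_mul 6).add (Nul_const S 30)
    have a2 : Nul S (fun k => 2 * unv (l k)) := (hl.univ hl.1 hl.2.1 (i := i₀) hA).const_mul 2
    have a3 : Nul S (fun k => 2 * ((S.F k).n * ∑ τ, (l k).T.μ τ * b k τ)) := by
      apply Nul.const_mul
      unfold Nul
      refine hb.congr fun k => ?_
      rw [mul_div_cancel_left₀ _ (hn k).ne']
    exact (a1.add a2).add a3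
  have p1 : ∀ k, 0 ≤ ∑ j, h (fc (Z k)) (A j k) := fun k => Finset.sum_nonneg fun j _ => h_nonneg _ _
  have p2 : ∀ k, 0 ≤ I (l k).v (l k).p.top ((l k).p.map (fc (Z k))) := fun k => I_nonneg _ _ _
  have p3 : ∀ k, 0 ≤ (S.F k).n * ∑ x, (S.F k).μ x * b k (f k x) := fun k =>
    mul_nonneg (hn k).le (Finset.sum_nonneg fun x _ => mul_nonneg ((S.F k).nn x) (hb0 k _))
  have hleak : ∀ i, PLe (fun k => fc (Z k)) (A i) := by
    intro i
    refine hEn.of_le (Eventually.of_forall fun k => h_nonneg _ _) (Eventually.of_forall fun k => ?_)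
    have h3 := hs' k
    have h4 : h (fc (Z k)) (A i k) ≤ ∑ j, h (fc (Z k)) (A j k) :=
      Finset.single_le_sum (f := fun j => h (fc (Z k)) (A j k)) (fun j _ => h_nonneg _ _) (mem_univ i)
    linarith [p2 k, p3 k]
  have hDM : (Lab.ofZ Z).DMf A := (Lab.ofZ_DMf Z).mpr hleak
  have hZR : ∀ᶠ k in UF, R k ⊓ (S.F k).Z ≤ Z k := by
    filter_upwards [hl.2.1] with k hk
    intro x y hxy
    exact hlit k hk x y hxy.1 hxy.2
  refine ⟨⟨f, fun k x hx => (hf k x hx).1, fun k x hx => (hf k x hx).2⟩, hZR,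
    ⟨hDM, kz_ofZ hZR, fun l' hl' hK' => ?_⟩, ?_⟩
  · refine (hl.2.2 l' hl' hK').trans ?_
    have u1 := hl.1.ub hA
    have u2 := hDM.ub hA
    have u3 : UB (fun k => E k / (S.F k).n) := UB_of_tendsto hEn
    have e1 : ul (fun k => ((Lab.ofZ Z) k).info / (S.F k).n + E k / (S.F k).n) = (Lab.ofZ Z).info := by
      rw [ul_add u2 u3]
      have : ul (fun k => E k / (S.F k).n) = 0 := ul_eq hEn
      rw [this, add_zero]
      rfl
    have e2 : l.info ≤ ul (fun k => ((Lab.ofZ Z) k).info / (S.F k).n + E k / (S.F k).n) := by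
      apply ul_mono u1 (u2.add u3)
      refine Eventually.of_forall fun k => ?_
      rw [← add_div]
      apply div_le_div_of_nonneg_right _ (hn k).le
      have h3 := info_le_ofZ (l := l) Z k
      have h4 := hs' k
      linarith [p1 k, p3 k]
    rw [e1] at e2
    exact e2
  · refine tendsto_of_tendsto_of_tendsto_of_le_of_le' tendsto_const_nhds hEn ?_ ?_
    · exact Eventually.of_forall fun k => Finset.sum_nonneg fun x _ => mul_nonneg ((S.F k).nn x) (hb0 k _)
    · refine Eventually.of_forall fun k => ?_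
      rw [le_div_iff₀ (hn k), mul_comm]
      have h4 := hs' k
      linarith [p1 k, p2 k]



/-! ### the canonical form -/

section form
variable {ι : Type} [Fintype ι] [DecidableEq ι] (Φ : Gau S ι) {κ : Type}

/-- the literal label with the form at the section -/
def litFD {x : ∀ k, FD (S.F k) ι} (σ : Sec (S := S) fun k => (x k).l) : ∀ k, FD (S.F k) ι := fun k => {
  l := Lab.ofZ σ.Z k
  g := fun ω => (x k).g (σ.f k ω)
  g' := fun ω => (x k).g (σ.f k ω)
  meas := fun ω ω' h1 h2 h3 h4 => by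
    have h5 : (x k).g (σ.f k ω) = (x k).g (σ.f k ω') := by
      refine ((x k).meas _ _ (σ.sp k ω h1) (σ.sp k ω' h2) h3 ?_).1
      have h6 := ((x k).l.p.hZ (σ.f k ω) (σ.f k ω') (σ.sp k ω h1) (σ.sp k ω' h2)).mpr
      apply h6
      have e1 : (x k).l.p.π (σ.f k ω) = ω := σ.pr k ω h1
      have e2 : (x k).l.p.π (σ.f k ω') = ω' := σ.pr k ω' h2
      rw [e1, e2]
      exact h4
    exact ⟨h5, h5⟩ }

open Classical in
/-- the conditional probability that the form of a second copy is not bounded by the form at `τ` -/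
def badc {F : FSp} (x : FD F ι) (c : ℝ) (τ : x.l.T.Ω) : ℝ :=
  ∑ τ', if x.l.p.π τ' = x.l.p.π τ then x.l.T.μ τ' / F.μ (x.l.p.π τ) *
    (if ∀ v, qf (x.g τ') v ≤ c * qf (x.g τ) v then 0 else 1) else 0

omit [DecidableEq ι] in
theorem badc_nonneg {F : FSp} (x : FD F ι) (c : ℝ) (τ : x.l.T.Ω) : 0 ≤ badc x c τ := by
  classical
  apply Finset.sum_nonneg
  intro τ' _
  split_ifs
  · rw [mul_zero]
  · exact mul_nonneg (div_nonneg (x.l.T.nn _) (F.nn _)) zero_le_one
  · exact le_rfl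

open Classical in
theorem pb_sum_ite (F : FSp) (D : F.Ω → Prop) : F.pb D = ∑ ω, F.μ ω * (if D ω then (1 : ℝ) else 0) := by
  unfold FSp.pb mass
  apply Finset.sum_congr rfl
  intro ω _
  by_cases hD : D ω
  · rw [res_pos _ _ _ hD, if_pos hD, mul_one]
  · rw [res_neg _ _ _ hD, if_neg hD, mul_zero]

omit [DecidableEq ι] in
/-- the mean of the conditional probability is a probability for two copies -/
theorem badc_mean {F : FSp} (x : FD F ι) (c : ℝ) : ∑ τ, x.l.T.μ τ * badc x c τ =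
    (x.jj x).l.T.pb (fun w => ¬ ∀ v, qf ((x.jj x).g' w) v ≤ c * qf ((x.jj x).g w) v) := by
  classical
  have h0 : (x.jj x).l.T.pb (fun w => ¬ ∀ v, qf ((x.jj x).g' w) v ≤ c * qf ((x.jj x).g w) v) =
      ∑ w : x.l.T.Ω × x.l.T.Ω, (x.l.am x.l).sp.μ w *
        (if ∀ v, qf (x.g w.2) v ≤ c * qf (x.g w.1) v then (0 : ℝ) else 1) := by
    rw [pb_sum_ite]
    apply Finset.sum_congr rfl
    intro w _
    by_cases h1 : ∀ v, qf ((x.jj x).g' w) v ≤ c * qf ((x.jj x).g w) v
    · have h2 : ∀ v, qf (x.g w.2) v ≤ c * qf (x.g w.1) v := h1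
      rw [if_neg (not_not.mpr h1), if_pos h2]
      rfl
    · have h2 : ¬ ∀ v, qf (x.g w.2) v ≤ c * qf (x.g w.1) v := h1
      rw [if_pos h1, if_neg h2]
      rfl
  rw [h0, Fintype.sum_prod_type]
  apply Finset.sum_congr rfl
  intro τ _
  unfold badc
  rw [Finset.mul_sum]
  apply Finset.sum_congr rfl
  intro τ' _
  by_cases h1 : x.l.p.π τ' = x.l.p.π τ
  · rw [if_pos h1, am_mu x.l τ τ' h1.symm]
    by_cases h2 : ∀ v, qf (x.g τ') v ≤ c * qf (x.g τ) v
    · rw [if_pos h2, mul_zero, mul_zero, mul_zero]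
    · rw [if_neg h2]
      ring
  · rw [if_neg h1, am_mu0 x.l τ τ' (fun h => h1 h.symm), zero_mul, mul_zero]

omit [DecidableEq ι] in
/-- the mean along a section -/
theorem badc_sec {F : FSp} (x : FD F ι) (c : ℝ) {f : F.Ω → x.l.T.Ω}
    (hf : ∀ ω, F.μ ω ≠ 0 → x.l.p.π (f ω) = ω) : ∑ ω, F.μ ω * badc x c (f ω) =
    x.l.T.pb (fun τ => ¬ ∀ v, qf (x.g τ) v ≤ c * qf (x.g (f (x.l.p.π τ))) v) := by
  classical
  rw [pb_sum_ite]
  have h1 : ∀ ω ∈ (univ : Finset F.Ω), F.μ ω * badc x c (f ω) = ∑ τ', if x.l.p.π τ' = ω then x.l.T.μ τ' *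
      (if ∀ v, qf (x.g τ') v ≤ c * qf (x.g (f ω)) v then 0 else 1) else 0 := by
    intro ω _
    by_cases h0 : F.μ ω = 0
    · rw [h0, zero_mul]
      symm
      apply Finset.sum_eq_zero
      intro τ' _
      by_cases h2 : x.l.p.π τ' = ω
      · rw [if_pos h2]
        have h3 : x.l.T.μ τ' = 0 := by
          by_contra h4
          exact x.l.p.supp τ' h4 (h2 ▸ h0)
        rw [h3, zero_mul]
      · rw [if_neg h2]
    · unfold badc
      rw [Finset.mul_sum]
      apply Finset.sum_congr rfl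
      intro τ' _
      rw [hf ω h0]
      by_cases h2 : x.l.p.π τ' = ω
      · rw [if_pos h2, if_pos h2, ← mul_assoc, mul_div_cancel₀ _ h0]
      · rw [if_neg h2, if_neg h2, mul_zero]
  rw [Finset.sum_congr rfl h1, Finset.sum_comm]
  apply Finset.sum_congr rfl
  intro τ' _
  rw [Finset.sum_ite_eq univ (x.l.p.π τ') (fun ω => x.l.T.μ τ' *
      (if ∀ v, qf (x.g τ') v ≤ c * qf (x.g (f ω)) v then 0 else 1)), if_pos (mem_univ _)]
  by_cases h3 : ∀ v, qf (x.g τ') v ≤ c * qf (x.g (f (x.l.p.π τ'))) v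
  · rw [if_pos h3, if_neg (not_not.mpr h3)]
  · rw [if_neg h3, if_pos h3]


/-- LITERAL CANONICAL FORM: the maximal label without leak at `R` which carries an optimal form can be taken as a
partition of the space itself, a function of `R` and the base -/
theorem exists_litK [Finite κ] {A : κ → Part S} {i₀ : κ} (hA : (A i₀).Bd) {x : ∀ k, FD (S.F k) ι}
    (hx : Φ.OptfK (LC.kz fun k => fc (R k)) A x)
    (hm : Lab.IsMaxK (LC.kz fun k => fc (R k)) (fun k => (x k).l) A) :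
    ∃ σ : Sec (S := S) fun k => (x k).l, (∀ᶠ k in UF, R k ⊓ (S.F k).Z ≤ σ.Z k) ∧
      Φ.OptfK (LC.kz fun k => fc (R k)) A (litFD σ) ∧ Lab.IsMaxK (LC.kz fun k => fc (R k)) (Lab.ofZ σ.Z) A := by
  classical
  have hn : ∀ k, 0 < (S.F k).n := fun k => (S.F k).pos
  -- the scale
  have hG : ∀ j : ℕ, ∀ᶠ k in UF,
      ((x k).jj (x k)).l.T.pb (fun w => ¬ ∀ v, qf (((x k).jj (x k)).g' w) v ≤
        2 ^ (1 / ((j : ℝ) + 1) * (S.F k).n) * qf (((x k).jj (x k)).g w) v) ≤ 1 / ((j : ℝ) + 1) ∧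
      (x k).l.T.pb (fun τ => ¬ Φ.φ k ((x k).l.p.π τ) ((x k).g τ) ≤ 2 ^ (1 / ((j : ℝ) + 1) * (S.F k).n)) ≤
        1 / ((j : ℝ) + 1) := by
    intro j
    have h5 : (0 : ℝ) < 1 / ((j : ℝ) + 1) := by positivity
    filter_upwards [(Gau.OptfK.dom Φ hx hx.1 _ h5).eventually (gt_mem_nhds h5), hx.1.1 _ h5] with k a b
    exact ⟨a.le, b.2.2.1⟩
  obtain ⟨_, J, hJ, _, hJ'⟩ := dia' (X := fun _ => Unit) (fun _ _ => ()) (fun j k _ =>
    ((x k).jj (x k)).l.T.pb (fun w => ¬ ∀ v, qf (((x k).jj (x k)).g' w) v ≤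
        2 ^ (1 / ((j : ℝ) + 1) * (S.F k).n) * qf (((x k).jj (x k)).g w) v) ≤ 1 / ((j : ℝ) + 1) ∧
      (x k).l.T.pb (fun τ => ¬ Φ.φ k ((x k).l.p.π τ) ((x k).g τ) ≤ 2 ^ (1 / ((j : ℝ) + 1) * (S.F k).n)) ≤
        1 / ((j : ℝ) + 1)) hG
  set e : ℕ → ℝ := fun k => 1 / ((J k : ℝ) + 1) with he
  have he0 : Tendsto e UF (𝓝 0) := tendsto_one_div_add_atTop_nhds_zero_nat.comp hJ
  set b : ∀ k, ((fun k => (x k).l) k).T.Ω → ℝ := fun k τ => badc (x k) (2 ^ (e k * (S.F k).n)) τ +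
    (if Φ.φ k ((x k).l.p.π τ) ((x k).g τ) ≤ 2 ^ (e k * (S.F k).n) then 0 else 1) with hb
  have hb0 : ∀ k τ, 0 ≤ b k τ := by
    intro k τ
    refine add_nonneg (badc_nonneg _ _ _) ?_
    split_ifs
    · exact le_rfl
    · exact zero_le_one
  have hbm : Tendsto (fun k => ∑ τ, ((fun k => (x k).l) k).T.μ τ * b k τ) UF (𝓝 0) := by
    have h0 : Tendsto (fun k => e k + e k) UF (𝓝 0) := by
      have := he0.add he0
      rwa [add_zero] at this
    refine tendsto_of_tendsto_of_tendsto_of_le_of_le' tendsto_const_nhds h0 ?_ ?_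
    · exact Eventually.of_forall fun k => Finset.sum_nonneg fun τ _ => mul_nonneg ((x k).l.T.nn τ) (hb0 k τ)
    · filter_upwards [hJ'] with k hk
      have h1 : ∑ τ, (x k).l.T.μ τ * b k τ = ∑ τ, (x k).l.T.μ τ * badc (x k) (2 ^ (e k * (S.F k).n)) τ +
          (x k).l.T.pb (fun τ => ¬ Φ.φ k ((x k).l.p.π τ) ((x k).g τ) ≤ 2 ^ (e k * (S.F k).n)) := by
        rw [pb_sum_ite, ← Finset.sum_add_distrib]
        apply Finset.sum_congr rfl
        intro τ _
        rw [hb]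
        simp only
        rw [mul_add]
        congr 2
        by_cases h2 : Φ.φ k ((x k).l.p.π τ) ((x k).g τ) ≤ 2 ^ (e k * (S.F k).n)
        · rw [if_pos h2, if_neg (not_not.mpr h2)]
        · rw [if_neg h2, if_pos h2]
      show ∑ τ, (x k).l.T.μ τ * b k τ ≤ _
      rw [h1, badc_mean]
      exact add_le_add hk.1 hk.2
  obtain ⟨σ, hlit, hmax, hσ⟩ := exists_secK hm hA b hb0 hbm
  refine ⟨σ, hlit, ?_, hmax⟩
  -- the two parts of the mean along the section
  have hp1 : ∀ k, (x k).l.T.pb (fun τ => ¬ ∀ v, qf ((x k).g τ) v ≤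
      2 ^ (e k * (S.F k).n) * qf ((x k).g (σ.f k ((x k).l.p.π τ))) v) ≤ ∑ ω, (S.F k).μ ω * b k (σ.f k ω) := by
    intro k
    rw [← badc_sec (x k) _ (f := σ.f k) (fun ω h => σ.pr k ω h)]
    apply Finset.sum_le_sum
    intro ω _
    apply mul_le_mul_of_nonneg_left _ ((S.F k).nn ω)
    rw [hb]
    simp only
    have : (0 : ℝ) ≤ if Φ.φ k ((x k).l.p.π (σ.f k ω)) ((x k).g (σ.f k ω)) ≤ 2 ^ (e k * (S.F k).n) then 0 else 1 := by
      split_ifs
      · exact le_rfl
      · exact zero_le_one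
    linarith
  have hp2 : ∀ k, (S.F k).pb (fun ω => ¬ Φ.φ k ω ((x k).g (σ.f k ω)) ≤ 2 ^ (e k * (S.F k).n)) ≤
      ∑ ω, (S.F k).μ ω * b k (σ.f k ω) := by
    intro k
    rw [pb_sum_ite]
    apply Finset.sum_le_sum
    intro ω _
    by_cases h0 : (S.F k).μ ω = 0
    · rw [h0, zero_mul, zero_mul]
    · apply mul_le_mul_of_nonneg_left _ ((S.F k).nn ω)
      rw [hb]
      simp only
      have e1 : (x k).l.p.π (σ.f k ω) = ω := σ.pr k ω h0
      have h3 := badc_nonneg (x k) (2 ^ (e k * (S.F k).n)) (σ.f k ω)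
      by_cases h2 : Φ.φ k ω ((x k).g (σ.f k ω)) ≤ 2 ^ (e k * (S.F k).n)
      · rw [if_neg (not_not.mpr h2), e1, if_pos h2]
        linarith
      · rw [if_pos h2, e1, if_neg h2]
        linarith
  have hadm : Φ.AdfK (LC.kz fun k => fc (R k)) A (litFD σ) := by
    refine ⟨fun η hη => ?_, kz_ofZ hlit⟩
    have hL : ∀ᶠ k in UF, ∀ i, ((Lab.ofZ σ.Z) k).leak (A i k) ≤ η * (S.F k).n := by
      rw [eventually_all]
      intro i
      filter_upwards [(hmax.1 i).eventually (gt_mem_nhds hη)] with k hk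
      have h1 := (div_lt_iff₀ (hn k)).mp hk
      exact h1.le
    filter_upwards [hL, hx.1.1 1 one_pos, hσ.eventually (gt_mem_nhds hη), he0.eventually (gt_mem_nhds hη)]
      with k h1 h2 h3 h4
    have h5 : (2 : ℝ) ^ (e k * (S.F k).n) ≤ 2 ^ (η * (S.F k).n) :=
      Real.rpow_le_rpow_of_exponent_le (by norm_num) (mul_le_mul_of_nonneg_right h4.le (hn k).le)
    have h6 : (S.F k).pb (fun ω => ¬ Φ.φ k ω ((x k).g (σ.f k ω)) ≤ 2 ^ (η * (S.F k).n)) ≤ η := by
      refine le_trans ((S.F k).pb_mono ?_) ((hp2 k).trans h3.le)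
      intro ω _ h7 h8
      exact h7 (h8.trans h5)
    refine ⟨h1, fun ω hω => ?_, h6, h6⟩
    have h7 := (h2.2.1 (σ.f k ω) (σ.sp k ω hω)).1
    exact ⟨h7, h7⟩
  refine ⟨hadm, fun y hy => (hx.2 y hy).trans ?_⟩
  set c0 : ℝ := (Fintype.card ι : ℝ) with hc0
  have hsc : ∀ᶠ k in UF, (x k).sc / (S.F k).n ≤ (litFD σ k).sc / (S.F k).n +
      (c0 * e k + c0 * (Φ.C + 1) * ∑ ω, (S.F k).μ ω * b k (σ.f k ω)) := by
    filter_upwards [hx.1.1 1 one_pos] with k h2
    have e1 : (litFD σ k).sc = ∑ τ, (x k).l.T.μ τ * Real.logb 2 ((x k).g (σ.f k ((x k).l.p.π τ))).det :=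
      (sum_push (x k).l.p (fun ω => Real.logb 2 ((x k).g (σ.f k ω)).det)).symm
    have h3 : (x k).sc ≤ (litFD σ k).sc + c0 * (e k * (S.F k).n) + c0 * ((Φ.C + 1) * (S.F k).n) *
        (x k).l.T.pb (fun τ => ¬ ∀ v, qf ((x k).g τ) v ≤
          2 ^ (e k * (S.F k).n) * qf ((x k).g (σ.f k ((x k).l.p.π τ))) v) := by
      have e2 : c0 * (e k * (S.F k).n) = ∑ τ, (x k).l.T.μ τ * (c0 * (e k * (S.F k).n)) := by
        rw [← Finset.sum_mul]
        have : ∑ τ, (x k).l.T.μ τ = 1 := (x k).l.T.ms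
        rw [this, one_mul]
      rw [e1, e2, pb_sum_ite, Finset.mul_sum, ← Finset.sum_add_distrib, ← Finset.sum_add_distrib]
      unfold FD.sc
      apply Finset.sum_le_sum
      intro τ _
      by_cases h0 : (x k).l.T.μ τ = 0
      · simp [h0]
      · have hτ := (h2.2.1 τ h0).1
        have hπ := (x k).l.p.supp τ h0
        have hf := (h2.2.1 (σ.f k ((x k).l.p.π τ)) (σ.sp k _ hπ)).1
        have hμ : 0 ≤ (x k).l.T.μ τ := (x k).l.T.nn τ
        have hek : 0 ≤ c0 * (e k * (S.F k).n) := by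
          have h9 : 0 ≤ e k := by
            rw [he]
            positivity
          have := (hn k).le
          positivity
        by_cases hg : ∀ v, qf ((x k).g τ) v ≤ 2 ^ (e k * (S.F k).n) * qf ((x k).g (σ.f k ((x k).l.p.π τ))) v
        · rw [if_neg (not_not.mpr hg), mul_zero, mul_zero, add_zero, ← mul_add]
          apply mul_le_mul_of_nonneg_left _ hμ
          have h5 := Pool.Agent.Helper95.LF.det_le_pow hf.pdM hτ.pdM (K := 2 ^ (e k * (S.F k).n)) (by positivity) hg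
          have h6 : 0 < ((x k).g τ).det := zero_lt_one.trans_le hτ.one_le
          have h7 : 0 < ((x k).g (σ.f k ((x k).l.p.π τ))).det := zero_lt_one.trans_le hf.one_le
          have h8 := Real.logb_le_logb_of_le (b := 2) (by norm_num) h6 h5
          rw [Real.logb_mul (by positivity) h7.ne', Real.logb_pow, Real.logb_rpow (by norm_num) (by norm_num)] at h8
          linarith
        · rw [if_pos hg, mul_one]
          have h5 := logdet_le (Φ.one_le_cp k) hτ
          rw [Φ.logb_cp] at h5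
          have h6 := logdet_nonneg hf
          have h7 : (x k).l.T.μ τ * Real.logb 2 ((x k).g τ).det ≤
              (x k).l.T.μ τ * (Real.logb 2 ((x k).g (σ.f k ((x k).l.p.π τ))).det + c0 * (e k * (S.F k).n) +
                c0 * ((Φ.C + 1) * (S.F k).n)) := by
            apply mul_le_mul_of_nonneg_left _ hμ
            linarith
          linarith [h7]
    have h4 := hp1 k
    have h5 : 0 ≤ c0 * ((Φ.C + 1) * (S.F k).n) := by
      have := (hn k).le
      have := Φ.C0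
      positivity
    have h6 := mul_le_mul_of_nonneg_left h4 h5
    have h7 : (x k).sc ≤ (litFD σ k).sc + c0 * (e k * (S.F k).n) + c0 * ((Φ.C + 1) * (S.F k).n) *
        ∑ ω, (S.F k).μ ω * b k (σ.f k ω) := h3.trans (by linarith)
    rw [div_le_iff₀ (hn k)]
    have h8 : ((litFD σ k).sc / (S.F k).n + (c0 * e k + c0 * (Φ.C + 1) * ∑ ω, (S.F k).μ ω * b k (σ.f k ω))) *
        (S.F k).n = (litFD σ k).sc + c0 * (e k * (S.F k).n) + c0 * ((Φ.C + 1) * (S.F k).n) *
        ∑ ω, (S.F k).μ ω * b k (σ.f k ω) := by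
      rw [add_mul, div_mul_cancel₀ _ (hn k).ne']
      ring
    rw [h8]
    exact h7
  have hδ : Tendsto (fun k => c0 * e k + c0 * (Φ.C + 1) * ∑ ω, (S.F k).μ ω * b k (σ.f k ω)) UF (𝓝 0) := by
    have := (he0.const_mul c0).add (hσ.const_mul (c0 * (Φ.C + 1)))
    rwa [mul_zero, mul_zero, add_zero] at this
  have u1 := Φ.sc_UBf hx.1.1
  have u2 := Φ.sc_UBf hadm.1
  have u3 := UB_of_tendsto hδ
  have h1 := ul_mono u1 (u2.add u3) hsc
  rw [ul_add u2 u3, ul_eq hδ, add_zero] at h1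
  exact h1

/-- there is a partition of the space, a function of `R` and the base, which is a maximal label without leak at `R`,
and carries an optimal form -/
theorem exists_kap_litK [Finite κ] (A : κ → Part S) {i₀ : κ} (hA : (A i₀).Bd) (R : ∀ k, Setoid (S.F k).Ω) :
    ∃ (Z : ∀ k, Setoid (S.F k).Ω) (x : ∀ k, FD (S.F k) ι), (∀ᶠ k in UF, R k ⊓ (S.F k).Z ≤ Z k) ∧
      (∀ k, (x k).l = Lab.ofZ Z k) ∧ Φ.OptfK (LC.kz fun k => fc (R k)) A x ∧
        Lab.IsMaxK (LC.kz fun k => fc (R k)) (Lab.ofZ Z) A := by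
  obtain ⟨x, hx, hm⟩ := Gau.exists_kapfK Φ (LC.kz fun k => fc (R k)) A hA
  obtain ⟨σ, h1, h2, h3⟩ := exists_litK Φ hA hx hm
  exact ⟨σ.Z, litFD σ, h1, fun k => rfl, h2, h3⟩

end form

end

end Pool.Agent.Helper49.KL
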