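import Pool.Agent.Helper49.KL.Limx
import Pool.Agent.Helper43.NSLB.Main

/-! ROW `LIMX` of Helper94/SEL/St, from the rows TRNX, TGR, ZOOMX, TOPF. -/

set_option autoImplicit false

namespace Pool.Agent.Helper49.KL

open Pool.Agent.Helper94.SEL

/-- **ROW LIMX** -/
theorem limx {M : ℕ} {gb : ℕ → ℕ → ℝ → ℕ} (hTR : TRNX M) (hG : TGR M) (hZ : ZOOMX M gb) (hF : TOPF M) : LIMX M :=
  limx_of (Pool.Agent.Helper43.NSLB.nslb (M + 1)) hTR hG hZ hF

end Pool.Agent.Helper49.KL
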