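import Pool.Agent.Helper62.FST.Fl
import Pool.Agent.Helper60.LIM.Stb
import Pool.Agent.Helper55.INV.Trn
import Pool.Agent.Helper84.SEL.Numx

/-! ROW `ZD` of Helper62/FST/Fl: limits of zooms pass to slow diagonals (one window). -/

set_option autoImplicit false

namespace Pool.Agent.Helper49.KL

open Finset Filter Topology Matrix Pool.Agent.Helper69.RK Pool.Agent.Helper31.EC Pool.Agent.Helper31.EC.Sp
open Pool.Agent.Helper40.EL Pool.Agent.Helper89.LX Pool.Agent.Helper84.MT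
open Pool.Agent.Helper49.MD Pool.Agent.Helper36.AM
open Pool.Agent.Helper47.FN (KR lftR obR lftR_ob)
open Pool.Agent.Helper81.CPY (pjb chP zim up_chP ple_chP winR raw)
open Pool.Agent.Helper29.MX
open Pool.Agent.Helper94.SEL (tot num Ctx)
open Pool.Agent.Helper62.FST (TB ZL HZ HZ0 ROW_ZD zs_up)
open Pool.Agent.Helper60.LIM (dfA dfA_of dfA_to H_dg_le)
open Pool.Agent.Helper63.SCN (ptR Of_obR)
open Pool.Agent.Helper63.ZMX (pjX prX)
open Pool.Agent.Helper84.SEL (numx)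

noncomputable section

variable {S T : Sp} {N M g r v κ D1 : ℕ} {E E' : ℕ → ℕ} {ι : Type} {c u : ℝ}

/-! ### windows of the zoom as finite data -/

/-- the window `b` of a leaf over the space with unit `u` -/
def wbf (F : FSp) (u b : ℝ) (y : FLf F.Ω N) : Setoid F.Ω :=
  y.La ⊓ Setoid.ker fun ω => cell ((2 : ℝ) ^ (-(b * (u * F.n)))) (y.Y ω)

theorem win_wbf {W : Rsl S} {hu : 0 < u} (t : MSys (S.chg W u hu) N E' ι) (i : ι) (b : ℝ) :
    (t.lf i).win b = chP W u hu (fun k => fc (wbf (S.F k) u b (lob (t.lf i) k : FLf (S.F k).Ω N))) := rfl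

/-- the windows of the zoom are known to the windows of the system, finite form -/
theorem ple_wbf {s : MSys S N E ι} {W : Rsl S} {hu : 0 < u} {t : MSys (S.chg W u hu) N E' ι} {i : ι} {b : ℝ} :
    PLe ((t.lf i).win b) (chP W u hu ((s.lf i).win (c + u * b))) ↔ ∀ δ : ℝ, 0 < δ → ∀ᶠ k in UF,
      h (fc (wbf (S.F k) u b (lob (t.lf i) k : FLf (S.F k).Ω N)) : FL (S.F k))
        ((lob (s.lf i) k).win (S.F k) (c + u * b) ⊔ fc (W k)) / (S.F k).n ≤ δ := by
  rw [win_wbf, ple_chP, ple_fin]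
  exact Iff.rfl

/-! ### members -/

/-- a system of the class over the truncated space -/
theorem exists_dum {A : MCl (M + 1)} {C : ℕ → MCl (M + 1)} (hc : Ctx M A C v) {m : ℕ} (hg : g ≤ κ)
    (hu : 0 < u) (hu1 : u ≤ 1) {s : MSys S (M + 1) (lin g) (Fin r)} (hs : C m S g r s) (hi : Inv v s) :
    ∃ t : MSys (S.chg S.tr u hu) (M + 1) (lin κ) (Fin r), C m _ κ r t ∧ Inv v t := by
  have h1 := hc.ok.trn m S g r s hs u hu hu1
  have h2 := Pool.Agent.Helper55.INV.inv_trn hi hu hu1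
  have hE : ∀ D, lin g D ≤ lin κ D := fun D => Nat.mul_le_mul_right _ hg
  refine ⟨⟨(Pj.id _).vv (s.trn u hu hu1).Q, fun i => (((s.trn u hu hu1).lf i).pull (Pj.id _)).monoE hE⟩,
    hc.ok.add m _ g r _ h1 _ (Pj.id _) κ r hE _ id fun i => rfl, h2.1, fun i => ?_⟩
  exact Pool.Agent.Helper8.CPY.ud_of_pull (h2.2 i) (Pj.id _) _ i (fun c => win_pull (Pj.id _) ((s.trn u hu hu1).lf i) c)
    fun c => Eventually.of_forall fun k => congrFun (Pool.Agent.Helper8.CPY.cpt_pull (Pj.id _) (s.trn u hu hu1).Q c) k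

/-- the windows of a limit of zooms on all events -/
theorem zl_bd {C : MCl (M + 1)} {q φ Λ l La ε : ℝ} (hl1 : l ≤ 1) (hLa : 0 ≤ La) (hcu : c + u ≤ 1)
    {s : MSys S (M + 1) (lin g) (Fin r)} {W : Rsl S} {hu : 0 < u}
    {t : MSys (S.chg W u hu) (M + 1) (lin κ) (Fin r)} {p : ∀ k, (S.F k).Ω → Fin (M + 1) → MvPolynomial (Fin (M + 1)) ℝ}
    {lam : Fin (M + 1) → ℝ} (h : ZL C v q c u φ κ D1 Λ ε s W hu t p lam) (hTB : TB c u φ l La ε S s) :
    AllE (fun _ t R' => ∀ b : ℝ, 0 ≤ b → b < l → ((M + 1 : ℕ) : ℝ) - volKO t R' b ≤ La * b + 2 * ε / u)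
      (S.chg W u hu) t (rbot (S.chg W u hu)) := by
  intro T q' A hA b hb hbl
  apply le_of_forall_pos_le_add
  intro δ hδ
  obtain ⟨b', hb1, hb2⟩ := exists_rat_btwn (lt_min hbl (show b < b + δ / (La + 1) by
    have : 0 < δ / (La + 1) := div_pos hδ (by linarith)
    linarith))
  have hb3 := hb2.trans_le (min_le_left _ _)
  have hb4 := hb2.trans_le (min_le_right _ _)
  have hb0 : (0 : ℝ) ≤ b' := hb.trans hb1.le
  have hcb : c + u * b' ≤ 1 := by nlinarith
  have h1 := zs_up h.zs hb0 (h.win b' hb0 hcb) q' A hA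
  have h2 := hTB _ (pjX h.zs.zu q') A (prX hA) b' hb0 hb3
  have h3 := (abs_le.1 h.sum).1
  have h4 : tot (t.im q' A hA) (rbot (S.chg W u hu)) b ≤ tot (t.im q' A hA) (rbot (S.chg W u hu)) b' := by
    have h5 := (numx M).mono _ _ r (t.im q' A hA) (rbot (S.chg W u hu)) b b' hb hb1.le (by linarith) (M + 1) le_rfl
    rw [(numx M).last, (numx M).last] at h5
    exact h5
  have h6 : tot (s.im (pjX h.zs.zu q') A (prX hA)) (rbot S) (c + u * b') ≤ φ + u * La * b' + ε := h2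
  have h7 : u * tot (t.im q' A hA) (rbot (S.chg W u hu)) b' ≤ u * (La * b') + 2 * ε := by
    have h8 : u * tot (t.im q' A hA) (rbot (S.chg W u hu)) b' ≤
      tot (s.im (pjX h.zs.zu q') A (prX hA)) (rbot S) (c + u * b') - ∑ j, lam j := h1
    have h9 : u * La * b' = u * (La * b') := by ring
    linarith
  have h8 : tot (t.im q' A hA) (rbot (S.chg W u hu)) b' ≤ La * b' + 2 * ε / u := by
    have e1 : u * (La * b' + 2 * ε / u) = u * (La * b') + 2 * ε := by
      field_simp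
    rw [← e1] at h7
    exact le_of_mul_le_mul_left h7 hu
  have h9 : La * (b' : ℝ) ≤ La * b + δ := by
    have h10 : La * (δ / (La + 1)) ≤ δ := by
      rw [← mul_div_assoc, div_le_iff₀ (by linarith)]
      nlinarith
    have h11 : La * (b' : ℝ) ≤ La * (b + δ / (La + 1)) := mul_le_mul_of_nonneg_left hb4.le hLa
    linarith [mul_add La b (δ / (La + 1))]
  show tot (t.im q' A hA) (rbot (S.chg W u hu)) b ≤ La * b + 2 * ε / u + δ
  linarith

/-- MEMBERS: data for every index -/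
theorem exists_zj {A : MCl (M + 1)} {C : ℕ → MCl (M + 1)} (hc : Ctx M A C v) {m : ℕ} {q φ Λ l La ε : ℝ}
    (hg : g ≤ κ) (hu : 0 < u) (hu1 : u ≤ 1) (hl1 : l ≤ 1) (hLa : 0 ≤ La) (hcu : c + u ≤ 1) (P : Prop) [Decidable P]
    {s : MSys S (M + 1) (lin g) (Fin r)} (hs : C m S g r s) (hi : Inv v s)
    (h : P → TB c u φ l La ε S s ∧ HZ (C m) v q c u φ κ D1 Λ ε S s) :
    ∃ (W : Rsl S) (t : MSys (S.chg W u hu) (M + 1) (lin κ) (Fin r))
      (p : ∀ k, (S.F k).Ω → Fin (M + 1) → MvPolynomial (Fin (M + 1)) ℝ) (lam : Fin (M + 1) → ℝ),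
      (∀ k ω j, (p k ω j).totalDegree ≤ D1) ∧ (∀ k ω j, ∀ i ∈ (p k ω j).vars, i ≤ j) ∧ (∀ j, |lam j| ≤ M + 2) ∧
      C m (S.chg W u hu) κ r t ∧ Inv v t ∧
      AllE (fun _ t R' => ∀ b : ℝ, 0 ≤ b → b < l → ((M + 1 : ℕ) : ℝ) - volKO t R' b ≤ La * b +
        (if P then 2 * ε / u else M + 1)) (S.chg W u hu) t (rbot (S.chg W u hu)) ∧
      (P → ZL (C m) v q c u φ κ D1 Λ ε s W hu t p lam) := by
  by_cases hP : P
  · obtain ⟨hTB, W, hu', t, p, lam, hz⟩ := h hP
    refine ⟨W, t, p, lam, hz.zs.deg, hz.zs.tri, hz.lb, hz.cl, hz.inv, ?_, fun _ => hz⟩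
    rw [if_pos hP]
    exact zl_bd hl1 hLa hcu hz hTB
  · obtain ⟨t, h1, h2⟩ := exists_dum hc hg hu hu1 hs hi
    refine ⟨S.tr, t, fun _ _ _ => 0, fun _ => 0, fun _ _ _ => ?_, fun _ _ _ i hi => ?_, fun _ => ?_, h1, h2, ?_,
      fun h => absurd h hP⟩
    · rw [MvPolynomial.totalDegree_zero]
      exact Nat.zero_le _
    · rw [MvPolynomial.vars_0] at hi
      exact absurd hi (Finset.notMem_empty i)
    · rw [abs_zero]
      positivity
    · rw [if_neg hP]
      intro T q' A hA b hb _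
      have h3 := volKO_nonneg (t.im q' A hA) (rbot (S.chg S.tr u hu)) b
      have h4 := mul_nonneg hLa hb
      push_cast
      linarith

/-! ### the diagonal -/

/-- **ROW ZD** -/
theorem row_zd (M : ℕ) : ROW_ZD M := by
  classical
  intro A C v hc m g r κ D1 j0 q c u φ l La Λ ε hg hq0 hq1 hc0 hu hcu hl hl1 hLa hε0 hε S x hx
  choose s R hs hR hRb hCs hIs hZ using hx
  have hu1 : u ≤ 1 := by linarith
  choose W t p lam hdeg htri hlb hCt hIt hbd hzl using fun j => exists_zj hc hg hu hu1 hl1 hLa hcu (j0 ≤ j)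
    (hCs j) (hIs j) (hZ j)
  set π := ptR (M + 1) (Fin r) with hπ
  set rr : ℕ → ℚ := fun q => (Encodable.decode (α := ℚ) q).getD 0 with hrr
  -- stability
  have hε1 : Tendsto (fun j => if j0 ≤ j then 2 * ε j / u else (M : ℝ) + 1) atTop (𝓝 0) := by
    have h1 : Tendsto (fun j => 2 * ε j / u) atTop (𝓝 0) := by
      have h2 := (hε.const_mul 2).div_const u
      rw [mul_zero, zero_div] at h2
      exact h2
    refine h1.congr' ?_
    filter_upwards [eventually_ge_atTop j0] with j hj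
    rw [if_pos hj]
  obtain ⟨E1, hE1, hY1⟩ := Pool.Agent.Helper43.NSLB.nslb (M + 1) A (C m) hc.ok.oA (hc.ok.ocl m) hc.st v hc.sto κ r l La
    hl (fun j => if j0 ≤ j then 2 * ε j / u else (M : ℝ) + 1) (fun j => by
      split_ifs
      · exact div_nonneg (mul_nonneg zero_le_two (hε0 j)) hu.le
      · positivity) hε1 (fun j => (S j).chg (W j) u hu)
      (fun j => obR (S := (S j).chg (W j) u hu) (t j) (rbot ((S j).chg (W j) u hu)))
    fun j => lftR_ob ⟨⟨hCt j, Eventually.of_forall fun k ω ω' _ _ _ h => by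
      have h' : ω = ω' := h
      rw [h'], hIt j⟩, hbd j⟩
  -- the slow conditions
  set G : ℕ → ℕ → Prop := fun j k => ob (s j) k = (x j k : FMs ((S j).F k).Ω (M + 1) (Fin r) × Setoid ((S j).F k).Ω).1 ∧
    (j0 ≤ j → ZF c u Λ (lam j) ((S j).F k) (ob (s j) k : FMs ((S j).F k).Ω (M + 1) (Fin r)) ⊥ (zdt (t j) (p j) k)
      (1 / ((j : ℝ) + 1))) with hG
  set G2 : ℕ → ℕ → ℕ → Prop := fun i j k => j0 ≤ j →
    ((0 : ℝ) ≤ rr i → c + u * rr i ≤ 1 → ∀ a : Fin r,
      h (fc (wbf ((S j).F k) u (rr i) (lob ((t j).lf a) k : FLf ((S j).F k).Ω (M + 1))) : FL ((S j).F k))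
        ((lob ((s j).lf a) k).win ((S j).F k) (c + u * rr i) ⊔ fc (W j k)) / ((S j).F k).n ≤ 1 / ((j : ℝ) + 1)) ∧
    ((0 : ℝ) ≤ rr i → (rr i : ℝ) ≤ 1 → (dfA π (rr i) ((M + q) * rr i)).P (((S j).chg (W j) u hu).F k)
      (obR (S := (S j).chg (W j) u hu) (t j) (rbot ((S j).chg (W j) u hu)) k) (ε j + 1 / ((j : ℝ) + 1))) with hG2
  have hGe : ∀ j, ∀ᶠ k in UF, G j k := by
    intro j
    have hj : (0 : ℝ) < 1 / ((j : ℝ) + 1) := by positivity
    have h1 := Pool.Agent.Helper37.OKD.giv_ob (hs j)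
    by_cases hj0 : j0 ≤ j
    · filter_upwards [h1, (hzl j hj0).zs.zf _ hj] with k a b using ⟨a, fun _ => b⟩
    · filter_upwards [h1] with k a using ⟨a, fun h => absurd h hj0⟩
  have hG2e : ∀ i j, ∀ᶠ k in UF, G2 i j k := by
    intro i j
    have hj : (0 : ℝ) < 1 / ((j : ℝ) + 1) := by positivity
    by_cases hj0 : j0 ≤ j
    · have hz := hzl j hj0
      have h1 : ∀ᶠ k in UF, (0 : ℝ) ≤ rr i → c + u * rr i ≤ 1 → ∀ a : Fin r,
          h (fc (wbf ((S j).F k) u (rr i) (lob ((t j).lf a) k : FLf ((S j).F k).Ω (M + 1))) : FL ((S j).F k))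
            ((lob ((s j).lf a) k).win ((S j).F k) (c + u * rr i) ⊔ fc (W j k)) / ((S j).F k).n ≤
              1 / ((j : ℝ) + 1) := by
        by_cases hb : (0 : ℝ) ≤ rr i ∧ c + u * rr i ≤ 1
        · filter_upwards [eventually_all.2 fun a => ple_wbf.1 (hz.win (rr i) hb.1 hb.2 a) _ hj] with k hk _ _ using hk
        · exact Eventually.of_forall fun k a b => absurd ⟨a, b⟩ hb
      have h2 : ∀ᶠ k in UF, (0 : ℝ) ≤ rr i → (rr i : ℝ) ≤ 1 →
          (dfA π (rr i) ((M + q) * rr i)).P (((S j).chg (W j) u hu).F k)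
            (obR (S := (S j).chg (W j) u hu) (t j) (rbot ((S j).chg (W j) u hu)) k) (ε j + 1 / ((j : ℝ) + 1)) := by
        by_cases hb : (0 : ℝ) ≤ rr i ∧ (rr i : ℝ) ≤ 1
        · have h3 : (dfA π (rr i) ((M + q) * rr i)).pd (ε j) ((S j).chg (W j) u hu)
            (obR (S := (S j).chg (W j) u hu) (t j) (rbot ((S j).chg (W j) u hu))) :=
            dfA_of (Of_obR (t j) _) (hε0 j) fun T p B hB => hz.dfc T p B hB (rr i) hb.1 hb.2
          filter_upwards [h3 (ε j + 1 / ((j : ℝ) + 1)) (by linarith)] with k hk _ _ using hk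
        · exact Eventually.of_forall fun k a b => absurd ⟨a, b⟩ hb
      filter_upwards [h1, h2] with k a b _ using ⟨a, b⟩
    · exact Eventually.of_forall fun k h => absurd h hj0
  refine ⟨fun i j k => G j k ∧ G2 i j k ∧ E1 i j k, fun i j => (hGe j).and ((hG2e i j).and (hE1 i j)), fun J hd => ?_⟩
  have hd1 : Slo (fun j => (S j).chg (W j) u hu) E1 J := ⟨hd.tend, hd.lim.const_mul_atTop hu, fun i =>
    (hd.slow i).mono fun _ hk => hk.2.2⟩
  have hJ0 : ∀ᶠ k in UF, j0 ≤ J k := hd.tend.eventually (eventually_ge_atTop j0)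
  have hGJ : ∀ᶠ k in UF, G (J k) k := (hd.slow 0).mono fun _ hk => hk.1
  obtain ⟨t', R', ht', hR', hcl', hst'⟩ := hY1 J hd1
  intro s' hs'
  have o1 := Pool.Agent.Helper37.OKD.giv_ob ht'
  have o2 := Pool.Agent.Helper37.OKD.giv_ob hs'
  have o3 : ∀ᶠ k in UF, (ob s' k : FMs ((S (J k)).F k).Ω (M + 1) (Fin r)) = ob (s (J k)) k := by
    filter_upwards [o2, hGJ] with k a b using a.trans b.1.symm
  have o4 : ∀ᶠ k in UF, (ob t' k : FMs ((S (J k)).F k).Ω (M + 1) (Fin r)) = ob (t (J k)) k := o1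
  -- the limits of the exponents
  set lam' : Fin (M + 1) → ℝ := fun i => ul (fun k => lam (J k) i) with hlam
  have hUB : ∀ i : Fin (M + 1), UB (fun k => lam (J k) i) := fun i =>
    ⟨M + 2, Eventually.of_forall fun k => hlb _ i⟩
  have hlim : ∀ i : Fin (M + 1), Tendsto (fun k => lam (J k) i) UF (𝓝 (lam' i)) := fun i => ul_tendsto (hUB i)
  set η : ℕ → ℝ := fun k => ∑ i : Fin (M + 1), |lam (J k) i - lam' i| with hη
  have hη0 : ∀ k, 0 ≤ η k := fun k => Finset.sum_nonneg fun i _ => abs_nonneg _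
  have hηt : Tendsto η UF (𝓝 0) := by
    have h1 : Tendsto η UF (𝓝 (∑ i : Fin (M + 1), |lam' i - lam' i|)) :=
      tendsto_finsetSum _ fun i _ => ((hlim i).sub_const (lam' i)).abs
    simpa using h1
  have hηl : ∀ k (i : Fin (M + 1)), |lam' i - lam (J k) i| ≤ η k := fun k i => by
    rw [abs_sub_comm]
    exact Finset.single_le_sum (f := fun i => |lam (J k) i - lam' i|) (fun i _ => abs_nonneg _) (Finset.mem_univ i)
  have hεJ : Tendsto (fun k => ε (J k)) UF (𝓝 0) := hε.comp hd.tend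
  have hzs : ZS (S := dsp S J hd.lim) s' (rbot (dsp S J hd.lim)) (fun k => W (J k) k) c u hu t' (fun k => p (J k) k) D1 Λ
      lam' := by
    refine zs_of_zf hc0.le hcu (fun k => hdeg (J k) k) (fun k => htri (J k) k) ?_
    intro δ hδ
    have t1 : Tendsto (fun k => 1 / ((J k : ℝ) + 1) + (((M + 1 : ℕ) : ℝ) + 1) * η k) UF
        (𝓝 (0 + (((M + 1 : ℕ) : ℝ) + 1) * 0)) := (inv_tendsto hd.tend).add (hηt.const_mul _)
    rw [mul_zero, add_zero] at t1
    filter_upwards [hGJ, hJ0, t1.eventually (gt_mem_nhds hδ), o3, o4] with k a b d e f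
    have h1 := (ZF.chl (hη0 k) (hηl k) (a.2 b)).mono d.le
    have e3 : zdt (t (J k)) (p (J k)) k = zdt (S := dsp S J hd.lim) (W := fun k => W (J k) k) (u := u) (hu := hu) t'
        (fun k => p (J k) k) k := by
      unfold zdt
      show (⟨W (J k) k, (ob (t (J k)) k : FMs ((S (J k)).F k).Ω (M + 1) (Fin r)), p (J k) k⟩ :
        ZDt ((S (J k)).F k).Ω (M + 1) (Fin r)) =
        ⟨W (J k) k, (ob t' k : FMs ((S (J k)).F k).Ω (M + 1) (Fin r)), p (J k) k⟩
      rw [f]
    rw [← e, e3] at h1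
    exact h1
  -- the deficits
  have hdf : AllE (fun _ (t : MSys _ (M + 1) (lin κ) (Fin r)) _ => ∀ b : ℝ, 0 ≤ b → b ≤ 1 →
      H (t.Q.dg b) ≤ (M + q) * b + 0) ((dsp S J hd.lim).chg (fun k => W (J k) k) u hu) t'
      (rbot ((dsp S J hd.lim).chg (fun k => W (J k) k) u hu)) := by
    intro T q' B hB
    have hrat : ∀ b : ℚ, (0 : ℝ) ≤ b → (b : ℝ) ≤ 1 → H ((t'.Q.im q' B).dg b) ≤ (M + q) * b := by
      intro b hb0 hb1
      refine dfA_to (π := π) (x := obR t' (rbot _)) (Of_obR t' _) ?_ q' B hB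
      intro δ hδ
      have t1 : Tendsto (fun k => ε (J k) + 1 / ((J k : ℝ) + 1)) UF (𝓝 (0 + 0)) := hεJ.add (inv_tendsto hd.tend)
      rw [add_zero] at t1
      filter_upwards [hd.slow (Encodable.encode b), hJ0, t1.eventually (gt_mem_nhds hδ), o4] with k a e d f
      have h1 := (a.2.1 e).2
      simp only [hrr, Encodable.encodek, Option.getD_some] at h1
      have h2 := (dfA π b ((M + q) * b)).mono _ _ _ _ d.le (h1 hb0 hb1)
      have e1 : (obR (S := (S (J k)).chg (W (J k)) u hu) (t (J k)) (rbot ((S (J k)).chg (W (J k)) u hu)) k :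
          (KR (M + 1) (Fin r)).X (((S (J k)).chg (W (J k)) u hu).F k)) =
          obR (S := (dsp S J hd.lim).chg (fun k => W (J k) k) u hu) t'
            (rbot ((dsp S J hd.lim).chg (fun k => W (J k) k) u hu)) k := by
        show ((ob (t (J k)) k, ⊥) : FMs ((S (J k)).F k).Ω (M + 1) (Fin r) × Setoid ((S (J k)).F k).Ω) = (ob t' k, ⊥)
        rw [f]
        rfl
      rw [e1] at h2
      exact h2
    intro b hb0 hb1
    rw [add_zero]
    rcases hb0.eq_or_lt with h2 | h2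
    · have h3 := hrat 0 (by norm_num) (by norm_num)
      rw [Rat.cast_zero] at h3
      rw [← h2]
      exact h3
    apply le_of_forall_pos_le_add
    intro δ hδ
    obtain ⟨a, ha1, ha2⟩ := exists_rat_btwn (max_lt h2 (sub_lt_self b hδ))
    have ha3 := (le_max_left _ _).trans_lt ha1
    have ha4 := (le_max_right _ _).trans_lt ha1
    have h3 := hrat a ha3.le (ha2.le.trans hb1)
    have h4 := H_dg_le (t'.Q.im q' B) ha2.le
    show H ((t'.Q.im q' B).dg b) ≤ (M + q) * b + δ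
    push_cast at h4
    nlinarith
  have hDfc : ∀ b : ℝ, 0 < b → b ≤ 1 → Dfc b t' := by
    intro b hb0 hb1 T q' B hB
    have h1 := hdf T q' B hB b hb0.le hb1
    have h2 : H ((t'.im q' B hB).Q.dg b) ≤ (M + q) * b + 0 := h1
    push_cast
    nlinarith
  have hSt := hst' hDfc
  refine ⟨fun k => W (J k) k, hu, t', fun k => p (J k) k, lam', ⟨hzs, fun j => ?_, ?_, hcl'.1, hcl'.2.2, ?_, hdf⟩, ?_⟩
  · exact le_of_tendsto (hlim j).abs (Eventually.of_forall fun k => hlb (J k) j)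
  · have h1 : Tendsto (fun k => |∑ j, lam (J k) j - φ|) UF (𝓝 |∑ j, lam' j - φ|) :=
      ((tendsto_finsetSum _ fun j _ => hlim j).sub_const φ).abs
    refine le_of_tendsto_of_tendsto h1 hεJ ?_
    filter_upwards [hJ0] with k hk using (hzl (J k) hk).sum
  · intro b hb hcb a
    refine (ple_wbf (S := dsp S J hd.lim) (s := s') (t := t')).2 fun δ hδ => ?_
    filter_upwards [hd.slow (Encodable.encode b), hJ0, (inv_tendsto hd.tend).eventually (gt_mem_nhds hδ), o3, o4] with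
      k a1 e d f1 f2
    have h1 := (a1.2.1 e).1
    simp only [hrr, Encodable.encodek, Option.getD_some] at h1
    have h2 := (h1 hb hcb a).trans d.le
    have e1 : (lob (s'.lf a) k : FLf ((S (J k)).F k).Ω (M + 1)) = lob ((s (J k)).lf a) k :=
      congrFun (congrArg (fun x : FMs ((S (J k)).F k).Ω (M + 1) (Fin r) => x.lf) f1) a
    have e2 : (lob (t'.lf a) k : FLf ((S (J k)).F k).Ω (M + 1)) = lob ((t (J k)).lf a) k :=
      congrFun (congrArg (fun x : FMs ((S (J k)).F k).Ω (M + 1) (Fin r) => x.lf) f2) a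
    rw [← e1, ← e2] at h2
    exact h2
  · refine Pool.Agent.Helper70.CPW.Stb_germ (s := t') (R := R') ?_ hSt
    filter_upwards [hR'] with k a
    have e1 : R' k = ⊥ := a
    unfold Pool.Agent.Helper70.CPW.gsys
    rw [e1]
    rfl

end

end Pool.Agent.Helper49.KL
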