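import Mathlib
import Pool.Agent.Helper77.WDG.Nrm

/-! ALGEBRAIC RELATIONS with small degree in one variable: for `M` polynomials `p` of degree at most `D` in `M` variables
and any polynomial `g` there is a relation between `p` and `g` whose degree in `g` is at most `(M D) ^ M`. -/

set_option autoImplicit false

namespace Pool.Agent.Helper49.KL

open Finset MvPolynomial Pool.Agent.Helper77.WDG

noncomputable section

variable {M : ℕ}

/-- the number of powers of `g` in the relation -/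
def rN (M D : ℕ) : ℕ := (M * D) ^ M

theorem exists_large (M D c : ℕ) : ∃ L : ℕ, (M * D * L + c) ^ M < (rN M D + 1) * (L + 1) ^ M := by
  have hc : Continuous fun x : ℝ => ((M * D : ℕ) + x) ^ M := by fun_prop
  have h0 : ((M * D : ℕ) + (0 : ℝ)) ^ M < (rN M D : ℝ) + 1 := by
    rw [add_zero]
    unfold rN
    push_cast
    linarith
  have h1 : ∀ᶠ x in nhds (0 : ℝ), ((M * D : ℕ) + x) ^ M < (rN M D : ℝ) + 1 :=
    hc.continuousAt.eventually (gt_mem_nhds h0)
  obtain ⟨δ, hδ, h2⟩ := Metric.eventually_nhds_iff.mp h1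
  obtain ⟨L, hL⟩ := exists_nat_gt ((c : ℝ) / δ)
  refine ⟨L, ?_⟩
  have hL1 : (0 : ℝ) < (L : ℝ) + 1 := by positivity
  have h3 : (c : ℝ) / (L + 1) < δ := by
    rw [div_lt_iff₀ hL1]
    rw [div_lt_iff₀ hδ] at hL
    nlinarith
  have h4 : ((M * D : ℕ) + (c : ℝ) / (L + 1)) ^ M < (rN M D : ℝ) + 1 := by
    apply h2
    rw [Real.dist_eq, sub_zero, abs_of_nonneg (by positivity)]
    exact h3
  have h5 : ((M * D * L + c : ℕ) : ℝ) ≤ ((M * D : ℕ) + (c : ℝ) / (L + 1)) * (L + 1) := by
    have e1 : ((M * D : ℕ) + (c : ℝ) / (L + 1)) * (L + 1) = (M * D : ℕ) * (L + 1) + c := by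
      field_simp
    rw [e1]
    push_cast
    have : (0 : ℝ) ≤ (M : ℝ) * D := by positivity
    nlinarith
  have h6 : ((M * D * L + c : ℕ) : ℝ) ^ M < ((rN M D : ℝ) + 1) * (L + 1) ^ M := by
    calc ((M * D * L + c : ℕ) : ℝ) ^ M ≤ (((M * D : ℕ) + (c : ℝ) / (L + 1)) * (L + 1)) ^ M :=
          pow_le_pow_left₀ (Nat.cast_nonneg _) h5 M
      _ = ((M * D : ℕ) + (c : ℝ) / (L + 1)) ^ M * (L + 1) ^ M := mul_pow _ _ _
      _ < ((rN M D : ℝ) + 1) * (L + 1) ^ M := mul_lt_mul_of_pos_right h4 (by positivity)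
  exact_mod_cast h6

/-- exponents from a function with bounded values -/
def exf {L : ℕ} (a : Fin M → Fin (L + 1)) : Fin M →₀ ℕ := Finsupp.equivFunOnFinite.symm fun i => (a i : ℕ)

theorem exf_inj {L : ℕ} : Function.Injective (exf (M := M) (L := L)) := by
  intro a b h
  have h1 := Finsupp.equivFunOnFinite.symm.injective h
  funext i
  exact Fin.ext (congrFun h1 i)

theorem exf_apply {L : ℕ} (a : Fin M → Fin (L + 1)) (i : Fin M) : exf a i = (a i : ℕ) := rfl

/-- the polynomial with the coefficients `c` -/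
def bpl {L : ℕ} (c : (Fin M → Fin (L + 1)) → ℝ) : MvPolynomial (Fin M) ℝ := ∑ a, monomial (exf a) (c a)

theorem bpl_coeff {L : ℕ} (c : (Fin M → Fin (L + 1)) → ℝ) (a : Fin M → Fin (L + 1)) : (bpl c).coeff (exf a) = c a := by
  classical
  unfold bpl
  rw [coeff_sum, Finset.sum_eq_single a]
  · rw [coeff_monomial, if_pos rfl]
  · intro b _ hb
    rw [coeff_monomial, if_neg fun h => hb (exf_inj h)]
  · intro h; exact absurd (Finset.mem_univ _) h

theorem exf_deg {L : ℕ} (a : Fin M → Fin (L + 1)) : ((exf a).sum fun _ n => n) ≤ M * L := by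
  rw [Finsupp.sum_fintype _ _ fun _ => rfl]
  calc ∑ i, exf a i ≤ ∑ _i : Fin M, L := Finset.sum_le_sum fun i _ => Nat.lt_succ_iff.mp (a i).2
    _ = M * L := by rw [Finset.sum_const, Finset.card_univ, Fintype.card_fin, smul_eq_mul]

theorem bpl_deg {L : ℕ} (c : (Fin M → Fin (L + 1)) → ℝ) : (bpl c).totalDegree ≤ M * L := by
  refine (totalDegree_finsetSum _ _).trans (Finset.sup_le fun a _ => ?_)
  exact (totalDegree_monomial_le _ _).trans (exf_deg a)

theorem bpl_add {L : ℕ} (c c' : (Fin M → Fin (L + 1)) → ℝ) : bpl (c + c') = bpl c + bpl c' := by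
  unfold bpl
  rw [← Finset.sum_add_distrib]
  exact Finset.sum_congr rfl fun a _ => by rw [Pi.add_apply, map_add]

theorem bpl_smul {L : ℕ} (r : ℝ) (c : (Fin M → Fin (L + 1)) → ℝ) : bpl (r • c) = C r * bpl c := by
  unfold bpl
  rw [Finset.mul_sum]
  exact Finset.sum_congr rfl fun a _ => by rw [Pi.smul_apply, C_mul_monomial, smul_eq_mul]

/-- ALGEBRAIC RELATION: the degree in `g` is at most `(M D) ^ M`, for all degrees of `g` -/
theorem exists_rel (M D D' : ℕ) : ∃ L : ℕ, ∀ (p : Fin M → MvPolynomial (Fin M) ℝ) (g : MvPolynomial (Fin M) ℝ),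
    (∀ i, (p i).totalDegree ≤ D) → g.totalDegree ≤ D' →
    ∃ φ : Fin (rN M D + 1) → MvPolynomial (Fin M) ℝ, (∃ k, φ k ≠ 0) ∧ (∀ k, (φ k).totalDegree ≤ L) ∧
      ∑ k, bind₁ p (φ k) * g ^ (k : ℕ) = 0 := by
  classical
  obtain ⟨L, hL⟩ := exists_large M D (rN M D * D' + 1)
  refine ⟨M * L, fun p g hp hg => ?_⟩
  -- the linear map
  let m : ℕ := M * D * L + rN M D * D'
  let T : (Fin (rN M D + 1) → (Fin M → Fin (L + 1)) → ℝ) →ₗ[ℝ] ((Fin M → Fin (m + 1)) → ℝ) :=
    { toFun := fun c a => (∑ k, bind₁ p (bpl (c k)) * g ^ (k : ℕ)).coeff (exf a)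
      map_add' := fun c c' => by
        funext a
        rw [Pi.add_apply, ← coeff_add, ← Finset.sum_add_distrib]
        congr 1
        refine Finset.sum_congr rfl fun k _ => ?_
        rw [Pi.add_apply, bpl_add, map_add, add_mul]
      map_smul' := fun r c => by
        funext a
        rw [Pi.smul_apply, RingHom.id_apply, smul_eq_mul, ← coeff_C_mul, Finset.mul_sum]
        congr 1
        refine Finset.sum_congr rfl fun k _ => ?_
        rw [Pi.smul_apply, bpl_smul, map_mul, bind₁_C_right, mul_assoc] }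
  have hfin : Module.finrank ℝ ((Fin M → Fin (m + 1)) → ℝ) <
      Module.finrank ℝ (Fin (rN M D + 1) → (Fin M → Fin (L + 1)) → ℝ) := by
    rw [Module.finrank_fintype_fun_eq_card, Module.finrank_pi_fintype]
    simp only [Module.finrank_fintype_fun_eq_card, Finset.sum_const, Finset.card_univ, Fintype.card_fin,
      Fintype.card_fun, smul_eq_mul]
    calc (m + 1) ^ M = (M * D * L + (rN M D * D' + 1)) ^ M := by rw [add_assoc]
      _ < (rN M D + 1) * (L + 1) ^ M := hL
  have hker : LinearMap.ker T ≠ ⊥ := LinearMap.ker_ne_bot_of_finrank_lt hfin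
  obtain ⟨c, hc, hc0⟩ := (Submodule.ne_bot_iff _).mp hker
  have hT : T c = 0 := LinearMap.mem_ker.mp hc
  refine ⟨fun k => bpl (c k), ?_, fun k => bpl_deg _, ?_⟩
  · by_contra hn
    push Not at hn
    refine hc0 (funext fun k => funext fun a => ?_)
    have h1 := congrArg (fun P => MvPolynomial.coeff (exf a) P) (hn k)
    simp only [bpl_coeff, coeff_zero] at h1
    exact h1
  · have hdeg : (∑ k : Fin (rN M D + 1), bind₁ p (bpl (c k)) * g ^ (k : ℕ)).totalDegree ≤ m := by
      refine (totalDegree_finsetSum _ _).trans (Finset.sup_le fun k _ => ?_)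
      refine (totalDegree_mul _ _).trans (add_le_add ?_ ?_)
      · refine (totalDegree_bind_le (bpl_deg (c k)) p fun i _ => hp i).trans ?_
        rw [mul_right_comm]
      · refine (totalDegree_pow _ _).trans (Nat.mul_le_mul (Nat.lt_succ_iff.mp k.2) hg)
    ext b
    rw [coeff_zero]
    by_cases hb : ∀ i, b i ≤ m
    · have h1 := congrFun hT fun i => ⟨b i, Nat.lt_succ_iff.mpr (hb i)⟩
      have h2 : exf (fun i => (⟨b i, Nat.lt_succ_iff.mpr (hb i)⟩ : Fin (m + 1))) = b := by
        ext i; rfl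
      have h3 : (∑ k : Fin (rN M D + 1), bind₁ p (bpl (c k)) * g ^ (k : ℕ)).coeff
          (exf (fun i => (⟨b i, Nat.lt_succ_iff.mpr (hb i)⟩ : Fin (m + 1)))) = 0 := h1
      rw [h2] at h3
      exact h3
    · push Not at hb
      obtain ⟨i, hi⟩ := hb
      by_contra hne
      have h4 := le_totalDegree (mem_support_iff.mpr hne)
      rw [Finsupp.sum_fintype _ _ fun _ => rfl] at h4
      have h5 : b i ≤ ∑ j, b j := Finset.single_le_sum (f := fun j => b j) (fun _ _ => Nat.zero_le _) (Finset.mem_univ i)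
      exact absurd (h5.trans (h4.trans hdeg)) (not_le.mpr hi)

/-! ### polynomials in one variable -/

/-- chain rule -/
theorem deriv_aeval {σ : Type*} [Fintype σ] (f : σ → Polynomial ℝ) (P : MvPolynomial σ ℝ) :
    Polynomial.derivative (aeval f P) = ∑ i, aeval f (pderiv i P) * Polynomial.derivative (f i) := by
  classical
  induction P using MvPolynomial.induction_on with
  | C c =>
    have h1 : (aeval f (C c : MvPolynomial σ ℝ)) = Polynomial.C c := by
      rw [aeval_C]; rfl
    rw [h1, Polynomial.derivative_C]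
    simp
  | add p q hp hq =>
    simp only [map_add, hp, hq, add_mul, Finset.sum_add_distrib]
  | mul_X p n hp =>
    rw [map_mul, aeval_X, Polynomial.derivative_mul, hp]
    have h1 : ∀ i : σ, aeval f (pderiv i (p * X n)) * Polynomial.derivative (f i) =
        aeval f (pderiv i p) * Polynomial.derivative (f i) * f n +
          aeval f p * ((if i = n then 1 else 0) * Polynomial.derivative (f i)) := by
      intro i
      rw [Derivation.leibniz, pderiv_X, smul_eq_mul, smul_eq_mul, map_add, map_mul, map_mul, aeval_X]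
      by_cases h : i = n
      · subst h
        rw [Pi.single_eq_same, map_one, if_pos rfl]
        ring
      · rw [Pi.single_eq_of_ne' h, map_zero, if_neg h]
        ring
    rw [Finset.sum_congr rfl fun i _ => h1 i, Finset.sum_add_distrib, ← Finset.sum_mul, ← Finset.mul_sum]
    congr 2
    simp [ite_mul, Finset.sum_ite_eq']

/-- Taylor coefficients from values at `N + 1` points -/
theorem exists_vdm (N : ℕ) : ∃ C : ℝ, 1 ≤ C ∧ ∀ (b : Fin (N + 1) → ℝ) (η : ℝ), 0 ≤ η →
    (∀ i : Fin (N + 1), |∑ j : Fin (N + 1), b j * ((i : ℝ) / (N + 1)) ^ (j : ℕ)| ≤ η) → ∀ j, |b j| ≤ C * η := by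
  classical
  let v : Fin (N + 1) → ℝ := fun i => (i : ℝ) / (N + 1)
  have hv : Function.Injective v := by
    intro i j h
    have h1 : (i : ℝ) / (N + 1) = (j : ℝ) / (N + 1) := h
    have h2 : ((N : ℝ) + 1) ≠ 0 := by positivity
    have h3 : (i : ℝ) = (j : ℝ) := by
      field_simp at h1
      exact h1
    exact Fin.ext (by exact_mod_cast h3)
  have hdet : IsUnit (Matrix.vandermonde v).det :=
    isUnit_iff_ne_zero.mpr (Matrix.det_vandermonde_ne_zero_iff.mpr hv)
  let W := (Matrix.vandermonde v)⁻¹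
  refine ⟨1 + ∑ i, ∑ j, |W i j|, ?_, fun b η h0 hb j => ?_⟩
  · have : 0 ≤ ∑ i, ∑ j, |W i j| := Finset.sum_nonneg fun i _ => Finset.sum_nonneg fun j _ => abs_nonneg _
    linarith
  · have h1 : (Matrix.vandermonde v).mulVec b = fun i => ∑ j : Fin (N + 1), b j * (v i) ^ (j : ℕ) := by
      funext i
      simp only [Matrix.mulVec, dotProduct, Matrix.vandermonde_apply]
      exact Finset.sum_congr rfl fun j _ => mul_comm _ _
    have h2 : b = W.mulVec ((Matrix.vandermonde v).mulVec b) := by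
      rw [Matrix.mulVec_mulVec, Matrix.nonsing_inv_mul _ hdet, Matrix.one_mulVec]
    have h3 : b j = ∑ i, W j i * ∑ l : Fin (N + 1), b l * (v i) ^ (l : ℕ) := by
      conv_lhs => rw [h2, h1]
      rfl
    rw [h3]
    calc |∑ i, W j i * ∑ l : Fin (N + 1), b l * (v i) ^ (l : ℕ)|
        ≤ ∑ i, |W j i * ∑ l : Fin (N + 1), b l * (v i) ^ (l : ℕ)| := Finset.abs_sum_le_sum_abs _ _
      _ ≤ ∑ i, |W j i| * η := Finset.sum_le_sum fun i _ => by
          rw [abs_mul]
          exact mul_le_mul_of_nonneg_left (hb i) (abs_nonneg _)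
      _ = (∑ i, |W j i|) * η := (Finset.sum_mul _ _ _).symm
      _ ≤ (1 + ∑ i, ∑ j, |W i j|) * η := by
          apply mul_le_mul_of_nonneg_right _ h0
          have h4 : ∑ i, |W j i| ≤ ∑ i, ∑ j, |W i j| :=
            Finset.single_le_sum (f := fun i => ∑ j, |W i j|)
              (fun i _ => Finset.sum_nonneg fun j _ => abs_nonneg _) (Finset.mem_univ j)
          linarith

/-- values of a polynomial as a Taylor sum -/
theorem eval_taylor (P : Polynomial ℝ) {N : ℕ} (hP : P.natDegree ≤ N) (t s : ℝ) :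
    P.eval (s + t) = ∑ j : Fin (N + 1), (Polynomial.taylor t P).coeff j * s ^ (j : ℕ) := by
  rw [← Polynomial.taylor_eval, Polynomial.eval_eq_sum_range' (n := N + 1)
    (by rw [Polynomial.natDegree_taylor]; omega)]
  rw [Finset.sum_range]

/-- SMALL VALUES on an interval give small Taylor coefficients -/
theorem taylor_small (N : ℕ) : ∃ C : ℝ, 1 ≤ C ∧ ∀ (P : Polynomial ℝ) (t h η : ℝ), P.natDegree ≤ N → 0 ≤ η →
    (∀ s : ℝ, 0 ≤ s → s ≤ 1 → |P.eval (t + s * h)| ≤ η) →
    ∀ j, j ≤ N → |(Polynomial.taylor t P).coeff j| * |h| ^ j ≤ C * η := by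
  obtain ⟨C, hC, h1⟩ := exists_vdm N
  refine ⟨C, hC, fun P t h η hP hη hs j hj => ?_⟩
  have h2 := h1 (fun j => (Polynomial.taylor t P).coeff j * h ^ (j : ℕ)) η hη (fun i => ?_) ⟨j, by omega⟩
  · rwa [abs_mul, abs_pow] at h2
  · have h3 := hs ((i : ℝ) / (N + 1)) (by positivity) (by
      rw [div_le_one (by positivity)]
      have : (i : ℕ) < N + 1 := i.2
      have h5 : ((i : ℕ) : ℝ) < ((N + 1 : ℕ) : ℝ) := by exact_mod_cast this
      push_cast at h5
      exact h5.le)
    rw [add_comm, eval_taylor P hP] at h3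
    refine le_of_eq_of_le ?_ h3
    congr 1
    refine Finset.sum_congr rfl fun l _ => ?_
    rw [mul_pow]
    ring

/-- LARGE COEFFICIENTS give large Taylor coefficients -/
theorem taylor_large (N : ℕ) {P : Polynomial ℝ} (hP : P.natDegree ≤ N) {K t A B : ℝ} (hK : 1 ≤ K) (ht : |t| ≤ K)
    (hB : 0 ≤ B) {k : ℕ} (hA : A ≤ |P.coeff k|) (h : ∀ j, j ≤ N → |(Polynomial.taylor t P).coeff j| ≤ B) :
    A ≤ (N + 1) * (2 ^ N * K ^ N) * B := by
  have h1 : P = Polynomial.taylor (-t) (Polynomial.taylor t P) := by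
    rw [Polynomial.taylor_taylor, neg_add_cancel, Polynomial.taylor_zero]
  have hB2 : 0 ≤ (N + 1 : ℝ) * (2 ^ N * K ^ N) * B := by positivity
  rcases lt_or_ge N k with hk | hk
  · rw [Polynomial.coeff_eq_zero_of_natDegree_lt (by omega), abs_zero] at hA
    linarith
  have h2 : P.coeff k = ∑ j ∈ Finset.range (N + 1), (Polynomial.taylor t P).coeff j * ((j.choose k : ℝ) * (-t) ^ (j - k)) := by
    conv_lhs => rw [h1]
    rw [Polynomial.taylor_coeff, Polynomial.hasseDeriv_apply, Polynomial.sum_over_range' _ _ (N + 1)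
      (by rw [Polynomial.natDegree_taylor]; omega), Polynomial.eval_finsetSum]
    · refine Finset.sum_congr rfl fun j _ => ?_
      rw [Polynomial.eval_monomial]
      ring
    · intro j
      simp
  refine hA.trans ?_
  rw [h2]
  calc |∑ j ∈ Finset.range (N + 1), (Polynomial.taylor t P).coeff j * ((j.choose k : ℝ) * (-t) ^ (j - k))|
      ≤ ∑ j ∈ Finset.range (N + 1), |(Polynomial.taylor t P).coeff j * ((j.choose k : ℝ) * (-t) ^ (j - k))| :=
        Finset.abs_sum_le_sum_abs _ _
    _ ≤ ∑ _j ∈ Finset.range (N + 1), B * (2 ^ N * K ^ N) := Finset.sum_le_sum fun j hj => by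
        have hj' : j ≤ N := Nat.lt_succ_iff.mp (Finset.mem_range.mp hj)
        rw [abs_mul, abs_mul, abs_pow, abs_neg, Nat.abs_cast]
        have a1 : ((j.choose k : ℕ) : ℝ) ≤ 2 ^ N := by
          have : j.choose k ≤ 2 ^ j := Nat.choose_le_two_pow j k
          calc ((j.choose k : ℕ) : ℝ) ≤ ((2 ^ j : ℕ) : ℝ) := by exact_mod_cast this
            _ = 2 ^ j := by push_cast; ring
            _ ≤ 2 ^ N := pow_le_pow_right₀ (by norm_num) hj'
        have a2 : |t| ^ (j - k) ≤ K ^ N := (pow_le_pow_left₀ (abs_nonneg _) ht _).trans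
          (pow_le_pow_right₀ hK (by omega))
        exact mul_le_mul (h j hj') (mul_le_mul a1 a2 (by positivity) (by positivity)) (by positivity) hB
    _ = (N + 1) * (2 ^ N * K ^ N) * B := by
        rw [Finset.sum_const, Finset.card_range, nsmul_eq_mul]
        push_cast
        ring

end

end Pool.Agent.Helper49.KL
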