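import Pool.Agent.Helper49.KL.Inv

/-! THE ROWS THEMSELVES ARE A FORM: the volume of a point is at most `M` minus the mean of the exponents of the Gram
determinant `det (1 + P^T P)` of rows `P` which are known to an admissible label. -/

set_option autoImplicit false

namespace Pool.Agent.Helper49.KL

open MvPolynomial Matrix Finset Filter Topology Pool.Agent.Helper69.RK Pool.Agent.Helper31.EC
  Pool.Agent.Helper31.EC.Sp
open Pool.Agent.Helper40.EL Pool.Agent.Helper89.LX Pool.Agent.Helper3.LF Pool.Agent.Helper84.MT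
open Pool.Agent.Helper95.LF
open Pool.Agent.Helper14.MC (adf_sub gx vx vol_eq vx_UB vx_nonneg vol_opt_le vol_opt_eq)
open Pool.Agent.Helper7.GZ (ZU Rows jac jac_mul sbf sbf_nonneg sbf_symm Jq_sbf dP tend_t)
open Pool.Agent.Helper7.RD (PZ RW upz clz PLe_upz volC volCO volC_eq volC_le_of volC_le_M volC_zero volCO_le volCO_bdd)
open Pool.Agent.Helper89.RAD (cnA)

noncomputable section

variable {S : Sp} {M M' : ℕ}

theorem gram_symm (P : Matrix (Fin M') (Fin M) ℝ) : (1 + P.transpose * P).IsSymm := by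
  unfold Matrix.IsSymm
  rw [Matrix.transpose_add, Matrix.transpose_one, Matrix.transpose_mul, Matrix.transpose_transpose]

theorem gram_dv (P : Matrix (Fin M') (Fin M) ℝ) (v : Fin M → ℝ) :
    v ⬝ᵥ ((1 + P.transpose * P) *ᵥ v) = v ⬝ᵥ v + (P *ᵥ v) ⬝ᵥ (P *ᵥ v) := by
  rw [Matrix.add_mulVec, Matrix.one_mulVec, dotProduct_add, ← Matrix.mulVec_mulVec, Matrix.dotProduct_mulVec,
    Matrix.vecMul_transpose]

theorem gram_pd (P : Matrix (Fin M') (Fin M) ℝ) : PdM (1 + P.transpose * P) := by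
  refine ⟨gram_symm P, fun v hv => ?_⟩
  rw [gram_dv]
  have h1 := self_pos hv
  have h2 := self_nonneg' (P *ᵥ v)
  linarith

/-- the Gram determinant of the rows is at most the one of the pulled back form -/
theorem gram_le_GQ {m D DD p : ℕ} (P : Fin m → MvPolynomial (Fin M) ℝ) (hP : ∀ i, (P i).totalDegree ≤ p)
    (hDD : D * p ≤ DD) (hD : 1 ≤ D) (B : Matrix (Mon m D) (Mon m D) ℝ) (hB : B.IsSymm)
    (hB1 : ∀ x, x ⬝ᵥ x ≤ x ⬝ᵥ (B *ᵥ x)) (r r' : ℝ) (x : Fin M → ℝ) :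
    (1 + (jac P x).transpose * jac P x).det ≤ GQ r (1 + sbf DD P r' B) x := by
  have hB0 : ∀ x : Mon m D → ℝ, 0 ≤ x ⬝ᵥ (B *ᵥ x) := fun x => (self_nonneg' x).trans (hB1 x)
  have hss : (1 + sbf DD P r' B).IsSymm := Matrix.isSymm_one.add (sbf_symm P r' hB)
  unfold GQ
  refine det_mono (gram_pd _) (one_Jq_symm r hss x) fun v => ?_
  rw [gram_dv, dv_add, one_dv, jac_mul]
  have h2 := Jq_sbf (DD := DD) P hP hDD B hB0 r r' x v
  have h3 := Pool.Agent.Helper26.MZ.Jq_ge_self hD r' hB1 (fun i => eval x (P i)) (dP P x v)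
  have h4 : v ⬝ᵥ (Jq r (sbf DD P r' B) x *ᵥ v) ≤ v ⬝ᵥ (Jq r (1 + sbf DD P r' B) x *ᵥ v) := by
    apply Jq_mono
    intro y
    rw [dv_add, Matrix.one_mulVec]
    have := self_nonneg' y
    linarith
  linarith

/-- VOLUME of the form of the zoom, Gram determinant of the rows -/
theorem vol_out_gr {Z : ZU S} {Q : S.VV M} (z : PZ Z Q M') {κ κ' : Type} [Finite κ] {A : κ → Part S}
    {B : κ' → Part Z.sp} (hl : Z.l.DMf A)
    (hAB : ∀ i, ∃ j, PLe (B j) (upz Z (A i))) {D DD : ℕ} (hD : 1 ≤ D) (hDD : D * z.D ≤ DD)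
    {y : ∀ k, FD (Z.sp.F k) (Mon M' D)} (hy : (gaq z.X D).Adf B y)
    (lam : ∀ k, (Z.l k).T.Ω → ℝ) (Cl : ℝ) (hlb : ∀ᶠ k in UF, ∀ ω, (Z.l k).T.μ ω ≠ 0 → |lam k ω| ≤ Cl)
    (C : ℕ → ℝ) (hC : S.Sub C) (hdet : Typ (S := Z.l.sp) (fun k (ω : (Z.l k).T.Ω) =>
      2 ^ (2 * lam k ω * (S.F k).n) ≤ C k * (1 + (jac (z.R.p k ω) (Q.v k ((Z.l k).p.π ω))).transpose *
        jac (z.R.p k ω) (Q.v k ((Z.l k).p.π ω))).det)) :
    vol Q DD (z.out DD y) ≤ M - ul (fun k => ∑ ω, (Z.l k).T.μ ω * lam k ω) := by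
  have hx := z.out_ad hl hAB hDD hy
  obtain ⟨C', -, hbd'⟩ := gx_bd hx
  have hUx := vx_UB hx
  have e1 : ∀ k, ∑ ω, (y k).l.T.μ ω * lam k ((y k).l.p.π ω) = ∑ ω, (Z.l k).T.μ ω * lam k ω := fun k =>
    sum_push (y k).l.p (fun ω => lam k ω)
  have hUl : UB (fun k => ∑ ω, (Z.l k).T.μ ω * lam k ω) := by
    refine ⟨Cl, ?_⟩
    filter_upwards [hlb] with k hk
    refine (Finset.abs_sum_le_sum_abs _ _).trans ?_
    have h1 : ∀ ω ∈ (Finset.univ : Finset (Z.l k).T.Ω), |(Z.l k).T.μ ω * lam k ω| ≤ (Z.l k).T.μ ω * Cl := by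
      intro ω _
      rw [abs_mul, abs_of_nonneg ((Z.l k).T.nn ω)]
      by_cases h0 : (Z.l k).T.μ ω = 0
      · rw [h0, zero_mul, zero_mul]
      · exact mul_le_mul_of_nonneg_left (hk ω h0) ((Z.l k).T.nn ω)
    refine (Finset.sum_le_sum h1).trans (le_of_eq ?_)
    rw [← Finset.sum_mul, Pool.Agent.Helper3.PR.sum_mu, one_mul]
  have hUg : UB (fun k => ∑ ω, (y k).l.T.μ ω * lam k ((y k).l.p.π ω)) := by
    have h2 : (fun k => ∑ ω, (y k).l.T.μ ω * lam k ((y k).l.p.π ω)) =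
        fun k => ∑ ω, (Z.l k).T.μ ω * lam k ω := funext e1
    rw [h2]
    exact hUl
  have hE' : Tendsto (fun k => (y k).l.T.pb (fun ω => ¬ (2 ^ (2 * lam k ((y k).l.p.π ω) * (S.F k).n) ≤
      C k * (1 + (jac (z.R.p k ((y k).l.p.π ω)) (Q.v k ((Z.l k).p.π ((y k).l.p.π ω)))).transpose *
        jac (z.R.p k ((y k).l.p.π ω)) (Q.v k ((Z.l k).p.π ((y k).l.p.π ω)))).det))) UF (𝓝 0) := by
    refine Tendsto.congr (fun k => ?_) hdet
    exact (pb_push (y k).l.p _).symm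
  have hE2 := typ_and (S := (lb y).sp) (z.out_typ DD hDD hy) hE'
  have key := ul_avg_le (fun k => (y k).l.T) (fun k ω => gx Q k ((z.out DD y k).l.p.π ω) ((z.out DD y k).g ω))
    (fun k ω => lam k ((y k).l.p.π ω)) _
    (fun k => (Real.logb 2 (C k + 2) + 0 + 0 * Real.logb 2 (C k + 2) + 0) /
      (2 * (S.F k).n)) (tend_t hC hC 0 0 0) Cl hE2 (by
      filter_upwards [hy 1 one_pos, z.R.pz_ev, hC.1] with k h2 hpz hC0 ω hω hE
      have a0 := z.out_g DD k ω hE.1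
      have e0 : z.R.pz k ((y k).l.p.π ω) = z.R.p k ((y k).l.p.π ω) := hpz _
      have h3 := hE.2
      have h4 := gram_le_GQ (DD := DD) (z.R.pz k ((y k).l.p.π ω)) (z.R.pz_deg k _) hDD hD ((y k).g ω)
        (h2.2.1 ω hω).1.1 (h2.2.1 ω hω).1.2.1 (S.dl 1 k) (Z.sp.dl 1 k) (Q.v k ((Z.l k).p.π ((y k).l.p.π ω)))
      rw [e0] at h4
      rw [a0]
      have hn := (S.F k).pos
      have hg : 1 ≤ (1 + (jac (z.R.p k ((y k).l.p.π ω)) (Q.v k ((Z.l k).p.π ((y k).l.p.π ω)))).transpose *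
        jac (z.R.p k ((y k).l.p.π ω)) (Q.v k ((Z.l k).p.π ((y k).l.p.π ω)))).det := by
        refine one_le_det (gram_symm _) fun v => ?_
        rw [gram_dv]
        have := self_nonneg' (jac (z.R.p k ((y k).l.p.π ω)) (Q.v k ((Z.l k).p.π ((y k).l.p.π ω))) *ᵥ v)
        linarith
      have h5 : (2 : ℝ) ^ (2 * lam k ((y k).l.p.π ω) * (S.F k).n) ≤ (C k + 2) *
          GQ (S.dl 1 k) (z.zfm DD y k ω) (Q.v k ((Z.l k).p.π ((y k).l.p.π ω))) := by
        refine h3.trans ?_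
        have h6 : (1 + (jac (z.R.p k ((y k).l.p.π ω)) (Q.v k ((Z.l k).p.π ((y k).l.p.π ω)))).transpose *
          jac (z.R.p k ((y k).l.p.π ω)) (Q.v k ((Z.l k).p.π ((y k).l.p.π ω)))).det ≤
            GQ (S.dl 1 k) (z.zfm DD y k ω) (Q.v k ((Z.l k).p.π ((y k).l.p.π ω))) := by
          unfold PZ.zfm
          rw [e0]
          exact h4
        exact mul_le_mul (by linarith) h6 (by linarith) (by linarith)
      have h7 := Real.logb_le_logb_of_le (b := 2) (by norm_num) (by positivity) h5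
      have hG : 1 ≤ GQ (S.dl 1 k) (z.zfm DD y k ω) (Q.v k ((Z.l k).p.π ((y k).l.p.π ω))) := by
        unfold PZ.zfm
        rw [e0]
        exact hg.trans h4
      rw [Real.logb_rpow (by norm_num) (by norm_num), Real.logb_mul (by linarith) (by linarith)] at h7
      show lam k ((y k).l.p.π ω) ≤ Real.logb 2 (GQ (S.dl 1 k) (z.zfm DD y k ω)
        (Q.v k ((Z.l k).p.π ((y k).l.p.π ω)))) / (2 * (S.F k).n) + _
      rw [← add_div, le_div_iff₀ (by linarith)]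
      linarith) (by
      filter_upwards [hlb] with k h3 ω hω
      have h5 := h3 ((y k).l.p.π ω) ((y k).l.p.supp ω hω)
      have h6 := le_abs_self (lam k ((y k).l.p.π ω))
      linarith) (by
      filter_upwards [hbd'] with k h2 ω hω
      exact (h2 ω hω).1) hUg hUx
  have key2 : ul (fun k => ∑ ω, (Z.l k).T.μ ω * lam k ω) ≤ ul (vx Q (z.out DD y)) := by
    have e3 : (fun k => ∑ ω, (Z.l k).T.μ ω * lam k ω) =
        fun k => ∑ ω, (y k).l.T.μ ω * lam k ((y k).l.p.π ω) := funext fun k => (e1 k).symm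
    rw [e3]
    exact key
  rw [vol_eq]
  linarith

/-- VOLUMES and the Gram determinant of rows which are known to an exact label -/
theorem volCO_gr {Z : ZU S} {Q : S.VV M} (z : PZ Z Q M') {κ κ' : Type} [Finite κ] {A : κ → Part S}
    {B : κ' → Part Z.sp} (hl : Z.l.DMf A) (hAB : ∀ i, ∃ j, PLe (B j) (upz Z (A i))) {C : Part S}
    (hC : (LC.kz C).ev Z.l) (lam : ∀ k, (Z.l k).T.Ω → ℝ) (Cl : ℝ)
    (hlb : ∀ᶠ k in UF, ∀ ω, (Z.l k).T.μ ω ≠ 0 → |lam k ω| ≤ Cl)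
    (K : ℕ → ℝ) (hK : S.Sub K) (hdet : Typ (S := Z.l.sp) (fun k (ω : (Z.l k).T.Ω) =>
      2 ^ (2 * lam k ω * (S.F k).n) ≤ K k * (1 + (jac (z.R.p k ω) (Q.v k ((Z.l k).p.π ω))).transpose *
        jac (z.R.p k ω) (Q.v k ((Z.l k).p.π ω))).det)) :
    volCO (LC.kz C) A Q ≤ M - ul (fun k => ∑ ω, (Z.l k).T.μ ω * lam k ω) := by
  obtain ⟨y, hy⟩ := (gaq z.X 1).exists_optfK (LC.kz (upz Z C)) B
  exact (Pool.Agent.Helper7.RD.volCO_le (1 * z.D)).trans ((volC_le_of (z.out_adK hl hAB hC le_rfl hy.1)).trans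
    (vol_out_gr z hl hAB le_rfl le_rfl hy.1.1 lam Cl hlb K hK hdet))

end

end Pool.Agent.Helper49.KL
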