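import Pool.Agent.Helper49.KL.Rim

/-! INNER DIRECTION for zooms in the coordinates of rows. Let `X` be the values of rows `p` (label `l`) at `Q`. If the
point `X` has no algebraic relation which is known to a label then the volume of every form of `Q` is at least the volume
of the rows; more generally if `y` is a form of `X` of least volume in all degrees and its exponents are less than one then
every form of `Q` has at least the volume of the form `y` pulled back by the rows. (The conditions are arbitrary finite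
families of partitions; no system of leaves enters.) -/

set_option autoImplicit false

namespace Pool.Agent.Helper49.KL

open MvPolynomial Matrix Finset Filter Topology Pool.Agent.Helper69.RK Pool.Agent.Helper31.EC
  Pool.Agent.Helper31.EC.Sp
open Pool.Agent.Helper40.EL Pool.Agent.Helper89.LX Pool.Agent.Helper3.LF Pool.Agent.Helper84.MT
open Pool.Agent.Helper95.LF (PdM det_mono det_le_pow dv_add dv_smul dv_conj self_pos le_of_det_le)
open Pool.Agent.Helper26.BXD (Fm NG nsv Bcl)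
open Pool.Agent.Helper77.WDG (nrm nrm_nonneg coeff_le_nrm)
open Pool.Agent.Helper14.MC (gx vx vol_eq vx_UB)
open Pool.Agent.Helper7.GZ (ZU Rows jac jac_mul dP eval_dir2 rQ rQ_eq rQ_typ rQ_isX)
open Pool.Agent.Helper7.RD (PZ upz clz PLe_upz ovlz)
open Pool.Agent.Helper81.MI (totalDegree_bind)

noncomputable section

variable {S : Sp} {M : ℕ}

/-! ### row images of zooms -/

/-- the point of a zoom is a row image of the point of the space -/
def RI.ofPZ {Z : ZU S} {Q : S.VV M} (z : PZ Z Q M) : RI z.X where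
  q := fun k (ω : (Z.l k).T.Ω) => Q.v k ((Z.l k).p.π ω)
  r := S.dl 1
  r0 := S.dl_pos 1
  c₀ := 1 / Z.u
  rc := Eventually.of_forall fun k => by
    rw [Z.sp_dl', mul_one_div_cancel Z.hu.ne']
  D := z.D
  p := fun k (ω : (Z.l k).T.Ω) => z.R.p k ω
  deg := fun k ω => z.R.deg k ω
  kn := by
    filter_upwards [z.R.fn] with k hk ω ω' a b c
    obtain ⟨h1, h2, -⟩ := Z.hZ k ω ω' a b c
    exact hk ω ω' a b h2 h1
  K := fun k => z.hX.choose k + (z.R.lp (fun _ => 1) (S.Sub_const zero_le_one)).choose k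
  Ks := Z.Sub_sp.1 (z.hX.choose_spec.1.add (z.R.lp (fun _ => 1) (S.Sub_const zero_le_one)).choose_spec.1)
  typ := by
    have h1 := z.hX.choose_spec.2
    have h2 : Typ (S := Z.sp) _ := (z.R.lp (fun _ => 1) (S.Sub_const zero_le_one)).choose_spec.2
    refine (h1.and h2).mono ?_
    filter_upwards [z.hX.choose_spec.1.1, (z.R.lp (fun _ => 1) (S.Sub_const zero_le_one)).choose_spec.1.1] with k a b
    intro (ω : (Z.l k).T.Ω) hω h3
    have hd := (Z.sp.dl_pos 1 k).le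
    refine ⟨fun i => ?_, fun y hy i => ?_⟩
    · refine (h3.1 i).trans ?_
      rw [Z.sp_dl1]
      exact mul_le_mul_of_nonneg_right (by linarith) (S.dl_pos _ _).le
    · refine (h3.2 y (fun i => by rw [one_mul]; exact hy i) i).trans ?_
      rw [Z.sp_dl1]
      exact mul_le_mul_of_nonneg_right (by linarith) (S.dl_pos _ _).le

/-- composition -/
def RI.comp {X : S.VV M} (x : RI X) {Z : ZU S} (z : PZ Z X M) : RI z.X where
  q := fun k (ω : (Z.l k).T.Ω) => x.q k ((Z.l k).p.π ω)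
  r := x.r
  r0 := x.r0
  c₀ := x.c₀ / Z.u
  rc := by
    filter_upwards [x.rc] with k hk
    rw [Z.sp_dl', mul_div_cancel₀ _ Z.hu.ne']
    exact hk
  D := z.D * x.D
  p := fun k (ω : (Z.l k).T.Ω) i => bind₁ (x.p k ((Z.l k).p.π ω)) (z.R.p k ω i)
  deg := fun k ω i => totalDegree_bind _ (z.R.deg k ω i) _ (x.deg k _)
  kn := by
    filter_upwards [z.R.fn, x.kn] with k hk hx ω ω' a b c
    obtain ⟨h1, h2, h3⟩ := Z.hZ k ω ω' a b c
    have e1 := hk ω ω' a b h2 h1
    have e2 := hx _ _ (Z.supp k ω a) (Z.supp k ω' b) h3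
    funext i
    rw [e1, e2]
  K := fun k => z.hX.choose k + 2 * (z.R.lp (fun k => 2 * x.K k) ((S.Sub_const (by norm_num)).mul x.Ks)).choose k
  Ks := Z.Sub_sp.1 (z.hX.choose_spec.1.add ((S.Sub_const (by norm_num)).mul
    (z.R.lp (fun k => 2 * x.K k) ((S.Sub_const (by norm_num)).mul x.Ks)).choose_spec.1))
  typ := by
    have h1 := z.hX.choose_spec.2
    have h2 : Typ (S := Z.sp) _ := (z.R.lp (fun k => 2 * x.K k) ((S.Sub_const (by norm_num)).mul x.Ks)).choose_spec.2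
    have h4 : Typ (S := Z.sp) _ := typ_pull (l := Z.l) x.typ
    refine ((h1.and h2).and h4).mono ?_
    filter_upwards [z.hX.choose_spec.1.1,
      (z.R.lp (fun k => 2 * x.K k) ((S.Sub_const (by norm_num)).mul x.Ks)).choose_spec.1.1, x.Ks.1] with k a b c
    intro (ω : (Z.l k).T.Ω) hω h3
    obtain ⟨⟨h5, h6⟩, h7, h8⟩ := h3
    have hd := (S.dl_pos 1 k).le
    set KL := (z.R.lp (fun k => 2 * x.K k) ((S.Sub_const (by norm_num)).mul x.Ks)).choose k with hKL
    have e1 : ∀ (y : Fin M → ℝ) i, eval y (bind₁ (x.p k ((Z.l k).p.π ω)) (z.R.p k ω i)) =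
        eval (fun j => eval y (x.p k ((Z.l k).p.π ω) j)) (z.R.p k ω i) := fun y i => Pool.Agent.Helper81.MI.eval_bind _ _ _
    -- the point and the values of the rows
    have h9 : ∀ i, |eval (fun j => eval (x.q k ((Z.l k).p.π ω)) (x.p k ((Z.l k).p.π ω) j)) (z.R.p k ω i) -
        eval (X.v k ((Z.l k).p.π ω)) (z.R.p k ω i)| ≤ KL * S.dl Z.u k := h6 _ (fun i => by
      have := h7 i
      rw [abs_sub_comm] at this
      have h10 : 0 ≤ x.K k * S.dl 1 k := mul_nonneg c hd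
      rw [mul_assoc]
      linarith)
    refine ⟨fun i => ?_, fun y hy i => ?_⟩
    · rw [e1, Z.sp_dl1]
      have h10 := h5 i
      have h11 := h9 i
      rw [abs_sub_comm] at h11
      have h12 := abs_add_le (z.X.v k ω i - Rows.val Z z.R k ω i) (Rows.val Z z.R k ω i -
        eval (fun j => eval (x.q k ((Z.l k).p.π ω)) (x.p k ((Z.l k).p.π ω) j)) (z.R.p k ω i))
      rw [sub_add_sub_cancel] at h12
      have h13 : |Rows.val Z z.R k ω i - eval (fun j => eval (x.q k ((Z.l k).p.π ω))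
        (x.p k ((Z.l k).p.π ω) j)) (z.R.p k ω i)| ≤ KL * S.dl Z.u k := h11
      have h14 := (S.dl_pos Z.u k).le
      have h15 : 0 ≤ KL * S.dl Z.u k := mul_nonneg b h14
      rw [add_mul, mul_assoc 2]
      linarith
    · rw [e1, e1, Z.sp_dl1]
      have h10 : |eval (fun j => eval y (x.p k ((Z.l k).p.π ω) j)) (z.R.p k ω i) -
        eval (X.v k ((Z.l k).p.π ω)) (z.R.p k ω i)| ≤ KL * S.dl Z.u k := h6 _ (fun j => by
        have h11 := h7 j
        have h12 := h8 y hy j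
        rw [abs_sub_comm] at h11
        have h13 := abs_add_le (eval y (x.p k ((Z.l k).p.π ω) j) - eval (x.q k ((Z.l k).p.π ω))
          (x.p k ((Z.l k).p.π ω) j)) (eval (x.q k ((Z.l k).p.π ω)) (x.p k ((Z.l k).p.π ω) j) -
          X.v k ((Z.l k).p.π ω) j)
        rw [sub_add_sub_cancel] at h13
        rw [mul_assoc]
        linarith) i
      have h11 := h9 i
      rw [abs_sub_comm] at h11
      have h12 := abs_add_le (eval (fun j => eval y (x.p k ((Z.l k).p.π ω) j)) (z.R.p k ω i) -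
        eval (X.v k ((Z.l k).p.π ω)) (z.R.p k ω i)) (eval (X.v k ((Z.l k).p.π ω)) (z.R.p k ω i) -
        eval (fun j => eval (x.q k ((Z.l k).p.π ω)) (x.p k ((Z.l k).p.π ω) j)) (z.R.p k ω i))
      rw [sub_add_sub_cancel] at h12
      have h15 : 0 ≤ z.hX.choose k * S.dl Z.u k := mul_nonneg a (S.dl_pos Z.u k).le
      rw [add_mul, mul_assoc 2]
      linarith

/-! ### transports -/

/-- the second label of an amalgam -/
def Tr.ovl1 (l : Lab S) (c : ℝ) (hc : 0 < c) (y : Lab S) : Tr (l.ovl c hc y) (fun k => (y k).T) where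
  ρ := fun k ω => ((l k).am (y k)).p2.π ω
  sp := fun k ω h => ((l k).am (y k)).p2.supp ω h
  pb := fun k E => pb_push ((l k).am (y k)).p2 E
  sm := fun k f => sum_push ((l k).am (y k)).p2 f

/-- composition of transports -/
def Tr.comp {S' : Sp} {l : Lab S} {l' : Lab S'} {F : ℕ → FSp} (t : Tr l (fun k => (l' k).T)) (t' : Tr l' F) :
    Tr l F where
  ρ := fun k ω => t'.ρ k (t.ρ k ω)
  sp := fun k ω h => t'.sp k _ (t.sp k ω h)
  pb := fun k E => (t.pb k fun ω => E (t'.ρ k ω)).trans (t'.pb k E)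
  sm := fun k f => (t.sm k fun ω => f (t'.ρ k ω)).trans (t'.sm k f)

/-! ### the form of the rows -/

theorem gr_eq (p : Fin M → MvPolynomial (Fin M) ℝ) (q v : Fin M → ℝ) :
    v ⬝ᵥ ((1 + (jac p q).transpose * jac p q) *ᵥ v) = gr p q v := by
  rw [dv_add, one_dv]
  have h1 : (jac p q).transpose * jac p q = (jac p q).transpose * 1 * jac p q := by rw [Matrix.mul_one]
  rw [h1, dv_conj, Matrix.one_mulVec, jac_mul]
  unfold gr dotProduct
  congr 1
  refine Finset.sum_congr rfl fun i _ => ?_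
  have h2 : dP p q v i = ∑ a, v a * eval q (pderiv a (p i)) := eval_dir2 v q (p i)
  rw [h2, pow_two]

theorem one_gram_symm (P : Matrix (Fin M) (Fin M) ℝ) : (1 + P.transpose * P).IsSymm :=
  one_symm.add (by
    unfold Matrix.IsSymm
    rw [Matrix.transpose_mul, Matrix.transpose_transpose])

theorem one_gram_pd (P : Matrix (Fin M) (Fin M) ℝ) : PdM (1 + P.transpose * P) := by
  refine ⟨one_gram_symm P, fun x hx => ?_⟩
  rw [dv_add, one_dv]
  have h1 : P.transpose * P = P.transpose * 1 * P := by rw [Matrix.mul_one]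
  rw [h1, dv_conj, Matrix.one_mulVec]
  have h2 := self_pos hx
  have h3 := dot_self_nonneg (P *ᵥ x)
  linarith

/-! ### zooms without hull -/

theorem hVov {l : Lab S} {c : ℝ} {hc : 0 < c} (y : Lab S) (k : ℕ)
    (ω ω' : (l.ovl c hc y k).T.Ω) (a : (l.ovl c hc y k).T.μ ω ≠ 0) (b : (l.ovl c hc y k).T.μ ω' ≠ 0)
    (hZ : (l.ovl c hc y k).T.Z ω ω') (hV : (l.ovl c hc y k).V ω ω') :
    (y k).V ((Tr.ovl1 l c hc y).ρ k ω) ((Tr.ovl1 l c hc y).ρ k ω') ∧
      (y k).T.Z ((Tr.ovl1 l c hc y).ρ k ω) ((Tr.ovl1 l c hc y).ρ k ω') := by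
  refine ⟨hV, ?_⟩
  have h1 := ((l k).am (y k)).p1.supp ω a
  have h2 := ((l k).am (y k)).p1.supp ω' b
  have h3 := ((l k).am (y k)).p2.supp ω a
  have h4 := ((l k).am (y k)).p2.supp ω' b
  have h5 : (l k).T.Z (((l k).am (y k)).p1.π ω) (((l k).am (y k)).p1.π ω') := hZ.2
  have h6 := ((l k).p.hZ _ _ h1 h2).1 h5
  have h7 : (l k).p.π (((l k).am (y k)).p1.π ω) = (y k).p.π (((l k).am (y k)).p2.π ω) :=
    (((l k).am (y k)).supp ω a).1
  have h8 : (l k).p.π (((l k).am (y k)).p1.π ω') = (y k).p.π (((l k).am (y k)).p2.π ω') :=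
    (((l k).am (y k)).supp ω' b).1
  rw [h7, h8] at h6
  exact ((y k).p.hZ _ _ h3 h4).2 h6

/-- INNER DIRECTION, zoom without hull: every form of `Q` has at least the volume of the rows -/
theorem vol_ge_rows {Z : ZU S} {Q : S.VV M} (z : PZ Z Q M) {κ : Type} {A : κ → Part S} {D : ℕ}
    {x : ∀ k, FD (S.F k) (Mon M D)} (hx : (gaq Q D).Adf A x) (hD : 1 ≤ D)
    (hN : NSV z.X (Z.l.ovl Z.u Z.hu (lb x)))
    (lam : ∀ k, (Z.l k).T.Ω → ℝ) (Cl : ℝ) (hlb : ∀ᶠ k in UF, ∀ ω, (Z.l k).T.μ ω ≠ 0 → |lam k ω| ≤ Cl)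
    {K : ℕ → ℝ} (hK : S.Sub K) (hdet : Typ (S := Z.l.sp) (fun k (ω : (Z.l k).T.Ω) =>
      (1 + (jac (z.R.p k ω) (Q.v k ((Z.l k).p.π ω))).transpose * jac (z.R.p k ω) (Q.v k ((Z.l k).p.π ω))).det ≤
        K k * 2 ^ (2 * lam k ω * (S.F k).n))) :
    M - ul (fun k => ∑ ω, (Z.l k).T.μ ω * lam k ω) ≤ vol Q D x := by
  have h1 := (RI.ofPZ z).vol_ge (l := Z.l.ovl Z.u Z.hu (lb x)) hx hD hN (Tr.ovl1 Z.l Z.u Z.hu (lb x)) rfl
    (fun k ω hω => by
      have h2 : (Z.l k).p.π (((Z.l k).am (x k).l).p1.π ω) = (x k).l.p.π (((Z.l k).am (x k).l).p2.π ω) :=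
        (((Z.l k).am (x k).l).supp ω hω).1
      show Q.v k ((Z.l k).p.π (((Z.l k).am (x k).l).p1.π ω)) = _
      rw [h2]
      rfl) (Eventually.of_forall fun k ω ω' a b hZ hV => hVov (lb x) k ω ω' a b hZ hV) Z.hu Z.sp_n
    (fun k ω => lam k (((Z.l k).am (x k).l).p1.π ω)) Cl (by
      filter_upwards [hlb] with k hk ω hω
      exact hk _ (((Z.l k).am (x k).l).p1.supp ω hω))
    (fun k ω => 1 + (jac (z.R.p k (((Z.l k).am (x k).l).p1.π ω)) (Q.v k ((Z.l k).p.π
      (((Z.l k).am (x k).l).p1.π ω)))).transpose * jac (z.R.p k (((Z.l k).am (x k).l).p1.π ω))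
        (Q.v k ((Z.l k).p.π (((Z.l k).am (x k).l).p1.π ω)))) (K := fun k => K k + 1)
    (hK.add (S.Sub_const zero_le_one)) (by
      have h2 : Typ (S := Z.sp) (fun k (ω : (Z.l k).T.Ω) =>
        (1 + (jac (z.R.p k ω) (Q.v k ((Z.l k).p.π ω))).transpose * jac (z.R.p k ω) (Q.v k ((Z.l k).p.π ω))).det ≤
          K k * 2 ^ (2 * lam k ω * (S.F k).n)) := hdet
      refine (typ_pull (l := Z.l.ovl Z.u Z.hu (lb x)) h2).mono ?_
      filter_upwards [hK.1] with k hK0 ω hω h3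
      refine ⟨one_gram_pd _, fun v => ?_, h3.trans ?_⟩
      · have e1 := gr_eq (z.R.p k (((Z.l k).am (x k).l).p1.π ω)) (Q.v k ((Z.l k).p.π (((Z.l k).am (x k).l).p1.π ω))) v
        rw [e1]
        exact le_mul_of_one_le_left (gr_nonneg _ _ _) (by linarith)
      · exact mul_le_mul_of_nonneg_right (by linarith) (by positivity))
  have e1 : (fun k => ∑ ω, (Z.l.ovl Z.u Z.hu (lb x) k).T.μ ω * lam k (((Z.l k).am (x k).l).p1.π ω)) =
      fun k => ∑ ω, (Z.l k).T.μ ω * lam k ω := funext fun k => sum_push ((Z.l k).am (x k).l).p1 (fun ω => lam k ω)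
  rw [e1] at h1
  exact h1

/-! ### K-labels -/

/-- the point `X` is a literal function of `R` and the base -/
def LitP {N : ℕ} (R : ∀ k, Setoid (S.F k).Ω) (X : S.VV N) : Prop := ∀ᶠ k in UF, ∀ ω ω', (S.F k).μ ω ≠ 0 →
  (S.F k).μ ω' ≠ 0 → (S.F k).Z ω ω' → R k ω ω' → X.v k ω = X.v k ω'

/-- the family of partitions `R` -/
def fR (R : ∀ k, Setoid (S.F k).Ω) : Part S := fun k => fc (R k)

/-- `R` in the space of the zoom -/
def Rz (Z : ZU S) (R : ∀ k, Setoid (S.F k).Ω) : ∀ k, Setoid (Z.sp.F k).Ω := fun k => Setoid.comap (Z.l k).p.π (R k)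

theorem upz_fR (Z : ZU S) (R : ∀ k, Setoid (S.F k).Ω) : upz Z (fR R) = fR (Rz Z R) := rfl

theorem Bcl_lit {X : S.VV M} {R : ∀ k, Setoid (S.F k).Ω} (hR : LitP R X) {l : Lab S} (hC : (LC.kz (fR R)).ev l) :
    Bcl (LC.kz (fR R)) X l := fun b hb => by
  filter_upwards [hC, hR] with k hk hr
  exact Pool.Agent.Helper89.RAK.addW_kz (l k) _ (R k) hk fun ω ω' a a' hV hZ h =>
    hb k ω ω' a a' hV hZ (hr _ _ ((l k).p.supp ω a) ((l k).p.supp ω' a') (((l k).p.hZ ω ω' a a').1 hZ) h)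

theorem kz_ovl (Z : ZU S) {B : Part S} {y : Lab S} (hy : (LC.kz B).ev y) :
    (LC.kz (upz Z B)).ev (Z.l.ovl Z.u Z.hu y) := by
  filter_upwards [hy] with k b
  exact ovlz (Z.l k) Z.u Z.hu (y k) (B k) b

/-- NO SMALL VALUES from no gain, for labels of the space -/
theorem nsv_ovl {Z : ZU S} {X : Z.sp.VV M} {κ κ' : Type} [Finite κ'] {A : κ → Part S} {B : κ' → Part Z.sp}
    {R : ∀ k, Setoid (S.F k).Ω} (hLX : LitP (Rz Z R) X) (hBA : ∀ j, ∃ i, PLe (upz Z (A i)) (B j))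
    (hN : NG (LC.kz (upz Z (fR R))) X B) {y : Lab S} (hy : y.DMf A) (hyR : (LC.kz (fR R)).ev y) :
    NSV X (Z.l.ovl Z.u Z.hu y) :=
  NSV.of_ng hN (Lab.DMf.mono (Lab.DMf.ovl hy Z.l Z.u Z.hu) hBA) (Bcl_lit hLX (kz_ovl Z hyR))

/-- INNER DIRECTION, zoom without hull, K-labels -/
theorem vol_ge_of_ng {Z : ZU S} {Q : S.VV M} (z : PZ Z Q M) {κ κ' : Type} [Finite κ'] {A : κ → Part S}
    {B : κ' → Part Z.sp} {R : ∀ k, Setoid (S.F k).Ω} (hLX : LitP (Rz Z R) z.X)
    (hBA : ∀ j, ∃ i, PLe (upz Z (A i)) (B j)) (hN : NG (LC.kz (upz Z (fR R))) z.X B) {D : ℕ} (hD : 1 ≤ D)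
    {x : ∀ k, FD (S.F k) (Mon M D)} (hx : (gaq Q D).AdfK (LC.kz (fR R)) A x)
    (lam : ∀ k, (Z.l k).T.Ω → ℝ) (Cl : ℝ) (hlb : ∀ᶠ k in UF, ∀ ω, (Z.l k).T.μ ω ≠ 0 → |lam k ω| ≤ Cl)
    {K : ℕ → ℝ} (hK : S.Sub K) (hdet : Typ (S := Z.l.sp) (fun k (ω : (Z.l k).T.Ω) =>
      (1 + (jac (z.R.p k ω) (Q.v k ((Z.l k).p.π ω))).transpose * jac (z.R.p k ω) (Q.v k ((Z.l k).p.π ω))).det ≤
        K k * 2 ^ (2 * lam k ω * (S.F k).n))) :
    M - ul (fun k => ∑ ω, (Z.l k).T.μ ω * lam k ω) ≤ vol Q D x :=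
  vol_ge_rows z hx.1 hD (nsv_ovl hLX hBA hN (Gau.Adf.dm _ hx.1) hx.2) lam Cl hlb hK hdet

/-! ### the rows of a form of least volume -/

section least

variable {X : S.VV M} {κ : Type} [Finite κ] {B : κ → Part S} {R : ∀ k, Setoid (S.F k).Ω} {D₁ : ℕ} (hD₁ : 1 ≤ D₁)
  {y : ∀ k, FD (S.F k) (Mon M D₁)} (hy : (gaq X D₁).AdfK (LC.kz (fR R)) B y) {u : ℝ} (hu : 0 < u) (hu1 : u ≤ 1)
  (hG : GrB X y u)

/-- the zoom over the label of the form with the number of the best rows -/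
def zy (X : S.VV M) (y : ∀ k, FD (S.F k) (Mon M D₁)) {u : ℝ} (hu : 0 < u) (hu1 : u ≤ 1) : ZU S where
  l := ixl (fun k => (y k).l) (bnum X y)
  c := 0
  u := u
  h0 := le_rfl
  hu := hu
  h1 := by linarith

/-- its rows and its point -/
def zyp : PZ (zy X y hu hu1) X M where
  D := D₁
  Λ := D₁ + 1
  R := rowsOf hD₁ (Gau.Adf.fm hy.1) (bnum X y) hG
  X := rQ (zy X y hu hu1) (rowsOf hD₁ (Gau.Adf.fm hy.1) (bnum X y) hG)
  hX := rQ_isX (zy X y hu hu1) (rowsOf hD₁ (Gau.Adf.fm hy.1) (bnum X y) hG)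

theorem zyp_p (k : ℕ) (ω : (y k).l.T.Ω) (j : Fin M) :
    (zyp hD₁ hy hu hu1 hG).R.p k ω j = rfam (S.dl 1 k) ((y k).g ω) (bnum X y k ω j) := rfl

/-- the point of the zoom is literal -/
theorem zyp_lit (hLX : LitP R X) : LitP (Rz (zy X y hu hu1) R) (zyp hD₁ hy hu hu1 hG).X := by
  filter_upwards [hLX, (zyp hD₁ hy hu hu1 hG).R.fn] with k h1 h2
  intro (ω : (y k).l.T.Ω) (ω' : (y k).l.T.Ω) a b hZ hR
  obtain ⟨h3, h4, h5⟩ := (zy X y hu hu1).hZ k ω ω' a b hZ
  have h6 := h2 ω ω' a b h4 h3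
  have h7 := h1 _ _ ((zy X y hu hu1).supp k ω a) ((zy X y hu hu1).supp k ω' b) h5 hR
  funext j
  have h8 : Rows.val (zy X y hu hu1) (zyp hD₁ hy hu hu1 hG).R k ω j =
      Rows.val (zy X y hu hu1) (zyp hD₁ hy hu hu1 hG).R k ω' j := by
    unfold Rows.val
    rw [h6, h7]
  show (rQ (zy X y hu hu1) (zyp hD₁ hy hu hu1 hG).R).v k ω j = (rQ (zy X y hu hu1) (zyp hD₁ hy hu hu1 hG).R).v k ω' j
  unfold rQ
  simp only
  rw [h8]

include hy in
/-- the label of the zoom has no leak at `R` -/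
theorem zy_kz (hLX : LitP R X) : (LC.kz (fR R)).ev (zy X y hu hu1).l := by
  filter_upwards [hy.2, hLX] with k hk hr
  refine Pool.Agent.Helper89.RAK.addW_kz ((y k).l) _ (R k) hk fun ω ω' a a' hV hZ h => ?_
  have h1 := (y k).meas ω ω' a a' hV hZ
  have h2 := hr _ _ ((y k).l.p.supp ω a) ((y k).l.p.supp ω' a') (((y k).l.p.hZ ω ω' a a').1 hZ) h
  show bnum X y k ω = bnum X y k ω'
  unfold bnum
  rw [h1.1, h2]

/-- NO GAIN: the zoom in the coordinates of the rows of a form of least volume has no hull -/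
theorem zyp_ng (hLX : LitP R X) (hmin : ∀ (DD : ℕ) (y' : ∀ k, FD (S.F k) (Mon M DD)),
      (gaq X DD).AdfK (LC.kz (fR R)) B y' → vol X D₁ y ≤ vol X DD y') :
    NG (LC.kz (upz (zy X y hu hu1) (fR R))) (zyp hD₁ hy hu hu1 hG).X (fun i => upz (zy X y hu hu1) (B i)) := by
  intro D' y' hy'
  rcases Nat.eq_zero_or_pos D' with h0 | h0
  · subst h0
    have h1 := vol_deg_zero (zyp hD₁ hy hu hu1 hG).X y'
    rw [vol_eq] at h1
    linarith
  · obtain ⟨Cy, hCy, hbd⟩ := gx_bd hy.1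
    have hl : (zy X y hu hu1).l.DMf B := ixl_DMf (Gau.Adf.dm _ hy.1) (bnum X y)
    have h1 := (zyp hD₁ hy hu hu1 hG).out_adK (A := B) (DD := D' * (zyp hD₁ hy hu hu1 hG).D) hl
      (fun i => ⟨i, PLe.refl _⟩) (zy_kz hy hu hu1 hLX) le_rfl hy'
    have h2 := hmin _ _ h1
    have h3 := (zyp hD₁ hy hu hu1 hG).vol_out_le (A := B) (DD := D' * (zyp hD₁ hy hu hu1 hG).D) hl
      (fun i => ⟨i, PLe.refl _⟩) h0 le_rfl hy'.1 (fun k (ω : (y k).l.T.Ω) => gx X k ((y k).l.p.π ω) ((y k).g ω)) Cy (by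
        filter_upwards [hbd] with k hk ω hω
        rw [abs_of_nonneg (hk ω hω).1]
        exact (hk ω hω).2) (fun _ => (nrw M D₁ : ℝ) ^ M) (S.Sub_const (by positivity)) (by
        refine (Typ_true (S := (zy X y hu hu1).l.sp)).mono ?_
        filter_upwards [rows_jac hD₁ (Gau.Adf.fm hy.1) hG, form_pd (Gau.Adf.fm hy.1)] with k hk hpd
        intro (ω : (y k).l.T.Ω) hω _
        have h4 := (hk ω hω).1
        have h5 := hpd ω hω
        have hn := (S.F k).pos
        have h6 : (2 : ℝ) ^ (2 * gx X k ((y k).l.p.π ω) ((y k).g ω) * (S.F k).n) =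
            GQ (S.dl 1 k) ((y k).g ω) (X.v k ((y k).l.p.π ω)) := by
          have h7 : 2 * gx X k ((y k).l.p.π ω) ((y k).g ω) * (S.F k).n =
              Real.logb 2 (GQ (S.dl 1 k) ((y k).g ω) (X.v k ((y k).l.p.π ω))) := by
            unfold gx
            field_simp
          rw [h7, Real.rpow_logb (by norm_num) (by norm_num)]
          exact lt_of_lt_of_le one_pos (one_le_GQ _ h5.1 (fun v => h5.nonneg v) _)
        rw [h6]
        exact h4)
    have h4 : ul (fun k => ∑ ω, ((zy X y hu hu1).l k).T.μ ω *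
        (fun k (ω : (y k).l.T.Ω) => gx X k ((y k).l.p.π ω) ((y k).g ω)) k ω) = ul (vx X y) := rfl
    rw [h4] at h3
    have h5 := h2.trans h3
    rw [vol_eq] at h5
    have h6 : u * (M - vol (zyp hD₁ hy hu hu1 hG).X D' y') ≤ 0 := by
      have h7 : (zy X y hu hu1).u = u := rfl
      rw [h7] at h5
      linarith
    have h7 : M - vol (zyp hD₁ hy hu hu1 hG).X D' y' ≤ 0 := by
      by_contra hcon
      rw [not_le] at hcon
      have := mul_pos hu hcon
      linarith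
    rw [vol_eq] at h7
    linarith

end least

/-! ### windows of the zoom -/

/-- the rows of a form composed with rows: deterministic part -/
theorem core_det {D₁ : ℕ} {p : Fin M → MvPolynomial (Fin M) ℝ} {q X : Fin M → ℝ} {A : Matrix (Mon M D₁) (Mon M D₁) ℝ}
    (hA : PdM A) {r K K₁ : ℝ} (hr : 0 < r) (hK : 0 ≤ K) (hK₁ : 0 ≤ K₁) (hX : ∀ i, |X i - eval q (p i)| ≤ K₁ * r)
    (hP : (1 + (jac p q).transpose * jac p q).det ≤ K * (jac p q).det ^ 2) (b : Fin M → RIx M D₁) :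
    PdM ((jac p q).transpose * (1 + Jq r A X) * jac p q) ∧
      ∀ v, gr (fun i => bind₁ p (rfam r A (b i))) q v ≤
        (K + M * (1 + cQ M D₁ * (K₁ + 1) ^ (2 * D₁))) * (v ⬝ᵥ (((jac p q).transpose * (1 + Jq r A X) * jac p q) *ᵥ v)) := by
  set P := jac p q with hPd
  have hdet : 0 < P.det ^ 2 := by
    have h1 : 1 ≤ (1 + P.transpose * P).det :=
      Pool.Agent.Helper95.LF.one_le_det (one_gram_symm P) (fun x => by
        have h2 := (one_gram_pd P)
        rw [dv_add, one_dv]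
        have h3 : P.transpose * P = P.transpose * 1 * P := by rw [Matrix.mul_one]
        rw [h3, dv_conj, Matrix.one_mulVec]
        have := dot_self_nonneg (P *ᵥ x)
        linarith)
    by_contra hcon
    have h2 : P.det ^ 2 = 0 := le_antisymm (not_lt.1 hcon) (sq_nonneg _)
    rw [h2, mul_zero] at hP
    linarith
  have hinj : ∀ v : Fin M → ℝ, v ≠ 0 → P *ᵥ v ≠ 0 := by
    intro v hv h0
    have h1 : P.det ≠ 0 := fun h => by rw [h] at hdet; norm_num at hdet
    exact h1 (Matrix.exists_mulVec_eq_zero_iff.1 ⟨v, hv, h0⟩)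
  have hJ := one_Jq_pd r hA.1 (fun v => hA.nonneg v) X
  have hJ1 := one_Jq_ge r (fun v => hA.nonneg v) X
  have hgram : PdM (P.transpose * P) := by
    refine ⟨by
      unfold Matrix.IsSymm
      rw [Matrix.transpose_mul, Matrix.transpose_transpose], fun v hv => ?_⟩
    have h3 : P.transpose * P = P.transpose * 1 * P := by rw [Matrix.mul_one]
    rw [h3, dv_conj, Matrix.one_mulVec]
    exact self_pos (hinj v hv)
  have hsymm : (P.transpose * (1 + Jq r A X) * P).IsSymm := by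
    unfold Matrix.IsSymm
    rw [Matrix.transpose_mul, Matrix.transpose_mul, Matrix.transpose_transpose, hJ.1.eq, Matrix.mul_assoc]
  refine ⟨⟨hsymm, fun v hv => ?_⟩, fun v => ?_⟩
  · rw [dv_conj]
    exact hJ.2 _ (hinj v hv)
  · rw [dv_conj]
    set w := P *ᵥ v with hw
    set J := w ⬝ᵥ ((1 + Jq r A X) *ᵥ w) with hJd
    have hww : w ⬝ᵥ w ≤ J := hJ1 w
    have hJ0 : 0 ≤ J := (dot_self_nonneg w).trans hww
    -- the direction itself
    have h1 : v ⬝ᵥ v ≤ K * J := by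
      have hd2 : (P.transpose * P).det = P.det ^ 2 := by
        rw [Matrix.det_mul, Matrix.det_transpose, pow_two]
      have h2 := le_of_det_le hgram (one_gram_symm P) (fun x => by
        rw [dv_add, one_dv]
        have := dot_self_nonneg x
        linarith) (by rw [hd2]; exact hP) v
      have h3 : v ⬝ᵥ ((P.transpose * P) *ᵥ v) = w ⬝ᵥ w := by
        have h4 : P.transpose * P = P.transpose * 1 * P := by rw [Matrix.mul_one]
        rw [h4, dv_conj, Matrix.one_mulVec]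
      rw [h3, dv_add, one_dv, h3] at h2
      have h5 := dot_self_nonneg w
      have h6 : K * (w ⬝ᵥ w) ≤ K * J := mul_le_mul_of_nonneg_left hww hK
      linarith
    -- the rows
    set cc := cQ M D₁ * (K₁ + 1) ^ (2 * D₁) with hcc
    have hcc0 : 0 ≤ cc := mul_nonneg (by linarith [cQ_one M D₁]) (by positivity)
    have h2 : ∀ i ∈ (Finset.univ : Finset (Fin M)), (∑ a, v a * eval q (pderiv a (bind₁ p (rfam r A (b i))))) ^ 2 ≤
        (1 + cc) * J := by
      intro i _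
      have e1 : ∑ a, v a * eval q (pderiv a (bind₁ p (rfam r A (b i)))) =
          ∑ a, w a * eval (fun j => eval q (p j)) (pderiv a (rfam r A (b i))) := by
        have e2 := Pool.Agent.Helper7.GZ.dir_bind p (rfam r A (b i)) q v
        rw [eval_dir2, eval_dir2] at e2
        rw [e2, hw, hPd, jac_mul]
      rw [e1]
      refine (rfam_grad r hA _ (b i) w).trans ?_
      have h3 := Jq_comp' A hA r r (K₁ + 1) hr hr.le (by linarith) X (fun j => eval q (p j)) (fun j => by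
        have := hX j
        rw [abs_sub_comm] at this
        linarith) w
      rw [dv_add, one_dv]
      have h4 : J = w ⬝ᵥ w + w ⬝ᵥ (Jq r A X *ᵥ w) := by rw [hJd, dv_add, one_dv]
      have h5 := dot_self_nonneg w
      have h6 : w ⬝ᵥ (Jq r A X *ᵥ w) ≤ J := by linarith
      have h7 : cc * (w ⬝ᵥ (Jq r A X *ᵥ w)) ≤ cc * J := mul_le_mul_of_nonneg_left h6 hcc0
      have h8 : 0 ≤ w ⬝ᵥ (Jq r A X *ᵥ w) := Jq_nonneg r (fun v => hA.nonneg v) X w
      linarith
    have h3 := Finset.sum_le_card_nsmul _ _ _ h2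
    rw [nsmul_eq_mul, Finset.card_univ, Fintype.card_fin] at h3
    unfold gr
    rw [add_mul, mul_assoc]
    exact add_le_add h1 h3

end

end Pool.Agent.Helper49.KL
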