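import Pool.Agent.Helper49.KL.Inr

/-! INNER DIRECTION for zooms in the coordinates of rows, windows of the zoom. -/

set_option autoImplicit false

namespace Pool.Agent.Helper49.KL

open MvPolynomial Matrix Finset Filter Topology Pool.Agent.Helper69.RK Pool.Agent.Helper31.EC
  Pool.Agent.Helper31.EC.Sp
open Pool.Agent.Helper40.EL Pool.Agent.Helper89.LX Pool.Agent.Helper3.LF Pool.Agent.Helper84.MT
open Pool.Agent.Helper95.LF (PdM det_mono det_le_pow dv_add dv_smul dv_conj self_pos le_of_det_le)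
open Pool.Agent.Helper26.BXD (Fm NG nsv Bcl)
open Pool.Agent.Helper14.MC (gx vx vol_eq vx_UB)
open Pool.Agent.Helper7.GZ (ZU Rows jac jac_mul dP eval_dir2 rQ rQ_eq rQ_typ rQ_isX)
open Pool.Agent.Helper7.RD (PZ upz clz PLe_upz ovlz)

noncomputable section

variable {S : Sp} {M : ℕ}

/-- INNER DIRECTION, windows of the zoom: if `y` is a form of `X` of least volume in all degrees, with exponents less than
one, then every form of `Q` has at least the volume of the form `y` composed with the rows -/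
theorem vol_ge_win {Z : ZU S} {Q : S.VV M} (z : PZ Z Q M) {κ κ' : Type} [Finite κ'] {A : κ → Part S}
    {B : κ' → Part Z.sp} {R : ∀ k, Setoid (S.F k).Ω} (hLX : LitP (Rz Z R) z.X)
    (hBA : ∀ j, ∃ i, PLe (upz Z (A i)) (B j))
    {D₁ : ℕ} (hD₁ : 1 ≤ D₁) {y : ∀ k, FD (Z.sp.F k) (Mon M D₁)}
    (hy : (gaq z.X D₁).AdfK (LC.kz (upz Z (fR R))) B y)
    (hmin : ∀ (DD : ℕ) (y' : ∀ k, FD (Z.sp.F k) (Mon M DD)), (gaq z.X DD).AdfK (LC.kz (upz Z (fR R))) B y' →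
      vol z.X D₁ y ≤ vol z.X DD y')
    {u : ℝ} (hu : 0 < u) (hu1 : u ≤ 1) (hG : GrB z.X y u) {D : ℕ} (hD : 1 ≤ D)
    {x : ∀ k, FD (S.F k) (Mon M D)} (hx : (gaq Q D).AdfK (LC.kz (fR R)) A x)
    (lam : ∀ k, (Z.l k).T.Ω → ℝ) (Cl : ℝ) (hlb : ∀ᶠ k in UF, ∀ ω, (Z.l k).T.μ ω ≠ 0 → |lam k ω| ≤ Cl)
    {K : ℕ → ℝ} (hK : S.Sub K)
    (h1 : Typ (S := Z.l.sp) (fun k (ω : (Z.l k).T.Ω) =>
      (1 + (jac (z.R.p k ω) (Q.v k ((Z.l k).p.π ω))).transpose * jac (z.R.p k ω) (Q.v k ((Z.l k).p.π ω))).det ≤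
        K k * (jac (z.R.p k ω) (Q.v k ((Z.l k).p.π ω))).det ^ 2))
    (h2 : Typ (S := Z.l.sp) (fun k (ω : (Z.l k).T.Ω) =>
      (jac (z.R.p k ω) (Q.v k ((Z.l k).p.π ω))).det ^ 2 ≤ K k * 2 ^ (2 * lam k ω * (S.F k).n))) :
    M - ul (fun k => ∑ ω, (Z.l k).T.μ ω * lam k ω) - Z.u * (M - vol z.X D₁ y) ≤ vol Q D x := by
  classical
  have hy' : (gaq z.X D₁).AdfK (LC.kz (fR (Rz Z R))) B y := hy
  -- the second zoom
  set Z' : ZU Z.sp := zy z.X y hu hu1 with hZ'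
  set z' : PZ Z' z.X M := zyp hD₁ hy' hu hu1 hG with hz'
  set l' : Lab Z.sp := Z.l.ovl Z.u Z.hu (lb x) with hl'
  set l'' : Lab Z'.sp := Z'.l.ovl Z'.u Z'.hu l' with hl''
  have hl'B : l'.DMf B := Lab.DMf.mono (Lab.DMf.ovl (Gau.Adf.dm _ hx.1) Z.l Z.u Z.hu) hBA
  have hl'k : (LC.kz (fR (Rz Z R))).ev l' := kz_ovl Z hx.2
  have hN : NSV z'.X l'' := nsv_ovl (Z := Z') (X := z'.X) (A := B) (B := fun i => upz Z' (B i)) (R := Rz Z R)
    (zyp_lit hD₁ hy' hu hu1 hG hLX) (fun j => ⟨j, PLe.refl _⟩) (zyp_ng hD₁ hy' hu hu1 hG hLX hmin) hl'B hl'k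
  set t : Tr l'' (fun k => (x k).l.T) := (Tr.ovl1 Z'.l Z'.u Z'.hu l').comp (Tr.ovl1 Z.l Z.u Z.hu (lb x)) with ht
  obtain ⟨Cy, hCy, hbd⟩ := gx_bd hy.1
  -- the points
  have hpt : ∀ k (ω : (l'' k).T.Ω), (l'' k).T.μ ω ≠ 0 → (Z.l k).p.π ((y k).l.p.π (((Z'.l k).am (l' k)).p1.π ω)) =
      (x k).l.p.π (t.ρ k ω) := by
    intro k ω hω
    have h3 : (y k).l.p.π (((Z'.l k).am (l' k)).p1.π ω) = ((Z.l k).am (x k).l).p1.π (((Z'.l k).am (l' k)).p2.π ω) :=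
      (((Z'.l k).am (l' k)).supp ω hω).1
    have h4 := ((Z'.l k).am (l' k)).p2.supp ω hω
    have h5 : (Z.l k).p.π (((Z.l k).am (x k).l).p1.π (((Z'.l k).am (l' k)).p2.π ω)) =
        (x k).l.p.π (((Z.l k).am (x k).l).p2.π (((Z'.l k).am (l' k)).p2.π ω)) :=
      (((Z.l k).am (x k).l).supp _ h4).1
    rw [h3, h5]
    rfl
  have key := ((RI.ofPZ z).comp z').vol_ge (l := l'') hx.1 hD hN t rfl
    (fun k ω hω => by
      show Q.v k ((Z.l k).p.π ((y k).l.p.π (((Z'.l k).am (l' k)).p1.π ω))) = _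
      rw [hpt k ω hω]) (Eventually.of_forall fun k ω ω' a b hZ hV => by
      obtain ⟨h3, h4⟩ := hVov (l := Z'.l) (c := Z'.u) (hc := Z'.hu) l' k ω ω' a b hZ hV
      have h5 := ((Z'.l k).am (l' k)).p2.supp ω a
      have h6 := ((Z'.l k).am (l' k)).p2.supp ω' b
      exact hVov (l := Z.l) (c := Z.u) (hc := Z.hu) (lb x) k _ _ h5 h6 h4 h3) (u := u * Z.u) (mul_pos hu Z.hu)
    (fun k => by
      rw [Z'.sp_n k, Z.sp_n k, mul_assoc]
      rfl)
    (fun k ω => lam k ((y k).l.p.π (((Z'.l k).am (l' k)).p1.π ω)) +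
      Z.u * gx z.X k ((y k).l.p.π (((Z'.l k).am (l' k)).p1.π ω)) ((y k).g (((Z'.l k).am (l' k)).p1.π ω)))
    (Cl + Z.u * Cy) (by
      filter_upwards [hlb, hbd] with k hk hk2 ω hω
      have h3 : (y k).l.T.μ (((Z'.l k).am (l' k)).p1.π ω) ≠ 0 := ((Z'.l k).am (l' k)).p1.supp ω hω
      have h4 := hk _ ((y k).l.p.supp _ h3)
      have h5 := hk2 _ h3
      refine (abs_add_le _ _).trans (add_le_add h4 ?_)
      rw [abs_of_nonneg (mul_nonneg Z.hu.le h5.1)]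
      exact mul_le_mul_of_nonneg_left h5.2 Z.hu.le)
    (fun k ω => (jac (z.R.p k ((y k).l.p.π (((Z'.l k).am (l' k)).p1.π ω)))
      (Q.v k ((Z.l k).p.π ((y k).l.p.π (((Z'.l k).am (l' k)).p1.π ω))))).transpose *
        (1 + Jq (Z.sp.dl 1 k) ((y k).g (((Z'.l k).am (l' k)).p1.π ω))
          (z.X.v k ((y k).l.p.π (((Z'.l k).am (l' k)).p1.π ω)))) *
        jac (z.R.p k ((y k).l.p.π (((Z'.l k).am (l' k)).p1.π ω)))
      (Q.v k ((Z.l k).p.π ((y k).l.p.π (((Z'.l k).am (l' k)).p1.π ω)))))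
    (K := fun k => K k + M * (1 + cQ M D₁ * ((RI.ofPZ z).K k + 1) ^ (2 * D₁)))
    (by
      have h3 : S.Sub (RI.ofPZ z).K := Z.Sub_sp.2 (RI.ofPZ z).Ks
      exact hK.add ((S.Sub_const (Nat.cast_nonneg M)).mul ((S.Sub_const zero_le_one).add
        ((S.Sub_const (by linarith [cQ_one M D₁])).mul (Sub_pow' (h3.add (S.Sub_const zero_le_one)) _))))) (by
      have h3 : Typ (S := Z.sp) (fun k (ω : (Z.l k).T.Ω) =>
        (1 + (jac (z.R.p k ω) (Q.v k ((Z.l k).p.π ω))).transpose * jac (z.R.p k ω) (Q.v k ((Z.l k).p.π ω))).det ≤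
        K k * (jac (z.R.p k ω) (Q.v k ((Z.l k).p.π ω))).det ^ 2) := h1
      have h4 : Typ (S := Z.sp) (fun k (ω : (Z.l k).T.Ω) =>
        (jac (z.R.p k ω) (Q.v k ((Z.l k).p.π ω))).det ^ 2 ≤ K k * 2 ^ (2 * lam k ω * (S.F k).n)) := h2
      have h5 := typ_pull (l := l'') (typ_pull (l := Z'.l) ((h3.and h4).and (RI.ofPZ z).typ))
      refine h5.mono ?_
      filter_upwards [hK.1, (RI.ofPZ z).Ks.1, form_pd (Gau.Adf.fm hy.1)] with k hK0 hK1 hpd ω hω h6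
      obtain ⟨⟨h7, h8⟩, h9, -⟩ := h6
      have h10 : (y k).l.T.μ (((Z'.l k).am (l' k)).p1.π ω) ≠ 0 := ((Z'.l k).am (l' k)).p1.supp ω hω
      have hA := hpd _ h10
      have h11 := core_det (D₁ := D₁) (p := z.R.p k ((y k).l.p.π (((Z'.l k).am (l' k)).p1.π ω)))
        (q := Q.v k ((Z.l k).p.π ((y k).l.p.π (((Z'.l k).am (l' k)).p1.π ω))))
        (X := z.X.v k ((y k).l.p.π (((Z'.l k).am (l' k)).p1.π ω))) hA (Z.sp.dl_pos 1 k) hK0 hK1 h9 h7
        (bnum z.X y k (((Z'.l k).am (l' k)).p1.π ω))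
      have h12 : 0 ≤ (M : ℝ) * (1 + cQ M D₁ * ((RI.ofPZ z).K k + 1) ^ (2 * D₁)) := by
        have := cQ_one M D₁
        positivity
      refine ⟨h11.1, fun v => h11.2 v, ?_⟩
      have h13 : (1 : ℝ) ≤ GQ (Z.sp.dl 1 k) ((y k).g (((Z'.l k).am (l' k)).p1.π ω))
          (z.X.v k ((y k).l.p.π (((Z'.l k).am (l' k)).p1.π ω))) := one_le_GQ _ hA.1 (fun v => hA.nonneg v) _
      have hn := (S.F k).pos
      have h14 : (2 : ℝ) ^ (2 * (Z.u * gx z.X k ((y k).l.p.π (((Z'.l k).am (l' k)).p1.π ω))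
          ((y k).g (((Z'.l k).am (l' k)).p1.π ω))) * (S.F k).n) =
          GQ (Z.sp.dl 1 k) ((y k).g (((Z'.l k).am (l' k)).p1.π ω))
          (z.X.v k ((y k).l.p.π (((Z'.l k).am (l' k)).p1.π ω))) := by
        have h15 : 2 * (Z.u * gx z.X k ((y k).l.p.π (((Z'.l k).am (l' k)).p1.π ω))
          ((y k).g (((Z'.l k).am (l' k)).p1.π ω))) * (S.F k).n = Real.logb 2 (GQ (Z.sp.dl 1 k)
            ((y k).g (((Z'.l k).am (l' k)).p1.π ω)) (z.X.v k ((y k).l.p.π (((Z'.l k).am (l' k)).p1.π ω)))) := by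
          unfold gx
          rw [Z.sp_n]
          have := Z.hu
          field_simp
        rw [h15, Real.rpow_logb (by norm_num) (by norm_num) (lt_of_lt_of_le one_pos h13)]
      rw [Matrix.det_mul, Matrix.det_mul, Matrix.det_transpose]
      have h16 : ∀ a b c : ℝ, 2 * (a + b) * c = 2 * a * c + 2 * b * c := fun a b c => by ring
      rw [h16, Real.rpow_add (by norm_num), h14]
      have h17 : (1 + Jq (Z.sp.dl 1 k) ((y k).g (((Z'.l k).am (l' k)).p1.π ω))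
        (z.X.v k ((y k).l.p.π (((Z'.l k).am (l' k)).p1.π ω)))).det = GQ (Z.sp.dl 1 k)
          ((y k).g (((Z'.l k).am (l' k)).p1.π ω)) (z.X.v k ((y k).l.p.π (((Z'.l k).am (l' k)).p1.π ω))) := rfl
      rw [h17]
      set G := GQ (Z.sp.dl 1 k) ((y k).g (((Z'.l k).am (l' k)).p1.π ω))
          (z.X.v k ((y k).l.p.π (((Z'.l k).am (l' k)).p1.π ω))) with hGd
      set d := (jac (z.R.p k ((y k).l.p.π (((Z'.l k).am (l' k)).p1.π ω)))
      (Q.v k ((Z.l k).p.π ((y k).l.p.π (((Z'.l k).am (l' k)).p1.π ω))))).det with hd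
      have h18 : d ^ 2 ≤ K k * 2 ^ (2 * lam k ((y k).l.p.π (((Z'.l k).am (l' k)).p1.π ω)) * (S.F k).n) := h8
      have h19 : (0 : ℝ) < 2 ^ (2 * lam k ((y k).l.p.π (((Z'.l k).am (l' k)).p1.π ω)) * (S.F k).n) := by positivity
      calc d * G * d = d ^ 2 * G := by ring
        _ ≤ (K k * 2 ^ (2 * lam k ((y k).l.p.π (((Z'.l k).am (l' k)).p1.π ω)) * (S.F k).n)) * G :=
            mul_le_mul_of_nonneg_right h18 (by linarith)
        _ ≤ ((K k + M * (1 + cQ M D₁ * ((RI.ofPZ z).K k + 1) ^ (2 * D₁))) *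
            2 ^ (2 * lam k ((y k).l.p.π (((Z'.l k).am (l' k)).p1.π ω)) * (S.F k).n)) * G := by
            apply mul_le_mul_of_nonneg_right _ (by linarith)
            apply mul_le_mul_of_nonneg_right _ h19.le
            linarith
        _ = _ := by ring)
  have hm : ∀ k, ∑ ω, (Z.l k).T.μ ω = 1 := fun k => Pool.Agent.Helper3.PR.sum_mu _
  have hUl : UB (fun k => ∑ ω, (Z.l k).T.μ ω * lam k ω) := by
    refine ⟨Cl, ?_⟩
    filter_upwards [hlb] with k hk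
    refine (Finset.abs_sum_le_sum_abs _ _).trans ?_
    have h1 : ∀ ω ∈ (Finset.univ : Finset (Z.l k).T.Ω), |(Z.l k).T.μ ω * lam k ω| ≤ (Z.l k).T.μ ω * Cl := by
      intro ω _
      rw [abs_mul, abs_of_nonneg ((Z.l k).T.nn ω)]
      by_cases h0 : (Z.l k).T.μ ω = 0
      · rw [h0, zero_mul, zero_mul]
      · exact mul_le_mul_of_nonneg_left (hk ω h0) ((Z.l k).T.nn ω)
    refine (Finset.sum_le_sum h1).trans (le_of_eq ?_)
    rw [← Finset.sum_mul, hm, one_mul]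
  have e1 : (fun k => ∑ ω, (l'' k).T.μ ω * (lam k ((y k).l.p.π (((Z'.l k).am (l' k)).p1.π ω)) +
      Z.u * gx z.X k ((y k).l.p.π (((Z'.l k).am (l' k)).p1.π ω)) ((y k).g (((Z'.l k).am (l' k)).p1.π ω)))) =
      fun k => ∑ ω, (Z.l k).T.μ ω * lam k ω + Z.u * vx z.X y k := by
    funext k
    have h3 := sum_push ((Z'.l k).am (l' k)).p1 (fun ω : (y k).l.T.Ω => lam k ((y k).l.p.π ω) +
      Z.u * gx z.X k ((y k).l.p.π ω) ((y k).g ω))
    have h4 := sum_push (y k).l.p (fun ω => lam k ω)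
    have h5 : ∑ ω, (y k).l.T.μ ω * (lam k ((y k).l.p.π ω) + Z.u * gx z.X k ((y k).l.p.π ω) ((y k).g ω)) =
        ∑ ω, (Z.l k).T.μ ω * lam k ω + Z.u * vx z.X y k := by
      have h6 : ∑ ω, (y k).l.T.μ ω * lam k ((y k).l.p.π ω) = ∑ ω, (Z.l k).T.μ ω * lam k ω := h4
      rw [← h6]
      unfold vx
      rw [Finset.mul_sum, ← Finset.sum_add_distrib]
      exact Finset.sum_congr rfl fun ω _ => by ring
    rw [← h5]
    exact h3
  rw [e1, ul_add hUl ((vx_UB hy.1).const_mul Z.u), ul_const_mul _ (vx_UB hy.1)] at key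
  rw [vol_eq z.X]
  linarith

end

end Pool.Agent.Helper49.KL
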