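import Pool.Agent.Helper33.LIT.Sec
import Pool.Agent.Helper38.NSL.Sel

/-! LITERAL K-LABELS, part 1 (finite labels): in THEOREM LIT of helper33 the sampled value depends on the point only
through the law of the label given the point; for a label without leak at `R` this law is a function of the class of
`R` (and of the base), so the literal label is a function of `R`. -/

set_option autoImplicit false

namespace Pool.Agent.Helper49.KL

open Finset Pool.Agent.Helper69.RK Pool.Agent.Helper31.EC Pool.Agent.Helper76.RL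
open Pool.Agent.Helper33.LIT

noncomputable section

section fin
variable {V : Type} [Fintype V] [DecidableEq V]

/-- COMMON RANDOMNESS: a kernel `P` can be replaced by a function `w` such that every receiver `j`, who knows `g j`,
needs for `w` not more than 6 times the bits for `P` plus 30 -/
theorem lit_finK {Ω J : Type} {γ : J → Type} [Fintype Ω] [Fintype J] (μ : Ω → ℝ) (hμ : ∀ x, 0 ≤ μ x)
    (hμ1 : ∑ x, μ x = 1) (P : Ω → V → ℝ) (hP0 : ∀ x v, 0 ≤ P x v) (hP1 : ∀ x, ∑ v, P x v = 1)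
    (g : ∀ j, Ω → γ j) (Q : ∀ j, γ j → V → ℝ) (hQ0 : ∀ j c v, 0 ≤ Q j c v) (hQ1 : ∀ j c, ∑ v, Q j c v ≤ 1)
    (hPQ : ∀ j x v, μ x ≠ 0 → P x v ≠ 0 → 0 < Q j (g j x) v) (ψ : Ω → V → ℝ) (hψ : ∀ x v, 0 ≤ ψ x v) :
    ∃ w : Ω → V, (∀ x, P x (w x) ≠ 0) ∧ (∀ x y, P x = P y → w x = w y) ∧
      ∑ j, CH μ w (g j) + ∑ x, μ x * ψ x (w x) ≤
      ∑ j, (6 * ∑ x, μ x * ∑ v, P x v * (Real.logb 2 (P x v) - Real.logb 2 (Q j (g j x) v)) + 30) +
        2 * ∑ x, μ x * ∑ v, P x v * ψ x v := by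
  classical
  obtain ⟨L, hL⟩ := exists_nat_ge (∑ x, ∑ v, (P x v)⁻¹ + (Fintype.card V : ℝ))
  have hs0 : ∀ x, 0 ≤ ∑ v, (P x v)⁻¹ := fun x => Finset.sum_nonneg fun v _ => inv_nonneg.mpr (hP0 x v)
  have hrow : ∀ x, Row L (P x) := by
    intro x
    refine ⟨hP0 x, hP1 x, fun v hv => ?_, ?_⟩
    · have h1 : (P x v)⁻¹ ≤ ∑ v, (P x v)⁻¹ :=
        Finset.single_le_sum (f := fun v => (P x v)⁻¹) (fun v _ => inv_nonneg.mpr (hP0 x v)) (mem_univ v)
      have h2 : ∑ v, (P x v)⁻¹ ≤ ∑ x, ∑ v, (P x v)⁻¹ :=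
        Finset.single_le_sum (f := fun x => ∑ v, (P x v)⁻¹) (fun x _ => hs0 x) (mem_univ x)
      have h3 : (0 : ℝ) ≤ Fintype.card V := Nat.cast_nonneg _
      have h4 : (P x v)⁻¹ ≤ L := by linarith
      have h5 : 0 < P x v := lt_of_le_of_ne (hP0 x v) (Ne.symm hv)
      rw [inv_le_iff_one_le_mul₀ h5] at h4
      exact h4
    · have h2 : 0 ≤ ∑ x, ∑ v, (P x v)⁻¹ := Finset.sum_nonneg fun x _ => hs0 x
      have h3 : (Fintype.card V : ℝ) ≤ L := by linarith
      exact_mod_cast h3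
  set N : ℕ := (∑ j, ∑ x, ∑ v, lvl (P x v) (Q j (g j x) v)) + 1 with hN
  have hNl : ∀ j x v, lvl (P x v) (Q j (g j x) v) < N := by
    intro j x v
    rw [hN, Nat.lt_succ_iff]
    calc lvl (P x v) (Q j (g j x) v) ≤ ∑ v, lvl (P x v) (Q j (g j x) v) :=
          Finset.single_le_sum (f := fun v => lvl (P x v) (Q j (g j x) v)) (fun _ _ => Nat.zero_le _) (mem_univ v)
      _ ≤ ∑ x, ∑ v, lvl (P x v) (Q j (g j x) v) :=
          Finset.single_le_sum (f := fun x => ∑ v, lvl (P x v) (Q j (g j x) v)) (fun _ _ => Nat.zero_le _) (mem_univ x)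
      _ ≤ _ := Finset.single_le_sum (f := fun j => ∑ x, ∑ v, lvl (P x v) (Q j (g j x) v)) (fun _ _ => Nat.zero_le _)
          (mem_univ j)
  set w : Helper33.LIT.Ord (V × Fin L) → Ω → V := fun π x => (fst π (stc L (P x)) (hrow x).ne).1 with hw
  have hsupp : ∀ π x, P x (w π x) ≠ 0 := fun π x => (hrow x).mem (fst_spec π _ _).1
  set T : Helper33.LIT.Ord (V × Fin L) → ℝ := fun π => ∑ j, ∑ x, μ x * (-Real.logb 2 (code N π (Q j (g j x)) (w π x))) +
    ∑ x, μ x * ψ x (w π x) with hT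
  obtain ⟨π, hπ⟩ := exists_le_av T
  have hcon : ∀ x y, P x = P y → w π x = w π y := by
    intro x y hxy
    rw [hw]
    simp only
    have h0 : ∀ (p q : V → ℝ) (hp : (stc L p).Nonempty) (hq : (stc L q).Nonempty), p = q →
        (fst π (stc L p) hp).1 = (fst π (stc L q) hq).1 := by
      intro p q hp hq hpq
      subst hpq
      rfl
    exact h0 _ _ _ _ hxy
  refine ⟨w π, hsupp π, hcon, ?_⟩
  have h1 : ∀ j ∈ (univ : Finset J), CH μ (w π) (g j) ≤ ∑ x, μ x * (-Real.logb 2 (code N π (Q j (g j x)) (w π x))) := by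
    intro j _
    refine (gibbs_CH μ (w π) (g j) hμ (fun c v => code N π (Q j c) v) (fun c v => code_nonneg _ _ _ _)
      (fun c S => code_sum _ _ _ _) ?_).trans (le_of_eq ?_)
    · intro x hx
      have hm := (fst_spec π (stc L (P x)) (hrow x).ne).1
      have hp := hsupp π x
      have hp0 : 0 < P x (w π x) := lt_of_le_of_ne (hP0 _ _) (Ne.symm hp)
      have hq := hPQ j x (w π x) hx hp
      have hL0 : (0 : ℝ) ≤ L := Nat.cast_nonneg L
      have hmem : fst π (stc L (P x)) (hrow x).ne ∈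
          stc L fun v => 2 ^ (lvl (P x (w π x)) (Q j (g j x) (w π x))) * Q j (g j x) v := by
        unfold stc
        unfold stc at hm
        rw [Finset.mem_filter] at hm ⊢
        refine ⟨mem_univ _, lt_of_lt_of_le hm.2 ?_⟩
        apply Nat.ceil_mono
        exact mul_le_mul_of_nonneg_left (lvl_spec hp0 hq) hL0
      exact (code_log (hNl j x (w π x)) hmem).1
    · rw [← Finset.sum_neg_distrib]
      refine Finset.sum_congr rfl fun x _ => ?_
      ring
  have h2 : ∑ j, CH μ (w π) (g j) + ∑ x, μ x * ψ x (w π x) ≤ T π := by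
    rw [hT]
    simp only
    have := Finset.sum_le_sum h1
    linarith
  refine (h2.trans hπ).trans ?_
  rw [hT, av_add, av_sum]
  have h3 : ∀ j ∈ (univ : Finset J), av (fun π : Helper33.LIT.Ord (V × Fin L) => ∑ x, μ x * (-Real.logb 2 (code N π (Q j (g j x)) (w π x)))) ≤
      6 * ∑ x, μ x * ∑ v, P x v * (Real.logb 2 (P x v) - Real.logb 2 (Q j (g j x) v)) + 30 := by
    intro j _
    rw [av_sum]
    have h4 : ∀ x ∈ (univ : Finset Ω), av (fun π : Helper33.LIT.Ord (V × Fin L) => μ x * (-Real.logb 2 (code N π (Q j (g j x)) (w π x)))) ≤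
        μ x * (6 * ∑ v, P x v * (Real.logb 2 (P x v) - Real.logb 2 (Q j (g j x) v)) + 30) := by
      intro x _
      rw [av_mul]
      by_cases hx : μ x = 0
      · rw [hx, zero_mul, zero_mul]
      · apply mul_le_mul_of_nonneg_left _ (hμ x)
        exact (hrow x).bits (hQ0 j _) (hQ1 j _) (fun v hv => hPQ j x v hx hv) (fun v _ => hNl j x v)
    refine (Finset.sum_le_sum h4).trans (le_of_eq ?_)
    have h5 : ∀ x ∈ (univ : Finset Ω), μ x * (6 * ∑ v, P x v * (Real.logb 2 (P x v) - Real.logb 2 (Q j (g j x) v)) + 30) =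
        6 * (μ x * ∑ v, P x v * (Real.logb 2 (P x v) - Real.logb 2 (Q j (g j x) v))) + 30 * μ x := by
      intro x _
      ring
    rw [Finset.sum_congr rfl h5, Finset.sum_add_distrib, ← Finset.mul_sum, ← Finset.mul_sum, hμ1, mul_one]
  have h4 : av (fun π : Helper33.LIT.Ord (V × Fin L) => ∑ x, μ x * ψ x (w π x)) ≤ 2 * ∑ x, μ x * ∑ v, P x v * ψ x v := by
    rw [av_sum, Finset.mul_sum]
    refine Finset.sum_le_sum fun x _ => ?_
    rw [av_mul]
    have h5 : av (fun π : Helper33.LIT.Ord (V × Fin L) => ψ x (w π x)) ≤ 2 * ∑ v, P x v * ψ x v := by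
      rw [hw]
      simp only
      rw [av_fst_fun (hrow x).ne (fun a => ψ x a.1)]
      exact (hrow x).avg (hψ x)
    have := mul_le_mul_of_nonneg_left h5 (hμ x)
    linarith
  have h5 := Finset.sum_le_sum h3
  linarith


end fin

end

end Pool.Agent.Helper49.KL

namespace Pool.Agent.Helper49.KL

open Finset Pool.Agent.Helper69.RK Pool.Agent.Helper31.EC Pool.Agent.Helper40.EL
open Pool.Agent.Helper33.LIT Pool.Agent.Helper38.NSL

noncomputable section

section lab
variable {F : FSp} (l : FLab F)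

/-- a label without leak at `R` becomes a function of `R`: leaks, loss of information and one bad function are
controlled -/
theorem flitK {R : Setoid F.Ω} (hR : l.leak (fc R) = 0) {J : Type} [Fintype J] (A : J → Setoid F.Ω)
    (b : l.T.Ω → ℝ) (hb : ∀ τ, 0 ≤ b τ) :
    ∃ f : F.Ω → l.T.Ω, (∀ x, F.μ x ≠ 0 → l.p.π (f x) = x ∧ l.T.μ (f x) ≠ 0) ∧
      (∀ x y, R x y → F.Z x y → l.V (f x) (f y)) ∧
      ∑ j, h (fc (Setoid.comap f l.V)) (fc (A j)) + I l.v l.p.top (l.p.map (fc (Setoid.comap f l.V))) +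
        ∑ x, F.μ x * b (f x) ≤ ∑ j, (6 * l.leak (fc (A j)) + 30) + 2 * unv l + 2 * ∑ τ, l.T.μ τ * b τ := by
  classical
  obtain ⟨w, hw, hcon, hs⟩ := lit_finK F.μ F.nn F.ms (kr l) (kr_nonneg l) (kr_sum l) (fun j => cg (A j))
    (fun j c v => cpk l.T.μ (mk l) (fun τ => cg (A j) (l.p.π τ)) c v) (fun j c v => cpk_nonneg l.T.nn _ _)
    (fun j c => cpk_sum_le l.T.nn _) (by
      intro j x v hx hv
      obtain ⟨τ, a1, a2, a3⟩ := kr_ne l hx hv
      have h1 := cpk_pos (f := mk l) (g := fun τ => cg (A j) (l.p.π τ)) l.T.nn a3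
      rwa [a1, a2] at h1) (fun x v => max 0 (kp l x v) + mb l b x v)
    (fun x v => add_nonneg (le_max_left _ _) (mb_nonneg l hb x v))
  have h1 : ∀ x, F.μ x ≠ 0 → ∃ τ, l.p.π τ = x ∧ mk l τ = w x ∧ l.T.μ τ ≠ 0 ∧ b τ ≤ mb l b x (w x) :=
    fun x hx => exists_mb l b hx (hw x)
  have hcls : ∀ x y, F.μ x ≠ 0 → F.μ y ≠ 0 → R x y → F.Z x y → w x = w y := by
    intro x y hx hy h2 h3
    apply hcon
    funext v
    rw [kr_of_leak l R hR hx v, kr_of_leak l R hR hy v]
    exact qk_congr l R (Quotient.sound (s := R ⊓ F.Z) ⟨h2, h3⟩) v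
  set f1 : F.Ω → l.T.Ω := fun x => if hx : F.μ x ≠ 0 then (h1 x hx).choose else (exists_T l).some with hf1d
  have hf1' : ∀ x, F.μ x ≠ 0 → l.p.π (f1 x) = x ∧ mk l (f1 x) = w x ∧ l.T.μ (f1 x) ≠ 0 ∧ b (f1 x) ≤ mb l b x (w x) := by
    intro x hx
    have h2 : f1 x = (h1 x hx).choose := by
      rw [hf1d]
      simp only
      rw [dif_pos hx]
    rw [h2]
    exact (h1 x hx).choose_spec
  set f : F.Ω → l.T.Ω := fun x => if F.μ x ≠ 0 then f1 x else
    if h2 : ∃ y, F.μ y ≠ 0 ∧ R x y ∧ F.Z x y then f1 h2.choose else (exists_T l).some with hf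
  have hfp : ∀ x, F.μ x ≠ 0 → f x = f1 x := fun x hx => if_pos hx
  have hf1 : ∀ x, F.μ x ≠ 0 → l.p.π (f x) = x ∧ mk l (f x) = w x ∧ l.T.μ (f x) ≠ 0 ∧ b (f x) ≤ mb l b x (w x) := by
    intro x hx
    rw [hfp x hx]
    exact hf1' x hx
  have hfv : ∀ x y, F.μ y ≠ 0 → R x y → F.Z x y → mk l (f x) = w y := by
    intro x y hy h2 h3
    by_cases hx : F.μ x ≠ 0
    · rw [(hf1 x hx).2.1]
      exact hcls x y hx hy h2 h3
    · have h4 : ∃ y, F.μ y ≠ 0 ∧ R x y ∧ F.Z x y := ⟨y, hy, h2, h3⟩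
      have h5 : f x = f1 h4.choose := by
        rw [hf]
        simp only
        rw [if_neg hx, dif_pos h4]
      rw [h5, (hf1' _ h4.choose_spec.1).2.1]
      exact hcls _ _ h4.choose_spec.1 hy (R.trans (R.symm h4.choose_spec.2.1) h2)
        (F.Z.trans (F.Z.symm h4.choose_spec.2.2) h3)
  have hlit : ∀ x y, R x y → F.Z x y → l.V (f x) (f y) := by
    intro x y h2 h3
    by_cases h4 : ∃ z, F.μ z ≠ 0 ∧ R x z ∧ F.Z x z
    · obtain ⟨z, hz, h5, h6⟩ := h4
      apply (Quotient.eq (r := l.V)).mp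
      exact (hfv x z hz h5 h6).trans (hfv y z hz (R.trans (R.symm h2) h5) (F.Z.trans (F.Z.symm h3) h6)).symm
    · have h5 : ¬ ∃ z, F.μ z ≠ 0 ∧ R y z ∧ F.Z y z := fun ⟨z, hz, h5, h6⟩ =>
        h4 ⟨z, hz, R.trans h2 h5, F.Z.trans h3 h6⟩
      have e1 : ∀ x, (¬ ∃ z, F.μ z ≠ 0 ∧ R x z ∧ F.Z x z) → f x = (exists_T l).some := by
        intro x hx
        rw [hf]
        simp only
        rw [if_neg (fun h => hx ⟨x, h, R.refl x, F.Z.refl x⟩), dif_neg hx]
      rw [e1 x h4, e1 y h5]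
  refine ⟨f, fun x hx => ⟨(hf1 x hx).1, (hf1 x hx).2.2.1⟩, hlit, ?_⟩
  have hsec := fun B => h_sec l (fun x hx => (hf1 x hx).2.1) B
  have e1 : ∀ j ∈ (univ : Finset J), h (fc (Setoid.comap f l.V)) (fc (A j)) = CH F.μ w (cg (A j)) := fun j _ => hsec _
  rw [Finset.sum_congr rfl e1]
  -- the loss of information
  have e2 : I l.v l.p.top (l.p.map (fc (Setoid.comap f l.V))) ≤ ∑ x, F.μ x * max 0 (kp l x (w x)) := by
    have a1 : I l.v l.p.top (l.p.map (fc (Setoid.comap f l.V))) =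
        h l.v (l.p.map (fc (Setoid.comap f l.V))) - h l.v l.p.top := by
      rw [I_eq, sup_eq_left.mpr (l.p.map_le_top _)]
    have a2 : h l.v (l.p.map (fc (Setoid.comap f l.V))) =
        CH l.T.μ (mk l) (fun τ => (w (l.p.π τ), zq (l.p.π τ))) := by
      have a3 : h l.v (l.p.map (fc (Setoid.comap f l.V))) =
        l.T.e l.V (Setoid.comap l.p.π (Setoid.comap f l.V) ⊓ l.T.Z) := h_fc _ _
      rw [a3]
      apply l.T.e_congr
      · intro τ τ' _ _
        exact (Quotient.eq (r := l.V)).symm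
      · intro τ τ' c1 c2
        rw [Prod.mk.injEq, ← (hf1 _ (l.p.supp τ c1)).2.1, ← (hf1 _ (l.p.supp τ' c2)).2.1]
        apply and_congr (Quotient.eq (r := l.V)).symm
        unfold zq
        rw [Quotient.eq (r := F.Z)]
        exact l.p.hZ τ' τ c2 c1
    have a4 : h l.v (l.p.map (fc (Setoid.comap f l.V))) ≤
        -∑ τ, l.T.μ τ * Real.logb 2 (thk l (w (l.p.π τ), zq (l.p.π τ)) (mk l τ)) := by
      rw [a2]
      apply Pool.Agent.Helper76.RL.gibbs_CH l.T.μ (mk l) (fun τ => (w (l.p.π τ), zq (l.p.π τ))) l.T.nn (thk l)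
        (thk_nonneg l)
      · intro c S
        refine le_trans (Finset.sum_le_sum_of_subset_of_nonneg (Finset.subset_univ S)
          (fun v _ _ => thk_nonneg l c v)) (cpk_sum_le (l.am l).sp.nn c)
      · intro τ hτ
        have hx := l.p.supp τ hτ
        apply thk_pos l hx (hw _)
        rw [kr_eq l hx]
        exact (cpk_pos l.T.nn hτ).ne'
    have a5 : ∑ τ, l.T.μ τ * Real.logb 2 (thk l (w (l.p.π τ), zq (l.p.π τ)) (mk l τ)) =
        ∑ x, F.μ x * ∑ v, kr l x v * Real.logb 2 (thk l (w x, zq x) v) :=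
      (kr_push l (fun x v => Real.logb 2 (thk l (w x, zq x) v))).symm
    have a6 : h l.v l.p.top = -∑ x, F.μ x * ∑ v, kr l x v * Real.logb 2 (kr l x v) := by
      rw [h_top, CH_cpk l.T.nn, kr_push l (fun x v => Real.logb 2 (kr l x v))]
      congr 1
      refine Finset.sum_congr rfl fun τ _ => ?_
      by_cases h0 : l.T.μ τ = 0
      · rw [h0, zero_mul, zero_mul]
      · rw [kr_eq l (l.p.supp τ h0)]
    rw [a1, a6]
    rw [a5] at a4
    have a7 : ∑ x, F.μ x * kp l x (w x) = ∑ x, F.μ x * ∑ v, kr l x v * Real.logb 2 (kr l x v) -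
        ∑ x, F.μ x * ∑ v, kr l x v * Real.logb 2 (thk l (w x, zq x) v) := by
      rw [← Finset.sum_sub_distrib]
      refine Finset.sum_congr rfl fun x _ => ?_
      rw [← mul_sub, ← Finset.sum_sub_distrib]
      unfold kp
      congr 1
      exact Finset.sum_congr rfl fun v _ => by ring
    have a8 : ∑ x, F.μ x * kp l x (w x) ≤ ∑ x, F.μ x * max 0 (kp l x (w x)) :=
      Finset.sum_le_sum fun x _ => mul_le_mul_of_nonneg_left (le_max_right _ _) (F.nn x)
    linarith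
  have e3 : ∑ x, F.μ x * b (f x) ≤ ∑ x, F.μ x * mb l b x (w x) := by
    refine Finset.sum_le_sum fun x _ => ?_
    by_cases hx : F.μ x = 0
    · rw [hx, zero_mul, zero_mul]
    · exact mul_le_mul_of_nonneg_left (hf1 x hx).2.2.2 (F.nn x)
  have e4 : ∑ x, F.μ x * (max 0 (kp l x (w x)) + mb l b x (w x)) =
      ∑ x, F.μ x * max 0 (kp l x (w x)) + ∑ x, F.μ x * mb l b x (w x) := by
    rw [← Finset.sum_add_distrib]
    exact Finset.sum_congr rfl fun x _ => by ring
  have e5 : ∑ x, F.μ x * ∑ v, kr l x v * (max 0 (kp l x v) + mb l b x v) = unv l + ∑ τ, l.T.μ τ * b τ := by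
    rw [← kp_sum l, ← mb_sum l b, ← Finset.sum_add_distrib]
    refine Finset.sum_congr rfl fun x _ => ?_
    by_cases hx : F.μ x = 0
    · rw [hx, zero_mul, zero_mul, zero_mul, add_zero]
    · rw [← mul_add, ← Finset.sum_add_distrib]
      congr 1
      refine Finset.sum_congr rfl fun v _ => ?_
      by_cases hv : kr l x v = 0
      · rw [hv, zero_mul, zero_mul, zero_mul, add_zero]
      · rw [max_eq_right (kp_nonneg l hx hv)]
        ring
  have e6 : ∀ j ∈ (univ : Finset J), 6 * ∑ x, F.μ x * ∑ v, kr l x v * (Real.logb 2 (kr l x v) -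
      Real.logb 2 (cpk l.T.μ (mk l) (fun τ => cg (A j) (l.p.π τ)) (cg (A j) x) v)) + 30 =
      6 * l.leak (fc (A j)) + 30 := by
    intro j _
    rw [leak_sum]
  rw [Finset.sum_congr rfl e6, e5, e4] at hs
  linarith


end lab

end

end Pool.Agent.Helper49.KL
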