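import Pool.Agent.Helper49.KL.Lzt
import Pool.Agent.Helper60.LIM.Stbl
import Pool.Agent.Helper84.SEL.Inc
import Pool.Agent.Helper84.SEL.Numx

/-! ROW `LIMX` of Helper94/SEL/St: limits of members of the class K. Zooms of the members at a window `c`, limits of
zooms (Lzs, Lzf, Lzd), stability of limits (helper60, helper43), rational windows to real windows (helper84). -/

set_option autoImplicit false

namespace Pool.Agent.Helper49.KL

open Finset Filter Topology Matrix Pool.Agent.Helper69.RK Pool.Agent.Helper31.EC Pool.Agent.Helper31.EC.Sp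
open Pool.Agent.Helper40.EL Pool.Agent.Helper89.LX Pool.Agent.Helper84.MT
open Pool.Agent.Helper49.MD Pool.Agent.Helper36.AM
open Pool.Agent.Helper47.FN (KR lftR obR lftR_ob)
open Pool.Agent.Helper7.RD (RW)
open Pool.Agent.Helper29.MX
open Pool.Agent.Helper94.SEL
open Pool.Agent.Helper84.SEL (numx num_inc_tot Lip_rat num_real num_lip num_stab)

noncomputable section

variable {S T : Sp} {M g r e0 v : ℕ} {gb : ℕ → ℕ → ℝ → ℕ}

theorem par_l_le (P : Par) : P.l ≤ P.d := le_mul_of_one_le_left P.l0.le P.La1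

theorem par_d_pos (P : Par) : 0 < P.d := mul_pos (by linarith [P.La1]) P.l0

theorem par_La_l (P : Par) : P.La * P.l < 1 :=
  (le_mul_of_one_le_left (par_d_pos P).le P.La1).trans_lt P.lLa

theorem par_l_lt (P : Par) : P.l < 1 := (par_l_le P).trans_lt (par_La_l P)

theorem tot_zero' {C : MCl (M + 1)} {b0 : ℝ} {s : MSys S (M + 1) (lin g) (Fin r)} {R : Rsl S}
    (h : BK C v g r e0 b0 S s R) : tot s R 0 = 0 := by
  have h1 := Pool.Agent.Helper52.MW.AllE_self h.stb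
  have h2 := volKO_le_M s R 0
  have h3 : (((M + 1 : ℕ) : ℝ)) - 0 ≤ volKO s R 0 := h1
  unfold tot
  linarith

theorem tot_mono' (s : MSys S (M + 1) (lin g) (Fin r)) (R : Rsl S) {c c' : ℝ} (h0 : 0 ≤ c) (h1 : c ≤ c')
    (h2 : c' ≤ 1) : tot s R c ≤ tot s R c' := by
  rw [← (numx M).last, ← (numx M).last]
  exact (numx M).mono S _ r s R c c' h0 h1 h2 (M + 1) le_rfl

/-- the zooms of the members -/
def Yz (C : MCl (M + 1)) (v r e0 : ℕ) (b1 La ρ ε : ℝ) (g : ℕ) (S : Sp) (t : MSys S (M + 1) (lin g) (Fin r))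
    (R : Rsl S) : Prop :=
  BK C v g r e0 b1 S t R ∧ (∀ b : ℝ, 0 ≤ b → b < b1 → tot t R b ≤ La * b + ε) ∧ Top ρ b1 ε t.Q

/-- the last exponent is at most the total exponent -/
theorem lmd_last_le (s : MSys S (M + 1) (lin g) (Fin r)) (R : Rsl S) (c : ℝ) :
    lmd s R c (Fin.last M) ≤ tot s R c := by
  have h1 : 0 ≤ num s R (Fin.last M).2.le c := by
    have a : volP s R c (Fin.last M).2.le ≤ ((Fin.last M : Fin (M + 1)) : ℕ) := Pool.Agent.Helper7.RD.volCO_le_M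
    unfold num
    linarith
  have h2 : num s R (Nat.succ_le_of_lt (Fin.last M).2) c = tot s R c := tot_num s R c
  unfold lmd
  rw [h2]
  linarith

/-- ZOOMS OF MEMBERS -/
theorem zex_of (hG : TGR M) (hF : TOPF M) {A : MCl (M + 1)} {C : ℕ → MCl (M + 1)} (hc : Ctx M A C v) {m : ℕ}
    {P : Par} {ε : ℝ} (hε : 0 ≤ ε) {s : MSys S (M + 1) (lin g) (Fin r)} {R : Rsl S}
    (hK : KE (C m) v g r e0 P ε S s R) {c e b1 La : ℝ} (h0 : 0 < c) (hcl : c < P.l) (he : 0 < e)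
    (hLa : La * c = P.La * c + 1) (hb1 : b1 = 1 / (2 * P.La)) (he1 : e ≤ (1 - P.La * c) / 4)
    (he2 : e ≤ (P.l - c) / 2) (hε1 : ε ≤ e / 4) {κ D1 : ℕ}
    (hZ : ∀ (b0 : ℝ) (S : Sp) (s : MSys S (M + 1) (lin g) (Fin r)) (R : Rsl S),
      BK (C m) v g r e0 b0 S s R → ∀ (c e b1 : ℝ), 0 < c → 0 < e → 0 < b1 → b1 ≤ 1 → tot s R c + e ≤ La * c →
        TopG s R c e → (∀ b : ℝ, 0 ≤ b → b < b1 → c + e * b < b0 ∧ tot s R (c + e * b) < tot s R c + e) →
        ∃ (z : RW s (M + 1)) (W : Rsl S), z.Z.l = Lab.ofZ W ∧ z.Z.c = c ∧ z.Z.u = e ∧ z.κ = κ ∧ z.D ≤ D1 ∧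
          KLb s R c z.Z.l ∧ Flg z (lmd s R c) ∧
          BK (C m) v z.κ r e0 b1 z.Z.sp z.sys (rover z.Z.l z.Z.u z.Z.hu R) ∧
          ∀ b : ℝ, 0 ≤ b → b < b1 → ∀ (j : ℕ) (hj : j ≤ M + 1),
            num z.sys (rover z.Z.l z.Z.u z.Z.hu R) hj b = (num s R hj (c + e * b) - num s R hj c) / e) :
    ZEx c e κ D1 (Yz (C m) v r e0 b1 P.La P.ρ (ε / e)) S s R := by
  have hL1 := P.La1
  have hL0 : 0 < P.La := by linarith
  have hb0 : 0 < b1 := by rw [hb1]; positivity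
  have hb2 : P.La * b1 = 1 / 2 := by rw [hb1]; field_simp
  have hb3 : b1 ≤ 1 / 2 := by
    have : b1 ≤ P.La * b1 := le_mul_of_one_le_left hb0.le hL1
    linarith
  have hLc : P.La * c < 1 := (mul_lt_mul_of_pos_left hcl hL0).trans (par_La_l P)
  have hLc0 : 0 ≤ P.La * c := mul_nonneg hL0.le h0.le
  have hc1 : c < 1 := hcl.trans (par_l_lt P)
  have ht0 := tot_zero' hK.bk
  have htc : tot s R c ≤ P.La * c + ε := by
    have h1 := hK.lip 0 c le_rfl h0.le hcl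
    rw [ht0] at h1
    linarith
  have hinc : ∀ b : ℝ, 0 ≤ b → b < b1 → c + e * b < P.l ∧ tot s R (c + e * b) - tot s R c ≤ P.La * (e * b) + ε := by
    intro b hb hbb
    have h1 : e * b ≤ e * (1 / 2) := mul_le_mul_of_nonneg_left (by linarith) he.le
    have h2 : 0 ≤ e * b := mul_nonneg he.le hb
    have h3 : c + e * b < P.l := by linarith
    refine ⟨h3, ?_⟩
    have h4 := hK.lip c (c + e * b) h0.le (by linarith) h3
    have h5 : c + e * b - c = e * b := by ring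
    rw [h5] at h4
    exact h4
  have hcond : ∀ b : ℝ, 0 ≤ b → b < b1 → c + e * b < P.l ∧ tot s R (c + e * b) < tot s R c + e := by
    intro b hb hbb
    obtain ⟨h1, h2⟩ := hinc b hb hbb
    refine ⟨h1, ?_⟩
    have h3 : P.La * (e * b) ≤ e / 2 := by
      have h4 : P.La * b ≤ 1 / 2 := by
        rw [← hb2]
        exact mul_le_mul_of_nonneg_left hbb.le hL0.le
      have h5 : P.La * (e * b) = e * (P.La * b) := by ring
      rw [h5]
      nlinarith
    linarith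
  have hTG : TopG s R c e := hG A C v hc m g r e0 P.l S s R hK.bk c e h0.le hcl hc1 he (by linarith)
  obtain ⟨z, W, hl, hzc, hzu, hκ, hD, hk, hf, hbk, hnum⟩ := hZ P.l S s R hK.bk c e b1 h0 he hb0 (by linarith)
    (by rw [hLa]; linarith) hTG hcond
  refine ⟨hK.bk.cl.2.1, fun i hi T q A hA => hK.bk.rig T q A hA c h0.le hcl i hi, z, W, hl, hzc, hzu, hκ, hD, hk, hf,
    hbk, fun b hb hbb => ?_, ?_⟩
  · have h1 := hnum b hb hbb (M + 1) le_rfl
    rw [tot_num, tot_num, tot_num] at h1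
    rw [h1, div_le_iff₀ he]
    have h2 := (hinc b hb hbb).2
    have h3 : (P.La * b + ε / e) * e = P.La * (e * b) + ε := by
      field_simp
    rw [h3]
    exact h2
  · refine hF A C v hc m g r e0 P.l S s R hK.bk P.ρ c e b1 h0 he hb0 (by linarith) hcond z ⟨W, hl⟩ hbk.cl.2.1 hzc hzu
      hk hf ε hε ?_
    intro T q A hA a b ha hab hb
    refine hK.top T q A hA a b ha hab (hb.trans ?_)
    have h1 := lmd_last_le s R c
    have h2 : e * b1 ≤ e / 2 := by nlinarith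
    have h3 : (P.l - c) / 2 ≤ P.La * (P.l - c) := by nlinarith
    show lmd s R c (Fin.last M) + e * b1 ≤ P.La * P.l
    nlinarith

/-- THE WINDOW `c` of the limit -/
theorem lim_win (hN : Pool.Agent.Helper60.LIM.NSLB' (M + 1)) (hTR : TRNX M) (hG : TGR M) (hZ : ZOOMX M gb)
    (hF : TOPF M) {A : MCl (M + 1)} {C : ℕ → MCl (M + 1)}
    (hc : Ctx M A C v) (m g r e0 : ℕ) (P : Par) {ε : ℕ → ℝ} (hε0 : ∀ j, 0 ≤ ε j) (hε : Tendsto ε atTop (𝓝 0))
    (φ : ℝ) (α : ℕ → ℝ) (I : Set ℕ) {c : ℝ} (h0 : 0 < c) (hcl : c < P.l) :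
    DiagTo (fun j => lftR fun S (s : MSys S (M + 1) (lin g) (Fin r)) R => KE (C m) v g r e0 P (ε j) S s R ∧
        |tot s R c - φ| ≤ ε j ∧ ∀ i ∈ I, ∀ hi : i ≤ M + 1, |num s R hi c - α i| ≤ ε j)
      (fun S x => ∀ (s : MSys S (M + 1) (lin g) (Fin r)) (R : Rsl S),
        Giv s (fun k => (x k : FMs (S.F k).Ω (M + 1) (Fin r) × Setoid (S.F k).Ω).1) →
        (∀ᶠ k in UF, R k = (x k : FMs (S.F k).Ω (M + 1) (Fin r) × Setoid (S.F k).Ω).2) → Pt s R →
          NumC c φ α I S s R) := by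
  have hL1 := P.La1
  have hL0 : 0 < P.La := by linarith
  have hLc : P.La * c < 1 := (mul_lt_mul_of_pos_left hcl hL0).trans (par_La_l P)
  obtain ⟨e, he, he1, he2⟩ : ∃ e : ℝ, 0 < e ∧ e ≤ (1 - P.La * c) / 4 ∧ e ≤ (P.l - c) / 2 :=
    ⟨min ((1 - P.La * c) / 4) ((P.l - c) / 2), lt_min (by linarith) (by linarith), min_le_left _ _, min_le_right _ _⟩
  have hLa : (P.La * c + 1) / c * c = P.La * c + 1 := div_mul_cancel₀ _ h0.ne'
  obtain ⟨D1, hD1⟩ := hZ A C v hc m g r e0 ((P.La * c + 1) / c)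
  obtain ⟨j0, hj0⟩ : ∃ j0 : ℕ, ∀ j, j0 ≤ j → ε j ≤ e / 4 := by
    have h1 := hε.eventually (gt_mem_nhds (show (0 : ℝ) < e / 4 by linarith))
    obtain ⟨j0, hj0⟩ := eventually_atTop.1 h1
    exact ⟨j0, fun j hj => (hj0 j hj).le⟩
  have hε' : Tendsto (fun j => ε (max j j0) / e) atTop (𝓝 0) := by
    have h1 : Tendsto (fun j => ε (max j j0)) atTop (𝓝 0) :=
      hε.comp (tendsto_atTop_mono (fun j => le_max_left j j0) tendsto_id)
    have h2 := h1.div_const e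
    rw [zero_div] at h2
    exact h2
  have hb0 : (0 : ℝ) < 1 / (2 * P.La) := by positivity
  have hY : DiagTo (fun j => lftR (Yz (C m) v r e0 (1 / (2 * P.La)) P.La P.ρ (ε (max j j0) / e) (gb r e0
      ((P.La * c + 1) / c)))) (lftR fun S (t : MSys S (M + 1) (lin (gb r e0 ((P.La * c + 1) / c))) (Fin r)) R =>
        Pt t R ∧ Stb 0 t R) := by
    refine (Pool.Agent.Helper60.LIM.stbl_of hN hTR hc m _ r e0 hb0 P.La1 P.ρ0 hb0
      (fun j => div_nonneg (hε0 _) he.le) hε').mono (fun j S x hx => hx) ?_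
    rintro S x ⟨s, R, h1, h2, h3, -, -, h4, -⟩
    exact ⟨s, R, h1, h2, h3.2.1, h4⟩
  have hcu : c + e ≤ 1 := by linarith [par_l_lt P]
  refine (core_tail (D1 := D1) (g := g) hc.st h0 he hcu j0 (fun j => Yz (C m) v r e0 (1 / (2 * P.La)) P.La P.ρ
    (ε j / e)) hY hε φ α I).mono ?_ (fun _ _ h => h)
  rintro j S x ⟨s, R, h1, h2, h3, h4, h5⟩ hj
  exact ⟨s, R, h1, h2, zex_of hG hF hc (hε0 j) h3 h0 hcl he hLa rfl he1 he2 (hj0 j hj) hD1, h4, h5⟩

/-- increasing Lipschitz functions on `[0, l)` which agree at the rational numbers -/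
theorem eq_of_rat {f f' : ℝ → ℝ} {l La : ℝ} (hLa : 0 ≤ La)
    (hm : ∀ c c', 0 ≤ c → c ≤ c' → c' < l → f c ≤ f c') (hm' : ∀ c c', 0 ≤ c → c ≤ c' → c' < l → f' c ≤ f' c')
    (hf : ∀ c c', 0 ≤ c → c ≤ c' → c' < l → f c' - f c ≤ La * (c' - c))
    (hf' : ∀ c c', 0 ≤ c → c ≤ c' → c' < l → f' c' - f' c ≤ La * (c' - c))
    (h : ∀ q : ℚ, (0 : ℝ) ≤ q → (q : ℝ) < l → f q = f' q) {c : ℝ} (h0 : 0 ≤ c) (hl : c < l) : f c = f' c := by
  have key : ∀ δ : ℝ, 0 < δ → f c ≤ f' c + La * δ ∧ f' c ≤ f c + La * δ := by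
    intro δ hδ
    obtain ⟨q, hq1, hq2⟩ := exists_rat_btwn (lt_min hl (lt_add_of_pos_right c hδ))
    have hq3 := hq2.trans_le (min_le_left _ _)
    have hq4 := hq2.trans_le (min_le_right _ _)
    have e1 := h q (h0.trans hq1.le) hq3
    have e2 := hm c q h0 hq1.le hq3
    have e3 := hm' c q h0 hq1.le hq3
    have e4 := hf c q h0 hq1.le hq3
    have e5 := hf' c q h0 hq1.le hq3
    have e6 : La * ((q : ℝ) - c) ≤ La * δ := mul_le_mul_of_nonneg_left (by linarith) hLa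
    constructor <;> linarith
  apply le_antisymm
  · apply le_of_forall_pos_le_add
    intro δ hδ
    have h1 := (key (δ / (La + 1)) (by positivity)).1
    have h2 : La * (δ / (La + 1)) ≤ δ := by
      rw [← mul_div_assoc, div_le_iff₀ (by positivity)]
      nlinarith
    linarith
  · apply le_of_forall_pos_le_add
    intro δ hδ
    have h1 := (key (δ / (La + 1)) (by positivity)).2
    have h2 : La * (δ / (La + 1)) ≤ δ := by
      rw [← mul_div_assoc, div_le_iff₀ (by positivity)]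
      nlinarith
    linarith

theorem le_of_err {ε : ℕ → ℝ} (hε : Tendsto ε atTop (𝓝 0)) {x y K : ℝ} (h : ∀ j, x ≤ y + K * ε j) : x ≤ y := by
  have h1 : Tendsto (fun j => y + K * ε j) atTop (𝓝 (y + K * 0)) := (hε.const_mul K).const_add y
  rw [mul_zero, add_zero] at h1
  exact ge_of_tendsto' h1 h

/-- ROW LIMX (the limit theorem NSLB of helper43 as a hypothesis) -/
theorem limx_of (hN : Pool.Agent.Helper60.LIM.NSLB' (M + 1)) (hTR : TRNX M) (hG : TGR M) (hZ : ZOOMX M gb)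
    (hF : TOPF M) : LIMX M := by
  intro A C v hc m g r e0 P ε hε0 hε φ α I S x hx
  have hL1 := P.La1
  have hL0 : 0 < P.La := by linarith
  have hl0 := P.l0
  have hl1 := par_l_lt P
  have hx1 := hx
  choose s R hs hR hK hφα using hx1
  have hφ : ∀ j, ∀ c : ℝ, 0 ≤ c → c < P.l → |tot (s j) (R j) c - φ c| ≤ ε j := fun j c h0 h1 => (hφα j c h0 h1).1
  have hα : ∀ j, ∀ c : ℝ, 0 ≤ c → c < P.l → ∀ i ∈ I, ∀ hi : i ≤ M + 1, |num (s j) (R j) hi c - α i c| ≤ ε j :=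
    fun j c h0 h1 => (hφα j c h0 h1).2
  -- the limit functions
  have φm : ∀ c c', 0 ≤ c → c ≤ c' → c' < P.l → φ c ≤ φ c' := by
    intro c c' h0 h1 h2
    refine le_of_err (K := 2) hε fun j => ?_
    have a := abs_le.1 (hφ j c h0 (h1.trans_lt h2))
    have b := abs_le.1 (hφ j c' (h0.trans h1) h2)
    have d := tot_mono' (s j) (R j) h0 h1 (h2.trans hl1).le
    linarith [a.1, a.2, b.1, b.2]
  have φL : ∀ c c', 0 ≤ c → c ≤ c' → c' < P.l → φ c' - φ c ≤ P.La * (c' - c) := by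
    intro c c' h0 h1 h2
    refine le_of_err (K := 3) hε fun j => ?_
    have a := abs_le.1 (hφ j c h0 (h1.trans_lt h2))
    have b := abs_le.1 (hφ j c' (h0.trans h1) h2)
    have d := (hK j).lip c c' h0 h1 h2
    linarith [a.1, a.2, b.1, b.2]
  have φ0 : φ 0 = 0 := by
    have h1 : ∀ j, |0 - φ 0| ≤ ε j := fun j => by
      have := hφ j 0 le_rfl hl0
      rwa [tot_zero' (hK j).bk] at this
    have h2 : |0 - φ 0| ≤ 0 := ge_of_tendsto' hε h1
    have h3 := abs_nonpos_iff.1 h2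
    linarith
  have αm : ∀ i ∈ I, i ≤ M + 1 → ∀ c c', 0 ≤ c → c ≤ c' → c' < P.l → α i c ≤ α i c' := by
    intro i hi hiM c c' h0 h1 h2
    refine le_of_err (K := 2) hε fun j => ?_
    have a := abs_le.1 (hα j c h0 (h1.trans_lt h2) i hi hiM)
    have b := abs_le.1 (hα j c' (h0.trans h1) h2 i hi hiM)
    have d := (numx M).mono _ _ r (s j) (R j) c c' h0 h1 (h2.trans hl1).le i hiM
    linarith [a.1, a.2, b.1, b.2]
  have αL : ∀ i ∈ I, i ≤ M + 1 → ∀ c c', 0 ≤ c → c ≤ c' → c' < P.l → α i c' - α i c ≤ P.La * (c' - c) := by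
    intro i hi hiM c c' h0 h1 h2
    refine le_of_err (K := 3) hε fun j => ?_
    have a := abs_le.1 (hα j c h0 (h1.trans_lt h2) i hi hiM)
    have b := abs_le.1 (hα j c' (h0.trans h1) h2 i hi hiM)
    have d := (hK j).lip c c' h0 h1 h2
    have e := num_inc_tot hc.st (hK j).bk.cl.2.1 h0 h1 (h2.trans hl1) hiM
    linarith [a.1, a.2, b.1, b.2]
  have α0 : ∀ i ∈ I, i ≤ M + 1 → α i 0 = 0 := by
    intro i hi hiM
    have h1 : ∀ j, |0 - α i 0| ≤ ε j := fun j => by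
      have h2 := hα j 0 le_rfl hl0 i hi hiM
      have h3 : (((M + 1 : ℕ) : ℝ)) - 0 ≤ volKO (s j) (R j) 0 := Pool.Agent.Helper52.MW.AllE_self (hK j).bk.stb
      rw [sub_zero] at h3
      rwa [num_stab h3] at h2
    have h2 : |0 - α i 0| ≤ 0 := ge_of_tendsto' hε h1
    have h3 := abs_nonpos_iff.1 h2
    linarith
  -- the diagonal
  set rr : ℕ → ℚ := fun q => (Encodable.decode (α := ℚ) q).getD 0 with hrr
  have d1 := (Pool.Agent.Helper60.LIM.stbl_of hN hTR hc m g r e0 hl0 P.La1 P.ρ0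
    (par_d_pos P) hε0 hε)
  have d2 : ∀ q : ℕ, DiagTo (fun j => lftR fun S (s : MSys S (M + 1) (lin g) (Fin r)) R =>
      KE (C m) v g r e0 P (ε j) S s R ∧ ∀ c : ℝ, 0 ≤ c → c < P.l → |tot s R c - φ c| ≤ ε j ∧
        ∀ i ∈ I, ∀ hi : i ≤ M + 1, |num s R hi c - α i c| ≤ ε j)
      (fun S x => (0 : ℝ) < rr q → (rr q : ℝ) < P.l → ∀ (s : MSys S (M + 1) (lin g) (Fin r)) (R : Rsl S),
        Giv s (fun k => (x k : FMs (S.F k).Ω (M + 1) (Fin r) × Setoid (S.F k).Ω).1) →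
        (∀ᶠ k in UF, R k = (x k : FMs (S.F k).Ω (M + 1) (Fin r) × Setoid (S.F k).Ω).2) → Pt s R →
          NumC (rr q) (φ (rr q)) (fun i => α i (rr q)) I S s R) := by
    intro q
    by_cases hq : (0 : ℝ) < rr q ∧ (rr q : ℝ) < P.l
    · refine (lim_win hN hTR hG hZ hF hc m g r e0 P hε0 hε (φ (rr q)) (fun i => α i (rr q)) I hq.1 hq.2).mono ?_
        (fun S x h _ _ => h)
      rintro j S x ⟨s, R, h1, h2, h3, h4⟩
      exact ⟨s, R, h1, h2, h3, h4 _ hq.1.le hq.2⟩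
    · intro S x _
      exact ⟨fun _ _ _ => True, fun _ _ => Eventually.of_forall fun _ => trivial, fun J hd a b => absurd ⟨a, b⟩ hq⟩
  have d3 := (d1.mono (C₂ := fun j => lftR fun S (s : MSys S (M + 1) (lin g) (Fin r)) R =>
      KE (C m) v g r e0 P (ε j) S s R ∧ ∀ c : ℝ, 0 ≤ c → c < P.l → |tot s R c - φ c| ≤ ε j ∧
        ∀ i ∈ I, ∀ hi : i ≤ M + 1, |num s R hi c - α i c| ≤ ε j) (by
      rintro j S x ⟨s, R, h1, h2, h3, -⟩
      refine ⟨s, R, h1, h2, h3.bk, fun b hb hbb => ?_, h3.top⟩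
      have h4 := h3.lip 0 b le_rfl hb hbb
      rw [tot_zero' h3.bk] at h4
      linarith) (fun _ _ h => h)).and (DiagTo.all d2)
  obtain ⟨E, hE, h1⟩ := d3 S x fun j => ⟨hx j, fun _ => hx j⟩
  refine ⟨E, hE, fun J hd => ?_⟩
  obtain ⟨⟨t, R', ht, hR', hcl, hdim, hwd, hst, htop⟩, hq⟩ := h1 J hd
  have hP : Pt t R' := hcl.2.1
  have hNq : ∀ q : ℚ, (0 : ℝ) ≤ q → (q : ℝ) < P.l → NumC (q : ℝ) (φ q) (fun i => α i q) I _ t R' := by
    intro q h0 h1
    rcases h0.eq_or_lt with h2 | h2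
    · rw [← h2]
      refine ⟨fun _ => 0, fun i hi T q A hA => ?_, φ0.symm, fun i hi hiM => (α0 i hi hiM).symm⟩
      have h3 : (((M + 1 : ℕ) : ℝ)) - 0 ≤ volKO (t.im q A hA) R' 0 := hst T q A hA
      rw [sub_zero] at h3
      exact num_stab h3 hi
    · have h3 := hq (Encodable.encode q)
      simp only [hrr, Encodable.encodek, Option.getD_some] at h3
      exact h3 h2 h1 t R' ht hR' hP
  have hTq : ∀ q : ℚ, (0 : ℝ) ≤ q → (q : ℝ) < P.l → tot t R' q = φ q := by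
    intro q h0 h1
    obtain ⟨μ, h2, h3, -⟩ := hNq q h0 h1
    have h4 : num t R' le_rfl (q : ℝ) = μ (M + 1) := Pool.Agent.Helper52.MW.AllE_self (h2 (M + 1) le_rfl)
    rw [tot_num] at h4
    exact h4.trans h3
  have hTqi : ∀ (T : Sp) (p : Pj T _) (B : ∀ k, (T.F k).Ω → Prop) (hB : 0 < ul (T.pr B)), ∀ q : ℚ, (0 : ℝ) ≤ q →
      (q : ℝ) < P.l → tot (t.im p B hB) R' q = φ q := by
    intro T p B hB q h0 h1
    obtain ⟨μ, h2, h3, -⟩ := hNq q h0 h1
    have h4 : num (t.im p B hB) R' le_rfl (q : ℝ) = μ (M + 1) := h2 (M + 1) le_rfl T p B hB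
    rw [tot_num] at h4
    exact h4.trans h3
  have hLip : Lip P.l P.La 0 t R' := Lip_rat fun q q' h0 h1 h2 => by
    rw [hTq q h0 (h1.trans_lt h2), hTq q' (h0.trans h1) h2]
    exact φL q q' h0 h1 h2
  have hrig : ∀ (T : Sp) (p : Pj T _) (B : ∀ k, (T.F k).Ω → Prop) (hB : 0 < ul (T.pr B)) (c : ℝ), 0 ≤ c → c < P.l →
      ∀ (i : ℕ) (hi : i ≤ M + 1), num (t.im p B hB) R' hi c = num t R' hi c := by
    intro T p B hB c h0 h1 i hi
    have hP' : Pt (t.im p B hB) R' := by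
      filter_upwards [hP] with k hk ω ω' a b c d
      exact hk _ _ (FSp.im_supp (p.fp k) (B k) ω a) (FSp.im_supp (p.fp k) (B k) ω' b) c d
    have hLip' : Lip P.l P.La 0 (t.im p B hB) R' := Lip_rat fun q q' h0 h1 h2 => by
      rw [hTqi T p B hB q h0 (h1.trans_lt h2), hTqi T p B hB q' (h0.trans h1) h2]
      exact φL q q' h0 h1 h2
    refine num_real hc.st hP hP' hl1.le hLip hLip' hi (fun q h0 h1 => ?_) h0 h1
    obtain ⟨μ, h2, -, -⟩ := hNq q h0 h1
    have h4 : num t R' hi (q : ℝ) = μ i := Pool.Agent.Helper52.MW.AllE_self (h2 i hi)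
    have h5 : num (t.im p B hB) R' hi (q : ℝ) = μ i := h2 i hi T p B hB
    exact h5.trans h4.symm
  refine ⟨t, R', ht, hR', ⟨⟨hcl, hdim, hwd, hst, hrig⟩, hLip, htop⟩, fun c h0 h1 => ⟨?_, fun i hi hiM => ?_⟩⟩
  · refine eq_of_rat (f := fun c => tot t R' c) hL0.le (fun c c' h0 h1 h2 => tot_mono' t R' h0 h1 (h2.trans hl1).le) φm
      (fun c c' h0 h1 h2 => ?_) φL hTq h0 h1
    have := hLip c c' h0 h1 h2
    linarith
  · refine eq_of_rat (f := fun c => num t R' hiM c) hL0.le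
      (fun c c' h0 h1 h2 => (numx M).mono _ _ r t R' c c' h0 h1 (h2.trans hl1).le i hiM) (αm i hi hiM)
      (fun c c' h0 h1 h2 => num_lip hc.st hP hl1.le hLip hiM h0 h1 h2) (αL i hi hiM) (fun q h0 h1 => ?_) h0 h1
    obtain ⟨μ, h2, -, h3⟩ := hNq q h0 h1
    have h4 : num t R' hiM (q : ℝ) = μ i := Pool.Agent.Helper52.MW.AllE_self (h2 i hiM)
    exact h4.trans (h3 i hi hiM)

end

end Pool.Agent.Helper49.KL
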