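import Pool.Agent.Helper49.KL.Lzm
import Pool.Agent.Helper70.CPW.Ger
import Pool.Agent.Helper37.OKD.Dg

/-! LIMITS OF ZOOMS: the numbers of the window `c` pass to slow diagonals if the zooms of the members are stable in the
limit. -/

set_option autoImplicit false

namespace Pool.Agent.Helper49.KL

open Finset Filter Topology Matrix Pool.Agent.Helper69.RK Pool.Agent.Helper31.EC Pool.Agent.Helper31.EC.Sp
open Pool.Agent.Helper40.EL Pool.Agent.Helper89.LX Pool.Agent.Helper84.MT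
open Pool.Agent.Helper49.MD Pool.Agent.Helper36.AM
open Pool.Agent.Helper47.FN (KR lftR obR lftR_ob)
open Pool.Agent.Helper3.LF (Mon)
open Pool.Agent.Helper7.GZ (ZU Rows jac)
open Pool.Agent.Helper7.RD (PZ RW upz volC volCO volCO_le_M volCO_nonneg volP_self)
open Pool.Agent.Helper81.CPY (pjb chP zim)
open Pool.Agent.Helper87.NSL (cndR KnS)
open Pool.Agent.Helper29.MX
open Pool.Agent.Helper94.SEL (tot num lmd)
open Pool.Agent.Helper63.SCN (evA evA_of evA_to)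

noncomputable section

variable {S T : Sp} {N g κ D1 : ℕ} {E E' : ℕ → ℕ} {ι : Type} {c u : ℝ}

/-- a pair with constant numbers at the window `c` and a zoom `(c, u)` in flag rows over a literal label, the zoom is in
the class `Y` -/
def ZEx (c u : ℝ) (κ D1 : ℕ) (Y : ∀ (g : ℕ) (S : Sp), MSys S N (lin g) ι → Rsl S → Prop) (S : Sp)
    (s : MSys S N (lin g) ι) (R : Rsl S) : Prop :=
  Pt s R ∧ (∀ (i : ℕ) (hi : i ≤ N), AllE (fun _ t R' => num t R' hi c = num s R hi c) S s R) ∧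
    ∃ (z : RW s N) (W : Rsl S), z.Z.l = Lab.ofZ W ∧ z.Z.c = c ∧ z.Z.u = u ∧ z.κ = κ ∧ z.D ≤ D1 ∧ KLb s R c z.Z.l ∧
      Flg z (lmd s R c) ∧ Y z.κ z.Z.sp z.sys (rover z.Z.l z.Z.u z.Z.hu R)

/-- the limit of zooms of a member -/
theorem ZEx.zs [Finite ι] {Y : ∀ (g : ℕ) (S : Sp), MSys S N (lin g) ι → Rsl S → Prop} {s : MSys S N (lin g) ι}
    {R : Rsl S} (hu : 0 < u) (h : ZEx c u κ D1 Y S s R) : ∃ (W : Rsl S) (t : MSys (S.chg W u hu) N (lin κ) ι)
      (p : ∀ k, (S.F k).Ω → Fin N → MvPolynomial (Fin N) ℝ),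
        ZS s R W c u hu t p D1 (c * (κ + 1) - u) (lmd s R c) ∧ Y κ (S.chg W u hu) t R := by
  obtain ⟨-, -, z, W, hl, hzc, hzu, hκ, hD, hk, hf, hY⟩ := h
  subst hzc hzu hκ
  obtain ⟨t, p, hz, hYt⟩ := zs_of_rw z hl hk hf (sum_lmd' s R z.Z.c).le hD (le_refl _)
  exact ⟨W, t, p, hz, hYt (fun S t R => Y z.κ S t R) hY⟩

/-- the entropies of the prefixes of a member -/
theorem ZEx.ev [Finite ι] (hst : ∀ m, m < N → STu m) {Y : ∀ (g : ℕ) (S : Sp), MSys S N (lin g) ι → Rsl S → Prop}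
    {s : MSys S N (lin g) ι} {R : Rsl S} (h0 : 0 ≤ c) (h1 : c < 1) (h : ZEx c u κ D1 Y S s R) {W : Rsl S}
    (hW : KLb s R c (Lab.ofZ W)) (m : ℕ) (hm : m < N) :
    (evA (K := KQ N) (gE hm.le) (-((m : ℝ) - num s R hm.le c))).pd 0 S (obQ s.Q W) := by
  refine evA_of le_rfl fun T q A hA => ⟨gE_UB (S := Sp.im q A) (s.im q A hA).Q W hm.le, ?_⟩
  have hR' : Pt (s.im q A hA) R := by
    filter_upwards [h.1] with k hk ω ω' a b c d
    exact hk _ _ (FSp.im_supp (q.fp k) (A k) ω a) (FSp.im_supp (q.fp k) (A k) ω' b) c d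
  have h2 := Pool.Agent.Helper99.MX.pfx_full hst hR' h0 h1 hm (ZS.klb_im hW q A hA)
  have h3 : num (s.im q A hA) R hm.le c = num s R hm.le c := h.2.1 m hm.le T q A hA
  have h4 := H_gE (S := Sp.im q A) (s.im q A hA).Q W hm.le
  have h5 : ul (fun k => gE hm.le ((Sp.im q A).F k) (obQ (S := Sp.im q A) (s.im q A hA).Q W k)) ≤
      -((m : ℝ) - num s R hm.le c) + 0 := by
    unfold num at h3 ⊢
    linarith
  exact h5

theorem lmd_abs (s : MSys S N E ι) (R : Rsl S) (c : ℝ) (j : Fin N) : |lmd s R c j| ≤ N + 1 := by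
  have h1 : ∀ {i : ℕ} (hi : i ≤ N), 0 ≤ num s R hi c ∧ num s R hi c ≤ i := by
    intro i hi
    have a : volP s R c hi ≤ i := volCO_le_M
    have b : 0 ≤ volP s R c hi := volCO_nonneg
    unfold num
    exact ⟨by linarith, by linarith⟩
  have h2 := h1 (Nat.succ_le_of_lt j.2)
  have h3 := h1 j.2.le
  have h4 : ((j : ℕ) : ℝ) ≤ N := by exact_mod_cast j.2.le
  have h5 : ((((j : ℕ).succ : ℕ)) : ℝ) ≤ N := by exact_mod_cast Nat.succ_le_of_lt j.2
  unfold lmd
  rw [abs_le]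
  constructor <;> linarith [h2.1, h2.2, h3.1, h3.2]

/-- the conclusion: the numbers at the window `c` are constant on all events -/
def NumC (c φ : ℝ) (α : ℕ → ℝ) (I : Set ℕ) (S : Sp) (s : MSys S N E ι) (R : Rsl S) : Prop :=
  ∃ μ : ℕ → ℝ, (∀ (i : ℕ) (hi : i ≤ N), AllE (fun _ t R' => num t R' hi c = μ i) S s R) ∧ μ N = φ ∧
    ∀ i ∈ I, i ≤ N → μ i = α i

/-- LIMITS, the conclusion for all representations of the diagonal -/
theorem core [Finite ι] (hst : ∀ m, m < N → STu m) (hc : 0 < c) (hu : 0 < u) (hcu : c + u ≤ 1)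
    (Y : ℕ → ∀ (g : ℕ) (S : Sp), MSys S N (lin g) ι → Rsl S → Prop)
    (hY : DiagTo (fun j => lftR (Y j κ)) (lftR fun S (t : MSys S N (lin κ) ι) R => Pt t R ∧ Stb 0 t R))
    {ε : ℕ → ℝ} (hε : Tendsto ε atTop (𝓝 0)) (φ : ℝ) (α : ℕ → ℝ) (I : Set ℕ) :
    DiagTo (fun j => lftR fun S (s : MSys S N (lin g) ι) R => ZEx c u κ D1 (Y j) S s R ∧
        |tot s R c - φ| ≤ ε j ∧ ∀ i ∈ I, ∀ hi : i ≤ N, |num s R hi c - α i| ≤ ε j)
      (fun S x => ∀ (s : MSys S N (lin g) ι) (R : Rsl S),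
        Giv s (fun k => (x k : FMs (S.F k).Ω N ι × Setoid (S.F k).Ω).1) →
        (∀ᶠ k in UF, R k = (x k : FMs (S.F k).Ω N ι × Setoid (S.F k).Ω).2) → Pt s R → NumC c φ α I S s R) := by
  intro S x hx
  choose s R hs hR hZ hφ hα using hx
  choose W t p hz hyt using fun j => (hZ j).zs hu
  have hc1 : c < 1 := by linarith
  obtain ⟨E1, hE1, hY1⟩ := hY (fun j => (S j).chg (W j) u hu) (fun j => obR (S := (S j).chg (W j) u hu) (t j) (R j))
    fun j => lftR_ob (hyt j)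
  set Λ : ℝ := c * (κ + 1) - u with hΛ
  set G : ℕ → ℕ → Prop := fun j k =>
    ob (s j) k = (x j k : FMs ((S j).F k).Ω N ι × Setoid ((S j).F k).Ω).1 ∧
    R j k = (x j k : FMs ((S j).F k).Ω N ι × Setoid ((S j).F k).Ω).2 ∧
    ZF c u Λ (lmd (s j) (R j) c) ((S j).F k) (ob (s j) k : FMs ((S j).F k).Ω N ι) (R j k) (zdt (t j) (p j) k)
      (1 / ((j : ℝ) + 1)) ∧
    ∀ m : Fin N, (evA (K := KQ N) (gE m.2.le) (-(((m : ℕ) : ℝ) - num (s j) (R j) m.2.le c))).P ((S j).F k)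
      (obQ (s j).Q (W j) k) (1 / ((j : ℝ) + 1)) with hG
  have hG1 : ∀ j, ∀ᶠ k in UF, G j k := by
    intro j
    have hj : (0 : ℝ) < 1 / ((j : ℝ) + 1) := by positivity
    have h1 := Pool.Agent.Helper37.OKD.giv_ob (hs j)
    have h2 := (hz j).zf _ hj
    have h3 : ∀ᶠ k in UF, ∀ m : Fin N, (evA (K := KQ N) (gE m.2.le)
        (-(((m : ℕ) : ℝ) - num (s j) (R j) m.2.le c))).P ((S j).F k) (obQ (s j).Q (W j) k) (1 / ((j : ℝ) + 1)) :=
      eventually_all.2 fun m => (hZ j).ev hst hc.le hc1 (hz j).klb m m.2 _ hj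
    filter_upwards [h1, hR j, h2, h3] with k a b d e using ⟨a, b, d, e⟩
  refine ⟨fun i j k => G j k ∧ E1 i j k, fun i j => (hG1 j).and (hE1 i j), fun J hd => ?_⟩
  have hd1 : Slo (fun j => (S j).chg (W j) u hu) E1 J := ⟨hd.tend, hd.lim.const_mul_atTop hu, fun i =>
    (hd.slow i).mono fun _ hk => hk.2⟩
  have hG2 : ∀ᶠ k in UF, G (J k) k := (hd.slow 0).mono fun _ hk => hk.1
  obtain ⟨t', R', ht', hR', hPt', hSt'⟩ := hY1 J hd1
  intro s' R'' hs' hR'' hPs
  have o1 := Pool.Agent.Helper37.OKD.giv_ob ht'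
  have o2 := Pool.Agent.Helper37.OKD.giv_ob hs'
  have hRR : ∀ᶠ k in UF, R' k = R'' k := by
    filter_upwards [hR', hR'', hG2] with k a b d
    exact a.trans (d.2.1.trans b.symm)
  have hPt2 : Pt (S := (dsp S J hd.lim).chg (fun k => W (J k) k) u hu) t' R'' := by
    filter_upwards [hPt', hRR] with k a b
    rw [← b]
    exact a
  have hSt2 : Stb (S := (dsp S J hd.lim).chg (fun k => W (J k) k) u hu) 0 t' R'' := by
    refine Pool.Agent.Helper70.CPW.Stb_germ (s := t') (R := R') ?_ hSt'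
    filter_upwards [hRR] with k a
    unfold Pool.Agent.Helper70.CPW.gsys
    rw [a]
    rfl
  -- the limits of the exponents
  set lam : Fin N → ℝ := fun i => ul (fun k => lmd (s (J k)) (R (J k)) c i) with hlam
  have hUB : ∀ i : Fin N, UB (fun k => lmd (s (J k)) (R (J k)) c i) := fun i =>
    ⟨N + 1, Eventually.of_forall fun k => lmd_abs _ _ _ i⟩
  have hlim : ∀ i : Fin N, Tendsto (fun k => lmd (s (J k)) (R (J k)) c i) UF (𝓝 (lam i)) := fun i =>
    ul_tendsto (hUB i)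
  have hnum : ∀ {i : ℕ} (hi : i ≤ N), Tendsto (fun k => num (s (J k)) (R (J k)) hi c) UF
      (𝓝 (∑ a : Fin i, lam (Fin.castLE hi a))) := by
    intro i hi
    refine Tendsto.congr (fun k => sum_lmd (s (J k)) (R (J k)) c hi) ?_
    exact tendsto_finsetSum _ fun a _ => hlim _
  set η : ℕ → ℝ := fun k => ∑ i : Fin N, |lmd (s (J k)) (R (J k)) c i - lam i| with hη
  have hη0 : ∀ k, 0 ≤ η k := fun k => Finset.sum_nonneg fun i _ => abs_nonneg _
  have hηt : Tendsto η UF (𝓝 0) := by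
    have h1 : Tendsto η UF (𝓝 (∑ i : Fin N, |lam i - lam i|)) :=
      tendsto_finsetSum _ fun i _ => ((hlim i).sub_const (lam i)).abs
    simpa using h1
  have hηl : ∀ k (i : Fin N), |lam i - lmd (s (J k)) (R (J k)) c i| ≤ η k := fun k i => by
    rw [abs_sub_comm]
    exact Finset.single_le_sum (f := fun i => |lmd (s (J k)) (R (J k)) c i - lam i|) (fun i _ => abs_nonneg _)
      (Finset.mem_univ i)
  have hzs : ZS (S := dsp S J hd.lim) s' R'' (fun k => W (J k) k) c u hu t' (fun k => p (J k) k) D1 Λ lam := by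
    refine zs_of_zf hc.le hcu (fun k => (hz (J k)).deg k) (fun k => (hz (J k)).tri k) ?_
    intro δ hδ
    have t1 : Tendsto (fun k => 1 / ((J k : ℝ) + 1) + ((N : ℝ) + 1) * η k) UF (𝓝 (0 + (N + 1) * 0)) :=
      (inv_tendsto hd.tend).add (hηt.const_mul _)
    rw [mul_zero, add_zero] at t1
    filter_upwards [hG2, hR'', t1.eventually (gt_mem_nhds hδ), o1, o2] with k a b d e f
    have h1 := (ZF.chl (hη0 k) (hηl k) a.2.2.1).mono d.le
    have e1 : R (J k) k = R'' k := a.2.1.trans b.symm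
    have e2 : (ob (s (J k)) k : FMs ((S (J k)).F k).Ω N ι) = (ob s' k : FMs ((dsp S J hd.lim).F k).Ω N ι) :=
      a.1.trans f.symm
    have e3 : zdt (t (J k)) (p (J k)) k = zdt (S := dsp S J hd.lim) (W := fun k => W (J k) k) (u := u) (hu := hu) t'
        (fun k => p (J k) k) k := by
      unfold zdt
      have e4 : (ob t' k : FMs ((S (J k)).F k).Ω N ι) = (ob (t (J k)) k : FMs ((S (J k)).F k).Ω N ι) := e
      show (⟨W (J k) k, (ob (t (J k)) k : FMs ((S (J k)).F k).Ω N ι), p (J k) k⟩ : ZDt ((S (J k)).F k).Ω N ι) =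
        ⟨W (J k) k, (ob t' k : FMs ((S (J k)).F k).Ω N ι), p (J k) k⟩
      rw [e4]
    rw [e1, e2, e3] at h1
    exact h1
  obtain ⟨μ, hμ⟩ : ∃ μ : ℕ → ℝ, ∀ (i : ℕ) (hi : i ≤ N), μ i = ∑ a : Fin i, lam (Fin.castLE hi a) :=
    ⟨fun i => if hi : i ≤ N then ∑ a : Fin i, lam (Fin.castLE hi a) else 0, fun i hi => dif_pos hi⟩
  refine ⟨μ, ?_, ?_, ?_⟩
  · intro i hi
    rw [hμ i hi]
    refine num_of_zs hzs hPs hPt2 hSt2 ?_ i hi
    intro m hm δ hδ
    have t1 : Tendsto (fun k => -((m : ℝ) - num (s (J k)) (R (J k)) hm.le c) + 1 / ((J k : ℝ) + 1)) UF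
        (𝓝 (-((m : ℝ) - ∑ a : Fin m, lam (Fin.castLE hm.le a)) + 0)) :=
      ((hnum hm.le).const_sub _).neg.add (inv_tendsto hd.tend)
    rw [add_zero] at t1
    filter_upwards [hG2, t1.eventually (gt_mem_nhds (lt_add_of_pos_right _ hδ)),
      (inv_tendsto hd.tend).eventually (gt_mem_nhds hδ), o2] with k a b d f
    intro T q A hn hA
    have h1 := a.2.2.2 ⟨m, hm⟩ T q A hn (d.le.trans hA)
    have e2 : (s'.Q.v k : ((S (J k)).F k).Ω → Fin N → ℝ) = (s (J k)).Q.v k := by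
      have e3 : (ob (s (J k)) k : FMs ((S (J k)).F k).Ω N ι) = (ob s' k : FMs ((dsp S J hd.lim).F k).Ω N ι) :=
        a.1.trans f.symm
      exact congrArg (fun x : FMs ((S (J k)).F k).Ω N ι => x.Q) e3.symm
    have e4 : (obQ (S := dsp S J hd.lim) s'.Q (fun k => W (J k) k) k : (KQ N).X ((S (J k)).F k)) =
        obQ (s (J k)).Q (W (J k)) k := by
      show ((s'.Q.v k, W (J k) k) : (((S (J k)).F k).Ω → Fin N → ℝ) × Setoid ((S (J k)).F k).Ω) =
        ((s (J k)).Q.v k, W (J k) k)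
      rw [e2]
    rw [e4]
    exact h1.trans b.le
  · rw [hμ N le_rfl]
    refine tendsto_nhds_unique (hnum le_rfl) ?_
    have h1 : Tendsto (fun k => ε (J k)) UF (𝓝 0) := hε.comp hd.tend
    rw [tendsto_iff_dist_tendsto_zero]
    refine squeeze_zero (fun k => dist_nonneg) (fun k => ?_) h1
    rw [Real.dist_eq, tot_num]
    exact hφ (J k)
  · intro i hi hiN
    rw [hμ i hiN]
    refine tendsto_nhds_unique (hnum hiN) ?_
    have h1 : Tendsto (fun k => ε (J k)) UF (𝓝 0) := hε.comp hd.tend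
    rw [tendsto_iff_dist_tendsto_zero]
    refine squeeze_zero (fun k => dist_nonneg) (fun k => ?_) h1
    rw [Real.dist_eq]
    exact hα (J k) i hi hiN

end

end Pool.Agent.Helper49.KL
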