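import Pool.Agent.Helper49.KL.Lzp
import Pool.Agent.Helper63.SCN.Dg

/-! LIMITS OF ZOOMS, finite level: the predicate `ZF .. δ` of finite data; zooms of systems have it for all `δ > 0`
eventually; objects which have it for all `δ > 0` eventually are limits of zooms (`ZS`). -/

set_option autoImplicit false

namespace Pool.Agent.Helper49.KL

open Finset Filter Topology Matrix Pool.Agent.Helper69.RK Pool.Agent.Helper31.EC Pool.Agent.Helper31.EC.Sp
open Pool.Agent.Helper40.EL Pool.Agent.Helper89.LX Pool.Agent.Helper3.LF Pool.Agent.Helper84.MT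
open Pool.Agent.Helper49.MD
open Pool.Agent.Helper7.GZ (ZU Rows jac)
open Pool.Agent.Helper29.MX

noncomputable section

variable {S T : Sp} {N : ℕ} {E E' : ℕ → ℕ} {ι : Type}

/-! ### typical events and tame constants at the finite level -/

theorem typ_fin {A : ∀ k, (S.F k).Ω → Prop} : Typ A ↔ ∀ δ : ℝ, 0 < δ → ∀ᶠ k in UF, (S.F k).pb (fun ω => ¬ A k ω) ≤ δ := by
  constructor
  · intro h δ hδ
    have h' : Tendsto (fun k => (S.F k).pb (fun ω => ¬ A k ω)) UF (𝓝 0) := h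
    filter_upwards [h'.eventually (gt_mem_nhds hδ)] with k hk using hk.le
  · intro h
    show Tendsto (fun k => (S.F k).pb (fun ω => ¬ A k ω)) UF (𝓝 0)
    rw [Metric.tendsto_nhds]
    intro ε hε
    filter_upwards [h (ε / 2) (by linarith)] with k hk
    rw [Real.dist_eq, sub_zero, abs_of_nonneg ((S.F k).pb_nonneg _)]
    linarith

theorem subtyp_iff (P : ∀ k, (S.F k).Ω → ℝ → Prop) :
    (∃ K : ℕ → ℝ, S.Sub K ∧ Typ (S := S) (fun k ω => P k ω (K k))) ↔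
      ∀ δ : ℝ, 0 < δ → ∀ᶠ k in UF, ∃ c, tmc (S.F k) δ c ∧ (S.F k).pb (fun ω => ¬ P k ω c) ≤ δ := by
  constructor
  · rintro ⟨K, hK, h⟩ δ hδ
    filter_upwards [Sub.tmc hK hδ, typ_fin.1 h δ hδ] with k a b using ⟨K k, a, b⟩
  · intro h
    have h1 : ∀ j : ℕ, ∀ᶠ k in UF, ∃ c : ℝ, tmc (S.F k) (1 / ((j : ℝ) + 1)) c ∧
        (S.F k).pb (fun ω => ¬ P k ω c) ≤ 1 / ((j : ℝ) + 1) := fun j => h _ (by positivity)
    obtain ⟨J, hJ, hJ2⟩ := dia (fun j k => ∃ c : ℝ, tmc (S.F k) (1 / ((j : ℝ) + 1)) c ∧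
        (S.F k).pb (fun ω => ¬ P k ω c) ≤ 1 / ((j : ℝ) + 1)) h1
    classical
    set c : ℕ → ℝ := fun k => if hk : ∃ c : ℝ, tmc (S.F k) (1 / ((J k : ℝ) + 1)) c ∧
        (S.F k).pb (fun ω => ¬ P k ω c) ≤ 1 / ((J k : ℝ) + 1) then hk.choose else 0 with hc
    have h2 : ∀ᶠ k in UF, tmc (S.F k) (1 / ((J k : ℝ) + 1)) (c k) ∧
        (S.F k).pb (fun ω => ¬ P k ω (c k)) ≤ 1 / ((J k : ℝ) + 1) := by
      filter_upwards [hJ2] with k hk
      have hk' := hk (J k) le_rfl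
      have e : c k = hk'.choose := by
        rw [hc]; exact dif_pos hk'
      rw [e]
      exact hk'.choose_spec
    refine ⟨c, ⟨h2.mono fun k hk => hk.1.1, ?_⟩, typ_fin.2 fun δ hδ => ?_⟩
    · refine tendsto_of_tendsto_of_tendsto_of_le_of_le' tendsto_const_nhds (inv_tendsto hJ) ?_ ?_
      · filter_upwards [h2] with k hk
        exact div_nonneg (Real.logb_nonneg (by norm_num) (by linarith [hk.1.1])) (S.F k).pos.le
      · filter_upwards [h2] with k hk using hk.1.2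
    · filter_upwards [h2, (inv_tendsto hJ).eventually (gt_mem_nhds hδ)] with k hk hk'
      exact hk.2.trans hk'.le

/-- typical events with an exponent -/
theorem typ_exp {P : ∀ k, (S.F k).Ω → ℝ → Prop} (hP : ∀ k ω e e', e ≤ e' → P k ω e → P k ω e') :
    (∀ e : ℝ, 0 < e → Typ (S := S) (fun k ω => P k ω e)) ↔
      ∀ δ : ℝ, 0 < δ → ∀ᶠ k in UF, (S.F k).pb (fun ω => ¬ P k ω δ) ≤ δ := by
  constructor
  · intro h δ hδ
    exact typ_fin.1 (h δ hδ) δ hδ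
  · intro h e he
    refine typ_fin.2 fun δ hδ => ?_
    filter_upwards [h (min e δ) (lt_min he hδ)] with k hk
    refine le_trans ((S.F k).pb_mono fun ω _ h1 h2 => h1 (hP k ω _ _ (min_le_left _ _) h2)) (hk.trans (min_le_right _ _))

theorem ple_fin {A B : Part S} : PLe A B ↔ ∀ δ : ℝ, 0 < δ → ∀ᶠ k in UF, h (A k) (B k) / (S.F k).n ≤ δ := by
  constructor
  · intro h δ hδ
    have h' : Tendsto (fun k => Pool.Agent.Helper31.EC.h (A k) (B k) / (S.F k).n) UF (𝓝 0) := h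
    filter_upwards [h'.eventually (gt_mem_nhds hδ)] with k hk using hk.le
  · intro h
    show Tendsto (fun k => Pool.Agent.Helper31.EC.h (A k) (B k) / (S.F k).n) UF (𝓝 0)
    rw [Metric.tendsto_nhds]
    intro ε hε
    filter_upwards [h (ε / 2) (by linarith)] with k hk
    rw [Real.dist_eq, sub_zero, abs_of_nonneg (div_nonneg (h_nonneg _ _) (S.F k).pos.le)]
    linarith

/-! ### finite data -/

/-- finite data of a zoom over a literal label -/
structure ZDt (Ω : Type) (N : ℕ) (ι : Type) where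
  W : Setoid Ω
  y : FMs Ω N ι
  p : Ω → Fin N → MvPolynomial (Fin N) ℝ

/-- the window `0` -/
def w0f {Ω : Type} (y : FLf Ω N) : Setoid Ω := y.La ⊓ Setoid.ker fun ω => cell 1 (y.Y ω)

/-- ZOOM OVER A LITERAL LABEL, up to `δ` -/
structure ZF (c u Λ : ℝ) (lam : Fin N → ℝ) (F : FSp) (x : FMs F.Ω N ι) (R : Setoid F.Ω) (z : ZDt F.Ω N ι)
    (δ : ℝ) : Prop where
  kz : h (fc z.W : FL F) (fc R) = 0
  lk : ∀ i, h (fc z.W : FL F) ((x.lf i).win F c) / F.n ≤ δ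
  fn : ∀ ω ω', F.μ ω ≠ 0 → F.μ ω' ≠ 0 → F.Z ω ω' → z.W ω ω' → z.p ω = z.p ω'
  cf : ∃ K, tmc F δ K ∧ ∀ ω, F.μ ω ≠ 0 → ∀ j a, |(z.p ω j).coeff a| ≤ K * 2 ^ (Λ * F.n)
  bd : ∃ K, tmc F δ K ∧ F.pb (fun ω => ¬ ∀ j, |MvPolynomial.eval (x.Q ω) (z.p ω j)| ≤ K) ≤ δ
  lp : ∃ K, tmc F δ K ∧ F.pb (fun ω => ¬ ∀ y : Fin N → ℝ, (∀ i, |y i - x.Q ω i| ≤ dlF F 1) → ∀ j,
    |MvPolynomial.eval y (z.p ω j) - MvPolynomial.eval (x.Q ω) (z.p ω j)| ≤ K * dlF F u) ≤ δ
  hX : ∃ K, tmc F δ K ∧ F.pb (fun ω => ¬ ∀ j, |z.y.Q ω j - MvPolynomial.eval (x.Q ω) (z.p ω j)| ≤ K * dlF F u) ≤ δ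
  ex : F.pb (fun ω => ¬ ∀ j, 2 ^ ((lam j - δ) * F.n) ≤
    |MvPolynomial.eval (x.Q ω) (MvPolynomial.pderiv j (z.p ω j))|) ≤ δ
  hi : F.pb (fun ω => ¬ (1 + (jac (z.p ω) (x.Q ω)).transpose * jac (z.p ω) (x.Q ω)).det ≤
    2 ^ (2 * (∑ j, lam j + δ) * F.n)) ≤ δ
  w0 : ∀ i, h ((x.lf i).win F c) (fc (w0f (z.y.lf i) ⊓ z.W)) / F.n ≤ δ

theorem ZF.mono {c u Λ : ℝ} {lam : Fin N → ℝ} {F : FSp} {x : FMs F.Ω N ι} {R : Setoid F.Ω} {z : ZDt F.Ω N ι}
    {δ δ' : ℝ} (hδ : δ ≤ δ') (h : ZF c u Λ lam F x R z δ) : ZF c u Λ lam F x R z δ' where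
  kz := h.kz
  lk := fun i => (h.lk i).trans hδ
  fn := h.fn
  cf := h.cf.imp fun _ hc => ⟨hc.1.mono hδ, hc.2⟩
  bd := h.bd.imp fun _ hc => ⟨hc.1.mono hδ, hc.2.trans hδ⟩
  lp := h.lp.imp fun _ hc => ⟨hc.1.mono hδ, hc.2.trans hδ⟩
  hX := h.hX.imp fun _ hc => ⟨hc.1.mono hδ, hc.2.trans hδ⟩
  ex := by
    refine le_trans (F.pb_mono ?_) (h.ex.trans hδ)
    intro ω _ h1 h2
    refine h1 fun j => le_trans ?_ (h2 j)
    exact Real.rpow_le_rpow_of_exponent_le (by norm_num) (mul_le_mul_of_nonneg_right (by linarith) F.pos.le)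
  hi := by
    refine le_trans (F.pb_mono ?_) (h.hi.trans hδ)
    intro ω _ h1 h2
    refine h1 (h2.trans ?_)
    exact Real.rpow_le_rpow_of_exponent_le (by norm_num) (mul_le_mul_of_nonneg_right (by linarith) F.pos.le)
  w0 := fun i => (h.w0 i).trans hδ

/-- change of the exponents -/
theorem ZF.chl {c u Λ : ℝ} {lam lam' : Fin N → ℝ} {F : FSp} {x : FMs F.Ω N ι} {R : Setoid F.Ω} {z : ZDt F.Ω N ι}
    {δ η : ℝ} (hη : 0 ≤ η) (hl : ∀ j, |lam' j - lam j| ≤ η) (h : ZF c u Λ lam F x R z δ) :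
    ZF c u Λ lam' F x R z (δ + (N + 1) * η) := by
  have hn : (0 : ℝ) ≤ (N : ℝ) * η := mul_nonneg (Nat.cast_nonneg N) hη
  have hd : δ ≤ δ + (N + 1) * η := by linarith [hn, hη, show ((N : ℝ) + 1) * η = N * η + η by ring]
  have hs : ∑ j, lam j ≤ ∑ j, lam' j + N * η := by
    have h1 : ∀ j ∈ (Finset.univ : Finset (Fin N)), lam j ≤ lam' j + η := fun j _ => by
      have := (abs_le.1 (hl j)).1
      linarith
    refine (Finset.sum_le_sum h1).trans (le_of_eq ?_)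
    rw [Finset.sum_add_distrib, Finset.sum_const, Finset.card_univ, Fintype.card_fin, nsmul_eq_mul]
  exact {
    kz := h.kz
    lk := fun i => (h.lk i).trans hd
    fn := h.fn
    cf := h.cf.imp fun _ hc => ⟨hc.1.mono hd, hc.2⟩
    bd := h.bd.imp fun _ hc => ⟨hc.1.mono hd, hc.2.trans hd⟩
    lp := h.lp.imp fun _ hc => ⟨hc.1.mono hd, hc.2.trans hd⟩
    hX := h.hX.imp fun _ hc => ⟨hc.1.mono hd, hc.2.trans hd⟩
    ex := by
      refine le_trans (F.pb_mono ?_) (h.ex.trans hd)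
      intro ω _ h1 h2
      refine h1 fun j => le_trans ?_ (h2 j)
      have := (abs_le.1 (hl j)).2
      refine Real.rpow_le_rpow_of_exponent_le (by norm_num) (mul_le_mul_of_nonneg_right ?_ F.pos.le)
      linarith [show ((N : ℝ) + 1) * η = N * η + η by ring]
    hi := by
      refine le_trans (F.pb_mono ?_) (h.hi.trans hd)
      intro ω _ h1 h2
      refine h1 (h2.trans ?_)
      refine Real.rpow_le_rpow_of_exponent_le (by norm_num) (mul_le_mul_of_nonneg_right ?_ F.pos.le)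
      linarith [show ((N : ℝ) + 1) * η = N * η + η by ring]
    w0 := fun i => (h.w0 i).trans hd }

end

end Pool.Agent.Helper49.KL
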