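import Pool.Agent.Helper49.KL.Lzf
import Pool.Agent.Helper70.CPW.Flr

/-! LIMITS OF ZOOMS: from limits of zooms to finite data and back; zooms of systems are limits of zooms. -/

set_option autoImplicit false

namespace Pool.Agent.Helper49.KL

open Finset Filter Topology Matrix Pool.Agent.Helper69.RK Pool.Agent.Helper31.EC Pool.Agent.Helper31.EC.Sp
open Pool.Agent.Helper40.EL Pool.Agent.Helper89.LX Pool.Agent.Helper3.LF Pool.Agent.Helper84.MT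
open Pool.Agent.Helper49.MD
open Pool.Agent.Helper7.GZ (ZU Rows jac)
open Pool.Agent.Helper7.RD (PZ RW upz clz PLe_upz volC volCO pR roz)
open Pool.Agent.Helper81.CPY (pjb chP zim up_chP ple_chP chP_im ple_im typ_im)
open Pool.Agent.Helper29.MX

noncomputable section

variable {S T : Sp} {N : ℕ} {E E' : ℕ → ℕ} {ι : Type}

/-- tame constants, exact conditions -/
theorem sub_iff (P : ℕ → ℝ → Prop) : (∃ K : ℕ → ℝ, S.Sub K ∧ ∀ᶠ k in UF, P k (K k)) ↔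
    ∀ δ : ℝ, 0 < δ → ∀ᶠ k in UF, ∃ c, tmc (S.F k) δ c ∧ P k c := by
  constructor
  · rintro ⟨K, hK, h⟩ δ hδ
    filter_upwards [Sub.tmc hK hδ, h] with k a b using ⟨K k, a, b⟩
  · intro h
    have h1 : ∀ j : ℕ, ∀ᶠ k in UF, ∃ c : ℝ, tmc (S.F k) (1 / ((j : ℝ) + 1)) c ∧ P k c := fun j => h _ (by positivity)
    obtain ⟨J, hJ, hJ2⟩ := dia (fun j k => ∃ c : ℝ, tmc (S.F k) (1 / ((j : ℝ) + 1)) c ∧ P k c) h1
    classical
    set c : ℕ → ℝ := fun k => if hk : ∃ c : ℝ, tmc (S.F k) (1 / ((J k : ℝ) + 1)) c ∧ P k c then hk.choose else 0 with hc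
    have h2 : ∀ᶠ k in UF, tmc (S.F k) (1 / ((J k : ℝ) + 1)) (c k) ∧ P k (c k) := by
      filter_upwards [hJ2] with k hk
      have hk' := hk (J k) le_rfl
      have e : c k = hk'.choose := by
        rw [hc]
        exact dif_pos hk'
      rw [e]
      exact hk'.choose_spec
    refine ⟨c, ⟨h2.mono fun k hk => hk.1.1, ?_⟩, h2.mono fun k hk => hk.2⟩
    refine tendsto_of_tendsto_of_tendsto_of_le_of_le' tendsto_const_nhds (inv_tendsto hJ) ?_ ?_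
    · filter_upwards [h2] with k hk
      exact div_nonneg (Real.logb_nonneg (by norm_num) (by linarith [hk.1.1])) (S.F k).pos.le
    · filter_upwards [h2] with k hk using hk.1.2

theorem klb_iff {s : MSys S N E ι} {R W : Rsl S} {c : ℝ} : KLb s R c (Lab.ofZ W) ↔
    (∀ i, PLe (fun k => fc (W k)) ((s.lf i).win c)) ∧
      ∀ᶠ k in UF, h (fc (W k) : FL (S.F k)) (fc (R k)) = 0 := by
  have e2 : (KZ R).ev (Lab.ofZ W) ↔ ∀ᶠ k in UF, h (fc (W k) : FL (S.F k)) (fc (R k)) = 0 := by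
    have e3 : (KZ R).ev (Lab.ofZ W) ↔ ∀ᶠ k in UF, ((Lab.ofZ W) k).leak (fc (R k)) = 0 := Iff.rfl
    rw [e3]
    refine eventually_congr (Eventually.of_forall fun k => ?_)
    rw [Lab.ofZ_leak W (fun k => fc (R k)) k]
  unfold KLb
  rw [e2, Lab.ofZ_DMf]
  constructor
  · rintro ⟨h1, h2⟩
    exact ⟨fun i => h1 (some i), h2⟩
  · rintro ⟨h1, h2⟩
    refine ⟨?_, h2⟩
    rintro (_ | i)
    · exact (Nul_zero S).of_le (Eventually.of_forall fun k => h_nonneg _ _) (h2.mono fun k hk => hk.le)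
    · exact h1 i

/-- the finite data of a zoom -/
def zdt {W : Rsl S} {u : ℝ} {hu : 0 < u} (t : MSys (S.chg W u hu) N E' ι)
    (p : ∀ k, (S.F k).Ω → Fin N → MvPolynomial (Fin N) ℝ) (k : ℕ) : ZDt (S.F k).Ω N ι :=
  ⟨W k, (ob t k : FMs (S.F k).Ω N ι), p k⟩

variable {s : MSys S N E ι} {R W : Rsl S} {c u : ℝ} {hu : 0 < u} {t : MSys (S.chg W u hu) N E' ι}
  {p : ∀ k, (S.F k).Ω → Fin N → MvPolynomial (Fin N) ℝ} {D : ℕ} {Λ : ℝ} {lam : Fin N → ℝ}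

theorem ZS.zf [Finite ι] (h : ZS s R W c u hu t p D Λ lam) (δ : ℝ) (hδ : 0 < δ) :
    ∀ᶠ k in UF, ZF c u Λ lam (S.F k) (ob s k : FMs (S.F k).Ω N ι) (R k) (zdt t p k) δ := by
  obtain ⟨h1, h2⟩ := klb_iff.1 h.klb
  have l1 := eventually_all.2 fun i => ple_fin.1 (h1 i) δ hδ
  have l2 := (subtyp_iff (S := S) (fun k ω K => ∀ j, |MvPolynomial.eval (s.Q.v k ω) (p k ω j)| ≤ K)).1 h.bd δ hδ
  have l3 := (subtyp_iff (S := S) (fun k ω K => ∀ y : Fin N → ℝ, (∀ i, |y i - s.Q.v k ω i| ≤ S.dl 1 k) → ∀ j,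
    |MvPolynomial.eval y (p k ω j) - MvPolynomial.eval (s.Q.v k ω) (p k ω j)| ≤ K * S.dl u k)).1 h.lp δ hδ
  have l4 := (subtyp_iff (S := S) (fun k ω K => ∀ j,
    |t.Q.v k ω j - MvPolynomial.eval (s.Q.v k ω) (p k ω j)| ≤ K * S.dl u k)).1 h.hX δ hδ
  have l5 := (typ_exp (S := S) (P := fun k ω e => ∀ j, 2 ^ ((lam j - e) * (S.F k).n) ≤
    |MvPolynomial.eval (s.Q.v k ω) (MvPolynomial.pderiv j (p k ω j))|) (fun k ω e e' he hh j =>
      (Real.rpow_le_rpow_of_exponent_le (by norm_num) (mul_le_mul_of_nonneg_right (by linarith) (S.F k).pos.le)).trans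
        (hh j))).1 h.ex δ hδ
  have l6 := (typ_exp (S := S) (P := fun k ω e => (1 + (jac (p k ω) (s.Q.v k ω)).transpose *
    jac (p k ω) (s.Q.v k ω)).det ≤ 2 ^ (2 * (∑ j, lam j + e) * (S.F k).n)) (fun k ω e e' he hh =>
      hh.trans (Real.rpow_le_rpow_of_exponent_le (by norm_num) (mul_le_mul_of_nonneg_right (by linarith)
        (S.F k).pos.le)))).1 h.hi δ hδ
  have l7 := eventually_all.2 fun i => ple_fin.1 (h.w0 i) δ hδ
  have l8 := (sub_iff (S := S) (fun k K => ∀ ω, (S.F k).μ ω ≠ 0 → ∀ j a, |(p k ω j).coeff a| ≤ K * 2 ^ (Λ * (S.F k).n))).1 h.cf δ hδ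
  filter_upwards [h2, l1, l2, l3, l4, l5, l6, l7, l8, h.fn] with k h2 l1 l2 l3 l4 l5 l6 l7 l8 l9
  exact ⟨h2, l1, l9, l8, l2, l3, l4, l5, l6, l7⟩

theorem zs_of_zf (h0 : 0 ≤ c) (h1 : c + u ≤ 1) (deg : ∀ k ω j, (p k ω j).totalDegree ≤ D)
    (tri : ∀ k ω j, ∀ i ∈ (p k ω j).vars, i ≤ j)
    (h : ∀ δ : ℝ, 0 < δ → ∀ᶠ k in UF, ZF c u Λ lam (S.F k) (ob s k : FMs (S.F k).Ω N ι) (R k) (zdt t p k) δ) :
    ZS s R W c u hu t p D Λ lam where
  h0 := h0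
  h1 := h1
  deg := deg
  tri := tri
  klb := klb_iff.2 ⟨fun i => ple_fin.2 fun δ hδ => (h δ hδ).mono fun k hk => hk.lk i,
    (h 1 one_pos).mono fun k hk => hk.kz⟩
  fn := (h 1 one_pos).mono fun k hk => hk.fn
  cf := (sub_iff (S := S) (fun k K => ∀ ω, (S.F k).μ ω ≠ 0 → ∀ j a, |(p k ω j).coeff a| ≤ K * 2 ^ (Λ * (S.F k).n))).2 fun δ hδ => (h δ hδ).mono fun k hk => hk.cf
  bd := (subtyp_iff (S := S) (fun k ω K => ∀ j, |MvPolynomial.eval (s.Q.v k ω) (p k ω j)| ≤ K)).2 fun δ hδ => (h δ hδ).mono fun k hk => hk.bd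
  lp := (subtyp_iff (S := S) (fun k ω K => ∀ y : Fin N → ℝ, (∀ i, |y i - s.Q.v k ω i| ≤ S.dl 1 k) → ∀ j,
    |MvPolynomial.eval y (p k ω j) - MvPolynomial.eval (s.Q.v k ω) (p k ω j)| ≤ K * S.dl u k)).2 fun δ hδ => (h δ hδ).mono fun k hk => hk.lp
  hX := (subtyp_iff (S := S) (fun k ω K => ∀ j,
    |t.Q.v k ω j - MvPolynomial.eval (s.Q.v k ω) (p k ω j)| ≤ K * S.dl u k)).2 fun δ hδ => (h δ hδ).mono fun k hk => hk.hX
  ex := (typ_exp (S := S) (P := fun k ω e => ∀ j, 2 ^ ((lam j - e) * (S.F k).n) ≤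
    |MvPolynomial.eval (s.Q.v k ω) (MvPolynomial.pderiv j (p k ω j))|) (fun k ω e e' he hh j =>
      (Real.rpow_le_rpow_of_exponent_le (by norm_num) (mul_le_mul_of_nonneg_right (by linarith) (S.F k).pos.le)).trans
        (hh j))).2 fun δ hδ => (h δ hδ).mono fun k hk => hk.ex
  hi := (typ_exp (S := S) (P := fun k ω e => (1 + (jac (p k ω) (s.Q.v k ω)).transpose *
    jac (p k ω) (s.Q.v k ω)).det ≤ 2 ^ (2 * (∑ j, lam j + e) * (S.F k).n)) (fun k ω e e' he hh =>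
      hh.trans (Real.rpow_le_rpow_of_exponent_le (by norm_num) (mul_le_mul_of_nonneg_right (by linarith)
        (S.F k).pos.le)))).2 fun δ hδ => (h δ hδ).mono fun k hk => hk.hi
  w0 := fun i => ple_fin.2 fun δ hδ => (h δ hδ).mono fun k hk => hk.w0 i

theorem win0_chP {W : Rsl S} {u : ℝ} {hu : 0 < u} (t : MSys (S.chg W u hu) N E' ι) (i : ι) :
    (t.lf i).win 0 = chP W u hu (fun k => fc (w0s t i k)) := by
  funext k
  show fc (F := (S.chg W u hu).F k) ((t.lf i).La k ⊓ Setoid.ker ((t.lf i).Y.cellv 0 k)) =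
    fc (F := (S.chg W u hu).F k) ((t.lf i).La k ⊓ Setoid.ker fun ω => cell 1 ((t.lf i).Y.v k ω))
  unfold VV.cellv
  rw [dl_zero]

/-- ZOOMS OVER LITERAL LABELS in optimal flag rows are limits of zooms -/
theorem zs_of_rw [Finite ι] {s : MSys S N E ι} {R W : Rsl S} (z : RW s N) (hl : z.Z.l = Lab.ofZ W)
    (hk : KLb s R z.Z.c z.Z.l) {lam : Fin N → ℝ} (hf : Flg z lam) (hv : (N : ℝ) - ∑ j, lam j ≤ volKO s R z.Z.c)
    {D1 : ℕ} (hD : z.D ≤ D1) {Λ : ℝ} (hΛ : z.Z.c * (z.κ + 1) - z.Z.u ≤ Λ) :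
    ∃ (t : MSys (S.chg W z.Z.u z.Z.hu) N (lin z.κ) ι) (p : ∀ k, (S.F k).Ω → Fin N → MvPolynomial (Fin N) ℝ),
      ZS s R W z.Z.c z.Z.u z.Z.hu t p D1 Λ lam ∧
      ∀ Y : (∀ S : Sp, MSys S N (lin z.κ) ι → Rsl S → Prop), Y z.Z.sp z.sys (rover z.Z.l z.Z.u z.Z.hu R) →
        Y (S.chg W z.Z.u z.Z.hu) t R := by
  have hgr := Pool.Agent.Helper70.CPW.flg_gram hf hk hv
  have hge := z.win_ge
  obtain ⟨⟨l, c, u, h0, hu, h1⟩, hc, dm, D, Λ', Rw, X, hX, κ, hκ1, he, hκ⟩ := z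
  have hl' : l = Lab.ofZ W := hl
  subst hl'
  have hΛ' : Λ' ≤ Λ := by
    have e1 : Λ' + u ≤ c * (κ + 1) := hκ
    have e2 : c * (κ + 1) - u ≤ Λ := hΛ
    linarith
  refine ⟨RW.sys ⟨⟨Lab.ofZ W, c, u, h0, hu, h1⟩, hc, dm, D, Λ', Rw, X, hX, κ, hκ1, he, hκ⟩, Rw.p, ?_, fun Y hY => hY⟩
  exact {
    h0 := h0
    h1 := h1
    deg := fun k ω j => (Rw.deg k ω j).trans hD
    tri := hf.tri
    klb := hk
    fn := Rw.fn
    cf := by
      obtain ⟨K, hK, h⟩ := Rw.cf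
      refine ⟨K, hK, ?_⟩
      filter_upwards [h, hK.1] with k hk hK0 ω hω j a
      refine (hk ω hω j a).trans (mul_le_mul_of_nonneg_left ?_ hK0)
      exact Real.rpow_le_rpow_of_exponent_le (by norm_num) (mul_le_mul_of_nonneg_right hΛ' (S.F k).pos.le)
    bd := Rw.bd
    lp := by
      obtain ⟨K, hK, h⟩ := Rw.lp (fun _ => 1) (S.Sub_const zero_le_one)
      refine ⟨K, hK, h.mono (Eventually.of_forall fun k ω _ hh y hy j => hh y (fun i => ?_) j)⟩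
      rw [one_mul]
      exact hy i
    hX := hX
    ex := fun e he => (hf.ex e he).mono (Eventually.of_forall fun k ω _ hh j => (hh j).1)
    hi := hgr
    w0 := fun i => by
      have h2 := hge i 0
      rw [mul_zero, add_zero] at h2
      have e1 : upz (⟨Lab.ofZ W, c, u, h0, hu, h1⟩ : ZU S) ((s.lf i).win c) = chP W u hu ((s.lf i).win c) :=
        up_chP u hu _
      obtain ⟨t, ht⟩ : ∃ t : MSys (S.chg W u hu) N (lin κ) ι,
        t = RW.sys ⟨⟨Lab.ofZ W, c, u, h0, hu, h1⟩, hc, dm, D, Λ', Rw, X, hX, κ, hκ1, he, hκ⟩ := ⟨_, rfl⟩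
      have h3 : PLe (S := S.chg W u hu) (upz (⟨Lab.ofZ W, c, u, h0, hu, h1⟩ : ZU S) ((s.lf i).win c))
        ((t.lf i).win 0) := by
        rw [ht]
        exact h2
      have e2 : (t.lf i).win 0 = chP W u hu (fun k => fc (w0s t i k)) := win0_chP t i
      rw [e1, e2] at h3
      have h4 := (ple_chP (S := S) (Z := W) (e := u) (he := hu)).1 h3
      rw [ht] at h4
      exact h4 }

end

end Pool.Agent.Helper49.KL
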