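import Pool.Agent.Helper49.KL.Lzg
import Pool.Agent.Helper99.MX.Pfl
import Pool.Agent.Helper94.SEL.St
import Pool.Agent.Helper63.SCN.Dg

/-! LIMITS OF ZOOMS: numbers of all prefixes on all events. -/

set_option autoImplicit false

namespace Pool.Agent.Helper49.KL

open Finset Filter Topology Matrix Pool.Agent.Helper69.RK Pool.Agent.Helper31.EC Pool.Agent.Helper31.EC.Sp
open Pool.Agent.Helper40.EL Pool.Agent.Helper89.LX Pool.Agent.Helper84.MT
open Pool.Agent.Helper49.MD Pool.Agent.Helper36.AM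
open Pool.Agent.Helper47.FN (KR lftR obR)
open Pool.Agent.Helper3.LF (Mon)
open Pool.Agent.Helper7.GZ (ZU Rows jac)
open Pool.Agent.Helper7.RD (PZ RW upz volC volCO volCO_le_M volCO_nonneg volP_self)
open Pool.Agent.Helper81.CPY (pjb chP zim)
open Pool.Agent.Helper87.NSL (cndR KnS)
open Pool.Agent.Helper29.MX
open Pool.Agent.Helper94.SEL (tot num lmd)
open Pool.Agent.Helper63.SCN (evA evA_of evA_to)

noncomputable section

variable {S T : Sp} {N : ℕ} {E E' : ℕ → ℕ} {ι : Type}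

/-! ### entropies of prefixes over literal labels -/

/-- the kind of points with a partition -/
def KQ (N : ℕ) : FK where
  X := fun F => (F.Ω → Fin N → ℝ) × Setoid F.Ω
  im := fun _ _ x => x

/-- minus the entropy of the cells of the first coordinates over the partition -/
def gE {N m : ℕ} (hm : m ≤ N) (F : FSp) (x : (KQ N).X F) : ℝ :=
  - (h (fc (Setoid.ker fun ω => cell (dlF F 1) (fun i : Fin m => (x : (F.Ω → Fin N → ℝ) × Setoid F.Ω).1 ω
    (Fin.castLE hm i))) : FL F) (fc (x : (F.Ω → Fin N → ℝ) × Setoid F.Ω).2) / F.n)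

/-- the object of a point with a partition -/
def obQ (Q : S.VV N) (W : Rsl S) : (KQ N).Ob S := fun k =>
  ((Q.v k, W k) : ((S.F k).Ω → Fin N → ℝ) × Setoid (S.F k).Ω)

theorem gE_ob (Q : S.VV N) (W : Rsl S) {m : ℕ} (hm : m ≤ N) (k : ℕ) :
    gE hm (S.F k) (obQ Q W k) = - (h (pcr (pfx Q hm) 1 k) (fc (W k)) / (S.F k).n) := rfl

theorem gE_UB (Q : S.VV N) (W : Rsl S) {m : ℕ} (hm : m ≤ N) : UB (fun k => gE hm (S.F k) (obQ Q W k)) := by
  obtain ⟨C, hC⟩ := (pcr_Bd (pfx Q hm) 1).ub fun k => fc (W k)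
  refine ⟨C, hC.mono fun k hk => ?_⟩
  show |-(h (pcr (pfx Q hm) 1 k) (fc (W k)) / (S.F k).n)| ≤ C
  rw [abs_neg]
  exact hk

theorem H_gE (Q : S.VV N) (W : Rsl S) {m : ℕ} (hm : m ≤ N) :
    H (up1 (Lab.ofZ W) ((pfx Q hm).dg 1)) = - ul (fun k => gE hm (S.F k) (obQ Q W k)) := by
  have e : (pfx Q hm).dg 1 = cl ((pfx Q hm).bdd 1).toInf := io_eq ((pfx Q hm).bdd 1)
  have h1 : H (up1 (Lab.ofZ W) ((pfx Q hm).dg 1)) = ul (fun k => h (pcr (pfx Q hm) 1 k) (fc (W k)) / (S.F k).n) := by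
    rw [e, Pool.Agent.Helper89.LX.H_up1_cl]
    refine ul_congr (Eventually.of_forall fun k => ?_)
    refine congrArg (fun t => t / (S.F k).n) ?_
    have h1 : ((Lab.ofZ W) k).v = (FLab.triv (S.F k)).p.map (fc (W k)) := rfl
    have h2 : ((Lab.ofZ W) k).p.map (rpI ((pfx Q hm).bdd 1).toInf k) =
      (FLab.triv (S.F k)).p.map (pcr (pfx Q hm) 1 k) := rfl
    rw [h1, h2]
    exact (FLab.triv (S.F k)).p.h_map _ _
  rw [h1]
  have h2 := (ul_tendsto (gE_UB Q W hm)).neg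
  have h3 := ul_tendsto ((pcr_Bd (pfx Q hm) 1).ub fun k => fc (W k))
  refine tendsto_nhds_unique h3 (h2.congr fun k => ?_)
  show - -(h (pcr (pfx Q hm) 1 k) (fc (W k)) / (S.F k).n) = _
  rw [neg_neg]

/-! ### numbers -/

theorem num_zero (s : MSys S N E ι) (R : Rsl S) (c : ℝ) : num s R (Nat.zero_le N) c = 0 := by
  unfold num
  have h1 : volP s R c (Nat.zero_le N) ≤ ((0 : ℕ) : ℝ) := volCO_le_M
  have h2 : 0 ≤ volP s R c (Nat.zero_le N) := volCO_nonneg
  rw [Nat.cast_zero] at h1 ⊢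
  linarith

theorem sum_lmd (s : MSys S N E ι) (R : Rsl S) (c : ℝ) {j : ℕ} (hj : j ≤ N) :
    ∑ i : Fin j, lmd s R c (Fin.castLE hj i) = num s R hj c := by
  induction j with
  | zero =>
    rw [Fin.sum_univ_zero]
    exact (num_zero s R c).symm
  | succ j ih =>
    rw [Fin.sum_univ_castSucc]
    have h1 := ih (Nat.le_of_succ_le hj)
    have h2 : ∀ i : Fin j, Fin.castLE hj (Fin.castSucc i) = Fin.castLE (Nat.le_of_succ_le hj) i := fun i => rfl
    simp only [h2]
    rw [h1]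
    show num s R (Nat.le_of_succ_le hj) c + (num s R hj c - num s R (Nat.le_of_succ_le hj) c) = num s R hj c
    ring

theorem tot_num (s : MSys S N E ι) (R : Rsl S) (c : ℝ) : num s R le_rfl c = tot s R c := by
  unfold num tot
  rw [volP_self]

theorem sum_lmd' (s : MSys S N E ι) (R : Rsl S) (c : ℝ) : (N : ℝ) - ∑ i, lmd s R c i = volKO s R c := by
  have h1 := sum_lmd s R c (le_refl N)
  have h2 : ∑ i : Fin N, lmd s R c (Fin.castLE le_rfl i) = ∑ i, lmd s R c i := rfl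
  rw [h2, tot_num] at h1
  rw [h1]
  unfold tot
  ring

/-- THE NUMBERS OF ALL PREFIXES on all events, from a limit of zooms -/
theorem num_of_zs [Finite ι] {s : MSys S N E ι} {R W : Rsl S} {c u : ℝ} {hu : 0 < u} {t : MSys (S.chg W u hu) N E' ι}
    {p : ∀ k, (S.F k).Ω → Fin N → MvPolynomial (Fin N) ℝ} {D : ℕ} {Λ : ℝ} {lam : Fin N → ℝ}
    (h : ZS s R W c u hu t p D Λ lam) (hR : Pt s R) (hRt : Pt (S := S.chg W u hu) t R)
    (hst : Stb (S := S.chg W u hu) 0 t R)
    (hev : ∀ (m : ℕ) (hm : m < N), (evA (K := KQ N) (gE hm.le) (-((m : ℝ) - ∑ i : Fin m, lam (Fin.castLE hm.le i)))).pd 0 S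
      (obQ s.Q W)) (j : ℕ) (hj : j ≤ N) :
    AllE (fun _ t R' => num t R' hj c = ∑ i : Fin j, lam (Fin.castLE hj i)) S s R := by
  intro T q A hA
  have h' := h.im q A hA
  have hR' : Pt (s.im q A hA) R := by
    filter_upwards [hR] with k hk ω ω' a b c d
    exact hk _ _ (FSp.im_supp (q.fp k) (A k) ω a) (FSp.im_supp (q.fp k) (A k) ω' b) c d
  have hP : KnS (S := (Sp.im q A).chg W u hu) R (zim q A hA t).Q.v := by
    filter_upwards [hRt] with k hk ω ω' a b c d
    exact hk _ _ (FSp.im_supp (q.fp k) (A k) ω a) (FSp.im_supp (q.fp k) (A k) ω' b) c d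
  have hs := hst _ (pjb q W u hu) A hA
  have hs' : (N : ℝ) ≤ volKO (S := (Sp.im q A).chg W u hu) (zim q A hA t) R 0 := by
    have h1 : (N : ℝ) - 0 ≤ volKO (S := (Sp.im q A).chg W u hu) (zim q A hA t) R 0 := hs
    rw [sub_zero] at h1
    exact h1
  have hv := h'.vol_ge hP hs'
  have key := Pool.Agent.Helper99.MX.pfx_flag (s := s.im q A hA) (R := R) hR' h'.pz h'.klb rfl h'.tri h'.ex
    (fun m hm => by
      have h1 : ul (fun k => gE hm.le ((Sp.im q A).F k) (obQ (S := Sp.im q A) (s.im q A hA).Q W k)) ≤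
        -((m : ℝ) - ∑ i : Fin m, lam (Fin.castLE hm.le i)) :=
        evA_to (hev m hm) q A hA (gE_UB (S := Sp.im q A) (s.im q A hA).Q W hm.le)
      have h2 : H (up1 (Lab.ofZ (S := Sp.im q A) W) ((pfx (s.im q A hA).Q hm.le).dg 1)) = _ :=
        H_gE (S := Sp.im q A) (s.im q A hA).Q W hm.le
      refine le_trans ?_ h2.ge
      linarith) hv hj
  unfold num
  have e1 : volP (s.im q A hA) R c hj = j - ∑ i : Fin j, lam (Fin.castLE hj i) := key
  rw [e1]
  ring

end

end Pool.Agent.Helper49.KL
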