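import Pool.Agent.Helper49.KL.Lzs

/-! LIMITS OF ZOOMS: the pair of points; the volume of the K-labels of the window `c` of the system is at least
`N - Σ lam` if `t` is stable. -/

set_option autoImplicit false

namespace Pool.Agent.Helper49.KL

open Finset Filter Topology Matrix Pool.Agent.Helper69.RK Pool.Agent.Helper31.EC Pool.Agent.Helper31.EC.Sp
open Pool.Agent.Helper40.EL Pool.Agent.Helper89.LX Pool.Agent.Helper3.LF Pool.Agent.Helper84.MT
open Pool.Agent.Helper49.MD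
open Pool.Agent.Helper7.GZ (ZU Rows jac)
open Pool.Agent.Helper7.RD (PZ RW upz clz PLe_upz volC volCO pR roz)
open Pool.Agent.Helper81.CPY (pjb chP zim up_chP ple_chP chP_im ple_im typ_im)
open Pool.Agent.Helper87.NSL (cndR KnS)
open Pool.Agent.Helper89.RAD (cnA)
open Pool.Agent.Helper29.MX
open Pool.Agent.Helper26.BXD (NG)

noncomputable section

variable {S T : Sp} {N : ℕ} {E E' : ℕ → ℕ} {ι : Type}

/-- the variation of a polynomial on a larger cube -/
theorem vary_le {D : ℕ} (P : MvPolynomial (Fin N) ℝ) (hP : P.totalDegree ≤ D) (q : Fin N → ℝ) (r L K : ℝ) (hr : 0 < r)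
    (hL : 1 ≤ L) (h : ∀ y : Fin N → ℝ, (∀ i, |y i - q i| ≤ r) → |MvPolynomial.eval y P - MvPolynomial.eval q P| ≤ K)
    (y : Fin N → ℝ) (hy : ∀ i, |y i - q i| ≤ L * r) :
    |MvPolynomial.eval y P - MvPolynomial.eval q P| ≤ Cu D * L ^ D * (Cm N D * K) := by
  have h1 := cell_growth D (P - MvPolynomial.C (MvPolynomial.eval q P)) (by
    refine (MvPolynomial.totalDegree_sub _ _).trans (max_le hP ?_)
    rw [MvPolynomial.totalDegree_C]
    exact Nat.zero_le _) q r L K hr hL (fun j => by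
      rw [MvPolynomial.eval_sub, MvPolynomial.eval_C]
      refine h _ fun i => ?_
      unfold nodp
      rw [add_sub_cancel_left, abs_mul, abs_of_pos hr, abs_of_nonneg (nod_nonneg D _)]
      exact mul_le_of_le_one_right hr.le (nod_le D _ (Nat.lt_succ_iff.mp (j i).2))) y hy
  rw [MvPolynomial.eval_sub, MvPolynomial.eval_C] at h1
  exact h1

namespace ZS

variable {s : MSys S N E ι} {R W : Rsl S} {c u : ℝ} {hu : 0 < u} {t : MSys (S.chg W u hu) N E' ι}
  {p : ∀ k, (S.F k).Ω → Fin N → MvPolynomial (Fin N) ℝ} {D : ℕ} {Λ : ℝ} {lam : Fin N → ℝ}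

/-- the label, the window and the unit -/
abbrev zu (h : ZS s R W c u hu t p D Λ lam) : ZU S := ⟨Lab.ofZ W, c, u, h.h0, hu, h.h1⟩

theorem lp_all (h : ZS s R W c u hu t p D Λ lam) (L : ℕ → ℝ) (hL : S.Sub L) : ∃ K : ℕ → ℝ, S.Sub K ∧
    Typ (S := S) (fun k ω => ∀ y : Fin N → ℝ, (∀ i, |y i - s.Q.v k ω i| ≤ L k * S.dl 1 k) → ∀ j,
      |MvPolynomial.eval y (p k ω j) - MvPolynomial.eval (s.Q.v k ω) (p k ω j)| ≤ K k * S.dl u k) := by
  obtain ⟨K, hK, hT⟩ := h.lp
  have h1 : (0 : ℝ) ≤ Cu D := by linarith [Cu_one D]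
  have h2 : (0 : ℝ) ≤ Cm N D := by linarith [Cm_one N D]
  refine ⟨fun k => Cu D * (L k + 1) ^ D * (Cm N D * K k), ((S.Sub_const h1).mul
    (Sub_pow' (hL.add (S.Sub_const zero_le_one)) D)).mul ((S.Sub_const h2).mul hK), hT.mono ?_⟩
  filter_upwards [hL.1] with k hL0 ω _ hk y hy j
  have h3 := vary_le (p k ω j) (h.deg k ω j) (s.Q.v k ω) (S.dl 1 k) (L k + 1) (K k * S.dl u k) (S.dl_pos 1 k)
    (by linarith) (fun y hy => hk y hy j) y (fun i => (hy i).trans (by
      have := S.dl_pos 1 k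
      nlinarith))
  refine h3.trans (le_of_eq ?_)
  ring

/-- the rows -/
def rows (h : ZS s R W c u hu t p D Λ lam) : Rows s.Q (Lab.ofZ W) N D Λ u where
  p := p
  deg := h.deg
  fn := h.fn
  cf := h.cf
  bd := h.bd
  lp := h.lp_all

/-- the pair of points -/
def pz (h : ZS s R W c u hu t p D Λ lam) : PZ h.zu s.Q N := ⟨D, Λ, h.rows, t.Q, h.hX⟩

/-- the windows -/
theorem up_win (h : ZS s R W c u hu t p D Λ lam) (i : ι) : PLe (upz h.zu ((s.lf i).win c)) ((t.lf i).win 0) := by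
  have e1 : upz h.zu ((s.lf i).win c) = chP W u hu ((s.lf i).win c) := up_chP u hu _
  have e2 : (t.lf i).win 0 = chP W u hu (fun k => fc (w0s t i k)) := by
    funext k
    show fc (F := (S.chg W u hu).F k) ((t.lf i).La k ⊓ Setoid.ker ((t.lf i).Y.cellv 0 k)) =
      fc (F := (S.chg W u hu).F k) ((t.lf i).La k ⊓ Setoid.ker fun ω => cell 1 ((t.lf i).Y.v k ω))
    unfold VV.cellv
    rw [dl_zero]
  rw [e1, e2]
  exact (ple_chP (S := S) (Z := W) (e := u) (he := hu)).2 (h.w0 i)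

/-- VOLUMES, inner direction: the volume of the K-labels of the window `c` is at least the volume of the rows if `t` is
stable -/
theorem vol_ge [Finite ι] (h : ZS s R W c u hu t p D Λ lam) (hP : KnS (S := S.chg W u hu) R t.Q.v)
    (hst : (N : ℝ) ≤ volKO (S := S.chg W u hu) t R 0) : (N : ℝ) - ∑ j, lam j ≤ volKO s R c := by
  have hLX : LitP (Rz h.zu R) h.pz.X := hP
  have hBA : ∀ j, ∃ i, PLe (upz h.zu (cnA s (pR R) c i)) (cnA (S := S.chg W u hu) t (pR (S := S.chg W u hu) R) 0 j) := by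
    intro j
    rcases j with _ | j
    · exact ⟨none, PLe.refl _⟩
    · exact ⟨some j, h.up_win j⟩
  have hN : NG (LC.kz (upz h.zu (fR R))) h.pz.X (cnA (S := S.chg W u hu) t (pR (S := S.chg W u hu) R) 0) := by
    apply ng_of_volCO
    rw [Pool.Agent.Helper7.RD.volKO_eq] at hst
    exact hst
  rw [Pool.Agent.Helper7.RD.volKO_eq]
  apply le_of_forall_pos_le_add
  intro e he
  have key := volCO_ge_of_ng h.pz hLX hBA hN (fun _ _ => ∑ j, lam j + e) (|∑ j, lam j| + e)
    (Eventually.of_forall fun k ω _ => (abs_add_le _ _).trans (by rw [abs_of_pos he])) (K := fun _ => 1)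
    (S.Sub_const zero_le_one) ((h.hi e he).mono (Eventually.of_forall fun k ω _ hh => by
      rw [one_mul]
      exact hh))
  have e1 : ul (fun k => ∑ ω, (((Lab.ofZ W : Lab S) k).T.μ ω) * (∑ j, lam j + e)) = ∑ j, lam j + e := by
    have e2 : (fun k => ∑ ω, (((Lab.ofZ W : Lab S) k).T.μ ω) * (∑ j, lam j + e)) = fun _ => ∑ j, lam j + e := by
      funext k
      rw [← Finset.sum_mul, Pool.Agent.Helper3.PR.sum_mu, one_mul]
    rw [e2, ul_const]
  have key2 : (N : ℝ) - (∑ j, lam j + e) ≤ volCO (LC.kz (pR R)) (cnA s (pR R) c) s.Q := by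
    rw [← e1]
    exact key
  linarith

end ZS

end

end Pool.Agent.Helper49.KL
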