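import Pool.Agent.Helper49.KL.Gra
import Pool.Agent.Helper29.MX.Bas
import Pool.Agent.Helper7.RD.Pf
import Pool.Agent.Helper81.CPY.Zmc

/-! LIMITS OF ZOOMS, structure: a system `t` over a literal K-label `W` of the window `c` of a system `s`, the point of
`t` is the value of triangular rows `p`, the window `0` of `t` knows the window `c` of `s`. (The leaves of `t` are not
related to the leaves of `s` in any other way: `t` is a limit of zooms.) Events of extensions; the pair of points. -/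

set_option autoImplicit false

namespace Pool.Agent.Helper49.KL

open Finset Filter Topology Matrix Pool.Agent.Helper69.RK Pool.Agent.Helper31.EC Pool.Agent.Helper31.EC.Sp
open Pool.Agent.Helper40.EL Pool.Agent.Helper89.LX Pool.Agent.Helper3.LF Pool.Agent.Helper84.MT
open Pool.Agent.Helper49.MD
open Pool.Agent.Helper7.GZ (ZU Rows jac)
open Pool.Agent.Helper7.RD (PZ RW upz clz PLe_upz volC volCO pR roz)
open Pool.Agent.Helper81.CPY (pjb chP zim up_chP ple_chP chP_im ple_im typ_im)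
open Pool.Agent.Helper87.NSL (cndR KnS)
open Pool.Agent.Helper89.RAD (cnA)
open Pool.Agent.Helper29.MX

noncomputable section

variable {S T : Sp} {N : ℕ} {E E' : ℕ → ℕ} {ι : Type}

/-- the window `0` of a type over a literal label, as a partition of the space -/
def w0s {W : Rsl S} {u : ℝ} {hu : 0 < u} (t : MSys (S.chg W u hu) N E' ι) (i : ι) : ∀ k, Setoid (S.F k).Ω := fun k =>
  ((t.lf i).La k : Setoid (S.F k).Ω) ⊓ Setoid.ker fun ω : (S.F k).Ω => cell 1 ((t.lf i).Y.v k ω)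

/-- a LIMIT OF ZOOMS of the system `s` over the literal label `W` -/
structure ZS (s : MSys S N E ι) (R W : Rsl S) (c u : ℝ) (hu : 0 < u) (t : MSys (S.chg W u hu) N E' ι)
    (p : ∀ k, (S.F k).Ω → Fin N → MvPolynomial (Fin N) ℝ) (D : ℕ) (Λ : ℝ) (lam : Fin N → ℝ) : Prop where
  h0 : 0 ≤ c
  h1 : c + u ≤ 1
  deg : ∀ k ω j, (p k ω j).totalDegree ≤ D
  tri : ∀ k ω j, ∀ i ∈ (p k ω j).vars, i ≤ j
  klb : KLb s R c (Lab.ofZ W)
  fn : ∀ᶠ k in UF, ∀ ω ω', (S.F k).μ ω ≠ 0 → (S.F k).μ ω' ≠ 0 → (S.F k).Z ω ω' → W k ω ω' → p k ω = p k ω'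
  cf : ∃ K : ℕ → ℝ, S.Sub K ∧ ∀ᶠ k in UF, ∀ ω, (S.F k).μ ω ≠ 0 → ∀ j a,
    |(p k ω j).coeff a| ≤ K k * 2 ^ (Λ * (S.F k).n)
  bd : ∃ K : ℕ → ℝ, S.Sub K ∧ Typ (S := S) (fun k ω => ∀ j, |MvPolynomial.eval (s.Q.v k ω) (p k ω j)| ≤ K k)
  lp : ∃ K : ℕ → ℝ, S.Sub K ∧ Typ (S := S) (fun k ω => ∀ y : Fin N → ℝ, (∀ i, |y i - s.Q.v k ω i| ≤ S.dl 1 k) → ∀ j,
    |MvPolynomial.eval y (p k ω j) - MvPolynomial.eval (s.Q.v k ω) (p k ω j)| ≤ K k * S.dl u k)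
  hX : ∃ K : ℕ → ℝ, S.Sub K ∧ Typ (S := S) (fun k ω => ∀ j,
    |t.Q.v k ω j - MvPolynomial.eval (s.Q.v k ω) (p k ω j)| ≤ K k * S.dl u k)
  ex : ∀ e : ℝ, 0 < e → Typ (S := S) (fun k ω => ∀ j, 2 ^ ((lam j - e) * (S.F k).n) ≤
    |MvPolynomial.eval (s.Q.v k ω) (MvPolynomial.pderiv j (p k ω j))|)
  hi : ∀ e : ℝ, 0 < e → Typ (S := S) (fun k ω => (1 + (jac (p k ω) (s.Q.v k ω)).transpose *
    jac (p k ω) (s.Q.v k ω)).det ≤ 2 ^ (2 * (∑ j, lam j + e) * (S.F k).n))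
  w0 : ∀ i, PLe ((s.lf i).win c) (fun k => fc (w0s t i k ⊓ W k))

namespace ZS

variable {s : MSys S N E ι} {R W : Rsl S} {c u : ℝ} {hu : 0 < u} {t : MSys (S.chg W u hu) N E' ι}
  {p : ∀ k, (S.F k).Ω → Fin N → MvPolynomial (Fin N) ℝ} {D : ℕ} {Λ : ℝ} {lam : Fin N → ℝ}

/-- the literal label on an event of an extension -/
theorem klb_im {s : MSys S N E ι} {R W : Rsl S} {c : ℝ} (h : KLb s R c (Lab.ofZ W)) (q : Pj T S)
    (A : ∀ k, (T.F k).Ω → Prop) (hA : 0 < ul (T.pr A)) :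
    KLb (s.im q A hA) R c (Lab.ofZ (S := Sp.im q A) W) := by
  obtain ⟨h1, h2⟩ := h
  rw [Lab.ofZ_DMf] at h1
  refine ⟨?_, ?_⟩
  · rw [Lab.ofZ_DMf]
    intro i
    have h3 := ple_im q A hA (h1 i)
    rcases i with _ | i
    · exact h3
    · exact h3
  · have h2' : ∀ᶠ k in UF, ((Lab.ofZ W) k).leak (fc (R k)) = 0 := h2
    show ∀ᶠ k in UF, ((Lab.ofZ (S := Sp.im q A) W) k).leak (fc (F := (Sp.im q A).F k) (R k)) = 0
    filter_upwards [h2'] with k hk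
    rw [Lab.ofZ_leak W (fun k => fc (R k)) k] at hk
    rw [Lab.ofZ_leak (S := Sp.im q A) W (fun k => fc (F := (Sp.im q A).F k) (R k)) k]
    exact h_eq_zero_iff.2 (FSp.imap_mono (q.fp k) (A k) (h_eq_zero_iff.1 hk))

theorem sub_im (q : Pj T S) (A : ∀ k, (T.F k).Ω → Prop) {K : ℕ → ℝ} (hK : S.Sub K) : (Sp.im q A).Sub K := hK

section

variable (h : ZS s R W c u hu t p D Λ lam) (q : Pj T S) (A : ∀ k, (T.F k).Ω → Prop) (hA : 0 < ul (T.pr A))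

include h

theorem im_fn : ∀ᶠ k in UF, ∀ ω ω', ((Sp.im q A).F k).μ ω ≠ 0 → ((Sp.im q A).F k).μ ω' ≠ 0 →
    ((Sp.im q A).F k).Z ω ω' → W k ω ω' → p k ω = p k ω' := by
  filter_upwards [h.fn] with k hk ω ω' a b c d
  exact hk _ _ (FSp.im_supp (q.fp k) (A k) ω a) (FSp.im_supp (q.fp k) (A k) ω' b) c d

theorem im_cf : ∃ K : ℕ → ℝ, (Sp.im q A).Sub K ∧ ∀ᶠ k in UF, ∀ ω, ((Sp.im q A).F k).μ ω ≠ 0 → ∀ j a,
    |(p k ω j).coeff a| ≤ K k * 2 ^ (Λ * ((Sp.im q A).F k).n) := by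
  obtain ⟨K, hK, h⟩ := h.cf
  refine ⟨K, sub_im q A hK, ?_⟩
  filter_upwards [h] with k hk ω hω j
  exact hk _ (FSp.im_supp (q.fp k) (A k) ω hω) j

include hA

theorem im_bd : ∃ K : ℕ → ℝ, (Sp.im q A).Sub K ∧ Typ (S := Sp.im q A) (fun k ω => ∀ j,
    |MvPolynomial.eval (s.Q.v k ω) (p k ω j)| ≤ K k) := by
  obtain ⟨K, hK, h⟩ := h.bd
  exact ⟨K, sub_im q A hK, typ_im q A hA h⟩

theorem im_lp : ∃ K : ℕ → ℝ, (Sp.im q A).Sub K ∧ Typ (S := Sp.im q A) (fun k ω => ∀ y : Fin N → ℝ,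
    (∀ i, |y i - s.Q.v k ω i| ≤ (Sp.im q A).dl 1 k) → ∀ j,
    |MvPolynomial.eval y (p k ω j) - MvPolynomial.eval (s.Q.v k ω) (p k ω j)| ≤ K k * (Sp.im q A).dl u k) := by
  obtain ⟨K, hK, h⟩ := h.lp
  exact ⟨K, sub_im q A hK, typ_im q A hA h⟩

theorem im_hX : ∃ K : ℕ → ℝ, (Sp.im q A).Sub K ∧ Typ (S := Sp.im q A) (fun k ω => ∀ j,
    |t.Q.v k ω j - MvPolynomial.eval (s.Q.v k ω) (p k ω j)| ≤ K k * (Sp.im q A).dl u k) := by
  obtain ⟨K, hK, h⟩ := h.hX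
  exact ⟨K, sub_im q A hK, typ_im q A hA h⟩

theorem im_ex (e : ℝ) (he : 0 < e) : Typ (S := Sp.im q A) (fun k ω => ∀ j, 2 ^ ((lam j - e) * ((Sp.im q A).F k).n) ≤
    |MvPolynomial.eval (s.Q.v k ω) (MvPolynomial.pderiv j (p k ω j))|) := typ_im q A hA (h.ex e he)

theorem im_hi (e : ℝ) (he : 0 < e) : Typ (S := Sp.im q A) (fun k ω => (1 + (jac (p k ω) (s.Q.v k ω)).transpose *
    jac (p k ω) (s.Q.v k ω)).det ≤ 2 ^ (2 * (∑ j, lam j + e) * ((Sp.im q A).F k).n)) := typ_im q A hA (h.hi e he)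

theorem im_w0 (i : ι) : PLe (S := Sp.im q A) (((s.im q A hA).lf i).win c)
    (fun k => fc (F := (Sp.im q A).F k) (w0s t i k ⊓ W k)) := ple_im q A hA (h.w0 i)

end

/-- EVENTS OF EXTENSIONS -/
theorem im (h : ZS s R W c u hu t p D Λ lam) (q : Pj T S) (A : ∀ k, (T.F k).Ω → Prop) (hA : 0 < ul (T.pr A)) :
    ZS (s.im q A hA) R W c u hu (zim q A hA t) p D Λ lam where
  h0 := h.h0
  h1 := h.h1
  deg := h.deg
  tri := h.tri
  klb := klb_im h.klb q A hA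
  fn := h.im_fn q A
  cf := h.im_cf q A
  bd := h.im_bd q A hA
  lp := h.im_lp q A hA
  hX := h.im_hX q A hA
  ex := h.im_ex q A hA
  hi := h.im_hi q A hA
  w0 := h.im_w0 q A hA

end ZS

end

end Pool.Agent.Helper49.KL
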