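import Pool.Agent.Helper49.KL.Lzd

/-! LIMITS OF ZOOMS: only the members with large index have zooms (germs of helper70). -/

set_option autoImplicit false

namespace Pool.Agent.Helper49.KL

open Finset Filter Topology Matrix Pool.Agent.Helper69.RK Pool.Agent.Helper31.EC Pool.Agent.Helper31.EC.Sp
open Pool.Agent.Helper40.EL Pool.Agent.Helper89.LX Pool.Agent.Helper84.MT
open Pool.Agent.Helper49.MD Pool.Agent.Helper36.AM
open Pool.Agent.Helper47.FN (KR lftR obR lftR_ob)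
open Pool.Agent.Helper87.NSL (cndR KnS)
open Pool.Agent.Helper70.CPW (GSys gsys Grm GInv AllE_germ volP_germ)
open Pool.Agent.Helper29.MX
open Pool.Agent.Helper94.SEL (tot num lmd)

noncomputable section

variable {S T : Sp} {N g κ D1 : ℕ} {E E' : ℕ → ℕ} {ι : Type} {c u : ℝ}

/-- the slice of finite data -/
def gof (F : FSp) (x : (KR N ι).X F) : GSys N ι :=
  ⟨F, (x : FMs F.Ω N ι × Setoid F.Ω).1.Q, (x : FMs F.Ω N ι × Setoid F.Ω).2,
    fun i c => ((x : FMs F.Ω N ι × Setoid F.Ω).1.lf i).win F c⟩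

theorem gsys_gof [Finite ι] {s : MSys S N E ι} {R : Rsl S} {x : (KR N ι).Ob S}
    (hs : Giv s (fun k => (x k : FMs (S.F k).Ω N ι × Setoid (S.F k).Ω).1))
    (hR : ∀ᶠ k in UF, R k = (x k : FMs (S.F k).Ω N ι × Setoid (S.F k).Ω).2) :
    ∀ᶠ k in UF, gsys s R k = gof (S.F k) (x k) := by
  filter_upwards [Pool.Agent.Helper37.OKD.giv_ob hs, hR] with k a b
  have e1 : gsys s R k = gof (S.F k) ((ob s k : FMs (S.F k).Ω N ι), R k) := rfl
  rw [e1]
  have e2 : (((ob s k : FMs (S.F k).Ω N ι), R k) : FMs (S.F k).Ω N ι × Setoid (S.F k).Ω) = x k := Prod.ext a b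
  exact congrArg (gof (S.F k)) e2

/-- the point is resolved, a property of germs -/
theorem pt_germ {s : MSys S N E ι} {R : Rsl S} {s' : MSys T N E' ι} {R' : Rsl T} (h : Grm s R s' R') (hP : Pt s R) :
    Pt s' R' := by
  filter_upwards [h, hP] with k a b
  have key : ∀ x y : GSys N ι, x = y → (∀ ω ω', x.F.μ ω ≠ 0 → x.F.μ ω' ≠ 0 → x.F.Z ω ω' → x.R ω ω' → x.v ω = x.v ω') →
      ∀ ω ω', y.F.μ ω ≠ 0 → y.F.μ ω' ≠ 0 → y.F.Z ω ω' → y.R ω ω' → y.v ω = y.v ω' := by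
    rintro x y rfl h
    exact h
  exact key _ _ a b

/-- constant numbers, a property of germs -/
theorem numC_germ {s : MSys S N E ι} {R : Rsl S} {s' : MSys T N E ι} {R' : Rsl T} (h : Grm s R s' R') {φ : ℝ}
    {α : ℕ → ℝ} {I : Set ℕ} (hn : NumC c φ α I S s R) : NumC c φ α I T s' R' := by
  obtain ⟨μ, h1, h2, h3⟩ := hn
  refine ⟨μ, fun i hi => ?_, h2, h3⟩
  refine AllE_germ (P := fun _ t R' => num t R' hi c = μ i) ?_ S T s R s' R' h (h1 i hi)
  intro S S' s R s' R' h h4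
  show num s' R' hi c = μ i
  rw [← h4]
  unfold num
  rw [volP_germ h]

/-- LIMITS, members of large index -/
theorem core_tail [Finite ι] (hst : ∀ m, m < N → STu m) (hc : 0 < c) (hu : 0 < u) (hcu : c + u ≤ 1) (j0 : ℕ)
    (Y : ℕ → ∀ (g : ℕ) (S : Sp), MSys S N (lin g) ι → Rsl S → Prop)
    (hY : DiagTo (fun j => lftR (Y (max j j0) κ)) (lftR fun S (t : MSys S N (lin κ) ι) R => Pt t R ∧ Stb 0 t R))
    {ε : ℕ → ℝ} (hε : Tendsto ε atTop (𝓝 0)) (φ : ℝ) (α : ℕ → ℝ) (I : Set ℕ) :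
    DiagTo (fun j S x => j0 ≤ j → lftR (fun S (s : MSys S N (lin g) ι) R => ZEx c u κ D1 (Y j) S s R ∧
        |tot s R c - φ| ≤ ε j ∧ ∀ i ∈ I, ∀ hi : i ≤ N, |num s R hi c - α i| ≤ ε j) S x)
      (fun S x => ∀ (s : MSys S N (lin g) ι) (R : Rsl S),
        Giv s (fun k => (x k : FMs (S.F k).Ω N ι × Setoid (S.F k).Ω).1) →
        (∀ᶠ k in UF, R k = (x k : FMs (S.F k).Ω N ι × Setoid (S.F k).Ω).2) → Pt s R → NumC c φ α I S s R) := by
  intro S x hx
  have hx' : ∀ j, lftR (fun S (s : MSys S N (lin g) ι) R => ZEx c u κ D1 (Y (max j j0)) S s R ∧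
      |tot s R c - φ| ≤ ε (max j j0) ∧ ∀ i ∈ I, ∀ hi : i ≤ N, |num s R hi c - α i| ≤ ε (max j j0)) (S (max j j0))
      (x (max j j0)) := fun j => hx _ (le_max_right _ _)
  have hε' : Tendsto (fun j => ε (max j j0)) atTop (𝓝 0) :=
    hε.comp (tendsto_atTop_mono (fun j => le_max_left j j0) tendsto_id)
  obtain ⟨E1, hE1, h1⟩ := core (D1 := D1) (g := g) hst hc hu hcu (fun j => Y (max j j0)) hY hε' φ α I
    (fun j => S (max j j0)) (fun j => x (max j j0)) hx'
  obtain ⟨E2, hE2, h2⟩ := Pool.Agent.Helper37.OKD.lftR_true (E := lin g) (ι := ι) (M := N)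
    (fun j => S (max j j0)) (fun j => x (max j j0)) (fun j => by
      obtain ⟨s, R, a, b, -⟩ := hx' j
      exact ⟨s, R, a, b, trivial⟩)
  refine ⟨fun i j k => E1 i j k ∧ E2 i j k, fun i j => (hE1 i j).and (hE2 i j), fun J hd => ?_⟩
  have hJ : ∀ᶠ k in UF, max (J k) j0 = J k := by
    filter_upwards [hd.tend.eventually (eventually_ge_atTop j0)] with k hk using max_eq_left hk
  have hd' : Slo (fun j => S (max j j0)) (fun i j k => E1 i j k ∧ E2 i j k) J := by
    refine ⟨hd.tend, hd.lim.congr' ?_, hd.slow⟩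
    filter_upwards [hJ] with k hk
    show ((S (J k)).F k).n = ((S (max (J k) j0)).F k).n
    rw [hk]
  obtain ⟨s', R', hs', hR', -⟩ := h2 J hd'.right
  intro s R hs hR hP
  have hG : Grm s R s' R' := by
    filter_upwards [gsys_gof hs hR, gsys_gof hs' hR', hJ] with k a b d
    rw [a, b]
    exact (congrArg (fun j => gof ((S j).F k) (x j k)) d).symm
  exact numC_germ hG.symm (h1 J hd'.left s' R' hs' hR' (pt_germ hG hP))

end

end Pool.Agent.Helper49.KL
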