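import Pool.Agent.Helper49.KL.Alg
import Pool.Agent.Helper63.FRT.Pol

/-! THE RELATION AT A POINT: deterministic estimates for the relation between `M` polynomials `p` and a polynomial `g`. -/

set_option autoImplicit false

namespace Pool.Agent.Helper49.KL

open Finset MvPolynomial Pool.Agent.Helper77.WDG
open Pool.Agent.Helper63.FRT (pderiv_bindg)

noncomputable section

variable {M : ℕ}

theorem deg_pderiv {σ : Type*} (i : σ) (P : MvPolynomial σ ℝ) : (pderiv i P).totalDegree ≤ P.totalDegree := by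
  classical
  refine Finset.sup_le fun m hm => ?_
  rw [mem_support_iff, coeff_pderiv] at hm
  have h1 : m + Finsupp.single i 1 ∈ P.support := by
    rw [mem_support_iff]
    intro h0
    exact hm (by rw [h0, zero_mul])
  have h2 := le_totalDegree h1
  refine le_trans ?_ h2
  rw [Finsupp.sum_add_index' (fun _ => rfl) (fun _ _ _ => rfl)]
  exact Nat.le_add_right _ _

theorem nrm_pderiv {σ : Type*} (i : σ) (P : MvPolynomial σ ℝ) {D : ℕ} (hD : P.totalDegree ≤ D) :
    nrm (pderiv i P) ≤ D * nrm P := by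
  classical
  unfold nrm
  rw [Finset.mul_sum]
  have h1 : ∀ m ∈ (pderiv i P).support, |(pderiv i P).coeff m| ≤ D * |P.coeff (m + Finsupp.single i 1)| := by
    intro m hm
    rw [mem_support_iff, coeff_pderiv] at hm
    have h1 : m + Finsupp.single i 1 ∈ P.support := by
      rw [mem_support_iff]
      intro h0
      exact hm (by rw [h0, zero_mul])
    have h2 := (le_totalDegree h1).trans hD
    rw [Finsupp.sum_add_index' (fun _ => rfl) (fun _ _ _ => rfl), Finsupp.sum_single_index rfl] at h2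
    have h3 : m i ≤ m.sum fun _ n => n := by
      by_cases hi : i ∈ m.support
      · exact Finset.single_le_sum (f := fun a => m a) (fun _ _ => Nat.zero_le _) hi
      · rw [Finsupp.notMem_support_iff.mp hi]
        exact Nat.zero_le _
    have h4 : ((m i : ℝ) + 1) ≤ D := by
      have : m i + 1 ≤ D := by omega
      exact_mod_cast this
    rw [coeff_pderiv, abs_mul, mul_comm, abs_of_nonneg (by positivity : (0 : ℝ) ≤ (m i : ℝ) + 1)]
    exact mul_le_mul_of_nonneg_right h4 (abs_nonneg _)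
  refine (Finset.sum_le_sum h1).trans ?_
  have hinj : Set.InjOn (fun m : σ →₀ ℕ => m + Finsupp.single i 1) (pderiv i P).support := by
    intro a _ b _ h
    exact add_right_cancel h
  rw [← Finset.sum_image (f := fun m => (D : ℝ) * |P.coeff m|) hinj]
  refine Finset.sum_le_sum_of_subset_of_nonneg ?_ fun _ _ _ => by positivity
  intro m hm
  obtain ⟨a, ha, rfl⟩ := Finset.mem_image.mp hm
  rw [mem_support_iff, coeff_pderiv] at ha
  rw [mem_support_iff]
  intro h0
  exact ha (by rw [h0, zero_mul])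

/-- the derivatives in the extra variable -/
def dn (j : ℕ) (Ψ : MvPolynomial (Option (Fin M)) ℝ) : MvPolynomial (Option (Fin M)) ℝ := (fun P => pderiv none P)^[j] Ψ

theorem dn_zero (Ψ : MvPolynomial (Option (Fin M)) ℝ) : dn 0 Ψ = Ψ := rfl

theorem dn_succ (j : ℕ) (Ψ : MvPolynomial (Option (Fin M)) ℝ) : dn (j + 1) Ψ = pderiv none (dn j Ψ) := by
  unfold dn
  rw [Function.iterate_succ', Function.comp_apply]

theorem dn_deg {L : ℕ} {Ψ : MvPolynomial (Option (Fin M)) ℝ} (h : Ψ.totalDegree ≤ L) : ∀ j, (dn j Ψ).totalDegree ≤ L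
  | 0 => h
  | j + 1 => by
    rw [dn_succ]
    exact (deg_pderiv none _).trans (dn_deg h j)

theorem dn_nrm {L : ℕ} {Ψ : MvPolynomial (Option (Fin M)) ℝ} (h : Ψ.totalDegree ≤ L) : ∀ j,
    nrm (dn j Ψ) ≤ (L : ℝ) ^ j * nrm Ψ
  | 0 => by rw [dn_zero, pow_zero, one_mul]
  | j + 1 => by
    rw [dn_succ]
    refine (nrm_pderiv none _ (dn_deg h j)).trans ?_
    rw [pow_succ', mul_assoc]
    exact mul_le_mul_of_nonneg_left (dn_nrm h j) (Nat.cast_nonneg _)

/-- the substitution `X = p`, `t = g` -/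
def ug (p : Fin M → MvPolynomial (Fin M) ℝ) (g : MvPolynomial (Fin M) ℝ) : Option (Fin M) → MvPolynomial (Fin M) ℝ :=
  fun o => o.elim g p

/-- the point `(X, t)` -/
def pt (X : Fin M → ℝ) (t : ℝ) : Option (Fin M) → ℝ := fun o => o.elim t X

/-- the polynomial in `t` at the point `X` -/
def pol1 (X : Fin M → ℝ) : Option (Fin M) → Polynomial ℝ := fun o => o.elim Polynomial.X fun i => Polynomial.C (X i)

theorem eval_aeval {σ : Type*} (f : σ → Polynomial ℝ) (t : ℝ) (P : MvPolynomial σ ℝ) :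
    (aeval f P).eval t = eval (fun o => (f o).eval t) P := by
  induction P using MvPolynomial.induction_on with
  | C c => rw [aeval_C, eval_C]; exact Polynomial.eval_C
  | add p q hp hq => rw [map_add, Polynomial.eval_add, hp, hq, map_add]
  | mul_X p n hp => rw [map_mul, Polynomial.eval_mul, hp, aeval_X, map_mul, eval_X]

theorem eval_pol1 (X : Fin M → ℝ) (t : ℝ) (Ψ : MvPolynomial (Option (Fin M)) ℝ) :
    (aeval (pol1 X) Ψ).eval t = eval (pt X t) Ψ := by
  rw [eval_aeval]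
  congr 1
  congr 1
  funext o
  cases o with
  | none => exact Polynomial.eval_X
  | some i => exact Polynomial.eval_C

theorem deriv_pol1 (X : Fin M → ℝ) (Ψ : MvPolynomial (Option (Fin M)) ℝ) :
    Polynomial.derivative (aeval (pol1 X) Ψ) = aeval (pol1 X) (pderiv none Ψ) := by
  rw [deriv_aeval, Fintype.sum_option]
  have h1 : Polynomial.derivative (pol1 X none) = 1 := Polynomial.derivative_X
  have h2 : ∀ i : Fin M, Polynomial.derivative (pol1 X (some i)) = 0 := fun i => Polynomial.derivative_C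
  rw [h1, mul_one]
  simp [h2]

theorem iter_pol1 (X : Fin M → ℝ) (Ψ : MvPolynomial (Option (Fin M)) ℝ) : ∀ j,
    (Polynomial.derivative)^[j] (aeval (pol1 X) Ψ) = aeval (pol1 X) (dn j Ψ)
  | 0 => rfl
  | j + 1 => by rw [Function.iterate_succ', Function.comp_apply, iter_pol1 X Ψ j, deriv_pol1, dn_succ]

/-- the Taylor coefficients are the derivatives in the extra variable -/
theorem taylor_pol1 (X : Fin M → ℝ) (t : ℝ) (Ψ : MvPolynomial (Option (Fin M)) ℝ) (j : ℕ) :
    eval (pt X t) (dn j Ψ) = (Nat.factorial j : ℝ) * (Polynomial.taylor t (aeval (pol1 X) Ψ)).coeff j := by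
  rw [← eval_pol1, ← iter_pol1, Polynomial.taylor_coeff, ← Polynomial.factorial_smul_hasseDeriv, LinearMap.smul_apply,
    Polynomial.eval_smul, nsmul_eq_mul]

/-- gradient of the substitution -/
theorem grad_bind (p : Fin M → MvPolynomial (Fin M) ℝ) (g : MvPolynomial (Fin M) ℝ)
    (Ψ : MvPolynomial (Option (Fin M)) ℝ) (q v : Fin M → ℝ) :
    ∑ a, v a * eval q (pderiv a (bind₁ (ug p g) Ψ)) =
      eval q (bind₁ (ug p g) (pderiv none Ψ)) * (∑ a, v a * eval q (pderiv a g)) +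
        ∑ i, eval q (bind₁ (ug p g) (pderiv (some i) Ψ)) * (∑ a, v a * eval q (pderiv a (p i))) := by
  have h1 : ∀ a, v a * eval q (pderiv a (bind₁ (ug p g) Ψ)) =
      eval q (bind₁ (ug p g) (pderiv none Ψ)) * (v a * eval q (pderiv a g)) +
        ∑ i, eval q (bind₁ (ug p g) (pderiv (some i) Ψ)) * (v a * eval q (pderiv a (p i))) := by
    intro a
    rw [pderiv_bindg, Fintype.sum_option, map_add, map_mul, map_sum, mul_add, Finset.mul_sum]
    congr 1
    · have : ug p g none = g := rfl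
      rw [this]; ring
    · refine Finset.sum_congr rfl fun i _ => ?_
      have : ug p g (some i) = p i := rfl
      rw [this, map_mul]; ring
  rw [Finset.sum_congr rfl fun a _ => h1 a, Finset.sum_add_distrib, ← Finset.mul_sum]
  congr 1
  rw [Finset.sum_comm]
  exact Finset.sum_congr rfl fun i _ => by rw [← Finset.mul_sum]

theorem eval_bind (p : Fin M → MvPolynomial (Fin M) ℝ) (g : MvPolynomial (Fin M) ℝ)
    (Ψ : MvPolynomial (Option (Fin M)) ℝ) (y : Fin M → ℝ) :
    eval y (bind₁ (ug p g) Ψ) = eval (pt (fun i => eval y (p i)) (eval y g)) Ψ := by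
  have h1 : eval y (bind₁ (ug p g) Ψ) = eval (fun o => eval y (ug p g o)) Ψ := by
    have := MvPolynomial.eval₂Hom_bind₁ (RingHom.id ℝ) y (ug p g) Ψ
    exact this
  rw [h1]
  congr 1
  congr 1
  funext o
  cases o with
  | none => rfl
  | some i => rfl

/-! ### the relation -/

/-- the relation as a polynomial in `X` and `t` -/
def rel {N : ℕ} (φ : Fin (N + 1) → MvPolynomial (Fin M) ℝ) : MvPolynomial (Option (Fin M)) ℝ :=
  ∑ k, rename some (φ k) * X none ^ (k : ℕ)

theorem rel_bind {N : ℕ} (φ : Fin (N + 1) → MvPolynomial (Fin M) ℝ) (p : Fin M → MvPolynomial (Fin M) ℝ)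
    (g : MvPolynomial (Fin M) ℝ) : bind₁ (ug p g) (rel φ) = ∑ k, bind₁ p (φ k) * g ^ (k : ℕ) := by
  unfold rel
  rw [map_sum]
  refine Finset.sum_congr rfl fun k _ => ?_
  rw [map_mul, map_pow, bind₁_X_right, bind₁_rename]
  rfl

theorem rel_pol1 {N : ℕ} (φ : Fin (N + 1) → MvPolynomial (Fin M) ℝ) (X : Fin M → ℝ) :
    aeval (pol1 X) (rel φ) = ∑ k, Polynomial.C (eval X (φ k)) * Polynomial.X ^ (k : ℕ) := by
  unfold rel
  rw [map_sum]
  refine Finset.sum_congr rfl fun k _ => ?_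
  rw [map_mul, map_pow, aeval_X, aeval_rename]
  congr 1
  have h1 : (pol1 X ∘ some) = fun i => Polynomial.C (X i) := rfl
  rw [h1]
  induction φ k using MvPolynomial.induction_on with
  | C c => rw [aeval_C, eval_C]; rfl
  | add p q hp hq => rw [map_add, hp, hq, map_add, map_add]
  | mul_X p n hp => rw [map_mul, hp, aeval_X, map_mul, eval_X, map_mul]

theorem rel_coeff {N : ℕ} (φ : Fin (N + 1) → MvPolynomial (Fin M) ℝ) (X : Fin M → ℝ) (k : Fin (N + 1)) :
    (aeval (pol1 X) (rel φ)).coeff (k : ℕ) = eval X (φ k) := by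
  classical
  rw [rel_pol1, Polynomial.finsetSum_coeff, Finset.sum_eq_single k]
  · rw [Polynomial.coeff_C_mul_X_pow, if_pos rfl]
  · intro b _ hb
    rw [Polynomial.coeff_C_mul_X_pow, if_neg fun h => hb (Fin.ext h.symm)]
  · intro h; exact absurd (Finset.mem_univ _) h

theorem rel_natDegree {N : ℕ} (φ : Fin (N + 1) → MvPolynomial (Fin M) ℝ) (X : Fin M → ℝ) :
    (aeval (pol1 X) (rel φ)).natDegree ≤ N := by
  rw [rel_pol1]
  refine Polynomial.natDegree_sum_le_of_forall_le _ _ fun k _ => ?_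
  exact (Polynomial.natDegree_C_mul_X_pow_le _ _).trans (Nat.lt_succ_iff.mp k.2)

theorem nrm_rename {σ τ : Type*} {f : σ → τ} (hf : Function.Injective f) (P : MvPolynomial σ ℝ) :
    nrm (rename f P) = nrm P := by
  classical
  unfold nrm
  rw [support_rename_of_injective hf, Finset.sum_image fun a _ b _ h => Finsupp.mapDomain_injective hf h]
  exact Finset.sum_congr rfl fun a _ => by rw [coeff_rename_mapDomain f hf]

theorem rel_nrm {N : ℕ} {φ : Fin (N + 1) → MvPolynomial (Fin M) ℝ} (h : ∀ k, nrm (φ k) ≤ 1) :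
    nrm (rel φ) ≤ N + 1 := by
  unfold rel
  refine (nrm_sum_le _ _).trans ?_
  calc ∑ k : Fin (N + 1), nrm (rename some (φ k) * (X none : MvPolynomial (Option (Fin M)) ℝ) ^ (k : ℕ))
      ≤ ∑ _k : Fin (N + 1), (1 : ℝ) := Finset.sum_le_sum fun k _ => by
        refine (nrm_mul_le _ _).trans ?_
        have h1 : nrm (rename (some : Fin M → Option (Fin M)) (φ k)) ≤ 1 :=
          (nrm_rename (Option.some_injective _) _).le.trans (h k)
        have h2 : nrm ((X none : MvPolynomial (Option (Fin M)) ℝ) ^ (k : ℕ)) ≤ 1 := by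
          refine (nrm_pow_le _ _).trans ?_
          rw [nrm_X, one_pow]
        exact mul_le_one₀ h1 (nrm_nonneg _) h2
    _ = N + 1 := by
        rw [Finset.sum_const, Finset.card_univ, Fintype.card_fin, nsmul_eq_mul, mul_one]
        push_cast
        ring

theorem rel_deg {N L : ℕ} {φ : Fin (N + 1) → MvPolynomial (Fin M) ℝ} (h : ∀ k, (φ k).totalDegree ≤ L) :
    (rel φ).totalDegree ≤ L + N := by
  unfold rel
  refine (totalDegree_finsetSum _ _).trans (Finset.sup_le fun k _ => ?_)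
  refine (totalDegree_mul _ _).trans (add_le_add ((totalDegree_rename_le _ _).trans (h k)) ?_)
  refine (totalDegree_pow _ _).trans ?_
  rw [totalDegree_X, mul_one]
  exact Nat.lt_succ_iff.mp k.2

/-- the first jump -/
theorem jump (w θ : ℕ → ℝ) (h0 : w 0 < θ 0) {J : ℕ} (hJ : θ J ≤ w J) :
    ∃ j, j < J ∧ w j < θ j ∧ θ (j + 1) ≤ w (j + 1) := by
  classical
  have hex : ∃ i, θ i ≤ w i := ⟨J, hJ⟩
  let i := Nat.find hex
  have h1 : θ i ≤ w i := Nat.find_spec hex
  have hi : i ≠ 0 := by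
    intro h
    rw [h] at h1
    linarith
  obtain ⟨j, hj⟩ := Nat.exists_eq_succ_of_ne_zero hi
  have h2 : j < i := by omega
  have h3 := Nat.find_min hex h2
  have h4 : i ≤ J := Nat.find_min' hex hJ
  refine ⟨j, by omega, not_le.mp h3, ?_⟩
  have h5 : i = j + 1 := hj
  rw [← h5]
  exact h1

/-- the cube -/
def Cub (q : Fin M → ℝ) (r : ℝ) (y : Fin M → ℝ) : Prop := ∀ i, |y i - q i| ≤ r

theorem Cub.seg {q y : Fin M → ℝ} {r : ℝ} (h : Cub q r y) {s : ℝ} (h0 : 0 ≤ s) (h1 : s ≤ 1) :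
    Cub q r (fun i => q i + s * (y i - q i)) := by
  intro i
  rw [add_sub_cancel_left, abs_mul, abs_of_nonneg h0]
  exact (mul_le_of_le_one_left (abs_nonneg _) h1).trans (h i)

/-- intermediate values on a segment -/
theorem seg_ivt (g : MvPolynomial (Fin M) ℝ) (q y : Fin M → ℝ) {s : ℝ} (h0 : 0 ≤ s) (h1 : s ≤ 1) :
    ∃ s', 0 ≤ s' ∧ s' ≤ 1 ∧ eval (fun i => q i + s' * (y i - q i)) g = eval q g + s * (eval y g - eval q g) := by
  let f : ℝ → ℝ := fun s => eval (fun i => q i + s * (y i - q i)) g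
  have hf : Continuous f := by
    have h2 : Continuous fun x : Fin M → ℝ => eval x g := MvPolynomial.continuous_eval g
    exact h2.comp (continuous_pi fun i => by fun_prop)
  have f0 : f 0 = eval q g := by
    show eval (fun i => q i + 0 * (y i - q i)) g = _
    congr 2; funext i; ring
  have f1 : f 1 = eval y g := by
    show eval (fun i => q i + 1 * (y i - q i)) g = _
    congr 2; funext i; ring
  have hmem : eval q g + s * (eval y g - eval q g) ∈ Set.uIcc (f 0) (f 1) := by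
    rw [f0, f1, Set.mem_uIcc]
    rcases le_total (eval q g) (eval y g) with h | h
    · left
      constructor
      · nlinarith [mul_nonneg h0 (sub_nonneg.mpr h)]
      · nlinarith [mul_le_of_le_one_left (sub_nonneg.mpr h) h1]
    · right
      constructor
      · nlinarith [mul_le_of_le_one_left (sub_nonneg.mpr h) h1]
      · nlinarith [mul_nonneg h0 (sub_nonneg.mpr h)]
  obtain ⟨s', hs', he⟩ := intermediate_value_uIcc (hf.continuousOn (s := Set.uIcc 0 1)) hmem
  rw [Set.uIcc_of_le zero_le_one] at hs'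
  exact ⟨s', hs'.1, hs'.2, he⟩

/-- values at nearby points -/
theorem pt_sub {Ψ : MvPolynomial (Option (Fin M)) ℝ} {L : ℕ} (hL : Ψ.totalDegree ≤ L) {X X' : Fin M → ℝ} {t t' K ρ : ℝ}
    (hK : 1 ≤ K) (hρ : 0 ≤ ρ) (hX : ∀ i, |X i| ≤ K) (hX' : ∀ i, |X' i| ≤ K) (ht : |t| ≤ K) (ht' : |t'| ≤ K)
    (h1 : ∀ i, |X i - X' i| ≤ ρ) (h2 : |t - t'| ≤ ρ) :
    |eval (pt X t) Ψ - eval (pt X' t') Ψ| ≤ nrm Ψ * (L * K ^ L * ρ) := by
  refine eval_sub_le hK hρ hL (fun o _ => ?_) (fun o _ => ?_) fun o _ => ?_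
  · cases o with
    | none => exact ht
    | some i => exact hX i
  · cases o with
    | none => exact ht'
    | some i => exact hX' i
  · cases o with
    | none => exact h2
    | some i => exact h1 i

theorem pt_le {Ψ : MvPolynomial (Option (Fin M)) ℝ} {L : ℕ} (hL : Ψ.totalDegree ≤ L) {X : Fin M → ℝ} {t K : ℝ}
    (hK : 1 ≤ K) (hX : ∀ i, |X i| ≤ K) (ht : |t| ≤ K) : |eval (pt X t) Ψ| ≤ nrm Ψ * K ^ L := by
  refine eval_le_nrm hK hL fun o _ => ?_
  cases o with
  | none => exact ht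
  | some i => exact hX i

/-- THE RELATION AT A POINT -/
theorem rel_pt {N L : ℕ} : ∃ C : ℝ, 1 ≤ C ∧ ∀ {φ : Fin (N + 1) → MvPolynomial (Fin M) ℝ} (p : Fin M → MvPolynomial (Fin M) ℝ)
    (g : MvPolynomial (Fin M) ℝ), (∀ k, (φ k).totalDegree ≤ L) → (∀ k, nrm (φ k) ≤ 1) → bind₁ (ug p g) (rel φ) = 0 →
    ∀ (k₀ : Fin (N + 1)) (q : Fin M → ℝ) (r K δ A : ℝ), 0 ≤ r → 1 ≤ K → 0 ≤ δ → δ ≤ 1 → 0 < A →
    A ≤ |eval (fun i => eval q (p i)) (φ k₀)| → (∀ i, |eval q (p i)| ≤ K) →
    (∀ y, Cub q r y → (∀ i, |eval y (p i) - eval q (p i)| ≤ δ) ∧ |eval y g| ≤ K) →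
    (∀ y, Cub q r y → ∃ j, 1 ≤ j ∧ j ≤ N ∧ |eval y g - eval q g| ^ j * A ≤ C * K ^ (L + N + N) * δ) ∧
    (∀ θ : ℕ → ℝ, 0 < θ 0 → (∀ j, j ≤ N → θ j * (C * K ^ (L + N + N)) ≤ A) → ∃ j, j < N ∧
      |eval q (bind₁ (ug p g) (dn j (rel φ)))| < θ j ∧ ∀ v : Fin M → ℝ,
        θ (j + 1) * |∑ a, v a * eval q (pderiv a g)| ≤
          |∑ a, v a * eval q (pderiv a (bind₁ (ug p g) (dn j (rel φ))))| +
            C * K ^ (L + N + N) * ∑ i, |∑ a, v a * eval q (pderiv a (p i))|) ∧
    (∀ ρ, 0 ≤ ρ → (∀ y, Cub q r y → |eval y g - eval q g| ≤ ρ) → ∀ j, j ≤ N → ∀ y, Cub q r y →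
      |eval y (bind₁ (ug p g) (dn j (rel φ)))| ≤
        |eval q (bind₁ (ug p g) (dn j (rel φ)))| + C * K ^ (L + N + N) * (δ + ρ)) := by
  obtain ⟨C1, hC1, hsm⟩ := taylor_small N
  let Lt : ℕ := L + N
  -- constants
  let c0 : ℝ := (N + 1) * (2 ^ N)
  let c1 : ℝ := ((Lt : ℝ) + 1) ^ (N + 1) * (N + 1)
  have hLt : (1 : ℝ) ≤ (Lt : ℝ) + 1 := by
    have : (0 : ℝ) ≤ Lt := Nat.cast_nonneg _
    linarith
  have hc1 : 1 ≤ c1 := by
    have h1 : (1 : ℝ) ≤ ((Lt : ℝ) + 1) ^ (N + 1) := one_le_pow₀ hLt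
    have h2 : (1 : ℝ) ≤ (N : ℝ) + 1 := by
      have : (0 : ℝ) ≤ N := Nat.cast_nonneg _
      linarith
    calc (1 : ℝ) = 1 * 1 := (one_mul 1).symm
      _ ≤ c1 := mul_le_mul h1 h2 zero_le_one (by positivity)
  have hc0 : 1 ≤ c0 := by
    have h2 : (1 : ℝ) ≤ (N : ℝ) + 1 := by
      have : (0 : ℝ) ≤ N := Nat.cast_nonneg _
      linarith
    have h3 : (1 : ℝ) ≤ 2 ^ N := one_le_pow₀ (by norm_num)
    calc (1 : ℝ) = 1 * 1 := (one_mul 1).symm
      _ ≤ c0 := mul_le_mul h2 h3 zero_le_one (by positivity)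
  let C : ℝ := 4 * c0 * C1 * c1 * ((Lt : ℝ) + 1) * 2 ^ Lt
  have h2L : (1 : ℝ) ≤ 2 ^ Lt := one_le_pow₀ (by norm_num)
  have hnn : 0 ≤ c0 * C1 * c1 := by positivity
  refine ⟨C, ?_, fun {φ} p g hφd hφn hrel k₀ q r K δ A hr hK hδ hδ1 hA hAk hpq hcub => ?_⟩
  · have e1 : (1 : ℝ) ≤ c0 * C1 := by nlinarith
    have e2 : (1 : ℝ) ≤ c0 * C1 * c1 := by nlinarith
    have e3 : (1 : ℝ) ≤ c0 * C1 * c1 * ((Lt : ℝ) + 1) := by nlinarith
    have e4 : (1 : ℝ) ≤ c0 * C1 * c1 * ((Lt : ℝ) + 1) * 2 ^ Lt := by nlinarith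
    have e5 : C = 4 * (c0 * C1 * c1 * ((Lt : ℝ) + 1) * 2 ^ Lt) := by
      show 4 * c0 * C1 * c1 * ((Lt : ℝ) + 1) * 2 ^ Lt = _
      ring
    rw [e5]; linarith
  -- the data
  have hK0 : 0 < K := by linarith
  set X : Fin M → ℝ := fun i => eval q (p i) with hX
  set t : ℝ := eval q g with ht
  set P : Polynomial ℝ := aeval (pol1 X) (rel φ) with hP
  have hPn : P.natDegree ≤ N := rel_natDegree φ X
  have hself : Cub q r q := fun i => by rw [sub_self, abs_zero]; exact hr
  have htK : |t| ≤ K := (hcub q hself).2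
  have hdeg : (rel φ).totalDegree ≤ Lt := rel_deg hφd
  have hnr : nrm (rel φ) ≤ N + 1 := rel_nrm hφn
  have hdnr : ∀ j, j ≤ N + 1 → nrm (dn j (rel φ)) ≤ c1 := by
    intro j hj
    refine (dn_nrm hdeg j).trans ?_
    refine mul_le_mul ?_ hnr (nrm_nonneg _) (by positivity)
    calc (Lt : ℝ) ^ j ≤ ((Lt : ℝ) + 1) ^ j := pow_le_pow_left₀ (Nat.cast_nonneg _) (by linarith) j
      _ ≤ ((Lt : ℝ) + 1) ^ (N + 1) := pow_le_pow_right₀ hLt hj
  have h2K : (1 : ℝ) ≤ 2 * K := by linarith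
  have hKp : ∀ m : ℕ, (1 : ℝ) ≤ K ^ m := fun m => one_le_pow₀ hK
  -- points in the cube
  have hpy : ∀ y, Cub q r y → ∀ i, |eval y (p i)| ≤ 2 * K := by
    intro y hy i
    have h1 := (hcub y hy).1 i
    have h2 := hpq i
    have h3 : |eval y (p i)| ≤ |eval y (p i) - eval q (p i)| + |eval q (p i)| := by
      have := abs_add_le (eval y (p i) - eval q (p i)) (eval q (p i))
      rwa [sub_add_cancel] at this
    linarith
  have hval0 : ∀ y, eval (pt (fun i => eval y (p i)) (eval y g)) (rel φ) = 0 := by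
    intro y
    rw [← eval_bind, hrel, map_zero]
  have hPt : P.eval t = 0 := by rw [hP, eval_pol1]; exact hval0 q
  -- Lipschitz constant
  have hlip : ∀ j, j ≤ N + 1 → ∀ (X' X'' : Fin M → ℝ) (t' t'' ρ : ℝ), 0 ≤ ρ → (∀ i, |X' i| ≤ 2 * K) → (∀ i, |X'' i| ≤ 2 * K) →
      |t'| ≤ K → |t''| ≤ K → (∀ i, |X' i - X'' i| ≤ ρ) → |t' - t''| ≤ ρ →
      |eval (pt X' t') (dn j (rel φ)) - eval (pt X'' t'') (dn j (rel φ))| ≤ c1 * (Lt * (2 * K) ^ Lt) * ρ := by
    intro j hj X' X'' t' t'' ρ hρ a1 a2 a3 a4 a5 a6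
    refine (pt_sub (dn_deg hdeg j) h2K hρ a1 a2 (a3.trans (by linarith)) (a4.trans (by linarith)) a5 a6).trans ?_
    have := mul_le_mul_of_nonneg_right (hdnr j hj) (show 0 ≤ (Lt : ℝ) * (2 * K) ^ Lt * ρ by positivity)
    refine this.trans (le_of_eq (by ring))
  -- a large Taylor coefficient
  have hlarge : ∃ j, 1 ≤ j ∧ j ≤ N ∧ A ≤ 2 * (c0 * K ^ N) * |(Polynomial.taylor t P).coeff j| := by
    by_contra hn
    push Not at hn
    have h0 : 0 < c0 * K ^ N := by positivity
    have h1 : ∀ j, j ≤ N → |(Polynomial.taylor t P).coeff j| ≤ A / (2 * (c0 * K ^ N)) := by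
      intro j hj
      rcases Nat.eq_zero_or_pos j with h | h
      · rw [h, Polynomial.taylor_coeff_zero, hPt, abs_zero]
        positivity
      · have := hn j h hj
        rw [le_div_iff₀ (by positivity)]
        linarith
    have h2 := taylor_large N hPn hK htK (by positivity) (k := (k₀ : ℕ)) (A := A) (by
      rw [hP, rel_coeff]; exact hAk) h1
    have h3 : ((N : ℝ) + 1) * (2 ^ N * K ^ N) * (A / (2 * (c0 * K ^ N))) = A / 2 := by
      have e : ((N : ℝ) + 1) * (2 ^ N * K ^ N) = c0 * K ^ N := by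
        show _ = (N + 1) * (2 ^ N) * K ^ N
        ring
      rw [e]
      field_simp
    rw [h3] at h2
    linarith
  have hKL : K ^ (L + N + N) = K ^ Lt * K ^ N := pow_add K (L + N) N
  refine ⟨fun y hy => ?_, fun θ hθ0 hθ => ?_, fun ρ hρ hosc j hj y hy => ?_⟩
  · -- oscillation
    obtain ⟨j, hj1, hjN, hj⟩ := hlarge
    refine ⟨j, hj1, hjN, ?_⟩
    have h1 := hsm P t (eval y g - t) (c1 * (Lt * (2 * K) ^ Lt) * δ) hPn (by positivity) (fun s hs0 hs1 => ?_) j hjN
    · have h2 : |eval y g - t| ^ j * A ≤ 2 * (c0 * K ^ N) * (C1 * (c1 * (Lt * (2 * K) ^ Lt) * δ)) := by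
        calc |eval y g - t| ^ j * A ≤ |eval y g - t| ^ j * (2 * (c0 * K ^ N) * |(Polynomial.taylor t P).coeff j|) :=
              mul_le_mul_of_nonneg_left hj (by positivity)
          _ = 2 * (c0 * K ^ N) * (|(Polynomial.taylor t P).coeff j| * |eval y g - t| ^ j) := by ring
          _ ≤ _ := mul_le_mul_of_nonneg_left h1 (by positivity)
      refine h2.trans ?_
      rw [hKL]
      have h3 : 2 * (c0 * K ^ N) * (C1 * (c1 * (Lt * (2 * K) ^ Lt) * δ)) =
          (2 * (c0 * C1 * c1) * Lt * 2 ^ Lt) * (K ^ Lt * K ^ N * δ) := by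
        rw [mul_pow]; ring
      rw [h3]
      have h4 : C * (K ^ Lt * K ^ N) * δ = C * (K ^ Lt * K ^ N * δ) := by ring
      rw [h4]
      apply mul_le_mul_of_nonneg_right _ (by positivity)
      show 2 * (c0 * C1 * c1) * Lt * 2 ^ Lt ≤ 4 * c0 * C1 * c1 * ((Lt : ℝ) + 1) * 2 ^ Lt
      apply mul_le_mul_of_nonneg_right _ (by positivity)
      nlinarith [Nat.cast_nonneg (α := ℝ) Lt]
    · obtain ⟨s', hs'0, hs'1, he⟩ := seg_ivt g q y hs0 hs1
      set y' : Fin M → ℝ := fun i => q i + s' * (y i - q i) with hy'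
      have hcy : Cub q r y' := hy.seg hs'0 hs'1
      have h2 : t + s * (eval y g - t) = eval y' g := he.symm
      rw [h2, hP, eval_pol1]
      have h3 := hlip 0 (Nat.zero_le _) X (fun i => eval y' (p i)) (eval y' g) (eval y' g) δ hδ
        (fun i => (hpq i).trans (by linarith)) (hpy y' hcy) (hcub y' hcy).2 (hcub y' hcy).2
        (fun i => by rw [abs_sub_comm]; exact (hcub y' hcy).1 i) (by rw [sub_self, abs_zero]; exact hδ)
      rw [dn_zero, hval0 y', sub_zero] at h3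
      exact h3
  · -- the jump
    obtain ⟨J, hJ1, hJN, hJ⟩ := hlarge
    have hw0 : |eval q (bind₁ (ug p g) (dn 0 (rel φ)))| < θ 0 := by
      rw [dn_zero, hrel, map_zero, abs_zero]
      exact hθ0
    have hwJ : θ J ≤ |eval q (bind₁ (ug p g) (dn J (rel φ)))| := by
      rw [eval_bind, taylor_pol1, abs_mul, Nat.abs_cast]
      have h1 := hθ J hJN
      have hfac : (1 : ℝ) ≤ (Nat.factorial J : ℝ) := by exact_mod_cast Nat.one_le_iff_ne_zero.mpr (Nat.factorial_ne_zero J)
      have h2 : |(Polynomial.taylor t P).coeff J| ≤ (Nat.factorial J : ℝ) * |(Polynomial.taylor t P).coeff J| :=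
        le_mul_of_one_le_left (abs_nonneg _) hfac
      refine le_trans ?_ h2
      have h3 : 0 < 2 * (c0 * K ^ N) := by positivity
      by_contra hn
      rw [not_le] at hn
      have h4 : 2 * (c0 * K ^ N) * |(Polynomial.taylor t P).coeff J| < 2 * (c0 * K ^ N) * θ J :=
        mul_lt_mul_of_pos_left hn h3
      have hθJ : 0 < θ J := lt_of_le_of_lt (abs_nonneg _) hn
      have h5 : 2 * (c0 * K ^ N) * θ J ≤ θ J * (C * K ^ (L + N + N)) := by
        rw [mul_comm (2 * (c0 * K ^ N)) (θ J)]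
        apply mul_le_mul_of_nonneg_left _ hθJ.le
        rw [hKL]
        have e1 : (1 : ℝ) ≤ C1 * c1 * ((Lt : ℝ) + 1) * 2 ^ Lt * K ^ Lt := by
          have a1 : (1 : ℝ) ≤ C1 * c1 := by nlinarith
          have a2 : (1 : ℝ) ≤ C1 * c1 * ((Lt : ℝ) + 1) := by nlinarith
          have a3 : (1 : ℝ) ≤ C1 * c1 * ((Lt : ℝ) + 1) * 2 ^ Lt := by nlinarith
          nlinarith [hKp Lt]
        have e2 : C * (K ^ Lt * K ^ N) = 4 * (c0 * K ^ N) * (C1 * c1 * ((Lt : ℝ) + 1) * 2 ^ Lt * K ^ Lt) := by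
          show 4 * c0 * C1 * c1 * ((Lt : ℝ) + 1) * 2 ^ Lt * (K ^ Lt * K ^ N) = _
          ring
        rw [e2]
        have e3 : 0 ≤ 4 * (c0 * K ^ N) := by positivity
        nlinarith
      linarith
    obtain ⟨j, hj, hj1, hj2⟩ := jump (fun j => |eval q (bind₁ (ug p g) (dn j (rel φ)))|) θ hw0 hwJ
    refine ⟨j, by omega, hj1, fun v => ?_⟩
    have hg := grad_bind p g (dn j (rel φ)) q v
    rw [← dn_succ] at hg
    have h1 : |eval q (bind₁ (ug p g) (dn (j + 1) (rel φ)))| * |∑ a, v a * eval q (pderiv a g)| ≤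
        |∑ a, v a * eval q (pderiv a (bind₁ (ug p g) (dn j (rel φ))))| +
          ∑ i, |eval q (bind₁ (ug p g) (pderiv (some i) (dn j (rel φ))))| * |∑ a, v a * eval q (pderiv a (p i))| := by
      have e1 : eval q (bind₁ (ug p g) (dn (j + 1) (rel φ))) * ∑ a, v a * eval q (pderiv a g) =
          (∑ a, v a * eval q (pderiv a (bind₁ (ug p g) (dn j (rel φ))))) -
            ∑ i, eval q (bind₁ (ug p g) (pderiv (some i) (dn j (rel φ)))) * ∑ a, v a * eval q (pderiv a (p i)) := by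
        rw [hg]; ring
      rw [← abs_mul, e1]
      refine (abs_sub _ _).trans ?_
      gcongr
      refine (Finset.abs_sum_le_sum_abs _ _).trans (Finset.sum_le_sum fun i _ => ?_)
      rw [abs_mul]
    refine (mul_le_mul_of_nonneg_right hj2 (abs_nonneg _)).trans (h1.trans ?_)
    gcongr
    rw [Finset.mul_sum]
    refine Finset.sum_le_sum fun i _ => ?_
    apply mul_le_mul_of_nonneg_right _ (abs_nonneg _)
    rw [eval_bind]
    refine (pt_le ((deg_pderiv _ _).trans (dn_deg hdeg j)) hK hpq htK).trans ?_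
    have h2 : nrm (pderiv (some i) (dn j (rel φ))) ≤ Lt * c1 :=
      (nrm_pderiv _ _ (dn_deg hdeg j)).trans (mul_le_mul_of_nonneg_left (hdnr j (by omega)) (Nat.cast_nonneg _))
    refine (mul_le_mul_of_nonneg_right h2 (by positivity)).trans ?_
    rw [hKL]
    have e1 : (1 : ℝ) ≤ c0 * C1 := by nlinarith
    have e2 : (Lt : ℝ) * c1 ≤ C := by
      have e3 : (Lt : ℝ) * c1 ≤ c1 * ((Lt : ℝ) + 1) := by nlinarith
      have e4 : c1 * ((Lt : ℝ) + 1) ≤ (c1 * ((Lt : ℝ) + 1)) * (4 * (c0 * C1) * 2 ^ Lt) := by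
        apply le_mul_of_one_le_right (by positivity)
        nlinarith
      refine (e3.trans e4).trans (le_of_eq ?_)
      show _ = 4 * c0 * C1 * c1 * ((Lt : ℝ) + 1) * 2 ^ Lt
      ring
    calc (Lt : ℝ) * c1 * K ^ Lt ≤ C * K ^ Lt := mul_le_mul_of_nonneg_right e2 (by positivity)
      _ ≤ C * (K ^ Lt * K ^ N) := by
          apply mul_le_mul_of_nonneg_left _ (by positivity)
          exact le_mul_of_one_le_right (by positivity) (hKp N)
  · -- values in the cube
    have h1 := hlip j (by omega) (fun i => eval y (p i)) X (eval y g) t (δ + ρ) (by linarith) (hpy y hy)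
      (fun i => (hpq i).trans (by linarith)) (hcub y hy).2 htK (fun i => ((hcub y hy).1 i).trans (by linarith))
      ((hosc y hy).trans (by linarith))
    rw [eval_bind, eval_bind]
    have h2 : |eval (pt (fun i => eval y (p i)) (eval y g)) (dn j (rel φ))| ≤
        |eval (pt (fun i => eval q (p i)) (eval q g)) (dn j (rel φ))| +
          |eval (pt (fun i => eval y (p i)) (eval y g)) (dn j (rel φ)) -
            eval (pt (fun i => eval q (p i)) (eval q g)) (dn j (rel φ))| := by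
      have := abs_add_le (eval (pt (fun i => eval q (p i)) (eval q g)) (dn j (rel φ)))
        (eval (pt (fun i => eval y (p i)) (eval y g)) (dn j (rel φ)) -
            eval (pt (fun i => eval q (p i)) (eval q g)) (dn j (rel φ)))
      rwa [add_sub_cancel] at this
    refine h2.trans ?_
    gcongr
    refine h1.trans ?_
    apply mul_le_mul_of_nonneg_right _ (by linarith)
    rw [hKL]
    have e1 : (1 : ℝ) ≤ c0 * C1 := by nlinarith
    have e2 : c1 * (Lt * (2 * K) ^ Lt) = (c1 * Lt * 2 ^ Lt) * K ^ Lt := by rw [mul_pow]; ring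
    rw [e2]
    have e3 : c1 * Lt * 2 ^ Lt ≤ C := by
      have e4 : c1 * Lt * 2 ^ Lt ≤ c1 * ((Lt : ℝ) + 1) * 2 ^ Lt := by
        apply mul_le_mul_of_nonneg_right _ (by positivity)
        nlinarith
      have e5 : c1 * ((Lt : ℝ) + 1) * 2 ^ Lt ≤ (c1 * ((Lt : ℝ) + 1) * 2 ^ Lt) * (4 * (c0 * C1)) := by
        apply le_mul_of_one_le_right (by positivity)
        nlinarith
      refine (e4.trans e5).trans (le_of_eq ?_)
      show _ = 4 * c0 * C1 * c1 * ((Lt : ℝ) + 1) * 2 ^ Lt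
      ring
    calc c1 * Lt * 2 ^ Lt * K ^ Lt ≤ C * K ^ Lt := mul_le_mul_of_nonneg_right e3 (by positivity)
      _ ≤ C * (K ^ Lt * K ^ N) := by
          apply mul_le_mul_of_nonneg_left _ (by positivity)
          exact le_mul_of_one_le_right (by positivity) (hKp N)

end

end Pool.Agent.Helper49.KL
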